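import Mathlib

/-!
# MP_7dc84e_lc : the chain condition for partial functions with supports of size `≤ lam`
-/

set_option autoImplicit false
set_option linter.unusedSectionVars false

universe u

open Cardinal Set

namespace CG

/-- the node type of the tree type used below: a subset of the index type, a function on it, and an
index -/
abbrev CCnode (I V : Type u) : Type u := Σ T : Set I, (T → V) × I

/-- the arity of a node -/
abbrev CCar (I V : Type u) (x : CCnode I V) : Type u := x.1

/-- `2 ^ lam` is closed under exponentiation by cardinals `≤ lam` -/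
theorem cc_pow_le {lam c : Cardinal.{u}} (hl : ℵ₀ ≤ lam) (hc : c ≤ lam) :
    (2 ^ lam) ^ c ≤ (2 : Cardinal.{u}) ^ lam := by
  rw [← Cardinal.power_mul]
  refine Cardinal.power_le_power_left two_ne_zero ?_
  calc lam * c ≤ lam * lam := mul_le_mul_right hc lam
    _ = lam := Cardinal.mul_eq_self hl

theorem cc_card_node {I V : Type u} {lam : Cardinal.{u}} (hl : ℵ₀ ≤ lam) (hV : #V ≤ 2 ^ lam)
    (hI : #I = lam) : #(CCnode I V) ≤ 2 ^ lam := by
  have hl2 : lam ≤ 2 ^ lam := (Cardinal.cantor lam).le
  have h0 : ℵ₀ ≤ (2 : Cardinal.{u}) ^ lam := hl.trans hl2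
  rw [Cardinal.mk_sigma]
  have h1 : ∀ T : Set I, #((T → V) × I) ≤ 2 ^ lam := by
    intro T
    rw [Cardinal.mk_prod, Cardinal.lift_id, Cardinal.lift_id, hI]
    have h2 : #(T → V) ≤ 2 ^ lam := by
      rw [← Cardinal.power_def]
      refine (Cardinal.power_le_power_right hV).trans (cc_pow_le hl ?_)
      rw [← hI]
      exact Cardinal.mk_set_le T
    calc #(T → V) * lam ≤ 2 ^ lam * 2 ^ lam := mul_le_mul' h2 hl2
      _ = 2 ^ lam := Cardinal.mul_eq_self h0
  calc Cardinal.sum (fun T : Set I => #((T → V) × I))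
      ≤ Cardinal.sum (fun _ : Set I => (2 : Cardinal.{u}) ^ lam) := Cardinal.sum_le_sum _ _ h1
    _ = #(Set I) * 2 ^ lam := by rw [Cardinal.sum_const']
    _ = 2 ^ lam := by rw [Cardinal.mk_set, hI, Cardinal.mul_eq_self h0]

theorem cc_card_tree {I V : Type u} {lam : Cardinal.{u}} (hl : ℵ₀ ≤ lam) (hV : #V ≤ 2 ^ lam)
    (hI : #I = lam) : #(WType (CCar I V)) ≤ 2 ^ lam := by
  have hl2 : lam ≤ 2 ^ lam := (Cardinal.cantor lam).le
  have h0 : ℵ₀ ≤ (2 : Cardinal.{u}) ^ lam := hl.trans hl2
  refine WType.cardinalMk_le_of_le ?_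
  calc Cardinal.sum (fun x : CCnode I V => (2 ^ lam) ^ #(CCar I V x))
      ≤ Cardinal.sum (fun _ : CCnode I V => (2 : Cardinal.{u}) ^ lam) := by
        refine Cardinal.sum_le_sum _ _ fun x => cc_pow_le hl ?_
        rw [← hI]
        exact Cardinal.mk_set_le x.1
    _ = #(CCnode I V) * 2 ^ lam := by rw [Cardinal.sum_const']
    _ ≤ 2 ^ lam * 2 ^ lam := mul_le_mul' (cc_card_node hl hV hI) le_rfl
    _ = 2 ^ lam := Cardinal.mul_eq_self h0


/-- `(2 ^ lam)⁺`-chain condition.

PROOF.  Let `I` have size `lam` and let `W a ⊆ range (e a)`, `e a : I → J`.  For `T ⊆ I`, `s : T → J`, `f : T → V` let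
`pick T s f` be an element `a'` with `s t ∈ W a'` and `d a' (s t) = f t` for all `t ∈ T`, if there is one.  Trees whose
nodes are labelled by `(T, f, k)`, `k ∈ I`, with arity `T`, are evaluated in `J` by
`ev ((T, f, k), args) = e (pick T (ev ∘ args) f) k`.  There are at most `2 ^ lam` trees (`WType.cardinalMk_le_of_le`, as
`(2 ^ lam) ^ lam = 2 ^ lam`).  Given `a`, let `T`, `args`, `f` code the trace of `a` on the range of `ev`.  Then
`a' = pick T (ev ∘ args) f` has the same values as `a` on this trace and `W a'` is contained in the range of `ev`, so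
`a' = a` by `hd`.  Hence `A` is the image of the set of trees. -/
theorem cc_abs {A J V : Type u} {lam : Cardinal.{u}} (hl : ℵ₀ ≤ lam) (hV : #V ≤ 2 ^ lam)
    (W : A → Set J) (d : A → J → V) (hW : ∀ a, #(W a) ≤ lam)
    (hd : ∀ a a', a ≠ a' → ∃ j, j ∈ W a ∧ j ∈ W a' ∧ d a j ≠ d a' j) : #A ≤ 2 ^ lam := by
  classical
  rcases isEmpty_or_nonempty A with hA | ⟨⟨a0⟩⟩
  · rw [Cardinal.mk_eq_zero]
    exact zero_le
  rcases isEmpty_or_nonempty J with hJ | ⟨⟨j0⟩⟩
  · have hsub : Subsingleton A := by
      refine ⟨fun a a' => ?_⟩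
      by_contra h
      obtain ⟨j, _⟩ := hd a a' h
      exact hJ.elim j
    refine (Cardinal.le_one_iff_subsingleton.2 hsub).trans ?_
    have h1 : ℵ₀ ≤ (2 : Cardinal.{u}) ^ lam := hl.trans (Cardinal.cantor lam).le
    exact (Cardinal.one_le_aleph0).trans h1
  -- the index type
  obtain ⟨I, hI⟩ : ∃ I : Type u, #I = lam := ⟨lam.out, Cardinal.mk_out lam⟩
  obtain ⟨i0⟩ : Nonempty I := by
    rw [← Cardinal.mk_ne_zero_iff, hI]
    exact (Cardinal.aleph0_pos.trans_le hl).ne'
  -- embeddings of the supports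
  have hemb : ∀ a, Nonempty (W a ↪ I) := by
    intro a
    have h1 : #(W a) ≤ #I := by rw [hI]; exact hW a
    exact h1
  let emb : ∀ a, W a ↪ I := fun a => Classical.choice (hemb a)
  -- enumerations of the supports
  let e : A → I → J := fun a i =>
    if h : ∃ x : W a, emb a x = i then ((Classical.choose h : W a) : J) else j0
  have he : ∀ (a : A) (x : W a), e a (emb a x) = x := by
    intro a x
    have h : ∃ y : W a, emb a y = emb a x := ⟨x, rfl⟩
    have h1 : e a (emb a x) = ((Classical.choose h : W a) : J) := dif_pos h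
    rw [h1, (emb a).injective (Classical.choose_spec h)]
  -- an element with a given trace
  let good : (T : Set I) → (T → J) → (T → V) → A → Prop :=
    fun T s f a => ∀ t, s t ∈ W a ∧ d a (s t) = f t
  let pick : (T : Set I) → (T → J) → (T → V) → A := fun T s f =>
    if h : ∃ a, good T s f a then Classical.choose h else a0
  have hpick : ∀ (T : Set I) (s : T → J) (f : T → V) (a : A), good T s f a →
      good T s f (pick T s f) := by
    intro T s f a ha
    have h : ∃ a, good T s f a := ⟨a, ha⟩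
    have h1 : pick T s f = Classical.choose h := dif_pos h
    rw [h1]
    exact Classical.choose_spec h
  -- evaluation of trees
  let ev : WType (CCar I V) → J :=
    WType.elim J (fun y => e (pick y.1.1 y.2 y.1.2.1) y.1.2.2)
  let F : WType (CCar I V) → A := fun y =>
    match y with
    | ⟨x, args⟩ => pick x.1 (fun t => ev (args t)) x.2.1
  have hev : ∀ (T : Set I) (f : T → V) (k : I) (args : T → WType (CCar I V)),
      ev ⟨⟨T, f, k⟩, args⟩ = e (pick T (fun t => ev (args t)) f) k := fun _ _ _ _ => rfl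
  have hsurj : Function.Surjective F := by
    intro a
    let T : Set I := {i | ∃ x : W a, emb a x = i ∧ ∃ y, ev y = x}
    have hT : ∀ t : T, ∃ (x : W a) (y : WType (CCar I V)), emb a x = t ∧ ev y = x := by
      rintro ⟨t, x, hx, y, hy⟩
      exact ⟨x, y, hx, hy⟩
    choose xs args hxs hargs using hT
    let f : T → V := fun t => d a (xs t)
    refine ⟨⟨⟨T, f, i0⟩, args⟩, ?_⟩
    show pick T (fun t => ev (args t)) f = a
    have hgood : good T (fun t => ev (args t)) f a := by
      intro t
      show ev (args t) ∈ W a ∧ d a (ev (args t)) = d a (xs t)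
      rw [hargs t]
      exact ⟨(xs t).2, rfl⟩
    have hgood' := hpick _ _ _ _ hgood
    by_contra hne
    obtain ⟨j, hj1, hj2, hj3⟩ := hd _ _ hne
    -- `j` is a value of `ev`
    have hy : ev ⟨⟨T, f, emb _ ⟨j, hj1⟩⟩, args⟩ = j := by
      rw [hev, he]
    let t : T := ⟨emb a ⟨j, hj2⟩, ⟨j, hj2⟩, rfl, _, hy⟩
    have ht : xs t = ⟨j, hj2⟩ := (emb a).injective (hxs t)
    have h1 := (hgood' t).2
    have h2 : ev (args t) = j := by rw [hargs t, ht]
    have h3 : f t = d a j := by
      show d a (xs t) = d a j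
      rw [ht]
    rw [h3] at h1
    beta_reduce at h1
    rw [h2] at h1
    exact hj3 h1
  exact (Cardinal.mk_le_of_surjective hsurj).trans (cc_card_tree hl hV hI)

end CG
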