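import Pool.Agent.W_MP_7dc84e_h31.Amal0

/-!
# MP_7dc84e_lc : amalgamation of conditions, enlargement of the height and of the support
-/

set_option autoImplicit false
set_option linter.unusedSectionVars false

universe u

open Cardinal Set

namespace CG

variable {O J Bt Th : Type u} [LinearOrder O] [LinearOrder J] [CompleteBooleanAlgebra Bt]
variable {lam : Cardinal.{u}}

variable [WellFoundedLT J] {c : J → Nm O J Bt}

/-- PROOF.  Use `at_iff`.  Let `b r x C`, `a ≤ b`, `u` be given with `GoodT`, `PF lam c (Iio k) u`, `Ext a u r` and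
`Ext a u ((extR q h).res (Iio k))`.  If `q.h < x`, then `S x = ⊥`.  Otherwise for `y ∈ C`: `y < x ≤ q.h ≤ h`, so
`y ≠ h` and the values `d k y`, `T y` are those of `q`; and `Ext a u (q.res (Iio k))` by `Ext.trans` with the restriction
of `ext_extR`.  Apply `At lam c k q`. -/
theorem at_extR {q : Raw O J Bt} (hq : Basic lam q) {h : O} (hh : q.h ≤ h) {k : J}
    (hk : At lam c k q) : At lam c k (extR q h) := by
  classical
  rw [at_iff] at hk ⊢
  intro b r x C hg a u hab hu hur hue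
  have hue' : Ext a u (q.res (Iio k)) :=
    hue.trans (((ext_extR hq hh).res (Iio k)).mono le_top)
  by_cases hx : x ≤ q.h
  · have h1 := hk b r x C hg a u hab hu hur hue'
    rw [← h1]
    change a ⊓ (q.S x ⊓ ⨅ y : C, (extR q h).d k y.1 ⊓ q.T y.1) = _
    congr 2
    refine iInf_congr fun y => ?_
    have hy : ¬ (k ∈ q.W ∧ y.1 = h) := fun h2 =>
      absurd (h2.2 ▸ hg.cof.1 y.1 y.2 : h < x) (not_lt.2 (hx.trans hh))
    change (q.d k y.1 ⊔ (if k ∈ q.W ∧ y.1 = h then ⊤ else ⊥)) ⊓ q.T y.1 = _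
    rw [if_neg hy, sup_bot_eq]
  · change a ⊓ (q.S x ⊓ _) = ⊥
    rw [hq.S_hi x (not_le.1 hx), bot_inf_eq, inf_bot_eq]

/-- PROOF.  `basic_extR`, `at_extR`. -/
theorem F_extR {q : Raw O J Bt} (hq : F lam c q) {h : O} (hh : q.h ≤ h) : F lam c (extR q h) :=
  ⟨basic_extR hq.1 hh, fun k hk => at_extR hq.1 hh (hq.2 k hk)⟩

/-- PROOF.  `basic_addR`; the requirement at `k`: use `at_iff`, let `b r x C a u` be given as there.  For `k ∈ p.W` all
the values `S x`, `d k y`, `T y` are those of `p` (the set `X` matters only for `j ∉ p.W`), and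
`Ext a u (p.res (Iio k))` holds by `Ext.trans`; apply `hp.2`.  For `k ∈ X`, `k ∉ p.W`: if `p.S x = ⊥` the claim is
trivial, otherwise `x ≤ p.h` and `CofOm x` (`Basic.S_hi`, `Basic.S_cof`), so there is `y' < x` and by `GoodT.cof` some
`y ∈ C`; `y < x ≤ p.h`, so `d k y = p.d k y ⊔ ⊥ = ⊥` (`d_out`) and the infimum is `⊥`. -/
theorem F_addR {p : Raw O J Bt} (hp : F lam c p) (hl : ℵ₀ ≤ lam) {X : Set J} (hX : #X ≤ lam) :
    F lam c (addR X p) := by
  classical
  refine ⟨basic_addR hp.1 hl hX, fun k hk => ?_⟩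
  rw [at_iff]
  intro b r x C hg a u hab hu hur hue
  by_cases hkp : k ∈ p.W
  · have hue' : Ext a u (p.res (Iio k)) := hue.trans ((ext_addR.res (Iio k)).mono le_top)
    have h1 := at_iff.1 (hp.2 k hkp) b r x C hg a u hab hu hur hue'
    rw [← h1]
    change a ⊓ (p.S x ⊓ ⨅ y : C, (addR X p).d k y.1 ⊓ p.T y.1) = _
    congr 2
    refine iInf_congr fun y => ?_
    change (p.d k y.1 ⊔ (if k ∈ X ∧ k ∉ p.W ∧ y.1 = p.h then ⊤ else ⊥)) ⊓ p.T y.1 = _
    rw [if_neg (fun h2 => h2.2.1 hkp), sup_bot_eq]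
  · change a ⊓ (p.S x ⊓ _) = ⊥
    by_cases hS : p.S x = ⊥
    · rw [hS, bot_inf_eq, inf_bot_eq]
    · have hx : x ≤ p.h := by
        by_contra h2
        exact hS (hp.1.S_hi x (not_le.1 h2))
      obtain ⟨f, hf, -⟩ := hp.1.S_cof x hS
      obtain ⟨y, hyC, -⟩ := hg.cof.2 (f 0) (hf 0)
      have hyx : y < x := hg.cof.1 y hyC
      have h3 : (⨅ y : C, (addR X p).d k y.1 ⊓ (addR X p).T y.1) = ⊥ := by
        refine le_bot_iff.1 ((iInf_le _ ⟨y, hyC⟩).trans ?_)
        change (p.d k y ⊔ (if k ∈ X ∧ k ∉ p.W ∧ y = p.h then ⊤ else ⊥)) ⊓ p.T y ≤ ⊥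
        rw [if_neg (fun h2 => absurd h2.2.2 (hyx.trans_le hx).ne), hp.1.d_out k hkp, sup_bot_eq,
          bot_inf_eq]
      rw [h3, inf_bot_eq, inf_bot_eq]

/-- PROOF.  Use `at_iff`.  Let `b r x C`, `a ≤ b`, `v` be given with `GoodT`, `PF lam c (Iio k) v`, `Ext a v r` and
`Ext a v ((amalR I u p).res (Iio k))`.  If `x ≤ p.h`: `(amalR I u p).S x = u.S x = p.S x` (`hext`, `Ext.S_eq`), and for
`y ∈ C`: `y < x ≤ p.h ≤ u.h`, so (as `k ∉ I`) `d k y = p.d k y` and `T y = u.T y = p.T y`; moreover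
`Ext a v (p.res (Iio k))` by `ext_amalR_right`; apply `At lam c k p`.  If `p.h < x`: if `u.h < x` then `S x = ⊥`.
Otherwise `Cof C x` gives `z ∈ C` with `p.h < z < x ≤ u.h`, and `d k z = p.d k z ⊔ ⊥ = ⊥` (`d_hi`), so the infimum is
`⊥`. -/
theorem at_amalR {I : Set J} {u p : Raw O J Bt} (hu : Basic lam u) (hp : Basic lam p)
    (hext : Ext ⊤ u (p.res I)) {k : J} (hkI : k ∉ I) (hk : At lam c k p) :
    At lam c k (amalR I u p) := by
  classical
  have hd : ∀ y, (amalR I u p).d k y = p.d k y ⊔ (if k ∈ p.W ∧ y = u.h then ⊤ else ⊥) := by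
    intro y
    unfold amalR
    simp only [if_neg hkI]
  have hhu : p.h ≤ u.h := hext.h
  rw [at_iff] at hk ⊢
  intro b r x C hg a v hab hv hvr hve
  have hve' : Ext a v (p.res (Iio k)) :=
    hve.trans (((ext_amalR_right hp hext).res (Iio k)).mono le_top)
  change a ⊓ (u.S x ⊓ ⨅ y : C, (amalR I u p).d k y.1 ⊓ u.T y.1) = ⊥
  by_cases hx : x ≤ p.h
  · have h1 := hk b r x C hg a v hab hv hvr hve'
    have hS : u.S x = p.S x := hext.S_eq hx
    rw [← h1, hS]
    congr 2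
    refine iInf_congr fun y => ?_
    have hyx : y.1 < x := hg.cof.1 y.1 y.2
    have hT : u.T y.1 = p.T y.1 := hext.T_eq (hyx.le.trans hx)
    rw [hd, hT, if_neg (fun h2 => absurd h2.2 (hyx.trans_le (hx.trans hhu)).ne), sup_bot_eq]
  · by_cases hxu : u.h < x
    · rw [hu.S_hi x hxu, bot_inf_eq, inf_bot_eq]
    · obtain ⟨z, hzC, hz⟩ := hg.cof.2 p.h (not_le.1 hx)
      have hzx : z < x := hg.cof.1 z hzC
      have h3 : (⨅ y : C, (amalR I u p).d k y.1 ⊓ u.T y.1) = ⊥ := by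
        refine le_bot_iff.1 ((iInf_le _ ⟨z, hzC⟩).trans ?_)
        rw [hd, if_neg (fun h2 => absurd h2.2 (hzx.trans_le (not_lt.1 hxu)).ne), sup_bot_eq,
          hp.d_hi k z hz, bot_inf_eq]
      rw [h3, inf_bot_eq, inf_bot_eq]

/-- PROOF.  `basic_amalR`; the requirement at `k ∈ I` follows from `at_res` and `res_amalR` (note that `k ∈ p.W ∩ I`
implies `k ∈ u.W`), at `k ∉ I` it is `at_amalR` (then `k ∈ p.W`, since `u.W ⊆ I`). -/
theorem F_amalR {I : Set J} (hI : IsIn I) {u p : Raw O J Bt} (hl : ℵ₀ ≤ lam) (hu : PF lam c I u)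
    (hp : F lam c p) (hext : Ext ⊤ u (p.res I)) : F lam c (amalR I u p) := by
  refine ⟨basic_amalR hl hu.1.1 hp.1 hu.2 hext, fun k hk => ?_⟩
  by_cases hkI : k ∈ I
  · have hku : k ∈ u.W := by
      rcases hk with hk | hk
      · exact hk
      · exact hext.W ⟨hk, hkI⟩
    rw [← at_res hI hkI, res_amalR hu.1.1 hu.2 hext]
    exact hu.1.2 k hku
  · have hkp : k ∈ p.W := by
      rcases hk with hk | hk
      · exact absurd (hu.2 hk) hkI
      · exact hk
    exact at_amalR hu.1.1 hp.1 hext hkI (hp.2 k hkp)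

end CG
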