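import Pool.Agent.W_MP_7dc84e_h31.Bas

/-!
# MP_7dc84e_lc : amalgamation of conditions, enlargement of the height and of the support (without the names)
-/

set_option autoImplicit false
set_option linter.unusedSectionVars false

universe u

open Cardinal Set

namespace CG

variable {O J Bt Th : Type u} [LinearOrder O] [LinearOrder J] [CompleteBooleanAlgebra Bt]
variable {lam : Cardinal.{u}}

/-! ### Auxiliary facts -/

theorem amal0_cl {e e' : O → Bt} {h0 h : O} (hh : h0 ≤ h) (hhi : ∀ x, h0 < x → e x = ⊥)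
    (hcl : ∀ x, IsLimPt x → (⨅ y : Iio x, ⨆ z : Ioo y.1 x, e z.1) ≤ e x)
    (hne : ∀ z, z ≠ h → e' z = e z) (hh' : e' h = ⊤ ∨ e' h = e h) (x : O) (hx : IsLimPt x) :
    (⨅ y : Iio x, ⨆ z : Ioo y.1 x, e' z.1) ≤ e' x := by
  rcases hh' with h1 | h1
  · by_cases hxh : x = h
    · rw [hxh, h1]
      exact le_top
    · rcases lt_or_gt_of_ne hxh with h2 | h2
      · rw [hne x hxh]
        refine le_trans (le_of_eq ?_) (hcl x hx)
        refine iInf_congr fun y => iSup_congr fun z => hne z.1 ?_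
        exact (z.2.2.trans h2).ne
      · refine (iInf_le _ ⟨h, h2⟩).trans (iSup_le fun z => ?_)
        have h3 : h < z.1 := z.2.1
        rw [hne z.1 h3.ne', hhi z.1 (lt_of_le_of_lt hh h3)]
        exact bot_le
  · have h2 : e' = e := by
      funext z
      by_cases hz : z = h
      · rw [hz, h1]
      · exact hne z hz
    rw [h2]
    exact hcl x hx

theorem amal0_extR_ne {q : Raw O J Bt} {h : O} (j : J) {x : O} (hx : x ≠ h) :
    (extR q h).d j x = q.d j x := by
  simp [extR, hx]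

theorem amal0_extR_mem {q : Raw O J Bt} {h : O} {j : J} (hj : j ∈ q.W) :
    (extR q h).d j h = ⊤ := by
  simp [extR, hj]

theorem amal0_extR_out {q : Raw O J Bt} {h : O} {j : J} (hj : j ∉ q.W) (x : O) :
    (extR q h).d j x = q.d j x := by
  simp [extR, hj]

theorem amal0_addR_ne {X : Set J} {p : Raw O J Bt} (j : J) {x : O} (hx : x ≠ p.h) :
    (addR X p).d j x = p.d j x := by
  simp [addR, hx]

theorem amal0_addR_mem {X : Set J} {p : Raw O J Bt} {j : J} (hj : j ∈ p.W) (x : O) :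
    (addR X p).d j x = p.d j x := by
  simp [addR, hj]

theorem amal0_addR_out {X : Set J} {p : Raw O J Bt} {j : J} (hj : j ∉ X) (x : O) :
    (addR X p).d j x = p.d j x := by
  simp [addR, hj]

theorem amal0_addR_new {X : Set J} {p : Raw O J Bt} {j : J} (hj : j ∉ p.W) (hX : j ∈ X) :
    (addR X p).d j p.h = ⊤ := by
  simp [addR, hj, hX]

theorem amal0_amalR_mem {I : Set J} {u p : Raw O J Bt} {j : J} (hj : j ∈ I) :
    (amalR I u p).d j = u.d j := by
  funext x
  simp [amalR, hj]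

theorem amal0_amalR_ne {I : Set J} {u p : Raw O J Bt} {j : J} (hj : j ∉ I) {x : O}
    (hx : x ≠ u.h) : (amalR I u p).d j x = p.d j x := by
  simp [amalR, hj, hx]

theorem amal0_amalR_top {I : Set J} {u p : Raw O J Bt} {j : J} (hj : j ∉ I) (hp : j ∈ p.W) :
    (amalR I u p).d j u.h = ⊤ := by
  simp [amalR, hj, hp]

theorem amal0_amalR_out {I : Set J} {u p : Raw O J Bt} {j : J} (hj : j ∉ I) (hp : j ∉ p.W)
    (x : O) : (amalR I u p).d j x = p.d j x := by
  simp [amalR, hj, hp]

theorem amal0_small {lam : Cardinal.{u}} (hl : ℵ₀ ≤ lam) {A B : Set J} (hA : #A ≤ lam)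
    (hB : #B ≤ lam) : #(A ∪ B : Set J) ≤ lam :=
  (mk_union_le A B).trans ((add_le_add hA hB).trans (le_of_eq (add_eq_self hl)))

/-! ### Enlargement of the height -/

/-- PROOF.  All clauses except `d_cl` are immediate.  `d_cl`: let `x` be a limit point.  If `j ∉ q.W`, all values are
`⊥` and `Iio x` is nonempty.  Let `j ∈ q.W`.  If `x = h`, the value is `⊤`.  If `h < x`, take `y = h` in the infimum: all
`d j z`, `h < z`, are `⊥`.  If `q.h < x < h`, take `y = q.h`: for `z ∈ Ioo q.h x` the value is `⊥` (`d_hi`; `z ≠ h`).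
If `x ≤ q.h`, `x ≠ h`, then `z ≠ h` for all `z < x` (`z < x ≤ q.h ≤ h`), so this is `d_cl` of `q`. -/
theorem basic_extR {q : Raw O J Bt} (hq : Basic lam q) {h : O} (hh : q.h ≤ h) :
    Basic lam (extR q h) := by
  refine ⟨fun x hx => hq.S_hi x (lt_of_le_of_lt hh hx), hq.S_cof,
    fun x hx => hq.T_hi x (lt_of_le_of_lt hh hx), hq.T_lim, hq.W_small, ?_, ?_, ?_, ?_⟩
  · intro j hj x
    have hj' : j ∉ q.W := hj
    rw [amal0_extR_out hj']
    exact hq.d_out j hj' x
  · intro j x hx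
    have hx' : h < x := hx
    rw [amal0_extR_ne j hx'.ne']
    exact hq.d_hi j x (lt_of_le_of_lt hh hx')
  · intro j hj
    exact amal0_extR_mem hj
  · intro j
    refine amal0_cl hh (hq.d_hi j) (hq.d_cl j) (fun z hz => amal0_extR_ne j hz) ?_
    by_cases hj : j ∈ q.W
    · exact Or.inl (amal0_extR_mem hj)
    · exact Or.inr (amal0_extR_out hj h)

/-- PROOF.  For `x ≤ q.h`: if `x = h`, then `q.h = h` and the old value is `⊤` by `d_top`. -/
theorem ext_extR {q : Raw O J Bt} (hq : Basic lam q) {h : O} (hh : q.h ≤ h) :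
    Ext ⊤ (extR q h) q := by
  refine ⟨hh, subset_rfl, fun _ _ => rfl, fun _ _ => rfl, ?_⟩
  intro j hj x hx
  by_cases hxh : x = h
  · have h1 : x = q.h := le_antisymm hx (by rw [hxh]; exact hh)
    have h2 : (extR q h).d j x = ⊤ := by
      rw [hxh]
      exact amal0_extR_mem hj
    rw [h2, h1, hq.d_top j hj]
  · rw [amal0_extR_ne j hxh]

/-- PROOF.  From the definitions. -/
theorem extR_T {q : Raw O J Bt} (hq : Basic lam q) {h : O} (hh : q.h < h) :
    (extR q h).T (extR q h).h = ⊥ := hq.T_hi _ hh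

/-! ### Enlargement of the support -/

/-- PROOF.  `W_small` from `#(p.W ∪ X) ≤ #p.W + #X ≤ lam + lam = lam`.  The other clauses are immediate; `d_cl` for
`j ∈ X`, `j ∉ p.W`: the value at `z` is `⊤` if `z = p.h` and `⊥` otherwise (`d_out`).  If `x = p.h` the value is `⊤`.  If
`p.h < x` take `y = p.h` in the infimum (or use: all values above are `⊥`); if `x < p.h` all values `d j z`, `z < x`, are
`⊥`. -/
theorem basic_addR {p : Raw O J Bt} (hp : Basic lam p) (hl : ℵ₀ ≤ lam) {X : Set J} (hX : #X ≤ lam) :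
    Basic lam (addR X p) := by
  refine ⟨hp.S_hi, hp.S_cof, hp.T_hi, hp.T_lim, amal0_small hl hp.W_small hX, ?_, ?_, ?_, ?_⟩
  · intro j hj x
    rw [amal0_addR_out (fun h => hj (Or.inr h))]
    exact hp.d_out j (fun h => hj (Or.inl h)) x
  · intro j x hx
    have hx' : p.h < x := hx
    rw [amal0_addR_ne j hx'.ne']
    exact hp.d_hi j x hx'
  · intro j hj
    by_cases h : j ∈ p.W
    · exact (amal0_addR_mem h p.h).trans (hp.d_top j h)
    · exact amal0_addR_new h (hj.resolve_left h)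
  · intro j
    refine amal0_cl le_rfl (hp.d_hi j) (hp.d_cl j) (fun z hz => amal0_addR_ne j hz) ?_
    by_cases h : j ∈ p.W
    · exact Or.inr (amal0_addR_mem h _)
    · by_cases h' : j ∈ X
      · exact Or.inl (amal0_addR_new h h')
      · exact Or.inr (amal0_addR_out h' _)

/-- PROOF.  From the definitions. -/
theorem ext_addR {p : Raw O J Bt} {X : Set J} : Ext ⊤ (addR X p) p := by
  refine ⟨le_rfl, subset_union_left, fun _ _ => rfl, fun _ _ => rfl, ?_⟩
  intro j hj x _
  rw [amal0_addR_mem hj]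

/-! ### Amalgamation -/

/-- PROOF.  All clauses are immediate from `hu`, `hp` (note that `j ∈ I`, `j ∈ p.W` implies `j ∈ u.W` by `hext.W`, as
`(p.res I).W = p.W ∩ I`, and `p.h ≤ u.h`).  `d_cl`: for `j ∈ I` it is `d_cl` of `u`; for `j ∉ I` the value is
`p.d j x ⊔ (if j ∈ p.W ∧ x = u.h then ⊤ else ⊥)`, and the argument is the one of `basic_extR`.  `d_out` for `j ∉ I`,
`j ∉ p.W`: the value is `p.d j x = ⊥`.  `d_out`, `j ∈ I`: `j ∉ u.W`.  `W_small`: `#(u.W ∪ p.W) ≤ lam + lam = lam`. -/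
theorem basic_amalR {I : Set J} {u p : Raw O J Bt} (hl : ℵ₀ ≤ lam) (hu : Basic lam u)
    (hp : Basic lam p) (huI : u.W ⊆ I) (hext : Ext ⊤ u (p.res I)) : Basic lam (amalR I u p) := by
  have hhu : p.h ≤ u.h := hext.h
  refine ⟨hu.S_hi, hu.S_cof, hu.T_hi, hu.T_lim, amal0_small hl hu.W_small hp.W_small,
    ?_, ?_, ?_, ?_⟩
  · intro j hj x
    by_cases hI : j ∈ I
    · rw [amal0_amalR_mem hI]
      exact hu.d_out j (fun h => hj (Or.inl h)) x
    · have hj' : j ∉ p.W := fun h => hj (Or.inr h)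
      rw [amal0_amalR_out hI hj']
      exact hp.d_out j hj' x
  · intro j x hx
    have hx' : u.h < x := hx
    by_cases hI : j ∈ I
    · rw [amal0_amalR_mem hI]
      exact hu.d_hi j x hx'
    · rw [amal0_amalR_ne hI hx'.ne']
      exact hp.d_hi j x (lt_of_le_of_lt hhu hx')
  · intro j hj
    by_cases hI : j ∈ I
    · rw [amal0_amalR_mem hI]
      refine hu.d_top j ?_
      rcases hj with h | h
      · exact h
      · exact hext.W ⟨h, hI⟩
    · refine amal0_amalR_top hI ?_
      rcases hj with h | h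
      · exact absurd (huI h) hI
      · exact h
  · intro j
    by_cases hI : j ∈ I
    · rw [amal0_amalR_mem hI]
      exact hu.d_cl j
    · refine amal0_cl hhu (hp.d_hi j) (hp.d_cl j) (fun z hz => amal0_amalR_ne hI hz) ?_
      by_cases h : j ∈ p.W
      · exact Or.inl (amal0_amalR_top hI h)
      · exact Or.inr (amal0_amalR_out hI h _)

/-- PROOF.  For `j ∈ u.W ⊆ I` the value `d j x` is `u.d j x`. -/
theorem ext_amalR_left {I : Set J} {u p : Raw O J Bt} (huI : u.W ⊆ I) :
    Ext ⊤ (amalR I u p) u := by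
  refine ⟨le_rfl, subset_union_left, fun _ _ => rfl, fun _ _ => rfl, ?_⟩
  intro j hj x _
  rw [amal0_amalR_mem (huI hj)]

/-- PROOF.  `S`, `T`, `h`: from `hext`.  Let `j ∈ p.W`, `x ≤ p.h`.  If `j ∈ I`, the value is
`u.d j x = (p.res I).d j x = p.d j x`.  If `j ∉ I`, it is `p.d j x ⊔ (if x = u.h then ⊤ else ⊥)`, and if `x = u.h`, then
`x = p.h` and `p.d j x = ⊤`. -/
theorem ext_amalR_right {I : Set J} {u p : Raw O J Bt} (hp : Basic lam p)
    (hext : Ext ⊤ u (p.res I)) : Ext ⊤ (amalR I u p) p := by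
  refine ⟨hext.h, subset_union_right, hext.S, hext.T, ?_⟩
  intro j hj x hx
  by_cases hI : j ∈ I
  · have h1 := hext.d j ⟨hj, hI⟩ x hx
    rw [res_d_of hI] at h1
    rw [amal0_amalR_mem hI]
    exact h1
  · by_cases hxu : x = u.h
    · have h1 : x = p.h := le_antisymm hx (by rw [hxu]; exact hext.h)
      have h2 : (amalR I u p).d j x = ⊤ := by
        rw [hxu]
        exact amal0_amalR_top hI hj
      rw [h2, h1, hp.d_top j hj]
    · rw [amal0_amalR_ne hI hxu]

/-- PROOF.  `Raw.ext'`: the supports: `(u.W ∪ p.W) ∩ I = u.W` since `u.W ⊆ I` and `p.W ∩ I ⊆ u.W`; the values `d j x`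
for `j ∉ I` are `⊥ = u.d j x` (`d_out`, as `j ∉ u.W`). -/
theorem res_amalR {I : Set J} {u p : Raw O J Bt} (hu : Basic lam u) (huI : u.W ⊆ I)
    (hext : Ext ⊤ u (p.res I)) : (amalR I u p).res I = u := by
  refine Raw.ext' rfl rfl rfl ?_ ?_
  · show (u.W ∪ p.W) ∩ I = u.W
    ext j
    constructor
    · rintro ⟨h | h, hI⟩
      · exact h
      · exact hext.W ⟨h, hI⟩
    · intro h
      exact ⟨Or.inl h, huI h⟩
  · funext j
    by_cases hI : j ∈ I
    · rw [res_d_of hI, amal0_amalR_mem hI]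
    · funext x
      rw [res_d_not hI, hu.d_out j (fun h => hI (huI h))]

end CG
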