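import Pool.Agent.W_MP_7dc84e_h31.NcCov
import Pool.Agent.W_MP_0bf392_lc.RO

/-!
# MP_7dc84e_lc : the preliminary forcing

`K` is a well-order of the type of a supercompact cardinal `κ`.  `BP K` is the countable support product of all `σ`-closed
preorders on the initial segments `Iio η` of `K`, each of them taken `κ` many times.
-/

set_option autoImplicit false
set_option linter.unusedSectionVars false

universe u

open Cardinal Set IM

namespace CG

/-- `ρ a b` (read `a ≤ b`) is a `σ`-closed preorder -/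
structure SPre {A : Type u} (ρ : A → A → Prop) : Prop where
  refl : ∀ a, ρ a a
  trans : ∀ a b c, ρ a b → ρ b c → ρ a c
  sig : ∀ f : ℕ → A, (∀ n, ρ (f (n + 1)) (f n)) → ∃ b, ∀ n, ρ b (f n)

/-- the indices of the factors -/
structure Ix (K : Type u) [LinearOrder K] : Type u where
  η : K
  ρ : Iio η → Iio η → Prop
  i : K

/-- the conditions -/
structure BP (K : Type u) [LinearOrder K] : Type u where
  v : (i : Ix K) → Option (Iio i.η)
  ctb : {i | v i ≠ none}.Countable
  good : ∀ i, v i ≠ none → SPre i.ρ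

variable {K : Type u} [LinearOrder K]

instance : Preorder (BP K) where
  le b' b := ∀ i a, b.v i = some a → ∃ a', b'.v i = some a' ∧ i.ρ a' a
  le_refl b i a h := ⟨a, h, (b.good i (by rw [h]; simp)).refl a⟩
  le_trans b'' b' b h1 h2 i a h := by
    obtain ⟨a', h3, h4⟩ := h2 i a h
    obtain ⟨a'', h5, h6⟩ := h1 i a' h3
    exact ⟨a'', h5, (b.good i (by rw [h]; simp)).trans _ _ _ h6 h4⟩

theorem BP.le_def {b' b : BP K} :
    b' ≤ b ↔ ∀ i a, b.v i = some a → ∃ a', b'.v i = some a' ∧ i.ρ a' a := Iff.rfl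

/-- the empty condition -/
def BP.one : BP K := ⟨fun _ => none, by simp, fun _ h => absurd rfl h⟩

theorem BP.ext {b b' : BP K} (h : ∀ i, b.v i = b'.v i) : b = b' := by
  cases b
  cases b'
  congr
  exact funext h

/-- the restriction -/
noncomputable def BP.res (b : BP K) (X : Set (Ix K)) : BP K := by
  classical
  exact ⟨fun i => if i ∈ X then b.v i else none, b.ctb.mono (by
    intro i hi
    by_cases h : i ∈ X <;> simp_all), by
    intro i hi
    by_cases h : i ∈ X
    · exact b.good i (by simpa [h] using hi)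
    · simp [h] at hi⟩

/-- `b₂` on `X`, `b` outside of `X` -/
noncomputable def BP.glue (X : Set (Ix K)) (b₂ b : BP K) : BP K := by
  classical
  exact ⟨fun i => if i ∈ X then b₂.v i else b.v i, (b₂.ctb.union b.ctb).mono (by
    intro i hi
    by_cases h : i ∈ X
    · left; simpa [h] using hi
    · right; simpa [h] using hi), by
    intro i hi
    by_cases h : i ∈ X
    · exact b₂.good i (by simpa [h] using hi)
    · exact b.good i (by simpa [h] using hi)⟩

/-- the value `w` at `i₀` -/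
noncomputable def BP.upd (b : BP K) (i₀ : Ix K) (w : Iio i₀.η) (h : SPre i₀.ρ) : BP K := by
  classical
  exact ⟨Function.update b.v i₀ (some w), (b.ctb.union (countable_singleton i₀)).mono (by
    intro i hi
    by_cases h : i = i₀
    · right; exact h
    · left; simpa [h] using hi), by
    intro i hi
    by_cases h' : i = i₀
    · subst h'; exact h
    · exact b.good i (by simpa [h'] using hi)⟩

/-- PROOF.  By cases `i ∈ X`. -/
theorem BP.glue_le {X : Set (Ix K)} {b₂ b : BP K} (h : b₂ ≤ b.res X) : BP.glue X b₂ b ≤ b := by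
  classical
  intro i a ha
  by_cases hi : i ∈ X
  · have h1 : (b.res X).v i = some a := by
      show (if i ∈ X then b.v i else none) = some a
      rw [if_pos hi]
      exact ha
    obtain ⟨a', h2, h3⟩ := h i a h1
    refine ⟨a', ?_, h3⟩
    show (if i ∈ X then b₂.v i else b.v i) = some a'
    rw [if_pos hi]
    exact h2
  · refine ⟨a, ?_, (b.good i (by rw [ha]; simp)).refl a⟩
    show (if i ∈ X then b₂.v i else b.v i) = some a
    rw [if_neg hi]
    exact ha

/-- PROOF.  The support of `b₂` is contained in `X`. -/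
theorem BP.glue_le' {X : Set (Ix K)} {b₂ b : BP K} (h : ∀ i, b₂.v i ≠ none → i ∈ X) :
    BP.glue X b₂ b ≤ b₂ := by
  classical
  intro i a ha
  have hne : b₂.v i ≠ none := by rw [ha]; simp
  refine ⟨a, ?_, (b₂.good i hne).refl a⟩
  show (if i ∈ X then b₂.v i else b.v i) = some a
  rw [if_pos (h i hne)]
  exact ha

theorem BP.glue_of_not {X : Set (Ix K)} {b₂ b : BP K} {i : Ix K} (h : i ∉ X) :
    (BP.glue X b₂ b).v i = b.v i := by
  classical
  exact if_neg h

theorem BP.res_le (b : BP K) (X : Set (Ix K)) : b ≤ b.res X := by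
  classical
  intro i a ha
  have h1 : (if i ∈ X then b.v i else none) = some a := ha
  by_cases hi : i ∈ X
  · rw [if_pos hi] at h1
    exact ⟨a, h1, (b.good i (by rw [h1]; simp)).refl a⟩
  · rw [if_neg hi] at h1
    exact absurd h1 (by simp)

theorem BP.upd_same (b : BP K) (i₀ : Ix K) (w : Iio i₀.η) (h : SPre i₀.ρ) :
    (b.upd i₀ w h).v i₀ = some w := by
  classical
  exact Function.update_self i₀ (some w) b.v

/-- PROOF.  At `i ≠ i₀` by reflexivity (`b.good`). -/
theorem BP.upd_le {b : BP K} {i₀ : Ix K} {w : Iio i₀.η} {h : SPre i₀.ρ}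
    (hw : ∀ a, b.v i₀ = some a → i₀.ρ w a) : b.upd i₀ w h ≤ b := by
  classical
  intro i a ha
  by_cases hi : i = i₀
  · subst hi
    exact ⟨w, BP.upd_same b i w h, hw a ha⟩
  · refine ⟨a, ?_, (b.good i (by rw [ha]; simp)).refl a⟩
    have h1 : (b.upd i₀ w h).v i = b.v i := Function.update_of_ne hi _ _
    rw [h1]
    exact ha

theorem BP_anti (f : ℕ → BP K) (hf : ∀ n, f (n + 1) ≤ f n) {m n : ℕ} (h : m ≤ n) :
    f n ≤ f m := by
  induction n, h using Nat.le_induction with
  | base => exact le_rfl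
  | succ n _ ih => exact (hf n).trans ih

theorem BP_sig_pt (f : ℕ → BP K) (hf : ∀ n, f (n + 1) ≤ f n) (i : Ix K) :
    ∃ o : Option (Iio i.η), (∀ n a, (f n).v i = some a → ∃ a', o = some a' ∧ i.ρ a' a) ∧
      (o ≠ none → ∃ n, (f n).v i ≠ none) := by
  by_cases h : ∀ n, (f n).v i = none
  · refine ⟨none, fun n a ha => ?_, fun hne => absurd rfl hne⟩
    rw [h n] at ha
    exact absurd ha (by simp)
  · push Not at h
    obtain ⟨m, hm⟩ := h
    have hS : SPre i.ρ := (f m).good i hm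
    obtain ⟨a₀, ha₀⟩ := Option.ne_none_iff_exists'.1 hm
    have hex : ∀ k, ∃ a, (f (m + k)).v i = some a := by
      intro k
      obtain ⟨a', h1, -⟩ := BP_anti f hf (Nat.le_add_right m k) i a₀ ha₀
      exact ⟨a', h1⟩
    choose α hα using hex
    obtain ⟨b, hb⟩ := hS.sig α (by
      intro k
      obtain ⟨a', h1, h2⟩ := hf (m + k) i (α k) (hα k)
      have h3 := hα (k + 1)
      rw [← add_assoc, h1] at h3
      obtain rfl := Option.some.inj h3
      exact h2)
    refine ⟨some b, fun n a ha => ⟨b, rfl, ?_⟩, fun _ => ⟨m, hm⟩⟩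
    obtain ⟨a', h1, h2⟩ := BP_anti f hf (Nat.le_add_left n m) i a ha
    rw [hα n] at h1
    obtain rfl := Option.some.inj h1
    exact hS.trans _ _ _ (hb n) h2

theorem BP_sig_aux (f : ℕ → BP K) (hf : ∀ n, f (n + 1) ≤ f n) : ∃ b : BP K, ∀ n, b ≤ f n := by
  choose o ho1 ho2 using BP_sig_pt f hf
  refine ⟨⟨o, ?_, ?_⟩, fun n i a ha => ho1 i n a ha⟩
  · refine (Set.countable_iUnion fun n => (f n).ctb).mono ?_
    intro i hi
    obtain ⟨n, hn⟩ := ho2 i hi
    exact Set.mem_iUnion.2 ⟨n, hn⟩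
  · intro i hi
    obtain ⟨n, hn⟩ := ho2 i hi
    exact (f n).good i hn

/-- Lower bounds of sequences, with a prescribed value at `i₀`.

PROOF.  For `i ≠ i₀`: if `(f n).v i = none` for all `n`, let `b.v i := none`; otherwise let `m` be the least `n` with
`(f n).v i ≠ none`; then `(f n).v i = some (a n)` for all `n ≥ m` with `i.ρ (a (n + 1)) (a n)`, `SPre i.ρ`, and `SPre.sig` for
`n ↦ a (m + n)` gives a lower bound.  `b.v i₀ := some w`.  The support is contained in the union of `{i₀}` and the supports of the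
`f n`. -/
theorem BP.exists_lower (f : ℕ → BP K) (hf : ∀ n, f (n + 1) ≤ f n) (i₀ : Ix K) (w : Iio i₀.η)
    (hw : ∀ n, ∃ a, (f n).v i₀ = some a ∧ i₀.ρ w a) :
    ∃ b : BP K, (∀ n, b ≤ f n) ∧ b.v i₀ = some w := by
  classical
  obtain ⟨b, hb⟩ := BP_sig_aux f hf
  obtain ⟨a₀, ha₀, -⟩ := hw 0
  have hS : SPre i₀.ρ := (f 0).good i₀ (by rw [ha₀]; simp)
  refine ⟨b.upd i₀ w hS, fun n => ?_, BP.upd_same b i₀ w hS⟩
  intro i a ha
  by_cases hi : i = i₀
  · subst hi
    obtain ⟨a', ha', hwa⟩ := hw n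
    rw [ha] at ha'
    obtain rfl := Option.some.inj ha'
    exact ⟨w, BP.upd_same b i w hS, hwa⟩
  · obtain ⟨a', h1, h2⟩ := hb n i a ha
    refine ⟨a', ?_, h2⟩
    have h3 : (b.upd i₀ w hS).v i = b.v i := Function.update_of_ne hi _ _
    rw [h3]
    exact h1

/-- PROOF.  As `exists_lower`, without the special coordinate. -/
theorem BP.sig (f : ℕ → BP K) (hf : ∀ n, f (n + 1) ≤ f n) : ∃ b : BP K, ∀ n, b ≤ f n := by
  exact BP_sig_aux f hf

/-! ### The regular open algebra -/

/-- the regular open set of a condition -/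
def eB {B : Type u} [Preorder B] (b : B) : RO B :=
  ⟨{p | ∀ q ≤ p, ∃ r ≤ q, r ≤ b}, RO.isRO_dens {p : B | p ≤ b} fun _ hp _ hq => hq.trans hp⟩

/-- PROOF.  `RO.mem_lower`, `RO.mem_of_dense` (as `le_io_iff` in `Pool/Agent/W_315f31_h40/CoreD.lean`). -/
theorem eB_le_iff {B : Type u} [Preorder B] {b : B} {u : RO B} : eB b ≤ u ↔ b ∈ u.1 := by
  constructor
  · intro h
    exact (RO.le_iff _ _).1 h b fun q hq => ⟨q, le_rfl, hq⟩
  · intro hb p hp
    refine RO.mem_of_dense fun q hq => ?_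
    obtain ⟨r, hr, hrb⟩ := hp q hq
    exact ⟨r, hr, RO.mem_lower hb hrb⟩

/-- PROOF.  `ne`: `b ∈ eB b`.  `mono`: transitivity.  `dense`: let `x ≠ ⊥`, `x ≤ eB b`; let `p ∈ x.1`; `p ∈ eB b`, so there is
`r ≤ p` with `r ≤ b`; `eB r ≤ x` by `eB_le_iff`.  `dense'`: the same.  `sig`: assumption. -/
theorem sigB_eB {B : Type u} [Preorder B] (hs : ∀ f : ℕ → B, (∀ n, f (n + 1) ≤ f n) →
    ∃ b, ∀ n, b ≤ f n) : SigB (eB : B → RO B) := by
  have hself : ∀ b : B, b ∈ (eB b).1 := fun b q hq => ⟨q, le_rfl, hq⟩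
  have hex : ∀ x : RO B, x ≠ ⊥ → ∃ p, p ∈ x.1 := by
    intro x hx
    by_contra hcon
    push Not at hcon
    apply hx
    refine le_antisymm (fun p hp => absurd hp (hcon p)) bot_le
  refine ⟨?_, ?_, ?_, ?_, hs⟩
  · intro b hb
    have h1 := hself b
    rw [hb] at h1
    exact RO.mem_bot b h1
  · intro b b' hbb
    rw [eB_le_iff]
    intro q hq
    exact ⟨q, le_rfl, hq.trans hbb⟩
  · intro x b hx hxb
    obtain ⟨p, hp⟩ := hex x hx
    obtain ⟨r, hr, hrb⟩ := (RO.le_iff _ _).1 hxb p hp p le_rfl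
    exact ⟨r, hrb, eB_le_iff.2 (RO.mem_lower hp hr)⟩
  · intro x hx
    obtain ⟨p, hp⟩ := hex x hx
    exact ⟨p, eB_le_iff.2 hp⟩

/-- PROOF.  `#(RO (BP K)) ≤ 2 ^ #(BP K)`.  `#(Ix K) ≤ 2 ^ κ'` for `κ' := #K` (infinite): it injects into
`K × Set (K × K) × K`.  A condition is determined by its graph, a subset of `Ix K × K`: `#(BP K) ≤ 2 ^ (2 ^ κ' * κ')`
`= 2 ^ (2 ^ κ')`.  So `#(RO (BP K)) ≤ 2 ^ (2 ^ (2 ^ κ')) < lam`. -/
theorem mk_RO_lt {lam : Cardinal.{u}} (hK : ℵ₀ ≤ #K) (hlt : #K < lam)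
    (hstrong : ∀ μ < lam, 2 ^ μ < lam) : #(RO (BP K)) < lam := by
  classical
  have hκ : #K * #K = #K := mul_eq_self hK
  have hlt2 : #K ≤ 2 ^ #K := (cantor _).le
  have hinf : ℵ₀ ≤ 2 ^ #K := hK.trans hlt2
  have h1 : #(Ix K) ≤ 2 ^ #K := by
    have hinj : Function.Injective (fun j : Ix K => ((j.η,
        ({z : K × K | ∃ (hx : z.1 ∈ Iio j.η) (hy : z.2 ∈ Iio j.η), j.ρ ⟨z.1, hx⟩ ⟨z.2, hy⟩}),
        j.i) : K × Set (K × K) × K)) := by
      rintro ⟨η, ρ, i⟩ ⟨η', ρ', i'⟩ h
      simp only [Prod.mk.injEq] at h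
      obtain ⟨h1, h2, h3⟩ := h
      subst h1
      subst h3
      congr 1
      funext x y
      apply propext
      have h4 := Set.ext_iff.1 h2 (x.1, y.1)
      simp only [Set.mem_ofPred_eq] at h4
      constructor
      · intro hxy
        obtain ⟨_, _, h5⟩ := h4.1 ⟨x.2, y.2, hxy⟩
        exact h5
      · intro hxy
        obtain ⟨_, _, h5⟩ := h4.2 ⟨x.2, y.2, hxy⟩
        exact h5
    refine (mk_le_of_injective hinj).trans ?_
    rw [mk_prod, mk_prod, mk_set, mk_prod]
    simp only [lift_id]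
    rw [hκ]
    calc #K * (2 ^ #K * #K) ≤ 2 ^ #K * (2 ^ #K * 2 ^ #K) :=
          mul_le_mul' hlt2 (mul_le_mul' le_rfl hlt2)
      _ = 2 ^ #K := by rw [mul_eq_self hinf, mul_eq_self hinf]
  have h2 : #(BP K) ≤ 2 ^ (2 ^ #K : Cardinal.{u}) := by
    have hinj : Function.Injective (fun b : BP K =>
        ({z : Ix K × K | ∃ h : z.2 ∈ Iio z.1.η, b.v z.1 = some ⟨z.2, h⟩} : Set (Ix K × K))) := by
      intro b b' h
      apply BP.ext
      intro i
      have key : ∀ a : Iio i.η, b.v i = some a ↔ b'.v i = some a := by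
        intro a
        have h4 := Set.ext_iff.1 h (i, a.1)
        simp only [Set.mem_ofPred_eq] at h4
        constructor
        · intro h5
          obtain ⟨_, h6⟩ := h4.1 ⟨a.2, h5⟩
          exact h6
        · intro h5
          obtain ⟨_, h6⟩ := h4.2 ⟨a.2, h5⟩
          exact h6
      exact Option.ext key
    refine (mk_le_of_injective hinj).trans ?_
    rw [mk_set, mk_prod]
    simp only [lift_id]
    refine power_le_power_left two_ne_zero ?_
    calc #(Ix K) * #K ≤ 2 ^ #K * 2 ^ #K := mul_le_mul' h1 hlt2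
      _ = 2 ^ #K := mul_eq_self hinf
  have h3 : #(RO (BP K)) ≤ 2 ^ #(BP K) := by
    refine (mk_subtype_le _).trans ?_
    rw [mk_set]
  exact (h3.trans (power_le_power_left two_ne_zero h2)).trans_lt
    (hstrong _ (hstrong _ (hstrong _ hlt)))

end CG
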