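import Pool.Agent.W_MP_7dc84e_h31.Amal

/-!
# MP_7dc84e_lc : mixing conditions
-/

set_option autoImplicit false
set_option linter.unusedSectionVars false

universe u

open Cardinal Set

namespace CG

variable {O J Bt Th : Type u} [LinearOrder O] [LinearOrder J] [CompleteBooleanAlgebra Bt]
variable {lam : Cardinal.{u}}

/-- PROOF.  `b ⊓ ((b ⊓ x) ⊔ (bᶜ ⊓ y)) = b ⊓ x`. -/
theorem inf_glue_left (b x y : Bt) : b ⊓ ((b ⊓ x) ⊔ (bᶜ ⊓ y)) = b ⊓ x := by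
  rw [inf_sup_left, ← inf_assoc, inf_idem, ← inf_assoc, inf_compl_eq_bot, bot_inf_eq, sup_bot_eq]

/-- PROOF.  `bᶜ ⊓ ((b ⊓ x) ⊔ (bᶜ ⊓ y)) = bᶜ ⊓ y`. -/
theorem inf_glue_right (b x y : Bt) : bᶜ ⊓ ((b ⊓ x) ⊔ (bᶜ ⊓ y)) = bᶜ ⊓ y := by
  rw [inf_sup_left, ← inf_assoc, compl_inf_eq_bot, bot_inf_eq, bot_sup_eq, ← inf_assoc, inf_idem]

/-- PROOF.  `(b ⊓ x) ⊔ (bᶜ ⊓ x) = x`. -/
theorem glue_self (b x : Bt) : (b ⊓ x) ⊔ (bᶜ ⊓ x) = x := by
  rw [← inf_sup_right, sup_compl_eq_top, top_inf_eq]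

/-- PROOF.  `Ext b` between conditions of the same height and support: `inf_glue_left`. -/
theorem ext_glueR_left (b : Bt) (q p : Raw O J Bt) : Ext b (glueR b q p) q :=
  ⟨le_rfl, subset_rfl, fun _ _ => inf_glue_left _ _ _, fun _ _ => inf_glue_left _ _ _,
    fun _ _ _ _ => inf_glue_left _ _ _⟩

/-- PROOF.  `inf_glue_left`. -/
theorem ext_glueR_left' (b : Bt) (q p : Raw O J Bt) : Ext b q (glueR b q p) :=
  ⟨le_rfl, subset_rfl, fun _ _ => (inf_glue_left _ _ _).symm, fun _ _ => (inf_glue_left _ _ _).symm,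
    fun _ _ _ _ => (inf_glue_left _ _ _).symm⟩

/-- PROOF.  `inf_glue_right`. -/
theorem ext_glueR_right {b : Bt} {q p : Raw O J Bt} (hh : q.h = p.h) (hW : q.W = p.W) :
    Ext bᶜ (glueR b q p) p :=
  ⟨hh.ge, hW.ge, fun _ _ => inf_glue_right _ _ _, fun _ _ => inf_glue_right _ _ _,
    fun _ _ _ _ => inf_glue_right _ _ _⟩

/-- If both `q` and `p` extend `r` (below `b`, `bᶜ`), then `glueR b q p` extends `r`.

PROOF.  For `x ≤ r.h`: `(b ⊓ q.S x) ⊔ (bᶜ ⊓ p.S x) = (b ⊓ r.S x) ⊔ (bᶜ ⊓ r.S x) = r.S x`. -/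
theorem ext_glueR {b : Bt} {q p r : Raw O J Bt} (h1 : Ext b q r) (h2 : Ext bᶜ p r) :
    Ext ⊤ (glueR b q p) r := by
  refine ⟨h1.h, h1.W, fun x hx => ?_, fun x hx => ?_, fun j hj x hx => ?_⟩
  · show ⊤ ⊓ ((b ⊓ q.S x) ⊔ (bᶜ ⊓ p.S x)) = _
    rw [h1.S x hx, h2.S x hx, glue_self]
  · show ⊤ ⊓ ((b ⊓ q.T x) ⊔ (bᶜ ⊓ p.T x)) = _
    rw [h1.T x hx, h2.T x hx, glue_self]
  · show ⊤ ⊓ ((b ⊓ q.d j x) ⊔ (bᶜ ⊓ p.d j x)) = _
    rw [h1.d j hj x hx, h2.d j hj x hx, glue_self]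

/-- PROOF.  All clauses from those of `q` and `p`.  `S_cof`: if `(b ⊓ q.S x) ⊔ (bᶜ ⊓ p.S x) ≠ ⊥`, then `q.S x ≠ ⊥` or
`p.S x ≠ ⊥`.  `d_top`: `(b ⊓ ⊤) ⊔ (bᶜ ⊓ ⊤) = ⊤`.  `d_cl`: let `D j x := (b ⊓ q.d j x) ⊔ (bᶜ ⊓ p.d j x)` and
`R := ⨅ y : Iio x, ⨆ z : Ioo y x, D j z`.  Then `b ⊓ R ≤ ⨅ y, ⨆ z, q.d j z ≤ q.d j x` (for each `y`:
`b ⊓ ⨆ z, D j z = ⨆ z, b ⊓ D j z = ⨆ z, b ⊓ q.d j z ≤ ⨆ z, q.d j z`), and `bᶜ ⊓ R ≤ p.d j x` in the same way; so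
`R = (b ⊓ R) ⊔ (bᶜ ⊓ R) ≤ (b ⊓ q.d j x) ⊔ (bᶜ ⊓ p.d j x)`. -/
theorem basic_glueR {b : Bt} {q p : Raw O J Bt} (hq : Basic lam q) (hp : Basic lam p)
    (hh : q.h = p.h) (hW : q.W = p.W) : Basic lam (glueR b q p) := by
  have h0 : ∀ {x y : Bt}, (b ⊓ x) ⊔ (bᶜ ⊓ y) ≠ ⊥ → x ≠ ⊥ ∨ y ≠ ⊥ := by
    intro x y h
    by_contra hc
    push Not at hc
    apply h
    rw [hc.1, hc.2, inf_bot_eq, inf_bot_eq, sup_bot_eq]
  refine ⟨?_, ?_, ?_, ?_, hq.W_small, ?_, ?_, ?_, ?_⟩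
  · intro x hx
    show (b ⊓ q.S x) ⊔ (bᶜ ⊓ p.S x) = ⊥
    rw [hq.S_hi x hx, hp.S_hi x (hh ▸ hx), inf_bot_eq, inf_bot_eq, sup_bot_eq]
  · intro x hx
    rcases h0 hx with h | h
    · exact hq.S_cof x h
    · exact hp.S_cof x h
  · intro x hx
    show (b ⊓ q.T x) ⊔ (bᶜ ⊓ p.T x) = ⊥
    rw [hq.T_hi x hx, hp.T_hi x (hh ▸ hx), inf_bot_eq, inf_bot_eq, sup_bot_eq]
  · intro x hx
    rcases h0 hx with h | h
    · exact hq.T_lim x h
    · exact hp.T_lim x h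
  · intro j hj x
    show (b ⊓ q.d j x) ⊔ (bᶜ ⊓ p.d j x) = ⊥
    rw [hq.d_out j hj, hp.d_out j (hW ▸ hj), inf_bot_eq, inf_bot_eq, sup_bot_eq]
  · intro j x hx
    show (b ⊓ q.d j x) ⊔ (bᶜ ⊓ p.d j x) = ⊥
    rw [hq.d_hi j x hx, hp.d_hi j x (hh ▸ hx), inf_bot_eq, inf_bot_eq, sup_bot_eq]
  · intro j hj
    show (b ⊓ q.d j q.h) ⊔ (bᶜ ⊓ p.d j q.h) = ⊤
    have h1 : p.d j q.h = ⊤ := by rw [hh]; exact hp.d_top j (hW ▸ hj)
    rw [hq.d_top j hj, h1, inf_top_eq, inf_top_eq, sup_compl_eq_top]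
  · intro j x hx
    set R : Bt := ⨅ y : Iio x, ⨆ z : Ioo y.1 x, (glueR b q p).d j z.1 with hR
    have h1 : b ⊓ R ≤ q.d j x := by
      refine le_trans (le_iInf fun y => ?_) (hq.d_cl j x hx)
      have h2 : b ⊓ R ≤ b ⊓ ⨆ z : Ioo y.1 x, (glueR b q p).d j z.1 :=
        inf_le_inf_left _ (iInf_le _ y)
      refine h2.trans ?_
      rw [inf_iSup_eq]
      refine iSup_mono fun z => ?_
      have h3 : b ⊓ (glueR b q p).d j z.1 = b ⊓ q.d j z.1 := inf_glue_left _ _ _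
      rw [h3]
      exact inf_le_right
    have h1' : bᶜ ⊓ R ≤ p.d j x := by
      refine le_trans (le_iInf fun y => ?_) (hp.d_cl j x hx)
      have h2 : bᶜ ⊓ R ≤ bᶜ ⊓ ⨆ z : Ioo y.1 x, (glueR b q p).d j z.1 :=
        inf_le_inf_left _ (iInf_le _ y)
      refine h2.trans ?_
      rw [inf_iSup_eq]
      refine iSup_mono fun z => ?_
      have h3 : bᶜ ⊓ (glueR b q p).d j z.1 = bᶜ ⊓ p.d j z.1 := inf_glue_right _ _ _
      rw [h3]
      exact inf_le_right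
    show R ≤ (b ⊓ q.d j x) ⊔ (bᶜ ⊓ p.d j x)
    calc R = (b ⊓ R) ⊔ (bᶜ ⊓ R) := (glue_self b R).symm
      _ ≤ _ := sup_le_sup (le_inf inf_le_left h1) (le_inf inf_le_left h1')

variable [WellFoundedLT J] {c : J → Nm O J Bt}

/-- Gluing two conditions of the same height and support.

PROOF.  `basic_glueR`; let `k ∈ q.W = p.W`, `m := glueR b q p`.  Use `at_iff`.  Let `b' r x C`, `a ≤ b'`, `u` be given with
`GoodT`, `PF lam c (Iio k) u`, `Ext a u r`, `Ext a u (m.res (Iio k))`.  Put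
`R := m.S x ⊓ ⨅ y : C, m.d k y ⊓ m.T y`.  Then `a ⊓ b` satisfies the hypotheses for `q`: `a ⊓ b ≤ b'`,
`Ext (a ⊓ b) u r`, `Ext (a ⊓ b) u (q.res (Iio k))` (by `Ext.trans` and the restriction of `ext_glueR_left`), so
`(a ⊓ b) ⊓ (q.S x ⊓ ⨅ y : C, q.d k y ⊓ q.T y) = ⊥`; since `b ⊓ R ≤ q.S x ⊓ ⨅ y, q.d k y ⊓ q.T y` (because
`b ⊓ m.S x = b ⊓ q.S x ≤ q.S x` etc.), we get `(a ⊓ b) ⊓ R = ⊥`.  In the same way `(a ⊓ bᶜ) ⊓ R = ⊥` using `p`.  So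
`a ⊓ R = ⊥`. -/
theorem F_glueR {b : Bt} {q p : Raw O J Bt} (hq : F lam c q) (hp : F lam c p)
    (hh : q.h = p.h) (hW : q.W = p.W) : F lam c (glueR b q p) := by
  refine ⟨basic_glueR hq.1 hp.1 hh hW, fun k hk => ?_⟩
  rw [at_iff]
  intro b' r x C hG a u hab hu hur hum
  set m := glueR b q p with hm
  set R : Bt := m.S x ⊓ ⨅ y : C, m.d k y.1 ⊓ m.T y.1 with hR
  -- the general step
  have step : ∀ (e : Bt) (v : Raw O J Bt), At lam c k v → Ext e m v →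
      (∀ x, e ⊓ m.S x ≤ v.S x) → (∀ x, e ⊓ m.T x ≤ v.T x) → (∀ x, e ⊓ m.d k x ≤ v.d k x) →
      (a ⊓ e) ⊓ R = ⊥ := by
    intro e v hv hev hS hT hd
    have h1 := at_iff.1 hv b' r x C hG (a ⊓ e) u (inf_le_left.trans hab) hu
      (hur.mono inf_le_left) ((hum.mono inf_le_left).trans ((hev.res (Iio k)).mono inf_le_right))
    have h2 : (a ⊓ e) ⊓ R ≤ (a ⊓ e) ⊓ (v.S x ⊓ ⨅ y : C, v.d k y.1 ⊓ v.T y.1) := by
      refine le_inf inf_le_left (le_inf ?_ (le_iInf fun y => le_inf ?_ ?_))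
      · exact (le_inf (inf_le_left.trans inf_le_right) (inf_le_right.trans inf_le_left)).trans (hS x)
      · refine (le_inf (inf_le_left.trans inf_le_right)
          (inf_le_right.trans (inf_le_right.trans ((iInf_le _ y).trans inf_le_left)))).trans (hd y.1)
      · refine (le_inf (inf_le_left.trans inf_le_right)
          (inf_le_right.trans (inf_le_right.trans ((iInf_le _ y).trans inf_le_right)))).trans (hT y.1)
    rw [h1] at h2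
    exact le_bot_iff.1 h2
  have h1 : (a ⊓ b) ⊓ R = ⊥ := by
    refine step b q (hq.2 k hk) (ext_glueR_left b q p) ?_ ?_ ?_
    · intro x
      exact (inf_glue_left b (q.S x) (p.S x)).le.trans inf_le_right
    · intro x
      exact (inf_glue_left b (q.T x) (p.T x)).le.trans inf_le_right
    · intro x
      exact (inf_glue_left b (q.d k x) (p.d k x)).le.trans inf_le_right
  have h2 : (a ⊓ bᶜ) ⊓ R = ⊥ := by
    refine step bᶜ p (hp.2 k (hW ▸ hk)) (ext_glueR_right hh hW) ?_ ?_ ?_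
    · intro x
      exact (inf_glue_right b (q.S x) (p.S x)).le.trans inf_le_right
    · intro x
      exact (inf_glue_right b (q.T x) (p.T x)).le.trans inf_le_right
    · intro x
      exact (inf_glue_right b (q.d k x) (p.d k x)).le.trans inf_le_right
  show a ⊓ R = ⊥
  have h3 : a = (a ⊓ b) ⊔ (a ⊓ bᶜ) := by
    rw [← inf_sup_left, sup_compl_eq_top, inf_top_eq]
  rw [h3, inf_sup_right, h1, h2, sup_bot_eq]

/-- PROOF.  Let `p' := addR q.W (extR p q.h)`.  It is a condition by `F_extR`, `F_addR`, its height is `q.h` and its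
support is `p.W ∪ q.W = q.W`.  Apply `F_glueR`. -/
theorem F_mixR {b : Bt} {q p : Raw O J Bt} (hl : ℵ₀ ≤ lam) (hq : F lam c q) (hp : F lam c p)
    (h : Ext b q p) : F lam c (mixR b q p) := by
  refine F_glueR hq (F_addR (F_extR hp h.h) hl hq.1.W_small) rfl ?_
  show q.W = p.W ∪ q.W
  exact (union_eq_right.2 h.W).symm

/-- PROOF.  `F_mixR`; the support is `q.W`. -/
theorem PF_mixR {b : Bt} {q p : Raw O J Bt} {I : Set J} (hl : ℵ₀ ≤ lam) (hq : PF lam c I q)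
    (hp : F lam c p) (h : Ext b q p) : PF lam c I (mixR b q p) :=
  ⟨F_mixR hl hq.1 hp h, hq.2⟩

/-- PROOF.  `ext_glueR` with `h` and `Ext bᶜ (addR q.W (extR p q.h)) p` (`ext_addR`, `ext_extR`, `Ext.mono`). -/
theorem ext_mixR_top {b : Bt} {q p : Raw O J Bt} (hp : Basic lam p) (h : Ext b q p) :
    Ext ⊤ (mixR b q p) p :=
  ext_glueR h ((ext_addR.trans (ext_extR hp h.h)).mono le_top)

/-- PROOF.  `ext_glueR_left`. -/
theorem ext_mixR_left (b : Bt) (q p : Raw O J Bt) : Ext b (mixR b q p) q :=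
  ext_glueR_left _ _ _

/-- PROOF.  `ext_glueR_left'`. -/
theorem ext_mixR_left' (b : Bt) (q p : Raw O J Bt) : Ext b q (mixR b q p) :=
  ext_glueR_left' _ _ _

end CG
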