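import Pool.Agent.W_MP_7dc84e_h31.Bas

/-!
# MP_7dc84e_lc : facts about the parameters
-/

set_option autoImplicit false
set_option linter.unusedSectionVars false

universe u

open Cardinal Set

namespace CG

variable {O J Bt Th : Type u} [LinearOrder O] [LinearOrder J] [CompleteBooleanAlgebra Bt]
variable {lam : Cardinal.{u}} {L : ℕ → Cardinal.{u}}

namespace Par

/-- PROOF.  `ℵ₀ ≤ L 0 ≤ 2 ^ L 0 ≤ lam`. -/
theorem aleph (P : Par O J Bt Th lam L) : ℵ₀ ≤ lam := by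
  exact (P.L_inf.trans (Cardinal.cantor _).le).trans (P.L_pow 0)

theorem L_le (P : Par O J Bt Th lam L) (n : ℕ) : L n ≤ lam := by
  exact (Cardinal.cantor _).le.trans (P.L_pow n)

theorem L_aleph (P : Par O J Bt Th lam L) (n : ℕ) : ℵ₀ ≤ L n := by
  exact P.L_inf.trans (P.L_mono (Nat.zero_le n))

/-- PROOF.  `#Bt < #Th ≤ L 0 ≤ lam`. -/
theorem Bt_le (P : Par O J Bt Th lam L) : #Bt ≤ lam := by
  exact (P.Bt_lt.le.trans P.Th_le).trans (P.L_le 0)

/-- PROOF.  `#(w → Th) = #Th ^ #w ≤ (2 ^ L 0) ^ L n ≤ (2 ^ L n) ^ L n = 2 ^ (L n * L n) = 2 ^ L n ≤ lam`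
(`Cardinal.mul_eq_self`, `Cardinal.power_mul`; `#Th ≤ L 0 ≤ 2 ^ L 0`, `Cardinal.cantor`). -/
theorem Th_pow (P : Par O J Bt Th lam L) {n : ℕ} (w : Set J) (hw : #w ≤ L n) :
    #(w → Th) ≤ lam := by
  have hLn : ℵ₀ ≤ L n := P.L_aleph n
  have h1 : #Th ≤ 2 ^ L n :=
    (P.Th_le.trans (P.L_mono (Nat.zero_le n))).trans (Cardinal.cantor _).le
  have h2 : #(w → Th) = #Th ^ #w := by rw [Cardinal.power_def]
  rw [h2]
  calc #Th ^ #w ≤ (2 ^ L n) ^ #w := Cardinal.power_le_power_right h1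
    _ ≤ (2 ^ L n) ^ L n := by
        refine Cardinal.power_le_power_left ?_ hw
        exact (Cardinal.power_pos _ two_pos).ne'
    _ = 2 ^ L n := by rw [← Cardinal.power_mul, Cardinal.mul_eq_self hLn]
    _ ≤ lam := P.L_pow n

/-- PROOF.  `bdd` for the range of the constant family. -/
theorem exists_gt (P : Par O J Bt Th lam L) (a : O) : ∃ b, a < b := by
  obtain ⟨b, hb⟩ := P.bdd {a} (by
    rw [Cardinal.mk_singleton]
    exact (Cardinal.one_le_aleph0).trans P.aleph)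
  exact ⟨b, hb a rfl⟩

/-- PROOF.  Otherwise `#O ≤ lam`, and `bdd` for `univ` gives `b < b`. -/
theorem lt_O (P : Par O J Bt Th lam L) : lam < #O := by
  by_contra h
  obtain ⟨b, hb⟩ := P.bdd Set.univ (by rw [Cardinal.mk_univ]; exact not_lt.1 h)
  exact lt_irrefl b (hb b trivial)

/-- Least upper bounds.  PROOF.  The set of the upper bounds of `s` is nonempty by `bdd`; take its minimum
(`WellFounded.min`). -/
theorem exists_lub [WellFoundedLT O] (P : Par O J Bt Th lam L) {s : Set O} (hs : #s ≤ lam) :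
    ∃ b, IsLUB s b := by
  obtain ⟨b, hb⟩ := P.bdd s hs
  have hne : (upperBounds s).Nonempty := ⟨b, fun a ha => (hb a ha).le⟩
  refine ⟨(wellFounded_lt (α := O)).min (upperBounds s) hne,
    WellFounded.min_mem _ _ hne, fun y hy => ?_⟩
  exact not_lt.1 (WellFounded.not_lt_min _ _ hy)

/-- PROOF.  `Cardinal.mk_iUnion_le_sum_mk`, `Cardinal.sum_le_..`: `#(⋃ a, f a) ≤ #ι * lam ≤ lam * lam = lam`. -/
theorem mk_iUnion_le (P : Par O J Bt Th lam L) {ι : Type u} (hι : #ι ≤ lam) (f : ι → Set J)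
    (hf : ∀ a, #(f a) ≤ lam) : #(⋃ a, f a : Set J) ≤ lam := by
  refine (Cardinal.mk_iUnion_le f).trans ?_
  have h1 : ⨆ a, #(f a) ≤ lam := ciSup_le' hf
  calc #ι * ⨆ a, #(f a) ≤ lam * lam := mul_le_mul' hι h1
    _ = lam := Cardinal.mul_eq_self P.aleph

/-- PROOF.  `#(A ∪ B) ≤ #A + #B ≤ lam + lam = lam` (`Cardinal.mk_union_le`, `Cardinal.add_eq_self`). -/
theorem mk_union_le (P : Par O J Bt Th lam L) {A B : Set J} (hA : #A ≤ lam) (hB : #B ≤ lam) :
    #(A ∪ B : Set J) ≤ lam := by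
  refine (Cardinal.mk_union_le A B).trans ?_
  exact (add_le_add hA hB).trans (Cardinal.add_eq_self P.aleph).le

end Par

/-- A strictly increasing sequence has a supremum of cofinality `ω`.

PROOF.  Let `α` be the least upper bound of `{h n | n}` (`exists_lub`; the set is countable, so of size `≤ ℵ₀ ≤ lam`).
`h n < h (n + 1) ≤ α`, and for `y < α`, `y` is not an upper bound, so `y < h n` for some `n`. -/
theorem exists_sup_seq [WellFoundedLT O] (P : Par O J Bt Th lam L) (h : ℕ → O)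
    (hh : ∀ n, h n < h (n + 1)) :
    ∃ α, (∀ n, h n < α) ∧ (∀ y, y < α → ∃ n, y < h n) ∧ IsLUB (range h) α ∧ CofOm α ∧ IsLimPt α := by
  have hc : #(range h) ≤ lam :=
    (Cardinal.mk_le_aleph0_iff.2 (Set.countable_range h).to_subtype).trans P.aleph
  obtain ⟨α, hα⟩ := P.exists_lub hc
  have h1 : ∀ n, h n < α := fun n => lt_of_lt_of_le (hh n) (hα.1 ⟨n + 1, rfl⟩)
  have h2 : ∀ y, y < α → ∃ n, y < h n := by
    intro y hy
    by_contra hno
    push Not at hno
    refine absurd (hα.2 ?_) (not_le.2 hy)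
    rintro _ ⟨n, rfl⟩
    exact hno n
  refine ⟨α, h1, h2, hα, ⟨h, h1, h2⟩, ⟨h 0, h1 0⟩, fun y hy => ?_⟩
  obtain ⟨n, hn⟩ := h2 y hy
  exact ⟨h n, hn, h1 n⟩

/-- PROOF.  Let `x` be a supremum of a sequence `f n < x`.  `f 0 < x`, and for `y < x` there is `n` with `y < f n < x`. -/
theorem CofOm.isLimPt {x : O} (h : CofOm x) : IsLimPt x := by
  obtain ⟨f, h1, h2⟩ := h
  refine ⟨⟨f 0, h1 0⟩, fun y hy => ?_⟩
  obtain ⟨n, hn⟩ := h2 y hy
  exact ⟨f n, hn, h1 n⟩

/-- A cofinal set below a point of cofinality `ω` has an element above any `y < x`, in particular it is nonempty. -/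
theorem Cof.nonempty {C : Set O} {x : O} (h : Cof C x) (hx : IsLimPt x) : C.Nonempty := by
  obtain ⟨⟨y, hy⟩, -⟩ := hx
  obtain ⟨z, hz, -⟩ := h.2 y hy
  exact ⟨z, hz⟩

end CG
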