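import Mathlib

/-!
# MP_7dc84e_lc : transfinite towers (abstract lemmas)
-/

set_option autoImplicit false
set_option linter.unusedSectionVars false

universe u v

open Cardinal Set

namespace CG

/-- Construction of a tower along a well-order `A`.

PROOF.  `Q` is nonempty (assumed); fix `q₀ : Q`.  By well-founded recursion (`WellFounded.fix`, or
`WellFounded.recursion`, over `a : A`) define `q : A → Q`: given the values `q a'` for `a' < a` (extended by `q₀` to a
function on `A`), if there are `r`, `x` with `H (Iio a) r`, `∀ a' < a, le r (q a')`, `le x r`, `G a x`, then choose such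
`x` as `q a`, otherwise let `q a := q₀`.  Strong induction on `a` shows: `G a (q a)` and `∀ a' ≤ a, le (q a) (q a')`.
Indeed by the induction hypothesis the assumptions of `hlim` hold for `B = Iio a` and the function `q`; take `r` from
`hlim` and `x` from `hstep`, so the choice at `a` is of the first kind, and `le (q a) (q a')` for `a' < a` by
transitivity.  Finally apply `hlim` to `B = univ`. -/
theorem tower {Q : Type v} [Nonempty Q] (le : Q → Q → Prop) (hrefl : ∀ q, le q q)
    (htrans : ∀ {a b c}, le a b → le b c → le a c) {A : Type u} [LinearOrder A] [WellFoundedLT A]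
    (G : A → Q → Prop) (H : Set A → Q → Prop)
    (hlim : ∀ B : Set A, (∀ a ∈ B, ∀ a', a' < a → a' ∈ B) → ∀ q : A → Q,
      (∀ a ∈ B, G a (q a)) → (∀ a ∈ B, ∀ a', a' ≤ a → le (q a) (q a')) →
      ∃ r, H B r ∧ ∀ a ∈ B, le r (q a))
    (hstep : ∀ a r, H (Iio a) r → ∃ x, le x r ∧ G a x) :
    ∃ (r : Q) (q : A → Q), H univ r ∧ (∀ a, G a (q a)) ∧ ∀ a, le r (q a) := by
  classical
  obtain ⟨q₀⟩ := ‹Nonempty Q›
  let P : (a : A) → (A → Q) → Q → Prop := fun a f x =>
    ∃ r, H (Iio a) r ∧ (∀ a' < a, le r (f a')) ∧ le x r ∧ G a x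
  let stp : (a : A) → ((b : A) → b < a → Q) → Q := fun a ih =>
    if h : ∃ x, P a (fun b => if h : b < a then ih b h else q₀) x then h.choose else q₀
  let q : A → Q := (wellFounded_lt (α := A)).fix stp
  have hq : ∀ a, q a = stp a (fun b _ => q b) := fun a => (wellFounded_lt (α := A)).fix_eq stp a
  have key : ∀ a, G a (q a) ∧ ∀ a', a' ≤ a → le (q a) (q a') := by
    intro a
    induction a using (wellFounded_lt (α := A)).induction with
    | _ a ih =>
      obtain ⟨r, hr1, hr2⟩ := hlim (Iio a) (fun b hb a' ha' => ha'.trans hb) q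
        (fun b hb => (ih b hb).1) (fun b hb a' ha' => (ih b hb).2 a' ha')
      obtain ⟨x, hx1, hx2⟩ := hstep a r hr1
      have hex : ∃ x, P a (fun b => if _h : b < a then q b else q₀) x := by
        refine ⟨x, r, hr1, fun a' ha' => ?_, hx1, hx2⟩
        have h := hr2 a' ha'
        simpa only [dif_pos ha'] using h
      have hqa : q a = hex.choose := by
        rw [hq a]
        exact dif_pos hex
      obtain ⟨r', h1, h2, h3, h4⟩ := hex.choose_spec
      rw [← hqa] at h3 h4
      refine ⟨h4, fun a' ha' => ?_⟩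
      rcases ha'.lt_or_eq with h | h
      · have h5 := h2 a' h
        simp only [dif_pos h] at h5
        exact htrans h3 h5
      · rw [h]
        exact hrefl _
  obtain ⟨r, hr1, hr2⟩ := hlim univ (fun _ _ _ _ => mem_univ _) q (fun a _ => (key a).1)
    (fun a _ => (key a).2)
  exact ⟨r, q, hr1, fun a => (key a).1, fun a => hr2 a (mem_univ _)⟩

/-- Distributivity from closure.

PROOF.  Well-order `A` (e.g. transport along an equivalence of `A` with an ordinal, or
`exists_wellOrder`/`linearOrderOfSTO WellOrderingRel`).  Apply `tower` with `G a q := E a q ∧ le q q₀`,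
`H B q := le q q₀`.  `hlim`: if `B` is empty take `r = q₀`.  Otherwise apply `hcl` to the family `fun a : B => q a`
(`#B ≤ #A ≤ lam`; of two elements of the well-order one is `≤` the other, so the family is directed).  `hstep`: by
`hdense` there is `x` with `le x r`, `E a x`.  At the end, `r` satisfies `le r q₀` and `E a r` for all `a` (by `hopen` from
`E a (q a)`, `le r (q a)`). -/
theorem dist_abs {Q : Type v} (le : Q → Q → Prop) (hrefl : ∀ q, le q q)
    (htrans : ∀ {a b c}, le a b → le b c → le a c) (lam : Cardinal.{u})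
    (hcl : ∀ (ι : Type u) (f : ι → Q), #ι ≤ lam → Nonempty ι →
      (∀ a b, ∃ e, le (f e) (f a) ∧ le (f e) (f b)) → ∃ r, ∀ a, le r (f a))
    {A : Type u} (hA : #A ≤ lam) (E : A → Q → Prop) (hopen : ∀ a q r, E a q → le r q → E a r)
    (hdense : ∀ a q, ∃ r, le r q ∧ E a r) (q₀ : Q) : ∃ r, le r q₀ ∧ ∀ a, E a r := by
  classical
  have hne : Nonempty Q := ⟨q₀⟩
  obtain ⟨inst, hwf⟩ := exists_wellFoundedLT A
  obtain ⟨r, q, hr, hG, hle⟩ := tower le hrefl htrans (A := A) (fun a q => E a q ∧ le q q₀)
    (fun _ q => le q q₀) (by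
      intro B hB q hG hq
      by_cases hBe : B.Nonempty
      · obtain ⟨b, hb⟩ := hBe
        obtain ⟨r, hr⟩ := hcl B (fun a => q a) ((mk_set_le B).trans hA) ⟨⟨b, hb⟩⟩ (by
          intro x y
          rcases le_total x.1 y.1 with h | h
          · exact ⟨y, hq y.1 y.2 x.1 h, hrefl _⟩
          · exact ⟨x, hrefl _, hq x.1 x.2 y.1 h⟩)
        exact ⟨r, htrans (hr ⟨b, hb⟩) (hG b hb).2, fun a ha => hr ⟨a, ha⟩⟩
      · exact ⟨q₀, hrefl _, fun a ha => absurd ⟨a, ha⟩ hBe⟩)
    (by
      intro a r hr
      obtain ⟨x, hx, hE⟩ := hdense a r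
      exact ⟨x, hx, hE, htrans hx hr⟩)
  exact ⟨r, hr, fun a => hopen a _ _ (hG a).1 (hle a)⟩

end CG
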