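import Pool.Agent.W_MP_7dc84e_h31.Lim
import Pool.Agent.W_MP_7dc84e_h31.Mix
import Pool.Agent.W_MP_7dc84e_h31.Tower
import Pool.Agent.W_MP_7dc84e_h31.ParF

/-!
# MP_7dc84e_lc : closure and distributivity
-/

set_option autoImplicit false
set_option linter.unusedSectionVars false

universe u

open Cardinal Set

namespace CG

variable {O J Bt Th : Type u} [LinearOrder O] [LinearOrder J] [CompleteBooleanAlgebra Bt]
variable [WellFoundedLT O] [WellFoundedLT J]
variable {lam : Cardinal.{u}} {L : ℕ → Cardinal.{u}} {c : J → Nm O J Bt}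

/-- Directed families of size `≤ lam` have a lower bound.

PROOF.  Let `s` be the least upper bound of the heights (`Par.exists_lub`; the range has size `≤ #ι ≤ lam`,
`Cardinal.mk_range_le`).  Take `limR p s ⊥ ⊥`: `F_lim` with `LimOk` (first alternative) and `Par.mk_iUnion_le` for the
supports; it extends all `p a` by `ext_lim`; its support `⋃ a, (p a).W` is contained in `I`. -/
theorem PF_closed (P : Par O J Bt Th lam L) {I : Set J} {ι : Type u} (hι : #ι ≤ lam)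
    (p : ι → Raw O J Bt) (hp : ∀ a, PF lam c I (p a)) (hd : Dirx p) :
    ∃ r, PF lam c I r ∧ ∀ a, Ext ⊤ r (p a) := by
  obtain ⟨s, hs⟩ := P.exists_lub (s := range fun a => (p a).h) (Cardinal.mk_range_le.trans hι)
  have hok : LimOk p s (⊥ : Bt) ⊥ := ⟨fun a => hs.1 (mem_range_self a), Or.inl ⟨rfl, rfl⟩⟩
  refine ⟨limR p s ⊥ ⊥, ⟨F_lim (fun a => (hp a).1) hd
    (P.mk_iUnion_le hι _ fun a => (hp a).1.1.W_small) hs hok (fun h => absurd rfl h), ?_⟩,
    fun a => ext_lim (fun a => (hp a).1.1) hd hok a⟩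
  exact iUnion_subset fun a => (hp a).2

/-- Fewer than `lam⁺` dense open sets of conditions have a common element below any condition.

PROOF.  `dist_abs` for `Q = {p // PF lam c I p}`, `le q p := Ext ⊤ q.1 p.1` (`Ext.refl`, `Ext.trans`, `PF_closed`). -/
theorem PF_dist (P : Par O J Bt Th lam L) {I : Set J} {A : Type u} (hA : #A ≤ lam)
    (E : A → Raw O J Bt → Prop)
    (hopen : ∀ a p q, PF lam c I p → PF lam c I q → E a p → Ext ⊤ q p → E a q)
    (hdense : ∀ a p, PF lam c I p → ∃ q, PF lam c I q ∧ Ext ⊤ q p ∧ E a q) {p : Raw O J Bt}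
    (hp : PF lam c I p) : ∃ q, PF lam c I q ∧ Ext ⊤ q p ∧ ∀ a, E a q := by
  obtain ⟨r, hr, hE⟩ := dist_abs (Q := {p : Raw O J Bt // PF lam c I p})
    (fun q p => Ext ⊤ q.1 p.1) (fun q => Ext.refl _ _) (fun {_ _ _} h1 h2 => h1.trans h2) lam
    (fun ι f hι hne hdir => by
      obtain ⟨r, hr, hr'⟩ := PF_closed P hι (fun a => (f a).1) (fun a => (f a).2) ⟨hne, hdir⟩
      exact ⟨⟨r, hr⟩, hr'⟩)
    hA (fun a q => E a q.1) (fun a q r hq hrq => hopen a q.1 r.1 q.2 r.2 hq hrq)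
    (fun a q => by
      obtain ⟨r, hr, hrq, hE⟩ := hdense a q.1 q.2
      exact ⟨⟨r, hr⟩, hrq, hE⟩) ⟨p, hp⟩
  exact ⟨r.1, r.2, hr, hE⟩

/-- `E` is an open dense set of pairs `(b, u)` -/
structure OpenDense (lam : Cardinal.{u}) (c : J → Nm O J Bt) (I : Set J)
    (E : Bt → Raw O J Bt → Prop) : Prop where
  op : ∀ b u b' u', E b u → b' ≤ b → b' ≠ ⊥ → PF lam c I u' → Ext b' u' u → E b' u'
  de : ∀ b u, b ≠ ⊥ → PF lam c I u → ∃ b' u', b' ≤ b ∧ b' ≠ ⊥ ∧ PF lam c I u' ∧ Ext b' u' u ∧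
    E b' u'

/-- Deciding with values in the small algebra `Bt`: given `≤ lam` open dense sets of pairs, every condition `p` has an
extension `q` such that for every `a` the set of all `b` with `E a b q` is dense in `Bt`.

PROOF.  `PF_dist` with the index set `A × {b : Bt // b ≠ ⊥}` (size `≤ lam * lam = lam`, `Par.Bt_le`) and
`E' (a, b) u := ∃ b' ≤ b, b' ≠ ⊥ ∧ E a b' u`.  Open: if `E a b' u` and `Ext ⊤ q u`, then `E a b' q` by `OpenDense.op`
(`Ext.mono`).  Dense: given `u` with `PF lam c I u`, `OpenDense.de` gives `b' ≤ b`, `u'` with `Ext b' u' u`, `E a b' u'`.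
Take `q := mixR b' u' u` (`PF_mixR`, `ext_mixR_top`, `ext_mixR_left`): `Ext ⊤ q u` and `Ext b' q u'`, so `E a b' q` by
`OpenDense.op`. -/
theorem term_dense (P : Par O J Bt Th lam L) {I : Set J} {A : Type u} (hA : #A ≤ lam)
    (E : A → Bt → Raw O J Bt → Prop) (hE : ∀ a, OpenDense lam c I (E a)) {p : Raw O J Bt}
    (hp : PF lam c I p) :
    ∃ q, PF lam c I q ∧ Ext ⊤ q p ∧ ∀ a b, b ≠ ⊥ → ∃ b' ≤ b, b' ≠ ⊥ ∧ E a b' q := by
  have hcard : #(A × {b : Bt // b ≠ ⊥}) ≤ lam := by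
    rw [Cardinal.mk_prod, Cardinal.lift_id, Cardinal.lift_id]
    calc #A * #{b : Bt // b ≠ ⊥} ≤ lam * lam :=
          mul_le_mul' hA ((Cardinal.mk_subtype_le _).trans P.Bt_le)
      _ = lam := Cardinal.mul_eq_self P.aleph
  obtain ⟨q, hq, hqp, hE'⟩ := PF_dist P (I := I) hcard
    (fun x u => ∃ b' ≤ x.2.1, b' ≠ ⊥ ∧ E x.1 b' u)
    (fun x u q hu hq hE1 hqu => by
      obtain ⟨b', hb', hb'0, hE2⟩ := hE1
      exact ⟨b', hb', hb'0, (hE x.1).op b' u b' q hE2 le_rfl hb'0 hq (hqu.mono le_top)⟩)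
    (fun x u hu => by
      obtain ⟨b', u', hb', hb'0, hu', hext, hE2⟩ := (hE x.1).de x.2.1 u x.2.2 hu
      exact ⟨mixR b' u' u, PF_mixR P.aleph hu' hu.1 hext, ext_mixR_top hu.1.1 hext, b', hb', hb'0,
        (hE x.1).op b' u' b' _ hE2 le_rfl hb'0 (PF_mixR P.aleph hu' hu.1 hext)
          (ext_mixR_left b' u' u)⟩) hp
  exact ⟨q, hq, hqp, fun a b hb => hE' (a, ⟨b, hb⟩)⟩

end CG
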