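import Pool.Agent.W_MP_7dc84e_h31.LimX
import Pool.Agent.W_MP_7dc84e_h31.Dist

/-!
# MP_7dc84e_lc : the bad options
-/

set_option autoImplicit false
set_option linter.unusedSectionVars false

universe u

open Cardinal Set

namespace CG

variable {O J Bt Th : Type u} [LinearOrder O] [LinearOrder J] [CompleteBooleanAlgebra Bt]
variable [WellFoundedLT O] [WellFoundedLT J]
variable {lam : Cardinal.{u}} {L : ℕ → Cardinal.{u}} {c : J → Nm O J Bt}

/-- `(b, u)` decides the set given by the name `N` at `x`, or forces that no set is given. -/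
def DecN (N : Nm O J Bt) (Q : Raw O J Bt → Prop) (x : O) (b : Bt) (u : Raw O J Bt) : Prop :=
  (∃ b₁ r C, GoodT N Q b₁ r x C ∧ b ≤ b₁ ∧ Ext b u r) ∨
    ∀ b₁ r C, GoodT N Q b₁ r x C → ∀ b' u', b' ≤ b → b' ≠ ⊥ → Q u' → Ext b' u' u → b' ≤ b₁ →
      ¬ Ext b' u' r

/-- PROOF.  Open: if the first alternative holds for `(b, u)`, it holds for all extensions `(b', u')` (`Ext.mono`,
`Ext.trans`); the same is true for the second one.  Dense: given `(b, u)`; if the second alternative fails for `(b, u)`,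
there are a good triple and `(b', u')` with `b' ≤ b`, `b' ≠ ⊥`, `Q u'`, `Ext b' u' u`, `b' ≤ b₁`, `Ext b' u' r`; then the
first alternative holds for `(b', u')`. -/
theorem openDense_decN (N : Nm O J Bt) (x : O) (I : Set J) :
    OpenDense lam c I (DecN N (PF lam c I) x) := by
  refine ⟨?_, ?_⟩
  · intro b u b' u' hE hb hb0 hu' hext
    rcases hE with ⟨b₁, r, C, hG, h1, h2⟩ | h
    · exact Or.inl ⟨b₁, r, C, hG, hb.trans h1, hext.trans (h2.mono hb)⟩
    · refine Or.inr fun b₁ r C hG b'' u'' g1 g2 g3 g4 g5 => ?_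
      exact h b₁ r C hG b'' u'' (g1.trans hb) g2 g3 (g4.trans (hext.mono g1)) g5
  · intro b u hb hu
    by_cases h : ∀ b₁ r C, GoodT N (PF lam c I) b₁ r x C → ∀ b' u', b' ≤ b → b' ≠ ⊥ →
        PF lam c I u' → Ext b' u' u → b' ≤ b₁ → ¬ Ext b' u' r
    · exact ⟨b, u, le_rfl, hb, hu, Ext.refl _ _, Or.inr h⟩
    · push Not at h
      obtain ⟨b₁, r, C, hG, b', u', g1, g2, g3, g4, g5, g6⟩ := h
      exact ⟨b', u', g1, g2, g3, g4, Or.inl ⟨b₁, r, C, hG, g5, g6⟩⟩

/-- The options at the coordinate `j` which are excluded by `q`. -/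
def BadO (c : J → Nm O J Bt) (lam : Cardinal.{u}) (X : ℕ → Sys O J Bt Th) (α : O) (t : J → Th)
    (j : J) (q : Raw O J Bt) : Set Th :=
  {θ | ∃ b, b ≠ ⊥ ∧ ∃ b₁ r C, GoodT (c j) (PF lam c (Iio j)) b₁ r α C ∧ b ≤ b₁ ∧ Ext b q r ∧
    ∀ y ∈ C, b ≤ (limX X α (Function.update t j θ)).d j y ⊓
      (limX X α (Function.update t j θ)).T y}

/-- There are at most `#Bt` bad options.

PROOF.  For `θ` bad choose `b(θ)` (with `b₁ r C`).  The map `θ ↦ b(θ)` is injective on `BadO`: let `θ ≠ θ'` with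
`b := b(θ) = b(θ')`, with triples `(b₁, r, C)`, `(b₁', r', C')`.  Since `Ext b q r`, `Ext b q r'`, `b ≠ ⊥`, `b ≤ b₁, b₁'` and
`PF lam c (Iio j) q`, we get `C' = C` (`GoodT.uniq`; it needs `((b₁', r'), α, C') ∈ N`, `Q r'` which are the fields of the
second triple).  Let `g < α` be as in `limX_dis`; `Cof C α` gives `y ∈ C` with `g < y < α`, and
`b ≤ d_θ j y ⊓ d_θ' j y ⊓ T y = ⊥` by `limX_dis` (with `t := update t j θ`, `t' := update t j θ'`, which agree below `j` and
differ at `j`).  Contradiction.  So `#BadO ≤ #Bt` (`Cardinal.mk_le_of_injective`). -/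
theorem mk_badO_le {w : ℕ → Set J} {X : ℕ → Sys O J Bt Th} {α : O} (hS : SeqD lam c w X α)
    {j : J} (hj : j ∈ ⋃ n, (X n).W) (t : J → Th) {q : Raw O J Bt} (hq : PF lam c (Iio j) q) :
    #(BadO c lam X α t j q) ≤ #Bt := by
  have h : ∀ θ : BadO c lam X α t j q, ∃ b, b ≠ ⊥ ∧ ∃ b₁ r C,
      GoodT (c j) (PF lam c (Iio j)) b₁ r α C ∧ b ≤ b₁ ∧ Ext b q r ∧
      ∀ y ∈ C, b ≤ (limX X α (Function.update t j θ.1)).d j y ⊓
        (limX X α (Function.update t j θ.1)).T y := fun θ => θ.2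
  choose f hf using h
  refine Cardinal.mk_le_of_injective (f := f) ?_
  intro θ θ' hfe
  by_contra hne
  obtain ⟨hb0, b₁, r, C, hG, hbb, hext, hval⟩ := hf θ
  obtain ⟨-, b₁', r', C', hG', hbb', hext', hval'⟩ := hf θ'
  rw [← hfe] at hbb' hext' hval'
  have hC : C' = C := hG.uniq b₁' r' C' hG'.mem hG'.q (f θ) q hb0 hbb hbb' hq hext hext'
  obtain ⟨g, hg, hdis⟩ := limX_dis hS hj
  obtain ⟨y, hyC, hgy⟩ := hG.cof.2 g hg
  have hyα : y < α := hG.cof.1 y hyC
  have h1 := hdis (Function.update t j θ.1) (Function.update t j θ'.1)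
    (fun i _ hi => by
      rw [Function.update_of_ne hi.ne, Function.update_of_ne hi.ne])
    (by
      rw [Function.update_self, Function.update_self]
      exact fun h => hne (Subtype.ext h)) y hgy hyα
  have h2 := hval y hyC
  have h3 := hval' y (by rw [hC]; exact hyC)
  apply hb0
  rw [eq_bot_iff, ← h1]
  exact le_inf (le_inf (h2.trans inf_le_left) (h3.trans inf_le_left)) (h2.trans inf_le_right)

end CG
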