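import Pool.Agent.W_MP_7dc84e_h31.Defs

/-!
# MP_7dc84e_lc : elementary facts about conditions
-/

set_option autoImplicit false
set_option linter.unusedSectionVars false

universe u

open Cardinal Set

namespace CG

variable {O J Bt Th : Type u} [LinearOrder O] [LinearOrder J] [CompleteBooleanAlgebra Bt]

/-! ### Extension -/

theorem Ext.refl (b : Bt) (p : Raw O J Bt) : Ext b p p :=
  ⟨le_rfl, subset_rfl, fun _ _ => rfl, fun _ _ => rfl, fun _ _ _ _ => rfl⟩

theorem Ext.trans {b : Bt} {r q p : Raw O J Bt} (h1 : Ext b r q) (h2 : Ext b q p) : Ext b r p :=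
  ⟨h2.h.trans h1.h, h2.W.trans h1.W, fun x hx => (h1.S x (hx.trans h2.h)).trans (h2.S x hx),
    fun x hx => (h1.T x (hx.trans h2.h)).trans (h2.T x hx),
    fun j hj x hx => (h1.d j (h2.W hj) x (hx.trans h2.h)).trans (h2.d j hj x hx)⟩

theorem inf_eq_mono {b b' x y : Bt} (hb : b' ≤ b) (h : b ⊓ x = b ⊓ y) : b' ⊓ x = b' ⊓ y := by
  rw [← inf_eq_left.2 hb, inf_assoc, h, ← inf_assoc]

theorem Ext.mono {b b' : Bt} {q p : Raw O J Bt} (h : Ext b q p) (hb : b' ≤ b) : Ext b' q p :=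
  ⟨h.h, h.W, fun x hx => inf_eq_mono hb (h.S x hx), fun x hx => inf_eq_mono hb (h.T x hx),
    fun j hj x hx => inf_eq_mono hb (h.d j hj x hx)⟩

theorem Ext.S_eq {q p : Raw O J Bt} (h : Ext ⊤ q p) {x : O} (hx : x ≤ p.h) : q.S x = p.S x := by
  simpa using h.S x hx

theorem Ext.T_eq {q p : Raw O J Bt} (h : Ext ⊤ q p) {x : O} (hx : x ≤ p.h) : q.T x = p.T x := by
  simpa using h.T x hx

theorem Ext.d_eq {q p : Raw O J Bt} (h : Ext ⊤ q p) {j : J} (hj : j ∈ p.W) {x : O} (hx : x ≤ p.h) :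
    q.d j x = p.d j x := by
  simpa using h.d j hj x hx

/-- `Ext` below a join. -/
theorem Ext.iSup {ι : Type*} {b : ι → Bt} {q p : Raw O J Bt} (hι : Nonempty ι)
    (h : ∀ i, Ext (b i) q p) : Ext (⨆ i, b i) q p := by
  obtain ⟨i0⟩ := hι
  refine ⟨(h i0).h, (h i0).W, fun x hx => ?_, fun x hx => ?_, fun j hj x hx => ?_⟩ <;>
    rw [iSup_inf_eq, iSup_inf_eq]
  · exact iSup_congr fun i => (h i).S x hx
  · exact iSup_congr fun i => (h i).T x hx
  · exact iSup_congr fun i => (h i).d j hj x hx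

/-! ### Restriction -/

@[simp] theorem res_h (p : Raw O J Bt) (I : Set J) : (p.res I).h = p.h := rfl
@[simp] theorem res_S (p : Raw O J Bt) (I : Set J) : (p.res I).S = p.S := rfl
@[simp] theorem res_T (p : Raw O J Bt) (I : Set J) : (p.res I).T = p.T := rfl
@[simp] theorem res_W (p : Raw O J Bt) (I : Set J) : (p.res I).W = p.W ∩ I := rfl

theorem res_d_of {p : Raw O J Bt} {I : Set J} {j : J} (hj : j ∈ I) : (p.res I).d j = p.d j := by
  funext x
  simp [Raw.res, hj]

theorem res_d_not {p : Raw O J Bt} {I : Set J} {j : J} (hj : j ∉ I) (x : O) :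
    (p.res I).d j x = ⊥ := by
  simp [Raw.res, hj]

theorem Raw.ext' {p q : Raw O J Bt} (h : p.h = q.h) (hS : p.S = q.S) (hT : p.T = q.T)
    (hW : p.W = q.W) (hd : p.d = q.d) : p = q := by
  cases p
  cases q
  simp only at h hS hT hW hd
  subst h hS hT hW hd
  rfl

theorem res_res (p : Raw O J Bt) (I I' : Set J) : (p.res I).res I' = p.res (I ∩ I') := by
  refine Raw.ext' rfl rfl rfl ?_ ?_
  · simp [inter_assoc]
  · funext j x
    by_cases h1 : j ∈ I <;> by_cases h2 : j ∈ I' <;> simp [Raw.res, h1, h2]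

theorem res_of_sub {lam : Cardinal.{u}} {p : Raw O J Bt} (hp : Basic lam p) {I : Set J}
    (h : p.W ⊆ I) : p.res I = p := by
  refine Raw.ext' rfl rfl rfl ?_ ?_
  · simpa using h
  · funext j x
    by_cases h1 : j ∈ I
    · rw [res_d_of h1]
    · rw [res_d_not h1, hp.d_out j (fun h2 => h1 (h h2))]

/-- The restriction of an extension. -/
theorem Ext.res {b : Bt} {q p : Raw O J Bt} (h : Ext b q p) (I : Set J) :
    Ext b (q.res I) (p.res I) := by
  refine ⟨h.h, inter_subset_inter_left _ h.W, h.S, h.T, ?_⟩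
  rintro j ⟨hj, hI⟩ x hx
  rw [res_d_of hI, res_d_of hI]
  exact h.d j hj x hx

theorem ext_res_self (b : Bt) (p : Raw O J Bt) (I : Set J) : Ext b p (p.res I) := by
  refine ⟨le_rfl, inter_subset_left, fun _ _ => rfl, fun _ _ => rfl, ?_⟩
  rintro j ⟨_, hI⟩ x _
  rw [res_d_of hI]

theorem Ext.res_left {b : Bt} {q p : Raw O J Bt} {I : Set J} (h : Ext b q p) (hp : p.W ⊆ I) :
    Ext b (q.res I) p := by
  refine ⟨h.h, fun j hj => ⟨h.W hj, hp hj⟩, h.S, h.T, ?_⟩
  intro j hj x hx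
  rw [res_d_of (hp hj)]
  exact h.d j hj x hx

theorem basic_res {lam : Cardinal.{u}} {p : Raw O J Bt} (hp : Basic lam p) (I : Set J) :
    Basic lam (p.res I) := by
  refine ⟨hp.S_hi, hp.S_cof, hp.T_hi, hp.T_lim, ?_, ?_, ?_, ?_, ?_⟩
  · exact (mk_le_mk_of_subset inter_subset_left).trans hp.W_small
  · intro j hj x
    by_cases hI : j ∈ I
    · rw [res_d_of hI]
      exact hp.d_out j (fun h => hj ⟨h, hI⟩) x
    · exact res_d_not hI x
  · intro j x hx
    by_cases hI : j ∈ I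
    · rw [res_d_of hI]
      exact hp.d_hi j x hx
    · exact res_d_not hI x
  · rintro j ⟨hj, hI⟩
    rw [res_d_of hI]
    exact hp.d_top j hj
  · intro j x hx
    by_cases hI : j ∈ I
    · rw [res_d_of hI]
      exact hp.d_cl j x hx
    · obtain ⟨⟨y, hy⟩, -⟩ := hx
      refine (iInf_le _ ⟨y, hy⟩).trans (iSup_le fun z => ?_)
      rw [res_d_not hI]
      exact bot_le

/-- The values of `S` persist. -/
theorem Ext.le_S {lam : Cardinal.{u}} {b : Bt} {q p : Raw O J Bt} (h : Ext b q p)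
    (hp : Basic lam p) {a : Bt} (hab : a ≤ b) {x : O} (ha : a ≤ p.S x) : a ≤ q.S x := by
  by_cases hx : x ≤ p.h
  · have h1 := inf_eq_mono hab (h.S x hx)
    rw [inf_eq_left.2 ha] at h1
    exact inf_eq_left.1 h1
  · rw [hp.S_hi x (not_le.1 hx)] at ha
    exact ha.trans bot_le

theorem Ext.le_T {lam : Cardinal.{u}} {b : Bt} {q p : Raw O J Bt} (h : Ext b q p)
    (hp : Basic lam p) {a : Bt} (hab : a ≤ b) {x : O} (ha : a ≤ p.T x) : a ≤ q.T x := by
  by_cases hx : x ≤ p.h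
  · have h1 := inf_eq_mono hab (h.T x hx)
    rw [inf_eq_left.2 ha] at h1
    exact inf_eq_left.1 h1
  · rw [hp.T_hi x (not_le.1 hx)] at ha
    exact ha.trans bot_le

theorem Ext.le_d {lam : Cardinal.{u}} {b : Bt} {q p : Raw O J Bt} (h : Ext b q p)
    (hp : Basic lam p) {a : Bt} (hab : a ≤ b) {j : J} {x : O} (ha : a ≤ p.d j x) : a ≤ q.d j x := by
  by_cases hx : x ≤ p.h
  · by_cases hj : j ∈ p.W
    · have h1 := inf_eq_mono hab (h.d j hj x hx)
      rw [inf_eq_left.2 ha] at h1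
      exact inf_eq_left.1 h1
    · rw [hp.d_out j hj] at ha
      exact ha.trans bot_le
  · rw [hp.d_hi j x (not_le.1 hx)] at ha
    exact ha.trans bot_le

/-! ### The requirement at a coordinate -/

variable [WellFoundedLT J] {lam : Cardinal.{u}} {c : J → Nm O J Bt}

theorem F.basic {p : Raw O J Bt} (h : F lam c p) : Basic lam p := h.1

theorem PF.basic {p : Raw O J Bt} {I : Set J} (h : PF lam c I p) : Basic lam p := h.1.1

theorem at_iff {k : J} {p : Raw O J Bt} :
    At lam c k p ↔ Kil (c k) (PF lam c (Iio k)) (Iio k) k p := by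
  have h1 : (fun r : Raw O J Bt => Basic lam r ∧ ∀ i ∈ r.W, ∃ _ : i < k, At lam c i r)
      = PF lam c (Iio k) := by
    funext r
    refine propext ⟨fun h => ⟨⟨h.1, fun i hi => (h.2 i hi).2⟩, fun i hi => (h.2 i hi).1⟩,
      fun h => ⟨h.1.1, fun i hi => ⟨h.2 hi, h.1.2 i hi⟩⟩⟩
  rw [← h1]
  unfold At
  rw [WellFounded.fix_eq]

/-- The requirement at `k` for a restriction. -/
theorem at_res {k : J} {I : Set J} (hI : IsIn I) (hk : k ∈ I) {p : Raw O J Bt} :
    At lam c k (p.res I) ↔ At lam c k p := by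
  have h1 : (p.res I).res (Iio k) = p.res (Iio k) := by
    rw [res_res, inter_eq_right.2 (show Iio k ⊆ I from fun i hi => hI k hk i hi)]
  rw [at_iff, at_iff]
  unfold Kil
  rw [h1, res_d_of hk]
  rfl

theorem F_res {I : Set J} (hI : IsIn I) {p : Raw O J Bt} (hp : F lam c p) :
    PF lam c I (p.res I) :=
  ⟨⟨basic_res hp.1 I, fun _ hk => (at_res hI hk.2).2 (hp.2 _ hk.1)⟩, inter_subset_right⟩

theorem isIn_Iio (j : J) : IsIn (Iio j) := fun _ hi _ hk => hk.trans hi

theorem isIn_Iic (j : J) : IsIn (Iic j) := fun _ hi _ hk => (hk.le.trans hi : _ ≤ _)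

theorem isIn_univ : IsIn (univ : Set J) := fun _ _ _ _ => mem_univ _

end CG
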