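import Pool.Agent.W_MP_7dc84e_h31.Defs

/-!
# MP_7dc84e_lc : the bookkeeping
-/

set_option autoImplicit false
set_option linter.unusedSectionVars false

universe u

open Cardinal Set

namespace CG

private theorem bk_raw_ext {O J Bt : Type u} {p q : Raw O J Bt} (h : p.h = q.h) (hS : p.S = q.S)
    (hT : p.T = q.T) (hW : p.W = q.W) (hd : p.d = q.d) : p = q := by
  cases p
  cases q
  simp only at h hS hT hW hd
  subst h hS hT hW hd
  rfl

private theorem bk_mul_le {θ a b : Cardinal.{u}} (hθ : ℵ₀ ≤ θ) (ha : a ≤ θ) (hb : b ≤ θ) :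
    a * b ≤ θ := (mul_le_mul' ha hb).trans (mul_eq_self hθ).le

private theorem bk_small {κ θ : Cardinal.{u}} (hθ : ℵ₀ ≤ θ) (hθκ : θ ^ κ = θ) (A : Type u)
    (hA : #A ≤ θ) : #{s : Set A // #s ≤ κ} ≤ θ :=
  (mk_bounded_set_le A κ).trans ((power_le_power_right (max_le hA hθ)).trans hθκ.le)

/-- the number of the basic raws -/
private theorem bk_raws (O J Bt : Type u) [LinearOrder O] [LinearOrder J]
    [CompleteBooleanAlgebra Bt] (lam κ θ : Cardinal.{u}) (hθ : ℵ₀ ≤ θ) (hθκ : θ ^ κ = θ)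
    (hlk : lam ≤ κ) (hO : #O ≤ θ) (hOB : #(O → Bt) ≤ θ) (hJ : #J ≤ θ) :
    #{r : Raw O J Bt // Basic lam r} ≤ θ := by
  have hsz : ∀ r : {r : Raw O J Bt // Basic lam r}, #r.1.W ≤ κ := fun r => r.2.W_small.trans hlk
  let enc : {r : Raw O J Bt // Basic lam r} → O × (O → Bt) × (O → Bt) × {s : Set J // #s ≤ κ} ×
      {s : Set (J × (O → Bt)) // #s ≤ κ} := fun r =>
    (r.1.h, r.1.S, r.1.T, ⟨r.1.W, hsz r⟩,
      ⟨(fun j => (j, r.1.d j)) '' r.1.W, mk_image_le.trans (hsz r)⟩)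
  have hinj : Function.Injective enc := by
    intro r r' h
    simp only [enc, Prod.mk.injEq, Subtype.mk.injEq] at h
    obtain ⟨h1, h2, h3, h4, h5⟩ := h
    refine Subtype.ext (bk_raw_ext h1 h2 h3 h4 ?_)
    funext j x
    by_cases hj : j ∈ r.1.W
    · have hm : (j, r.1.d j) ∈ (fun j => (j, r'.1.d j)) '' r'.1.W := by
        rw [← h5]
        exact ⟨j, hj, rfl⟩
      obtain ⟨k, hk, he⟩ := hm
      simp only [Prod.mk.injEq] at he
      rw [← he.2, he.1]
    · have hj' : j ∉ r'.1.W := by rw [← h4]; exact hj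
      rw [r.2.d_out j hj, r'.2.d_out j hj']
  refine (mk_le_of_injective hinj).trans ?_
  simp only [mk_prod, lift_id]
  have e1 := bk_small hθ hθκ J hJ
  have e2 := bk_small (κ := κ) hθ hθκ (J × (O → Bt)) (by
    rw [mk_prod, lift_id, lift_id]
    exact bk_mul_le hθ hJ hOB)
  exact bk_mul_le hθ hO (bk_mul_le hθ hOB (bk_mul_le hθ hOB (bk_mul_le hθ e1 e2)))

/-- the number of the names -/
private theorem bk_names (O J Bt : Type u) [LinearOrder O] [LinearOrder J]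
    [CompleteBooleanAlgebra Bt] (lam κ θ : Cardinal.{u}) (hθ : ℵ₀ ≤ θ) (hθκ : θ ^ κ = θ)
    (hlk : lam ≤ κ) (hO : #O ≤ θ) (hsO : #(Set O) ≤ θ) (hB : #Bt ≤ θ) (hOB : #(O → Bt) ≤ θ)
    (hJ : #J ≤ θ) :
    #{N : Nm O J Bt // #N ≤ κ ∧ ∀ t ∈ N, Basic lam t.1.2} ≤ θ := by
  have hr := bk_raws O J Bt lam κ θ hθ hθκ hlk hO hOB hJ
  let f : (Bt × {r : Raw O J Bt // Basic lam r}) × O × Set O → (Bt × Raw O J Bt) × O × Set O :=
    fun t => ((t.1.1, t.1.2.1), t.2)
  have hf : Function.Injective f := by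
    rintro ⟨⟨b, r⟩, x⟩ ⟨⟨b', r'⟩, x'⟩ h
    simp only [f, Prod.mk.injEq] at h
    obtain ⟨⟨h1, h2⟩, h3⟩ := h
    simp only [Prod.mk.injEq]
    exact ⟨⟨h1, Subtype.ext h2⟩, h3⟩
  let enc : {N : Nm O J Bt // #N ≤ κ ∧ ∀ t ∈ N, Basic lam t.1.2} →
      {s : Set ((Bt × {r : Raw O J Bt // Basic lam r}) × O × Set O) // #s ≤ κ} := fun N =>
    ⟨f ⁻¹' N.1, (mk_preimage_of_injective f N.1 hf).trans N.2.1⟩
  have hinj : Function.Injective enc := by
    intro N N' h
    simp only [enc, Subtype.mk.injEq] at h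
    apply Subtype.ext
    have key : ∀ M : {N : Nm O J Bt // #N ≤ κ ∧ ∀ t ∈ N, Basic lam t.1.2},
        f '' (f ⁻¹' M.1) = M.1 := by
      intro M
      rw [image_preimage_eq_inter_range, inter_eq_left]
      rintro ⟨⟨b, r⟩, x⟩ ht
      exact ⟨((b, ⟨r, M.2.2 _ ht⟩), x), rfl⟩
    rw [← key N, ← key N', h]
  refine (mk_le_of_injective hinj).trans (bk_small hθ hθκ _ ?_)
  simp only [mk_prod, lift_id]
  exact bk_mul_le hθ (bk_mul_le hθ hB hr) (bk_mul_le hθ hO hsO)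

/-- The bookkeeping.

PROOF.  Let `κ := 2 ^ lam`, `θ := 2 ^ κ`, so `θ ^ κ = θ`, `κ < θ.ord.cof` (`Cardinal.lt_cof_power`/König), and let
`J := θ.ord.toType`, with its well-order; `#J = θ`, every initial segment `Iio j` has size `< θ`
(`Ordinal.mk_Iio_ord_toType` or similar), and every subset of size `≤ κ` is bounded (`κ < cof θ.ord`), in fact strictly,
as `J` has no maximum.  Let `𝒩` be the type of the names `N : Nm O J Bt` with `#N ≤ κ` and `Basic lam t.1.2` for all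
`t ∈ N`.  Claim: `#𝒩 ≤ θ`.  The number of raws `r` with `Basic lam r` is at most
`#O * (#Bt ^ #O) * (#Bt ^ #O) * (number of pairs (W, d))`, where `W ⊆ J` has size `≤ lam` (at most `θ ^ lam = θ` many, each is
empty or the range of a function `lam.out → J`) and `d` is determined by its restriction to `W` (`d_out`):
at most `(#(O → Bt)) ^ lam ≤ (κ ^ κ) ^ lam = θ` many.  Alternatively: the map `r ↦ (r.h, r.S, r.T, r.W, {(j, r.d j) | j ∈ r.W})`
is injective on basic raws, and the last two entries are subsets of size `≤ lam` of sets of size `≤ θ`.  With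
`#Bt ≤ lam`, `#O ≤ κ`, `#(Set O) ≤ 2 ^ κ = θ` the number of the triples `((b, r), x, C)` is `≤ θ`, and the number of the sets of
size `≤ κ` of triples is `≤ θ ^ κ = θ`.  As `𝒩` is nonempty (`∅`), there is a surjection `f : J → 𝒩 × J`
(`#(𝒩 × J) ≤ θ = #J`).  Let `c i := (f i).1`.  Let `N`, `i` be given.  The set `{j | (f j).1 = N}` has size `≥ θ` (it is mapped
onto `J` by `j ↦ (f j).2`), so it is not contained in `Iio i`. -/
theorem exists_bk (O Bt : Type u) [LinearOrder O] [CompleteBooleanAlgebra Bt]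
    (lam : Cardinal.{u}) (hl : ℵ₀ ≤ lam) (hO : #O ≤ 2 ^ lam) (hBt : #Bt ≤ lam) :
    ∃ (J : Type u) (_ : LinearOrder J) (_ : WellFoundedLT J) (c : J → Nm O J Bt),
      (∀ s : Set J, #s ≤ 2 ^ lam → ∃ j, ∀ i ∈ s, i < j) ∧
      ∀ N : Nm O J Bt, #N ≤ 2 ^ lam → (∀ t ∈ N, Basic lam t.1.2) → ∀ i, ∃ j, i ≤ j ∧ c j = N := by
  obtain ⟨κ, hκd⟩ : ∃ κ : Cardinal.{u}, κ = 2 ^ lam := ⟨_, rfl⟩
  obtain ⟨θ, hθd⟩ : ∃ θ : Cardinal.{u}, θ = 2 ^ κ := ⟨_, rfl⟩
  have hlk : lam ≤ κ := by rw [hκd]; exact (cantor lam).le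
  have hκ : ℵ₀ ≤ κ := hl.trans hlk
  have hkθ : κ ≤ θ := by rw [hθd]; exact (cantor κ).le
  have hθ : ℵ₀ ≤ θ := hκ.trans hkθ
  have hθκ : θ ^ κ = θ := by rw [hθd, ← power_mul, mul_eq_self hκ]
  have hcof : κ < θ.ord.cof := by
    rw [hθd]
    exact lt_cof_ord_power hκ one_lt_two
  rw [← hκd] at hO ⊢
  have hB : #Bt ≤ θ := hBt.trans (hlk.trans hkθ)
  have hOθ : #O ≤ θ := hO.trans hkθ
  have hsO : #(Set O) ≤ θ := by
    rw [mk_set, hθd]
    exact power_le_power_left two_ne_zero hO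
  have hOB : #(O → Bt) ≤ θ := by
    have h1 : #(O → Bt) = #Bt ^ #O := by simp
    rw [h1]
    have h2 : #Bt ^ #O ≤ κ ^ #O := power_le_power_right (hBt.trans hlk)
    have h3 : κ ^ #O ≤ κ ^ κ := power_le_power_left (by
      rintro rfl
      exact absurd hκ (not_le.2 aleph0_pos)) hO
    have h4 : κ ^ κ ≤ θ ^ κ := power_le_power_right hkθ
    exact (h2.trans h3).trans (h4.trans hθκ.le)
  have hJ : #θ.ord.ToType = θ := mk_ord_toType θ
  have hN := bk_names O θ.ord.ToType Bt lam κ θ hθ hθκ hlk hOθ hsO hB hOB hJ.le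
  have hne : Nonempty ({N : Nm O θ.ord.ToType Bt // #N ≤ κ ∧ ∀ t ∈ N, Basic lam t.1.2} ×
      θ.ord.ToType) := by
    refine ⟨⟨⟨∅, ?_, ?_⟩, ?_⟩⟩
    · rw [mk_eq_zero]
      exact zero_le
    · intro t ht
      exact absurd ht (notMem_empty t)
    · have : #θ.ord.ToType ≠ 0 := by
        rw [hJ]
        rintro h
        rw [h] at hθ
        exact absurd hθ (not_le.2 aleph0_pos)
      exact (mk_ne_zero_iff.1 this).some
  have hle : #({N : Nm O θ.ord.ToType Bt // #N ≤ κ ∧ ∀ t ∈ N, Basic lam t.1.2} × θ.ord.ToType) ≤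
      #θ.ord.ToType := by
    rw [mk_prod, lift_id, lift_id, hJ]
    exact bk_mul_le hθ hN le_rfl
  obtain ⟨g⟩ := (Cardinal.le_def _ _).1 hle
  obtain ⟨f, hf⟩ : ∃ f : θ.ord.ToType →
      ({N : Nm O θ.ord.ToType Bt // #N ≤ κ ∧ ∀ t ∈ N, Basic lam t.1.2} × θ.ord.ToType),
      Function.Surjective f :=
    ⟨Function.invFun g, Function.invFun_surjective g.injective⟩
  refine ⟨θ.ord.ToType, inferInstance, inferInstance, fun j => (f j).1.1, ?_, ?_⟩
  · intro s hs
    by_contra hn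
    push Not at hn
    have hc : IsCofinal s := fun j => by
      obtain ⟨i, hi, hij⟩ := hn j
      exact ⟨i, hi, hij⟩
    have h1 := Order.cof_le hc
    rw [Ordinal.cof_toType] at h1
    exact absurd (hcof.trans_le (h1.trans hs)) (lt_irrefl _)
  · intro N hN1 hN2 i
    by_contra hn
    push Not at hn
    have hsub : {j | (f j).1 = ⟨N, hN1, hN2⟩} ⊆ Iio i := by
      intro j hj
      by_contra hij
      refine hn j (not_lt.1 hij) ?_
      have hj' : (f j).1 = ⟨N, hN1, hN2⟩ := hj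
      rw [hj']
    have h1 : #(Iio i) < θ := by
      have := mk_Iio_lt i (by rw [hJ, Ordinal.type_toType])
      rwa [hJ] at this
    have h2 : θ ≤ #{j | (f j).1 = ⟨N, hN1, hN2⟩} := by
      have h3 : Function.Surjective (fun j : {j | (f j).1 = ⟨N, hN1, hN2⟩} => (f j.1).2) := by
        intro k
        obtain ⟨j, hj⟩ := hf (⟨N, hN1, hN2⟩, k)
        exact ⟨⟨j, by show (f j).1 = _; rw [hj]⟩, by show (f j).2 = k; rw [hj]⟩
      have h4 := mk_le_of_surjective h3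
      rwa [hJ] at h4
    exact absurd (h2.trans (mk_le_mk_of_subset hsub)) (not_le.2 h1)

end CG
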