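import Pool.Agent.W_MP_7dc84e_h31.BranchOk

/-!
# MP_7dc84e_lc : the branch through the systems
-/

set_option autoImplicit false
set_option linter.unusedSectionVars false

universe u

open Cardinal Set

namespace CG

variable {O J Bt Th : Type u} [LinearOrder O] [LinearOrder J] [CompleteBooleanAlgebra Bt]
variable [WellFoundedLT O] [WellFoundedLT J]
variable {lam : Cardinal.{u}} {L : ℕ → Cardinal.{u}} {c : J → Nm O J Bt}

/-- One step of the construction of the branch.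

PROOF.  `term_dense` (for the index set `PUnit`) and `openDense_decN` give an extension `q₁` of `q` in `PF lam c (Iio j)`
with the property `hdec` of `branch_ok`.  Since `#(BadO ..) ≤ #Bt < #Th`, there is `θ ∉ BadO c lam X α t j q₁`.  Apply
`branch_ok` to `q₁`. -/
theorem branch_step (P : Par O J Bt Th lam L) {w : ℕ → Set J} {X : ℕ → Sys O J Bt Th} {α : O}
    (hS : SeqD lam c w X α) {j : J} (hj : j ∈ ⋃ n, (X n).W) (t : J → Th) {q : Raw O J Bt}
    (hq : PF lam c (Iio j) q) (hext : Ext ⊤ q ((limX X α t).res (Iio j))) :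
    ∃ (θ : Th) (q' : Raw O J Bt), PF lam c (Iic j) q' ∧ Ext ⊤ q' q ∧
      Ext ⊤ q' ((limX X α (Function.update t j θ)).res (Iic j)) := by
  have h1 : #(PUnit.{u + 1}) ≤ lam := by
    rw [Cardinal.mk_punit]
    exact Cardinal.one_le_aleph0.trans P.aleph
  obtain ⟨q₁, hq₁, hq₁q, hdec⟩ := term_dense P h1
    (fun _ => DecN (c j) (PF lam c (Iio j)) α) (fun _ => openDense_decN _ _ _) hq
  have h2 : ∃ θ, θ ∉ BadO c lam X α t j q₁ := by
    by_contra hcon
    push Not at hcon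
    have h3 : BadO c lam X α t j q₁ = Set.univ := Set.eq_univ_of_forall hcon
    have h4 := mk_badO_le hS hj t hq₁
    rw [h3, Cardinal.mk_univ] at h4
    exact absurd P.Bt_lt (not_lt.2 h4)
  obtain ⟨θ, hθ⟩ := h2
  obtain ⟨q', hq', hq'q, hq'X⟩ := branch_ok P.aleph hS hj t hq₁ (hq₁q.trans hext)
    (hdec PUnit.unit) hθ
  exact ⟨θ, q', hq', hq'q.trans hq₁q, hq'X⟩

/-- Restrictions to sets which have the same intersection with the support. -/
theorem brn_res_congr {p : Raw O J Bt} (hp : Basic lam p) {A B : Set J}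
    (h : p.W ∩ A = p.W ∩ B) : p.res A = p.res B := by
  refine Raw.ext' rfl rfl rfl h ?_
  funext j x
  by_cases hj : j ∈ p.W
  · have h1 : j ∈ A ↔ j ∈ B := by
      have h2 := Set.ext_iff.1 h j
      simpa [hj] using h2
    by_cases hA : j ∈ A
    · rw [res_d_of hA, res_d_of (h1.1 hA)]
    · rw [res_d_not hA, res_d_not (fun hB => hA (h1.2 hB))]
  · have h1 : ∀ I : Set J, (p.res I).d j x = ⊥ := by
      intro I
      by_cases hI : j ∈ I
      · rw [res_d_of hI, hp.d_out j hj]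
      · exact res_d_not hI x
    rw [h1, h1]

/-- The branch.

PROOF.  Let `W := ⋃ n, (X n).W` (a set of size `≤ lam`: a countable union) and apply `tower` with
* `Q := Set J × (J → Th) × Raw O J Bt`, `le (I', t', q') (I, t, q) := I ⊆ I' ∧ (∀ i ∈ W, i ∈ I → t' i = t i) ∧ Ext ⊤ q' q`,
* `A := ↥W`,
* `G a (I, t, q) := I = Iic a.1 ∧ PF lam c I q ∧ Ext ⊤ q ((limX X α t).res I)`,
* `H B (I, t, q) := I = {i | ∃ a ∈ B, i ≤ a.1} ∧ PF lam c I q ∧ Ext ⊤ q ((limX X α t).res I)`.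
`hlim`: let `B` be an initial segment of `A` and `(I_a, t_a, q_a)` for `a ∈ B` as there.  `I := {i | ∃ a ∈ B, i ≤ a.1}`.
If `B = ∅`, then `I = ∅`; let `t` be arbitrary and `q := (limX X α t).res ∅`, which satisfies `Basic` (`basic_limX`,
`basic_res`) and has empty support.  Otherwise `t i := t_i i` for `i ∈ W` with `⟨i, _⟩ ∈ B` and arbitrary elsewhere, and `q`
is given by `PF_closed` for the family `(q_a)_{a ∈ B}` (`#B ≤ #W ≤ lam`; each `q_a` is in `PF lam c I`, as `Iic a ⊆ I`).  For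
`a ∈ B` and `i ∈ W`, `i ≤ a`: `i ∈ B` (`B` is an initial segment) and `t i = t_i i = t_a i` (by `le` for `i ≤ a`).
`le (I, t, q) (I_a, t_a, q_a)` holds.  `Ext ⊤ q ((limX X α t).res I)`: height: `α ≤ (q_a).h ≤ q.h` for some `a ∈ B`
(`B ≠ ∅`); `S`, `T` at `x ≤ α`: those of `q_a`, hence of the limit; support: `j ∈ W ∩ I` gives `a ∈ B` with `j ≤ a`, so
`j ∈ ((limX X α t_a).res (Iic a)).W ⊆ (q_a).W ⊆ q.W`; and for `x ≤ α`:
`q.d j x = (q_a).d j x = (limX X α t_a).d j x = (limX X α t).d j x` by `limX_d_congr`.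
`hstep`: let `a ∈ A` and `H (Iio a) (I, t, q)`, so `I = {i | ∃ a' < a, i ≤ a'} ⊆ Iio a.1`.  `(limX X α t).res (Iio a.1) =
(limX X α t).res I` (`Raw.ext'`: `W ∩ Iio a.1 = W ∩ I`, and the values `d i x` for `i ∉ W` are `⊥`, `basic_limX.d_out`).
`branch_step` for `j := a.1` gives `θ`, `q'`.  Take `x := (Iic a.1, update t a.1 θ, q')`; `update t a.1 θ` agrees with `t` on
`I`, as `a.1 ∉ I`.
At the end: `H univ (I, t, q)`: `W ⊆ I`, so `(limX X α t).res I = limX X α t` (`res_of_sub`). -/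
theorem branch (P : Par O J Bt Th lam L) {w : ℕ → Set J} {X : ℕ → Sys O J Bt Th} {α : O}
    (hS : SeqD lam c w X α) :
    ∃ (t : J → Th) (q : Raw O J Bt), F lam c q ∧ Ext ⊤ q (limX X α t) := by
  classical
  have hl : ℵ₀ ≤ lam := P.aleph
  have hTh : Nonempty Th := by
    rw [← Cardinal.mk_ne_zero_iff]
    exact (Cardinal.aleph0_pos.trans_le P.Th_inf).ne'
  obtain ⟨θ₀⟩ := hTh
  obtain ⟨W, hW⟩ : ∃ W : Set J, W = ⋃ n, (X n).W := ⟨_, rfl⟩
  have hWle : #W ≤ lam := by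
    have h1 := (basic_limX hl hS (fun _ => θ₀)).W_small
    rw [limX_W, ← hW] at h1
    exact h1
  have hlim : ∀ B : Set ↥W, (∀ a ∈ B, ∀ a', a' < a → a' ∈ B) →
      ∀ q : ↥W → Set J × (J → Th) × Raw O J Bt,
      (∀ a ∈ B, (q a).1 = Iic a.1 ∧ PF lam c (q a).1 (q a).2.2 ∧
        Ext ⊤ (q a).2.2 ((limX X α (q a).2.1).res (q a).1)) →
      (∀ a ∈ B, ∀ a', a' ≤ a → ((q a').1 ⊆ (q a).1 ∧
        (∀ i ∈ W, i ∈ (q a').1 → (q a).2.1 i = (q a').2.1 i) ∧ Ext ⊤ (q a).2.2 (q a').2.2)) →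
      ∃ r : Set J × (J → Th) × Raw O J Bt, (r.1 = {i | ∃ a ∈ B, i ≤ a.1} ∧
        PF lam c r.1 r.2.2 ∧ Ext ⊤ r.2.2 ((limX X α r.2.1).res r.1)) ∧
        ∀ a ∈ B, ((q a).1 ⊆ r.1 ∧ (∀ i ∈ W, i ∈ (q a).1 → r.2.1 i = (q a).2.1 i) ∧
          Ext ⊤ r.2.2 (q a).2.2) := by
    intro B hB q hG hle
    rcases B.eq_empty_or_nonempty with rfl | hne
    · refine ⟨(∅, fun _ => θ₀, (limX X α fun _ => θ₀).res ∅),
        ⟨?_, ⟨⟨basic_res (basic_limX hl hS _) _, ?_⟩, ?_⟩, Ext.refl _ _⟩, ?_⟩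
      · ext i
        simp
      · intro k hk
        exact absurd hk.2 (Set.notMem_empty _)
      · exact fun k hk => hk.2
      · intro a ha
        exact absurd ha (Set.notMem_empty _)
    · have hIic : ∀ a ∈ B, Iic a.1 ⊆ {i | ∃ a ∈ B, i ≤ a.1} := fun a ha i hi => ⟨a, ha, hi⟩
      obtain ⟨qq, hqq, hex⟩ := PF_closed P (I := {i | ∃ a ∈ B, i ≤ a.1}) (ι := ↥B)
        ((Cardinal.mk_set_le B).trans hWle) (fun a => (q a.1).2.2)
        (fun a => ⟨(hG a.1 a.2).2.1.1, fun i hi => hIic a.1 a.2 (by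
          rw [← (hG a.1 a.2).1]
          exact (hG a.1 a.2).2.1.2 hi)⟩)
        ⟨hne.to_subtype, fun a b => by
          rcases le_total a b with h | h
          · exact ⟨b, (hle b.1 b.2 a.1 h).2.2, Ext.refl _ _⟩
          · exact ⟨a, Ext.refl _ _, (hle a.1 a.2 b.1 h).2.2⟩⟩
      obtain ⟨t, ht⟩ : ∃ t : J → Th, t = fun i =>
        if h : i ∈ W then (q ⟨i, h⟩).2.1 i else θ₀ := ⟨_, rfl⟩
      have htq : ∀ a ∈ B, ∀ i ∈ W, i ≤ a.1 → t i = (q a).2.1 i := by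
        intro a ha i hi hia
        have hiB : (⟨i, hi⟩ : ↥W) ∈ B := by
          rcases (show (⟨i, hi⟩ : ↥W) ≤ a from hia).eq_or_lt with h | h
          · rw [h]
            exact ha
          · exact hB a ha _ h
        have h1 := (hle a ha ⟨i, hi⟩ hia).2.1 i hi (by
          rw [(hG _ hiB).1]
          exact Set.mem_Iic.2 le_rfl)
        rw [ht, h1]
        simp [hi]
      refine ⟨({i | ∃ a ∈ B, i ≤ a.1}, t, qq), ⟨rfl, hqq, ?_⟩, ?_⟩
      · obtain ⟨a₀, ha₀⟩ := hne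
        have hx₀ := (hex ⟨a₀, ha₀⟩).trans (hG a₀ ha₀).2.2
        refine ⟨hx₀.h, ?_, ?_, ?_, ?_⟩
        · rintro k ⟨hk, a, ha, hka⟩
          refine ((hex ⟨a, ha⟩).trans (hG a ha).2.2).W ⟨?_, ?_⟩
          · exact hk
          · rw [(hG a ha).1]
            exact hka
        · intro x hx
          exact hx₀.S x hx
        · intro x hx
          exact hx₀.T x hx
        · rintro k ⟨hk, a, ha, hka⟩ x hx
          have hx₁ := (hex ⟨a, ha⟩).trans (hG a ha).2.2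
          have hkI : k ∈ (q a).1 := by
            rw [(hG a ha).1]
            exact hka
          have h2 := hx₁.d k ⟨hk, hkI⟩ x hx
          rw [res_d_of hkI] at h2
          have hkI' : k ∈ {i | ∃ a ∈ B, i ≤ a.1} := ⟨a, ha, hka⟩
          rw [res_d_of hkI']
          have h3 : (limX X α t).d k = (limX X α (q a).2.1).d k := by
            refine limX_d_congr hS fun i hi hik => ?_
            rw [← hW] at hi
            exact htq a ha i hi (hik.trans hka)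
          rw [h3]
          exact h2
      · intro a ha
        refine ⟨?_, ?_, hex ⟨a, ha⟩⟩
        · rw [(hG a ha).1]
          exact hIic a ha
        · intro i hi hia
          rw [(hG a ha).1] at hia
          exact htq a ha i hi hia
  have hstep : ∀ (a : ↥W) (r : Set J × (J → Th) × Raw O J Bt),
      (r.1 = {i | ∃ a' ∈ Iio a, i ≤ a'.1} ∧ PF lam c r.1 r.2.2 ∧
        Ext ⊤ r.2.2 ((limX X α r.2.1).res r.1)) →
      ∃ x : Set J × (J → Th) × Raw O J Bt, (r.1 ⊆ x.1 ∧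
        (∀ i ∈ W, i ∈ r.1 → x.2.1 i = r.2.1 i) ∧ Ext ⊤ x.2.2 r.2.2) ∧
        (x.1 = Iic a.1 ∧ PF lam c x.1 x.2.2 ∧ Ext ⊤ x.2.2 ((limX X α x.2.1).res x.1)) := by
    rintro a ⟨I, t, q⟩ ⟨hI, hq, hqX⟩
    dsimp only at hI hq hqX
    have hIa : I ⊆ Iio a.1 := by
      rw [hI]
      rintro i ⟨a', ha', hi⟩
      exact lt_of_le_of_lt hi ha'
    have hres : (limX X α t).res I = (limX X α t).res (Iio a.1) := by
      refine brn_res_congr (basic_limX hl hS t) ?_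
      rw [limX_W, ← hW]
      ext i
      constructor
      · rintro ⟨h1, h2⟩
        exact ⟨h1, hIa h2⟩
      · rintro ⟨h1, h2⟩
        refine ⟨h1, ?_⟩
        rw [hI]
        exact ⟨⟨i, h1⟩, h2, le_rfl⟩
    rw [hres] at hqX
    obtain ⟨θ, q', hq', hq'q, hq'X⟩ := branch_step P hS (j := a.1) (by rw [← hW]; exact a.2) t
      ⟨hq.1, hq.2.trans hIa⟩ hqX
    refine ⟨(Iic a.1, Function.update t a.1 θ, q'), ⟨?_, ?_, hq'q⟩, rfl, hq', hq'X⟩
    · exact fun i hi => (hIa hi : i < a.1).le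
    · intro i _ hi
      exact Function.update_of_ne (hIa hi : i < a.1).ne _ _
  have : Nonempty (Set J × (J → Th) × Raw O J Bt) :=
    ⟨(∅, fun _ => θ₀, limX X α fun _ => θ₀)⟩
  obtain ⟨⟨I, t, q⟩, -, ⟨hI, hq, hqX⟩, -, -⟩ := tower
    (Q := Set J × (J → Th) × Raw O J Bt) (A := ↥W)
    (fun x y => y.1 ⊆ x.1 ∧ (∀ i ∈ W, i ∈ y.1 → x.2.1 i = y.2.1 i) ∧ Ext ⊤ x.2.2 y.2.2)
    (fun q => ⟨subset_rfl, fun _ _ _ => rfl, Ext.refl _ _⟩)
    (fun {x y z} h1 h2 => ⟨h2.1.trans h1.1,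
      fun i hi hiz => (h1.2.1 i hi (h2.1 hiz)).trans (h2.2.1 i hi hiz), h1.2.2.trans h2.2.2⟩)
    (fun a x => x.1 = Iic a.1 ∧ PF lam c x.1 x.2.2 ∧ Ext ⊤ x.2.2 ((limX X α x.2.1).res x.1))
    (fun B x => x.1 = {i | ∃ a ∈ B, i ≤ a.1} ∧ PF lam c x.1 x.2.2 ∧
      Ext ⊤ x.2.2 ((limX X α x.2.1).res x.1))
    hlim hstep
  dsimp only at hI hq hqX
  refine ⟨t, q, hq.1, ?_⟩
  rw [res_of_sub (basic_limX hl hS t)] at hqX
  · exact hqX
  · rw [limX_W, ← hW, hI]
    intro i hi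
    exact ⟨⟨i, hi⟩, mem_univ _, le_rfl⟩

end CG
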