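import Pool.Agent.W_MP_7dc84e_h31.BadO

/-!
# MP_7dc84e_lc : the condition for a good option
-/

set_option autoImplicit false
set_option linter.unusedSectionVars false

universe u

open Cardinal Set

namespace CG

variable {O J Bt Th : Type u} [LinearOrder O] [LinearOrder J] [CompleteBooleanAlgebra Bt]
variable [WellFoundedLT O] [WellFoundedLT J]
variable {lam : Cardinal.{u}} {L : ℕ → Cardinal.{u}} {c : J → Nm O J Bt}

/-- The condition with the option `θ` at `j` is a condition, if `θ` is not bad.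

PROOF.  Let `p := limX X α (update t j θ)`, `p' := p.res (Iic j)`, `q' := amalR (Iio j) q p'`.  `p'.res (Iio j)
= p.res (Iio j) = (limX X α t).res (Iio j)` (`res_res`, `limX_res_congr`), so `Ext ⊤ q (p'.res (Iio j))`.  `Basic lam q'`
by `basic_amalR`, and `q'.W = q.W ∪ p'.W ⊆ Iic j`.  The requirement at `k < j`: `at_res` for `I = Iio j` and
`res_amalR` (`q'.res (Iio j) = q`; `k ∈ q.W`, because `k ∈ p'.W ∩ Iio j` implies `k ∈ q.W` by `Ext.W`).  The requirement at
`j`: use `at_iff`.  Let `b r x C` with `GoodT`, `a ≤ b`, `PF lam c (Iio j) u`, `Ext a u r`, `Ext a u (q'.res (Iio j))`, i.e.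
`Ext a u q`.
* `x < α`: `x ≤ (X n).h` for some `n` with `j ∈ (X n).W` (`cofα`; the supports increase).  For `y ∈ C`, `y < x`, the values
  `q'.d j y = p.d j y`, `q'.T y = q.T y = p.T y`, `q'.S x = p.S x` are those of `(X n).cond (update t j θ)` (`ext_limX`), and
  `Ext a u (((X n).cond (update t j θ)).res (Iio j))` by transitivity.  Use `IsSys.ok` and `At`.
* `x = α`: let `a' := a ⊓ ⨅ y : C, q'.d j y ⊓ q'.T y`; for `y ∈ C`, `y < α`: `q'.d j y = p.d j y`, `q'.T y = p.T y`.
  Suppose `a' ≠ ⊥`.  By `hdec` there is `b' ≤ a'`, `b' ≠ ⊥`, with `DecN (c j) (PF ..) α b' q`.  The second alternative of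
  `DecN` fails for the triple `(b, r, C)` and `(b', u)` (`b' ≤ a ≤ b`, `Ext b' u q`, `Ext b' u r`).  So there is a good
  triple `(b₁, r₁, C₁)` with `b' ≤ b₁`, `Ext b' q r₁`.  Then `Ext b' u r₁`, so `C₁ = C` by `GoodT.uniq`.  So `θ` is bad:
  for `y ∈ C₁`, `b' ≤ p.d j y ⊓ p.T y`.  Contradiction.
* `α < x`: if `q.h < x`, then `q'.S x = ⊥`.  Otherwise there is `y ∈ C` with `α < y < x ≤ q.h`, and
  `q'.d j y = p.d j y ⊔ ⊥ = ⊥` (`d_hi`), so the infimum is `⊥`.
`Ext ⊤ q' q` is `ext_amalR_left`, `Ext ⊤ q' p'` is `ext_amalR_right`. -/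
theorem branch_ok (hl : ℵ₀ ≤ lam) {w : ℕ → Set J} {X : ℕ → Sys O J Bt Th} {α : O}
    (hS : SeqD lam c w X α) {j : J} (hj : j ∈ ⋃ n, (X n).W) (t : J → Th) {q : Raw O J Bt}
    (hq : PF lam c (Iio j) q) (hext : Ext ⊤ q ((limX X α t).res (Iio j)))
    (hdec : ∀ b, b ≠ ⊥ → ∃ b' ≤ b, b' ≠ ⊥ ∧ DecN (c j) (PF lam c (Iio j)) α b' q) {θ : Th}
    (hθ : θ ∉ BadO c lam X α t j q) :
    ∃ q', PF lam c (Iic j) q' ∧ Ext ⊤ q' q ∧
      Ext ⊤ q' ((limX X α (Function.update t j θ)).res (Iic j)) := by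
  have hjW : j ∈ (limX X α (Function.update t j θ)).W := hj
  have hpB : Basic lam (limX X α (Function.update t j θ)) := basic_limX hl hS _
  have hlim : ∀ n, Ext ⊤ (limX X α (Function.update t j θ))
      ((X n).cond (Function.update t j θ)) := fun n => ext_limX hS _ n
  have hres2 : (limX X α (Function.update t j θ)).res (Iio j) = (limX X α t).res (Iio j) :=
    limX_res_congr hS (isIn_Iio j) fun i _ hi => Function.update_of_ne (ne_of_lt hi) _ _
  have hbad : ∀ b, b ≠ ⊥ → ∀ b₁ r C, GoodT (c j) (PF lam c (Iio j)) b₁ r α C → b ≤ b₁ →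
      Ext b q r → ¬ ∀ y ∈ C, b ≤ (limX X α (Function.update t j θ)).d j y ⊓
      (limX X α (Function.update t j θ)).T y := fun b hb b₁ r C h1 h2 h3 h4 =>
    hθ ⟨b, hb, b₁, r, C, h1, h2, h3, h4⟩
  have hok : ∀ n, F lam c ((X n).cond (Function.update t j θ)) := fun n => (hS.sys n).ok _
  have hdir := hS.dir (Function.update t j θ)
  have hph : (limX X α (Function.update t j θ)).h = α := rfl
  rw [← hres2] at hext
  clear hθ hres2
  generalize limX X α (Function.update t j θ) = pθ at *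
  have hres : (pθ.res (Iic j)).res (Iio j) = pθ.res (Iio j) := by
    rw [res_res, inter_eq_right.2 (Iio_subset_Iic_self)]
  have hext' : Ext ⊤ q ((pθ.res (Iic j)).res (Iio j)) := by rw [hres]; exact hext
  have hp'B : Basic lam (pθ.res (Iic j)) := basic_res hpB _
  have hq'B : Basic lam (amalR (Iio j) q (pθ.res (Iic j))) :=
    basic_amalR hl hq.basic hp'B hq.2 hext'
  have hle : Ext ⊤ (amalR (Iio j) q (pθ.res (Iic j))) q := ext_amalR_left hq.2
  have hri : Ext ⊤ (amalR (Iio j) q (pθ.res (Iic j))) (pθ.res (Iic j)) :=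
    ext_amalR_right hp'B hext'
  have hrq : (amalR (Iio j) q (pθ.res (Iic j))).res (Iio j) = q :=
    res_amalR hq.basic hq.2 hext'
  have hWeq : (amalR (Iio j) q (pθ.res (Iic j))).W = q.W ∪ (pθ.res (Iic j)).W := rfl
  have hhq : (amalR (Iio j) q (pθ.res (Iic j))).h = q.h := rfl
  have hdj : ∀ z, α < z → z < q.h → (amalR (Iio j) q (pθ.res (Iic j))).d j z = ⊥ := by
    intro z hz hzq
    have h1 : (pθ.res (Iic j)).d j z = ⊥ := hp'B.d_hi j z (by rw [res_h, hph]; exact hz)
    have h2 : j ∉ Iio j := fun h => lt_irrefl _ h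
    have h3 : ¬ (j ∈ (pθ.res (Iic j)).W ∧ z = q.h) := fun h => hzq.ne h.2
    unfold amalR
    simp only [if_neg h2, if_neg h3, h1, sup_bot_eq]
  refine ⟨amalR (Iio j) q (pθ.res (Iic j)), ⟨⟨hq'B, fun k hk => ?_⟩, ?_⟩, hle, hri⟩
  swap
  · rw [hWeq]
    exact union_subset (hq.2.trans Iio_subset_Iic_self) inter_subset_right
  have hkj : k ≤ j := by
    rw [hWeq] at hk
    rcases hk with hk | hk
    · exact (hq.2 hk).le
    · exact hk.2
  rcases hkj.lt_or_eq with hlt | rfl
  · have hkq : k ∈ q.W := by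
      rw [hWeq] at hk
      rcases hk with hk | hk
      · exact hk
      · exact hext'.W ⟨hk, hlt⟩
    have h1 := hq.1.2 k hkq
    rw [← hrq] at h1
    exact (at_res (isIn_Iio j) hlt).1 h1
  · rw [at_iff]
    intro b r x C hG a u hab hQu hur huq
    rw [hrq] at huq
    generalize amalR (Iio k) q (pθ.res (Iic k)) = q' at *
    rcases lt_trichotomy x α with hx | rfl | hx
    · -- the first case
      obtain ⟨n1, hn1⟩ := hS.cofα x hx
      obtain ⟨m, hm⟩ := mem_iUnion.1 hj
      obtain ⟨e, he1, he2⟩ := hdir.2 n1 m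
      have hxe : x ≤ (X e).h := hn1.le.trans he1.h
      have hke : k ∈ (X e).W := he2.W hm
      have hAt := at_iff.1 ((hok e).2 k hke)
      have hE : Ext ⊤ q' (((X e).cond (Function.update t k θ)).res (Iic k)) :=
        hri.trans ((hlim e).res (Iic k))
      have hu : Ext a u (((X e).cond (Function.update t k θ)).res (Iio k)) :=
        huq.trans ((hext.trans ((hlim e).res (Iio k))).mono le_top)
      have h1 := hAt b r x C hG a u hab hQu hur hu
      have h2 : q'.S x = ((X e).cond (Function.update t k θ)).S x := hE.S_eq hxe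
      have h3 : ∀ y : C, q'.d k y.1 ⊓ q'.T y.1 =
          ((X e).cond (Function.update t k θ)).d k y.1 ⊓
            ((X e).cond (Function.update t k θ)).T y.1 := by
        intro y
        have hy : y.1 ≤ (X e).h := (hG.cof.1 y.1 y.2).le.trans hxe
        rw [hE.d_eq ⟨hke, le_rfl⟩ hy, hE.T_eq hy, res_d_of (show k ∈ Iic k from le_rfl)]
        rfl
      rw [h2, iInf_congr h3]
      exact h1
    · -- the second case
      by_contra hne
      obtain ⟨b', hb', hb'0, hD⟩ := hdec _ hne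
      have hb'a : b' ≤ a := hb'.trans inf_le_left
      rcases hD with ⟨b₁, r₁, C₁, hG1, hb1, he1⟩ | hN
      · have hC : C₁ = C := hG.uniq b₁ r₁ C₁ hG1.mem hG1.q b' u hb'0 (hb'a.trans hab) hb1 hQu
          (hur.mono hb'a) ((huq.mono hb'a).trans he1)
        subst hC
        refine hbad b' hb'0 b₁ r₁ C₁ hG1 hb1 he1 fun y hy => ?_
        have h1 : b' ≤ q'.d k y ⊓ q'.T y :=
          (hb'.trans (inf_le_right.trans inf_le_right)).trans (iInf_le _ (⟨y, hy⟩ : C₁))
        have hyx : y ≤ pθ.h := by rw [hph]; exact (hG1.cof.1 y hy).le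
        rw [hri.d_eq ⟨hjW, le_rfl⟩ hyx, hri.T_eq hyx, res_d_of (show k ∈ Iic k from le_rfl)] at h1
        exact h1
      · exact hN b r C hG b' u le_rfl hb'0 hQu (huq.mono hb'a) (hb'a.trans hab) (hur.mono hb'a)
    · -- the third case
      by_cases hqx : q.h < x
      · rw [hq'B.S_hi x (by rw [hhq]; exact hqx), bot_inf_eq, inf_bot_eq]
      · obtain ⟨z, hzC, hz⟩ := hG.cof.2 α hx
        have h1 : (⨅ y : C, q'.d k y.1 ⊓ q'.T y.1) ≤ ⊥ := by
          refine (iInf_le _ (⟨z, hzC⟩ : C)).trans ?_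
          simp only
          rw [hdj z hz (lt_of_lt_of_le (hG.cof.1 z hzC) (not_lt.1 hqx)), bot_inf_eq]
        rw [le_bot_iff.1 h1, inf_bot_eq, inf_bot_eq]

end CG
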