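import Pool.Agent.W_MP_7dc84e_h31.CCabs
import Pool.Agent.W_MP_7dc84e_h31.Amal
import Pool.Agent.W_MP_7dc84e_h31.ParF

/-!
# MP_7dc84e_lc : the forcing and its chain condition
-/

set_option autoImplicit false
set_option linter.unusedSectionVars false

universe u

open Cardinal Set

namespace CG

variable {O J Bt Th : Type u} [LinearOrder O] [LinearOrder J] [CompleteBooleanAlgebra Bt]
variable [WellFoundedLT J]
variable {lam : Cardinal.{u}} {L : ℕ → Cardinal.{u}} {c : J → Nm O J Bt}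

instance : Preorder (Cnd lam c) where
  le q p := q.b ≤ p.b ∧ Ext q.b q.p p.p
  le_refl p := ⟨le_rfl, Ext.refl _ _⟩
  le_trans r q p h1 h2 := ⟨h1.1.trans h2.1, h1.2.trans (h2.2.mono h1.1)⟩

theorem Cnd.le_iff {q p : Cnd lam c} : q ≤ p ↔ q.b ≤ p.b ∧ Ext q.b q.p p.p := Iff.rfl

/-- the union of two conditions -/
noncomputable def unR (p q : Raw O J Bt) : Raw O J Bt := by
  classical
  exact ⟨p.h, p.S, p.T, p.W ∪ q.W, fun j => if j ∈ p.W then p.d j else q.d j⟩

theorem unR_d_left {p q : Raw O J Bt} {j : J} (hj : j ∈ p.W) : (unR p q).d j = p.d j := by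
  simp [unR, hj]

theorem unR_d_not {p q : Raw O J Bt} {j : J} (hj : j ∉ p.W) : (unR p q).d j = q.d j := by
  simp [unR, hj]

/-- The requirement at a coordinate for an extension with the same `S`, `T` and the same value at the coordinate. -/
theorem at_of_ext {k : J} {p q : Raw O J Bt} (h : Ext ⊤ q p) (hS : q.S = p.S) (hT : q.T = p.T)
    (hd : q.d k = p.d k) (hp : At lam c k p) : At lam c k q := by
  rw [at_iff] at hp ⊢
  intro b r x C hG a u ha hu hur huq
  have h1 : Ext a u (p.res (Iio k)) := huq.trans ((h.res (Iio k)).mono le_top)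
  have h2 := hp b r x C hG a u ha hu hur h1
  rw [hS, hT, hd]
  exact h2

/-- The union of two conditions with the same height, `S`, `T` which coincide at the common coordinates.

PROOF.  `Basic`: `#(p.W ∪ q.W) ≤ lam`, the other clauses from those of `p`, `q` (same height).  The requirement at
`k ∈ p.W`: all the values are those of `p`, and `Ext a u ((unR p q).res (Iio k))` implies `Ext a u (p.res (Iio k))`, since
`Ext ⊤ (unR p q) p`.  For `k ∈ q.W` the same with `q` (if `k ∈ p.W` too, then `q.d k = p.d k`). -/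
theorem F_unR (hl : ℵ₀ ≤ lam) {p q : Raw O J Bt} (hp : F lam c p) (hq : F lam c q)
    (hh : p.h = q.h) (hS : p.S = q.S) (hT : p.T = q.T)
    (hd : ∀ j ∈ p.W, j ∈ q.W → p.d j = q.d j) :
    F lam c (unR p q) ∧ Ext ⊤ (unR p q) p ∧ Ext ⊤ (unR p q) q := by
  have hdq : ∀ j ∈ q.W, (unR p q).d j = q.d j := by
    intro j hj
    by_cases h1 : j ∈ p.W
    · rw [unR_d_left h1, hd j h1 hj]
    · exact unR_d_not h1
  have e1 : Ext ⊤ (unR p q) p :=
    ⟨le_rfl, subset_union_left, fun _ _ => rfl, fun _ _ => rfl,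
      fun j hj x _ => by rw [unR_d_left hj]⟩
  have e2 : Ext ⊤ (unR p q) q := by
    refine ⟨hh.symm.le, subset_union_right, fun x _ => ?_, fun x _ => ?_,
      fun j hj x _ => by rw [hdq j hj]⟩
    · change ⊤ ⊓ p.S x = ⊤ ⊓ q.S x
      rw [hS]
    · change ⊤ ⊓ p.T x = ⊤ ⊓ q.T x
      rw [hT]
  refine ⟨⟨⟨hp.1.S_hi, hp.1.S_cof, hp.1.T_hi, hp.1.T_lim, ?_, ?_, ?_, ?_, ?_⟩, ?_⟩, e1, e2⟩
  · exact (mk_union_le p.W q.W).trans
      ((add_le_add hp.1.W_small hq.1.W_small).trans (add_eq_self hl).le)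
  · intro j hj x
    have h1 : j ∉ p.W := fun h => hj (Or.inl h)
    have h2 : j ∉ q.W := fun h => hj (Or.inr h)
    rw [unR_d_not h1]
    exact hq.1.d_out j h2 x
  · intro j x hx
    by_cases h1 : j ∈ p.W
    · rw [unR_d_left h1]
      exact hp.1.d_hi j x hx
    · rw [unR_d_not h1]
      exact hq.1.d_hi j x (hh ▸ hx)
  · rintro j (hj | hj)
    · rw [unR_d_left hj]
      exact hp.1.d_top j hj
    · rw [hdq j hj]
      change q.d j p.h = ⊤
      rw [hh]
      exact hq.1.d_top j hj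
  · intro j x hx
    by_cases h1 : j ∈ p.W
    · rw [unR_d_left h1]
      exact hp.1.d_cl j x hx
    · rw [unR_d_not h1]
      exact hq.1.d_cl j x hx
  · rintro k (hk | hk)
    · exact at_of_ext e1 rfl rfl (unR_d_left hk) (hp.2 k hk)
    · exact at_of_ext e2 hS hT (hdq k hk) (hq.2 k hk)

/-- Functions which vanish above `a`.

PROOF.  Such a function is determined by its restriction to `Iic a`, and `#(Iic a → Bt) ≤ (2 ^ lam) ^ lam = 2 ^ lam`
(`#(Iic a) ≤ lam + 1 = lam`, `#Bt ≤ lam ≤ 2 ^ lam`). -/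
theorem mk_fun_le (P : Par O J Bt Th lam L) (a : O) :
    #{f : O → Bt // ∀ x, a < x → f x = ⊥} ≤ 2 ^ lam := by
  have hl := P.aleph
  have h1 : #(Iic a) ≤ lam := by
    have h2 : Iic a = Iio a ∪ {a} := by
      ext x
      simp only [mem_Iic, mem_union, mem_Iio, mem_singleton_iff]
      exact le_iff_lt_or_eq
    rw [h2]
    refine (mk_union_le _ _).trans ?_
    rw [mk_singleton]
    exact (add_le_add (P.seg a) (one_le_aleph0.trans hl)).trans (add_eq_self hl).le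
  have h3 : #{f : O → Bt // ∀ x, a < x → f x = ⊥} ≤ #(Iic a → Bt) := by
    refine mk_le_of_injective (f := fun f => fun x : Iic a => f.1 x.1) ?_
    intro f g hfg
    apply Subtype.ext
    funext x
    rcases le_or_gt x a with hx | hx
    · exact congrFun hfg ⟨x, hx⟩
    · rw [f.2 x hx, g.2 x hx]
  have h4 : #Bt ≤ 2 ^ lam := P.Bt_le.trans (cantor lam).le
  have h5 : (2 : Cardinal.{u}) ^ lam ≠ 0 := power_ne_zero _ two_ne_zero
  calc #{f : O → Bt // ∀ x, a < x → f x = ⊥} ≤ #(Iic a → Bt) := h3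
    _ = #Bt ^ #(Iic a) := by simp
    _ ≤ (2 ^ lam) ^ #(Iic a) := power_le_power_right h4
    _ ≤ (2 ^ lam) ^ lam := power_le_power_left h5 h1
    _ = 2 ^ lam := by rw [← power_mul, mul_eq_self hl]

/-- the size of a type from the size of the fibers of a map -/
theorem mk_le_of_fib {α β : Type u} {κ : Cardinal.{u}} (hκ : ℵ₀ ≤ κ) (g : α → β) (hβ : #β ≤ κ)
    (h : ∀ b, #{a // g a = b} ≤ κ) : #α ≤ κ := by
  rw [← mk_congr (Equiv.sigmaFiberEquiv g), mk_sigma]
  calc Cardinal.sum (fun b => #{a // g a = b}) ≤ Cardinal.sum (fun _ : β => κ) :=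
        Cardinal.sum_le_sum _ _ h
    _ = #β * κ := by rw [sum_const']
    _ ≤ κ * κ := mul_le_mul_left hβ κ
    _ = κ := mul_eq_self hκ

/-- Antichains have size `≤ 2 ^ lam`.

PROOF.  Consider the map `A → Σ a : O, Bt × {f // ∀ x, a < x → f x = ⊥} × {f // ∀ x, a < x → f x = ⊥}`,
`r ↦ (r.p.h, r.b, r.p.S, r.p.T)`; the target has size `≤ 2 ^ lam * (2 ^ lam * 2 ^ lam * 2 ^ lam) = 2 ^ lam` (`P.O_card`,
`P.Bt_le`, `mk_fun_le`).  Every fiber `A'` has size `≤ 2 ^ lam` by `cc_abs` for `V := {f // ∀ x, a < x → f x = ⊥}`,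
`W r := r.p.W`, `d r := r.p.d` (`Basic.d_hi`): if `r ≠ r'` are in the same fiber, and `r.p.d j = r'.p.d j` for all common
`j`, then by `F_unR` the pair `(r.b, unR r.p r'.p)` is a common extension.  So `#A ≤ 2 ^ lam`
(`Cardinal.mk_le_of_..`: the sum of the fibers). -/
theorem cnd_cc (P : Par O J Bt Th lam L) (A : Set (Cnd lam c))
    (hA : ∀ p ∈ A, ∀ q ∈ A, p ≠ q → ¬ ∃ r, r ≤ p ∧ r ≤ q) : #A ≤ 2 ^ lam := by
  have hl := P.aleph
  have hκ : ℵ₀ ≤ (2 : Cardinal.{u}) ^ lam := hl.trans (cantor lam).le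
  have hBt : #Bt ≤ 2 ^ lam := P.Bt_le.trans (cantor lam).le
  refine mk_le_of_fib hκ (fun r : A => r.1.p.h) P.O_card fun a => ?_
  refine mk_le_of_fib hκ (β := Bt × {f : O → Bt // ∀ x, a < x → f x = ⊥} ×
      {f : O → Bt // ∀ x, a < x → f x = ⊥})
    (fun r => (r.1.1.b, ⟨r.1.1.p.S, fun x hx => r.1.1.hp.1.S_hi x ((show r.1.1.p.h = a from r.2).trans_lt hx)⟩,
      ⟨r.1.1.p.T, fun x hx => r.1.1.hp.1.T_hi x ((show r.1.1.p.h = a from r.2).trans_lt hx)⟩)) ?_ ?_
  · rw [mk_prod, mk_prod]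
    simp only [lift_id]
    have h1 := mk_fun_le P a
    calc #Bt * (#{f : O → Bt // ∀ x, a < x → f x = ⊥} * #{f : O → Bt // ∀ x, a < x → f x = ⊥})
        ≤ 2 ^ lam * (2 ^ lam * 2 ^ lam) := mul_le_mul' hBt (mul_le_mul' h1 h1)
      _ = 2 ^ lam := by rw [mul_eq_self hκ, mul_eq_self hκ]
  · intro t
    refine cc_abs hl (mk_fun_le P a) (fun r => r.1.1.1.p.W)
      (fun r j => ⟨r.1.1.1.p.d j, fun x hx => r.1.1.1.hp.1.d_hi j x
        ((show r.1.1.1.p.h = a from r.1.2).trans_lt hx)⟩)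
      (fun r => r.1.1.1.hp.1.W_small) ?_
    intro r r' hrr
    by_contra hcon
    push Not at hcon
    have hne : r.1.1.1 ≠ r'.1.1.1 := by
      intro h
      exact hrr (Subtype.ext (Subtype.ext (Subtype.ext h)))
    have hg := r.2.trans r'.2.symm
    simp only [Prod.mk.injEq, Subtype.mk.injEq] at hg
    obtain ⟨hb, hS, hT⟩ := hg
    have hh : r.1.1.1.p.h = r'.1.1.1.p.h := r.1.2.trans r'.1.2.symm
    obtain ⟨k1, k2, k3⟩ := F_unR hl r.1.1.1.hp r'.1.1.1.hp hh hS hT (fun j hj hj' => by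
      have h1 := hcon j hj hj'
      simpa using h1)
    refine hA _ r.1.1.2 _ r'.1.1.2 hne ⟨⟨r.1.1.1.b, unR r.1.1.1.p r'.1.1.1.p, r.1.1.1.hb, k1⟩,
      ⟨le_rfl, k2.mono le_top⟩, ⟨?_, k3.mono le_top⟩⟩
    exact hb.le

end CG
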