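import Mathlib

/-!
# MP_7dc84e_lc : the conditions

`O` is a well-order of type `λ⁺` (`lam = λ` is a strong limit of cofinality `ω`), `J` is the well-order of the
coordinates, `Bt` is a complete Boolean algebra with fewer than `λ` elements (the algebra of the preliminary forcing).
A condition `p : Raw O J Bt` consists of a height `p.h`, `Bt`-valued subsets `p.S`, `p.T` of `{x | x ≤ p.h}` and, for
every coordinate `j` of the support `p.W`, a `Bt`-valued closed subset `p.d j` of `{x | x ≤ p.h}` which contains `p.h`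
with value `⊤`.

The generic filter adds subsets `S`, `T` of `O` and, for every `j`, a club `D j`.  `c j` is a name (in the forcing with
the coordinates below `j`) of a sequence `⟨C_x : x ∈ S⟩` of cofinal sets; `D j` must satisfy `C_x ⊄ D j ∩ T` for all
`x ∈ S`.  A name is a set of triples `((b, r), x, C)`: the condition `(b, r)` forces that `C_x = C`.
-/

set_option autoImplicit false

universe u

open Cardinal Set

namespace CG

section order

variable {O : Type u} [LinearOrder O]

/-- `x` is a limit point of the order -/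
def IsLimPt (x : O) : Prop := (∃ y, y < x) ∧ ∀ y < x, ∃ z, y < z ∧ z < x

/-- `x` is the supremum of a sequence of smaller elements -/
def CofOm (x : O) : Prop := ∃ f : ℕ → O, (∀ n, f n < x) ∧ ∀ y < x, ∃ n, y < f n

/-- `C` is a cofinal subset of `{y | y < x}` -/
def Cof (C : Set O) (x : O) : Prop := (∀ y ∈ C, y < x) ∧ ∀ y < x, ∃ z ∈ C, y < z

end order

/-- conditions and, more generally, all candidates for conditions -/
structure Raw (O J Bt : Type u) where
  h : O
  S : O → Bt
  T : O → Bt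
  W : Set J
  d : J → O → Bt

/-- names of sequences of sets -/
abbrev Nm (O J Bt : Type u) : Type u := Set ((Bt × Raw O J Bt) × O × Set O)

variable {O J Bt Th : Type u} [LinearOrder O] [LinearOrder J] [CompleteBooleanAlgebra Bt]

/-- the restriction to the coordinates in `I` -/
noncomputable def Raw.res (p : Raw O J Bt) (I : Set J) : Raw O J Bt := by
  classical
  exact ⟨p.h, p.S, p.T, p.W ∩ I, fun j x => if j ∈ I then p.d j x else ⊥⟩

/-- the properties of conditions which do not involve the names -/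
structure Basic (lam : Cardinal.{u}) (p : Raw O J Bt) : Prop where
  S_hi : ∀ x, p.h < x → p.S x = ⊥
  S_cof : ∀ x, p.S x ≠ ⊥ → CofOm x
  T_hi : ∀ x, p.h < x → p.T x = ⊥
  T_lim : ∀ x, p.T x ≠ ⊥ → IsLimPt x
  W_small : #p.W ≤ lam
  d_out : ∀ j ∉ p.W, ∀ x, p.d j x = ⊥
  d_hi : ∀ j x, p.h < x → p.d j x = ⊥
  d_top : ∀ j ∈ p.W, p.d j p.h = ⊤
  d_cl : ∀ j x, IsLimPt x → (⨅ y : Iio x, ⨆ z : Ioo y.1 x, p.d j z.1) ≤ p.d j x

/-- below `b`, the condition `q` extends the condition `p` -/
structure Ext (b : Bt) (q p : Raw O J Bt) : Prop where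
  h : p.h ≤ q.h
  W : p.W ⊆ q.W
  S : ∀ x ≤ p.h, b ⊓ q.S x = b ⊓ p.S x
  T : ∀ x ≤ p.h, b ⊓ q.T x = b ⊓ p.T x
  d : ∀ j ∈ p.W, ∀ x ≤ p.h, b ⊓ q.d j x = b ⊓ p.d j x

/-- The triple `((b, r), x, C)` is used in the name `N`.  `Q` is the class of the conditions.  Triples which contradict
another triple are not used. -/
structure GoodT (N : Nm O J Bt) (Q : Raw O J Bt → Prop) (b : Bt) (r : Raw O J Bt) (x : O)
    (C : Set O) : Prop where
  mem : ((b, r), x, C) ∈ N
  q : Q r
  cof : Cof C x
  uniq : ∀ b' r' C', ((b', r'), x, C') ∈ N → Q r' → ∀ a u, a ≠ ⊥ → a ≤ b → a ≤ b' → Q u →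
    Ext a u r → Ext a u r' → C' = C

/-- At the coordinate `k` the condition `p` avoids all the sets given by the name `N`. -/
def Kil (N : Nm O J Bt) (Q : Raw O J Bt → Prop) (I : Set J) (k : J) (p : Raw O J Bt) : Prop :=
  ∀ b r x C, GoodT N Q b r x C → ∀ a u, a ≤ b → Q u → Ext a u r → Ext a u (p.res I) →
    a ⊓ (p.S x ⊓ ⨅ y : C, p.d k y.1 ⊓ p.T y.1) = ⊥

/-- The requirement for the condition `p` at the coordinate `k`: `Kil` for the name `c k` and the class of the
conditions with support below `k`. -/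
noncomputable def At [WellFoundedLT J] (lam : Cardinal.{u}) (c : J → Nm O J Bt) :
    J → Raw O J Bt → Prop :=
  (wellFounded_lt (α := J)).fix fun k ih p =>
    Kil (c k) (fun r => Basic lam r ∧ ∀ i ∈ r.W, ∃ h : i < k, ih i h r) (Iio k) k p

variable [WellFoundedLT J]

/-- `p` is a condition -/
def F (lam : Cardinal.{u}) (c : J → Nm O J Bt) (p : Raw O J Bt) : Prop :=
  Basic lam p ∧ ∀ k ∈ p.W, At lam c k p

/-- `p` is a condition with support contained in `I` -/
def PF (lam : Cardinal.{u}) (c : J → Nm O J Bt) (I : Set J) (p : Raw O J Bt) : Prop :=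
  F lam c p ∧ p.W ⊆ I

/-- `I` is an initial segment -/
def IsIn (I : Set J) : Prop := ∀ i ∈ I, ∀ k, k < i → k ∈ I

/-- The forcing: pairs `(b, p)` with `b ≠ ⊥` in `Bt` and a condition `p`. -/
structure Cnd (lam : Cardinal.{u}) (c : J → Nm O J Bt) : Type u where
  b : Bt
  p : Raw O J Bt
  hb : b ≠ ⊥
  hp : F lam c p

/-- The assumptions on the parameters.  `L` is a sequence of cardinals with supremum `lam`; `Th` is the set of the
options in the systems of conditions. -/
structure Par (O J Bt Th : Type u) [LinearOrder O] [LinearOrder J] [CompleteBooleanAlgebra Bt]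
    (lam : Cardinal.{u}) (L : ℕ → Cardinal.{u}) : Prop where
  seg : ∀ a : O, #(Iio a) ≤ lam
  bdd : ∀ s : Set O, #s ≤ lam → ∃ b, ∀ a ∈ s, a < b
  O_card : #O ≤ 2 ^ lam
  L_inf : ℵ₀ ≤ L 0
  L_mono : Monotone L
  L_pow : ∀ n, 2 ^ L n ≤ lam
  dec : ∀ A : Type u, #A ≤ lam → ∃ f : A → ℕ, ∀ n, #{a // f a ≤ n} ≤ L n
  Bt_lt : #Bt < #Th
  Th_inf : ℵ₀ ≤ #Th
  Th_le : #Th ≤ L 0

/-! ### Operations on conditions -/

section ops

/-- the extension of the condition `q` to the height `h` -/
noncomputable def extR (q : Raw O J Bt) (h : O) : Raw O J Bt := by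
  classical
  exact ⟨h, q.S, q.T, q.W, fun j x => q.d j x ⊔ (if j ∈ q.W ∧ x = h then ⊤ else ⊥)⟩

/-- the limit of a family of conditions; its height is `s`, the values of `S` and `T` at `s` are `vS` and `vT` (joined
with the suprema) -/
noncomputable def limR {ι : Type*} (p : ι → Raw O J Bt) (s : O) (vS vT : Bt) : Raw O J Bt := by
  classical
  exact ⟨s, fun x => (⨆ a, (p a).S x) ⊔ (if x = s then vS else ⊥),
    fun x => (⨆ a, (p a).T x) ⊔ (if x = s then vT else ⊥), ⋃ a, (p a).W,
    fun j x => (⨆ a, (p a).d j x) ⊔ (if (∃ a, j ∈ (p a).W) ∧ x = s then ⊤ else ⊥)⟩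

/-- the condition `u` at the coordinates in `I`, the condition `p` at the other coordinates -/
noncomputable def amalR (I : Set J) (u p : Raw O J Bt) : Raw O J Bt := by
  classical
  exact ⟨u.h, u.S, u.T, u.W ∪ p.W,
    fun j x => if j ∈ I then u.d j x else p.d j x ⊔ (if j ∈ p.W ∧ x = u.h then ⊤ else ⊥)⟩

/-- the support is enlarged by `X` -/
noncomputable def addR (X : Set J) (p : Raw O J Bt) : Raw O J Bt := by
  classical
  exact ⟨p.h, p.S, p.T, p.W ∪ X,
    fun j x => p.d j x ⊔ (if j ∈ X ∧ j ∉ p.W ∧ x = p.h then ⊤ else ⊥)⟩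

/-- the condition `q` below `b`, the condition `p` below `bᶜ` (for conditions of the same height and support) -/
def glueR (b : Bt) (q p : Raw O J Bt) : Raw O J Bt :=
  ⟨q.h, fun x => (b ⊓ q.S x) ⊔ (bᶜ ⊓ p.S x), fun x => (b ⊓ q.T x) ⊔ (bᶜ ⊓ p.T x), q.W,
    fun j x => (b ⊓ q.d j x) ⊔ (bᶜ ⊓ p.d j x)⟩

/-- the condition `q` below `b`, the condition `p` (extended to the height and the support of `q`) below `bᶜ` -/
noncomputable def mixR (b : Bt) (q p : Raw O J Bt) : Raw O J Bt :=
  glueR b q (addR q.W (extR p q.h))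

end ops

/-- a nonempty directed family of conditions -/
def Dirx {ι : Type*} (p : ι → Raw O J Bt) : Prop :=
  Nonempty ι ∧ ∀ a b, ∃ e, Ext ⊤ (p e) (p a) ∧ Ext ⊤ (p e) (p b)

/-- the assumptions on the height `s` and the values `vS`, `vT` for which `limR p s vS vT` extends the conditions `p a` -/
def LimOk {ι : Type*} (p : ι → Raw O J Bt) (s : O) (vS vT : Bt) : Prop :=
  (∀ a, (p a).h ≤ s) ∧ ((vS = ⊥ ∧ vT = ⊥) ∨ ∀ a, (p a).h < s)

/-! ### Systems of conditions -/

/-- A system of conditions `X.cond t`, `t : J → Th`, with common height, support and `S`, `T`. -/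
structure Sys (O J Bt Th : Type u) where
  h : O
  S : O → Bt
  T : O → Bt
  W : Set J
  D : (J → Th) → J → O → Bt

/-- the condition of index `t` -/
def Sys.cond (X : Sys O J Bt Th) (t : J → Th) : Raw O J Bt := ⟨X.h, X.S, X.T, X.W, X.D t⟩

/-- `X` is a system of conditions for the set `w` of coordinates: the coordinate `k` of `X.cond t` depends only on the
values of `t` at the elements of `w` which are `≤ k`. -/
structure IsSys (lam : Cardinal.{u}) (c : J → Nm O J Bt) (w : Set J) (X : Sys O J Bt Th) : Prop where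
  ok : ∀ t, F lam c (X.cond t)
  coh : ∀ t t' k, (∀ i ∈ w, i ≤ k → t i = t' i) → X.D t k = X.D t' k
  hw : w ⊆ X.W
  hT : X.T X.h = ⊥

/-- Above `g`, the clubs at the coordinate of the first difference of `t`, `t'` are disjoint in `T`. -/
def Dis (w : Set J) (g : O) (X : Sys O J Bt Th) : Prop :=
  ∀ t t' k, k ∈ w → (∀ i ∈ w, i < k → t i = t' i) → t k ≠ t' k → ∀ x, g < x →
    X.D t k x ⊓ X.D t' k x ⊓ X.T x = ⊥

/-- the system `X'` extends the system `X` -/
def SLE (X' X : Sys O J Bt Th) : Prop := ∀ t, Ext ⊤ (X'.cond t) (X.cond t)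

/-- The data of the construction of the system: an increasing sequence of sets of coordinates, a sequence of systems,
and the supremum `α` of their heights. -/
structure SeqD (lam : Cardinal.{u}) (c : J → Nm O J Bt) (w : ℕ → Set J)
    (X : ℕ → Sys O J Bt Th) (α : O) : Prop where
  sys : ∀ n, IsSys lam c (w n) (X n)
  mono : ∀ n, w n ⊆ w (n + 1)
  le : ∀ n, SLE (X (n + 1)) (X n)
  lt : ∀ n, (X n).h < (X (n + 1)).h
  dis : ∀ n, Dis (w (n + 1)) (X n).h (X (n + 1))
  supp : ∀ n, (X n).W ⊆ ⋃ m, w m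
  hα : ∀ n, (X n).h < α
  cofα : ∀ x < α, ∃ n, x < (X n).h

/-- the limit of the conditions of index `t` -/
noncomputable def limX (X : ℕ → Sys O J Bt Th) (α : O) (t : J → Th) : Raw O J Bt :=
  limR (fun n => (X n).cond t) α ⊤ ⊥

end CG
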