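import Pool.Agent.W_MP_7dc84e_h31.Lim

/-!
# MP_7dc84e_lc : limits of `Bt`-names of directed families of conditions

`Hn : ι → Bt` is a name of a directed set `H ⊆ ι` of indices of conditions `p a`: `Hn a` is the truth value of `a ∈ H`.
-/

set_option autoImplicit false
set_option linter.unusedSectionVars false

universe u

open Cardinal Set

namespace CG

variable {O J Bt Th : Type u} [LinearOrder O] [LinearOrder J] [CompleteBooleanAlgebra Bt]
variable {ι : Type u} {lam : Cardinal.{u}}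

/-- `Hn` is a name of a directed family; the heights of its conditions are cofinal in `β` -/
structure NDir (Hn : ι → Bt) (p : ι → Raw O J Bt) (β : O) : Prop where
  ne : (⨆ a, Hn a) = ⊤
  dir : ∀ a b, Hn a ⊓ Hn b ≤ ⨆ e : {e // Ext ⊤ (p e) (p a) ∧ Ext ⊤ (p e) (p b)}, Hn e.1
  lt : ∀ a, (p a).h < β
  cof : ∀ y < β, ∀ a, Hn a ≤ ⨆ e : {e // Ext ⊤ (p e) (p a) ∧ y < (p e).h}, Hn e.1

/-- the limit -/
noncomputable def nlimR (Hn : ι → Bt) (p : ι → Raw O J Bt) (β : O) : Raw O J Bt := by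
  classical
  exact ⟨β, fun x => ⨆ a, Hn a ⊓ (p a).S x, fun x => ⨆ a, Hn a ⊓ (p a).T x, ⋃ a, (p a).W,
    fun j x => (⨆ a, Hn a ⊓ (p a).d j x) ⊔ (if (∃ a, j ∈ (p a).W) ∧ x = β then ⊤ else ⊥)⟩

variable {Hn : ι → Bt} {p : ι → Raw O J Bt} {β : O}

theorem nlim_aux (h : NDir Hn p β) {a : ι} {g : ι → Bt}
    (hg : ∀ e e', Ext ⊤ (p e') (p a) → Ext ⊤ (p e') (p e) → g e ≤ g a) :
    Hn a ⊓ (⨆ e, Hn e ⊓ g e) = Hn a ⊓ g a := by
  refine le_antisymm ?_ (le_inf inf_le_left (le_iSup (fun e => Hn e ⊓ g e) a))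
  rw [inf_iSup_eq]
  refine iSup_le fun e => ?_
  by_cases hE : Nonempty {e' // Ext ⊤ (p e') (p a) ∧ Ext ⊤ (p e') (p e)}
  · obtain ⟨e', h1, h2⟩ := hE
    exact inf_le_inf_left _ (inf_le_right.trans (hg e e' h1 h2))
  · have h1 : Hn a ⊓ Hn e ≤ ⊥ := by
      refine (h.dir a e).trans ?_
      have : IsEmpty {e' // Ext ⊤ (p e') (p a) ∧ Ext ⊤ (p e') (p e)} := not_nonempty_iff.1 hE
      rw [iSup_of_empty]
    rw [← inf_assoc]
    exact (inf_le_left.trans h1).trans bot_le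

theorem nlimR_d_ne (Hn : ι → Bt) (p : ι → Raw O J Bt) {β x : O} (j : J) (h : x ≠ β) :
    (nlimR Hn p β).d j x = ⨆ a, Hn a ⊓ (p a).d j x := by
  simp only [nlimR]
  rw [if_neg (fun h' => h h'.2), sup_bot_eq]

theorem nlimR_d_top (Hn : ι → Bt) (p : ι → Raw O J Bt) {β : O} {j : J} (h : ∃ a, j ∈ (p a).W) :
    (nlimR Hn p β).d j β = ⊤ := by
  simp only [nlimR]
  rw [if_pos ⟨h, rfl⟩, sup_top_eq]

theorem nlimR_d_not (hp : ∀ a, Basic lam (p a)) {j : J} (h : ∀ a, j ∉ (p a).W) (x : O) :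
    (nlimR Hn p β).d j x = ⊥ := by
  simp only [nlimR]
  rw [if_neg (fun h' => h'.1.elim h), sup_bot_eq, iSup_eq_bot]
  intro a
  rw [(hp a).d_out j (h a) x, inf_bot_eq]

/-- The values of `S`, `T`, `d` below `Hn a`.

PROOF.  Let `x ≤ (p a).h`.  `≥`: the term of index `a`.  `≤`: for `e : ι`, `Hn a ⊓ (Hn e ⊓ (p e).S x) ≤ Hn a ⊓ (p a).S x`: by
`h.dir a e` (and distributivity) it suffices that `Hn e' ⊓ (Hn a ⊓ (Hn e ⊓ (p e).S x)) ≤ Hn a ⊓ (p a).S x` for `e'` with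
`Ext ⊤ (p e') (p a)`, `Ext ⊤ (p e') (p e)`.  If `x ≤ (p e).h`, then `(p e).S x = (p e').S x = (p a).S x`; otherwise `(p e).S x = ⊥`
(`S_hi`). -/
theorem nlim_S (hp : ∀ a, Basic lam (p a)) (h : NDir Hn p β) {a : ι} {x : O} (hx : x ≤ (p a).h) :
    Hn a ⊓ (nlimR Hn p β).S x = Hn a ⊓ (p a).S x := by
  refine nlim_aux (g := fun e => (p e).S x) h fun e e' h1 h2 => ?_
  by_cases hxe : x ≤ (p e).h
  · rw [← h2.S_eq hxe, h1.S_eq hx]
  · rw [(hp e).S_hi x (not_le.1 hxe)]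
    exact bot_le

/-- PROOF.  As `nlim_S`. -/
theorem nlim_T (hp : ∀ a, Basic lam (p a)) (h : NDir Hn p β) {a : ι} {x : O} (hx : x ≤ (p a).h) :
    Hn a ⊓ (nlimR Hn p β).T x = Hn a ⊓ (p a).T x := by
  refine nlim_aux (g := fun e => (p e).T x) h fun e e' h1 h2 => ?_
  by_cases hxe : x ≤ (p e).h
  · rw [← h2.T_eq hxe, h1.T_eq hx]
  · rw [(hp e).T_hi x (not_le.1 hxe)]
    exact bot_le

/-- PROOF.  As `nlim_S`; in the case `j ∉ (p e).W` the value `(p e).d j x` is `⊥` (`d_out`); `x ≤ (p a).h < β`, so the `if` is `⊥`. -/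
theorem nlim_d (hp : ∀ a, Basic lam (p a)) (h : NDir Hn p β) {a : ι} {j : J} (hj : j ∈ (p a).W)
    {x : O} (hx : x ≤ (p a).h) :
    Hn a ⊓ (nlimR Hn p β).d j x = Hn a ⊓ (p a).d j x := by
  rw [nlimR_d_ne _ _ _ (lt_of_le_of_lt hx (h.lt a)).ne]
  refine nlim_aux (g := fun e => (p e).d j x) h fun e e' h1 h2 => ?_
  by_cases hje : j ∈ (p e).W
  · by_cases hxe : x ≤ (p e).h
    · rw [← h2.d_eq hje hxe, h1.d_eq hj hx]
    · rw [(hp e).d_hi j x (not_le.1 hxe)]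
      exact bot_le
  · rw [(hp e).d_out j hje]
    exact bot_le

/-- PROOF.  `nlim_S`, `nlim_T`, `nlim_d`. -/
theorem ext_nlim (hp : ∀ a, Basic lam (p a)) (h : NDir Hn p β) (a : ι) :
    Ext (Hn a) (nlimR Hn p β) (p a) := by
  exact ⟨(h.lt a).le, fun j hj => mem_iUnion.2 ⟨a, hj⟩, fun x hx => nlim_S hp h hx,
    fun x hx => nlim_T hp h hx, fun j hj x hx => nlim_d hp h hj hx⟩

/-- PROOF.  `S_hi`, `T_hi`, `d_hi`: for `β < x` all values are `⊥` as `(p a).h < β`.  `S_cof`: some `(p a).S x ≠ ⊥`.  `d_out`,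
`d_top`, `W_small`: immediate.  `d_cl`: let `x` be a limit point, `j` given, `V := ⨅ y : Iio x, ⨆ z : Ioo y x, d j z`.  If `j` is not
in the support, all values are `⊥`.  If `x = β`, `d j β = ⊤`.  If `β < x`, take `y = β`.  Let `x < β`.  For `z < x` the value is
`d j z = ⨆ a, Hn a ⊓ (p a).d j z ≤ ⨆ a : {a // j ∈ (p a).W}, Hn a` (`d_out`), so `V ≤ ⨆ a : {a // j ∈ (p a).W}, Hn a`
(`Iio x` is nonempty).  So it suffices that `Hn a ⊓ V ≤ d j x` for `a` with `j ∈ (p a).W`, and by `h.cof x` it suffices that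
`Hn e ⊓ V ≤ d j x` for `e` with `Ext ⊤ (p e) (p a)`, `x < (p e).h`; then `j ∈ (p e).W`.  By `nlim_d`, `Hn e ⊓ V ≤
⨅ y : Iio x, ⨆ z : Ioo y x, (p e).d j z ≤ (p e).d j x`, so `Hn e ⊓ V ≤ Hn e ⊓ (p e).d j x ≤ d j x`. -/
theorem basic_nlim (hp : ∀ a, Basic lam (p a)) (h : NDir Hn p β)
    (hW : #(⋃ a, (p a).W : Set J) ≤ lam) : Basic lam (nlimR Hn p β) := by
  refine ⟨?_, ?_, ?_, ?_, hW, ?_, ?_, ?_, ?_⟩
  · intro x hx
    have hx' : β < x := hx
    change (⨆ a, Hn a ⊓ (p a).S x) = ⊥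
    rw [iSup_eq_bot]
    intro a
    rw [(hp a).S_hi x ((h.lt a).trans hx'), inf_bot_eq]
  · intro x hx
    change (⨆ a, Hn a ⊓ (p a).S x) ≠ ⊥ at hx
    rw [ne_eq, iSup_eq_bot] at hx
    push Not at hx
    obtain ⟨a, ha⟩ := hx
    refine (hp a).S_cof x fun h0 => ha ?_
    rw [h0, inf_bot_eq]
  · intro x hx
    have hx' : β < x := hx
    change (⨆ a, Hn a ⊓ (p a).T x) = ⊥
    rw [iSup_eq_bot]
    intro a
    rw [(hp a).T_hi x ((h.lt a).trans hx'), inf_bot_eq]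
  · intro x hx
    change (⨆ a, Hn a ⊓ (p a).T x) ≠ ⊥ at hx
    rw [ne_eq, iSup_eq_bot] at hx
    push Not at hx
    obtain ⟨a, ha⟩ := hx
    refine (hp a).T_lim x fun h0 => ha ?_
    rw [h0, inf_bot_eq]
  · intro j hj x
    exact nlimR_d_not hp (fun a ha => hj (mem_iUnion.2 ⟨a, ha⟩)) x
  · intro j x hx
    have hx' : β < x := hx
    rw [nlimR_d_ne _ _ _ hx'.ne', iSup_eq_bot]
    intro a
    rw [(hp a).d_hi j x ((h.lt a).trans hx'), inf_bot_eq]
  · intro j hj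
    exact nlimR_d_top _ _ (mem_iUnion.1 hj)
  · intro j x hx
    by_cases hj : ∃ a, j ∈ (p a).W
    · rcases lt_trichotomy x β with hlt | heq | hgt
      · set V := ⨅ y : Iio x, ⨆ z : Ioo y.1 x, (nlimR Hn p β).d j z.1 with hVdef
        have hV : V ≤ ⨆ a : {a // j ∈ (p a).W}, Hn a.1 := by
          obtain ⟨y, hy⟩ := hx.1
          refine (iInf_le _ (⟨y, hy⟩ : Iio x)).trans (iSup_le fun z => ?_)
          rw [nlimR_d_ne _ _ _ (z.2.2.trans hlt).ne]
          refine iSup_le fun a => ?_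
          by_cases ha : j ∈ (p a).W
          · exact inf_le_left.trans (le_iSup (fun a : {a // j ∈ (p a).W} => Hn a.1) ⟨a, ha⟩)
          · rw [(hp a).d_out j ha, inf_bot_eq]
            exact bot_le
        have h1 : ∀ a, j ∈ (p a).W → Hn a ⊓ V ≤ (nlimR Hn p β).d j x := by
          intro a ha
          refine (inf_le_inf_right V (h.cof x hlt a)).trans ?_
          rw [iSup_inf_eq]
          refine iSup_le fun e => ?_
          have hje : j ∈ (p e.1).W := e.2.1.W ha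
          have hxe : x < (p e.1).h := e.2.2
          have h2 : Hn e.1 ⊓ V ≤ (p e.1).d j x := by
            refine le_trans ?_ ((hp e.1).d_cl j x hx)
            refine le_iInf fun y => ?_
            refine (inf_le_inf_left _ (iInf_le _ y)).trans ?_
            rw [inf_iSup_eq]
            refine iSup_le fun z => ?_
            rw [nlim_d hp h hje (z.2.2.le.trans hxe.le)]
            exact inf_le_right.trans (le_iSup (fun z : Ioo y.1 x => (p e.1).d j z.1) z)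
          calc Hn e.1 ⊓ V ≤ Hn e.1 ⊓ (p e.1).d j x := le_inf inf_le_left h2
            _ = Hn e.1 ⊓ (nlimR Hn p β).d j x := (nlim_d hp h hje hxe.le).symm
            _ ≤ _ := inf_le_right
        calc V = V ⊓ ⨆ a : {a // j ∈ (p a).W}, Hn a.1 := (inf_eq_left.2 hV).symm
          _ ≤ _ := by
            rw [inf_iSup_eq]
            refine iSup_le fun a => ?_
            rw [inf_comm]
            exact h1 a.1 a.2
      · subst heq
        rw [nlimR_d_top _ _ hj]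
        exact le_top
      · refine (iInf_le _ (⟨β, hgt⟩ : Iio x)).trans (iSup_le fun z => ?_)
        have hz : β < z.1 := z.2.1
        rw [nlimR_d_ne _ _ _ hz.ne']
        refine iSup_le fun a => ?_
        rw [(hp a).d_hi j z.1 ((h.lt a).trans hz), inf_bot_eq]
        exact bot_le
    · obtain ⟨⟨y, hy⟩, -⟩ := hx
      refine (iInf_le _ (⟨y, hy⟩ : Iio x)).trans (iSup_le fun z => ?_)
      rw [nlimR_d_not hp (fun a ha => hj ⟨a, ha⟩)]
      exact bot_le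

variable [WellFoundedLT J] {c : J → Nm O J Bt}

/-- The limit is a condition.

PROOF.  `basic_nlim`; the requirement at `k ∈ ⋃ a, (p a).W`: use `at_iff`.  Let `q := nlimR Hn p β` and `b r x C`, `a₀ ≤ b`, `u` be given
with `GoodT`, `PF lam c (Iio k) u`, `Ext a₀ u r`, `Ext a₀ u (q.res (Iio k))`.  Put `R := ⨅ y : C, q.d k y ⊓ q.T y`.
If `q.S x = ⊥`, trivial.  Otherwise `CofOm x` (`basic_nlim.S_cof`), and `Cof C x` gives an element `y₀ ∈ C`, `y₀ < x`, `x < β`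
(`q.S x ≠ ⊥` and `(p a).h < β`), so `R ≤ q.d k y₀ ≤ ⨆ a : {a // k ∈ (p a).W}, Hn a`.  So
`a₀ ⊓ (q.S x ⊓ R) ≤ ⨆ over e, a with k ∈ (p a).W of (Hn e ⊓ (p e).S x) ⊓ Hn a ⊓ a₀ ⊓ R`; by `h.dir e a` and `h.cof x` it suffices that
`a₁ ⊓ (q.S x ⊓ R) = ⊥` for `a₁ := a₀ ⊓ Hn e'`, where `k ∈ (p e').W` and `x < (p e').h`.  By `ext_nlim`, `Ext a₁ u ((p e').res (Iio k))`, so
`At lam c k (p e')` gives `a₁ ⊓ ((p e').S x ⊓ ⨅ y : C, (p e').d k y ⊓ (p e').T y) = ⊥`; and `a₁ ⊓ (q.S x ⊓ R)` is below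
(in fact equal to) this element, by `nlim_S`, `nlim_d`, `nlim_T` (`y < x < (p e').h` for `y ∈ C`). -/
theorem F_nlim (hp : ∀ a, F lam c (p a)) (h : NDir Hn p β) (hW : #(⋃ a, (p a).W : Set J) ≤ lam) :
    F lam c (nlimR Hn p β) := by
  have hb : ∀ a, Basic lam (p a) := fun a => (hp a).1
  have hB : Basic lam (nlimR Hn p β) := basic_nlim hb h hW
  refine ⟨hB, fun k hk => ?_⟩
  rw [at_iff]
  intro b r x C hG a₀ u hab hu hur huq
  by_cases hS : (nlimR Hn p β).S x = ⊥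
  · rw [hS, bot_inf_eq, inf_bot_eq]
  · obtain ⟨f, hf, -⟩ := hB.S_cof x hS
    obtain ⟨y₀, hy0C, -⟩ := hG.cof.2 (f 0) (hf 0)
    have hy0x : y₀ < x := hG.cof.1 y₀ hy0C
    have hxβ : x < β := by
      change (⨆ a, Hn a ⊓ (p a).S x) ≠ ⊥ at hS
      rw [ne_eq, iSup_eq_bot] at hS
      push Not at hS
      obtain ⟨a, ha⟩ := hS
      by_contra hcon
      apply ha
      rw [(hb a).S_hi x ((h.lt a).trans_le (not_lt.1 hcon)), inf_bot_eq]
    -- the key step
    have key : ∀ e', k ∈ (p e').W → x < (p e').h → (a₀ ⊓ Hn e') ⊓ ((nlimR Hn p β).S x ⊓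
        ⨅ y : C, (nlimR Hn p β).d k y.1 ⊓ (nlimR Hn p β).T y.1) = ⊥ := by
      intro e' hke hxe
      have h1 := at_iff.1 ((hp e').2 k hke) b r x C hG (a₀ ⊓ Hn e') u (inf_le_left.trans hab) hu
        (hur.mono inf_le_left)
        ((huq.mono inf_le_left).trans (((ext_nlim hb h e').res (Iio k)).mono inf_le_right))
      rw [← le_bot_iff, ← h1]
      refine le_inf inf_le_left (le_inf ?_ (le_iInf fun y => ?_))
      · have h2 : (a₀ ⊓ Hn e') ⊓ ((nlimR Hn p β).S x ⊓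
            ⨅ y : C, (nlimR Hn p β).d k y.1 ⊓ (nlimR Hn p β).T y.1) ≤
            Hn e' ⊓ (nlimR Hn p β).S x := inf_le_inf inf_le_right inf_le_left
        rw [nlim_S hb h hxe.le] at h2
        exact h2.trans inf_le_right
      · have hyh : y.1 ≤ (p e').h := ((hG.cof.1 y.1 y.2).trans hxe).le
        have h2 : (a₀ ⊓ Hn e') ⊓ ((nlimR Hn p β).S x ⊓
            ⨅ y : C, (nlimR Hn p β).d k y.1 ⊓ (nlimR Hn p β).T y.1) ≤
            Hn e' ⊓ ((nlimR Hn p β).d k y.1 ⊓ (nlimR Hn p β).T y.1) :=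
          inf_le_inf inf_le_right (inf_le_right.trans (iInf_le _ y))
        refine le_inf ?_ ?_
        · have h3 := h2.trans (inf_le_inf_left _ inf_le_left)
          rw [nlim_d hb h hke hyh] at h3
          exact h3.trans inf_le_right
        · have h3 := h2.trans (inf_le_inf_left _ inf_le_right)
          rw [nlim_T hb h hyh] at h3
          exact h3.trans inf_le_right
    have hR : (⨅ y : C, (nlimR Hn p β).d k y.1 ⊓ (nlimR Hn p β).T y.1) ≤
        ⨆ e' : {e' // k ∈ (p e').W ∧ x < (p e').h}, Hn e'.1 := by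
      refine ((iInf_le _ (⟨y₀, hy0C⟩ : C)).trans inf_le_left).trans ?_
      rw [nlimR_d_ne _ _ _ (hy0x.trans hxβ).ne]
      refine iSup_le fun a => ?_
      by_cases ha : k ∈ (p a).W
      · refine (inf_le_left.trans (h.cof x hxβ a)).trans (iSup_le fun e => ?_)
        exact le_iSup (fun e' : {e' // k ∈ (p e').W ∧ x < (p e').h} => Hn e'.1)
          ⟨e.1, e.2.1.W ha, e.2.2⟩
      · rw [(hb a).d_out k ha, inf_bot_eq]
        exact bot_le
    rw [← le_bot_iff]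
    calc a₀ ⊓ ((nlimR Hn p β).S x ⊓
          ⨅ y : C, (nlimR Hn p β).d k y.1 ⊓ (nlimR Hn p β).T y.1)
        ≤ (a₀ ⊓ ((nlimR Hn p β).S x ⊓
          ⨅ y : C, (nlimR Hn p β).d k y.1 ⊓ (nlimR Hn p β).T y.1)) ⊓
          ⨆ e' : {e' // k ∈ (p e').W ∧ x < (p e').h}, Hn e'.1 :=
          le_inf le_rfl ((inf_le_right.trans inf_le_right).trans hR)
      _ ≤ ⊥ := by
        rw [inf_iSup_eq]
        refine iSup_le fun e' => ?_
        rw [← key e'.1 e'.2.1 e'.2.2, inf_right_comm]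

end CG
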