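import Pool.Agent.W_MP_7dc84e_h31.Obj
import Pool.Agent.W_MP_7dc84e_h31.NLim

/-!
# MP_7dc84e_lc : the generic set for the trace of the forcing
-/

set_option autoImplicit false
set_option linter.unusedSectionVars false

universe u

open Cardinal Set IM

namespace CG

variable {K O J Th : Type u} [LinearOrder K] [LinearOrder O] [LinearOrder J]
variable [WellFoundedLT O] [WellFoundedLT J]
variable {lam : Cardinal.{u}} {L : ℕ → Cardinal.{u}} {c : J → Nm O J (RO (BP K))}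

/-- The factor of index `μ` of `BP K` is isomorphic to the trace of the set of conditions on `x`. -/
structure Emb (lam : Cardinal.{u}) (c : J → Nm O J (RO (BP K))) (x : Set (Obj K O J)) (μ : Ix K)
    (p : Iio μ.η → Raw O J (RO (BP K))) : Prop where
  out : Obj.i μ ∉ x
  mem : ∀ a, F lam c (p a) ∧ Obj.r (p a) ∈ x
  surj : ∀ r, F lam c r → Obj.r r ∈ x → ∃ a, p a = r
  ord : ∀ a a', μ.ρ a a' ↔ Ext ⊤ (p a) (p a')

/-- `β` is the supremum of the trace of `x` on `O` -/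
structure SupX (x : Set (Obj K O J)) (β : O) : Prop where
  lt : ∀ y, Obj.o y ∈ x → y < β
  cof : ∀ y < β, ∃ z, Obj.o z ∈ x ∧ y < z

/-- the truth value of: `a` belongs to the generic filter of the factor of index `μ` -/
noncomputable def hN (μ : Ix K) (a : Iio μ.η) : RO (BP K) :=
  ⟨{b | ∀ q ≤ b, ∃ r ≤ q, ∃ v, r.v μ = some v ∧ μ.ρ v a}, RO.isRO_dens
    {b : BP K | ∃ v, b.v μ = some v ∧ μ.ρ v a} (by
      rintro b ⟨v, hv, hva⟩ b' hb'
      obtain ⟨v', hv', h⟩ := hb' μ v hv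
      exact ⟨v', hv', (b.good μ (by rw [hv]; simp)).trans _ _ _ h hva⟩)⟩

/-- PROOF.  For `q ≤ b` take `r = q`: `q.v μ = some v'` with `μ.ρ v' v`, transitivity (`b.good`); use `eB_le_iff`. -/
theorem eB_le_hN {μ : Ix K} {b : BP K} {v a : Iio μ.η} (hv : b.v μ = some v) (h : μ.ρ v a) :
    eB b ≤ hN μ a := by
  rw [eB_le_iff]
  intro q hq
  obtain ⟨v', hv', hρ⟩ := hq μ v hv
  exact ⟨q, le_rfl, v', hv', (b.good μ (by rw [hv]; simp)).trans _ _ _ hρ h⟩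

variable {x : Set (Obj K O J)}

/-- PROOF.  The type `Fx := {r // F lam c r ∧ Obj.r r ∈ x}` has size `≤ #x < #K` (`r ↦ Obj.r r` is injective), so there is `η : K` with
`#(Iio η) = #Fx` (`K` is a well-order of the type of the initial ordinal of `#K`: the least `η` with `#Fx ≤ #(Iio η)`, which exists
since otherwise `#K ≤ #Fx`, has `#(Iio η) = #Fx`; alternatively let `η := Ordinal.enum .. (#Fx).ord` as in `exists_surj` of
`Pool/Agent/W_MP_315f31_lc/C/TreeX.lean`).  Let `g : Iio η ≃ Fx`, `ρ a a' := Ext ⊤ (g a).1 (g a').1`.  For `i : K` let `μ i := ⟨η, ρ, i⟩`; the map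
`i ↦ Obj.i (μ i)` is injective and `#x < #K`, so there is `i` with `Obj.i (μ i) ∉ x`. -/
theorem exists_emb [WellFoundedLT K] (hK : ∀ a : K, #(Iio a) < #K) (h1 : Gx1 x) :
    ∃ (μ : Ix K) (p : Iio μ.η → Raw O J (RO (BP K))), Emb lam c x μ p := by
  have hle : #{r : Raw O J (RO (BP K)) // F lam c r ∧ Obj.r r ∈ x} ≤ #x := by
    refine Cardinal.mk_le_of_injective
      (f := fun r : {r : Raw O J (RO (BP K)) // F lam c r ∧ Obj.r r ∈ x} =>
        (⟨Obj.r r.1, r.2.2⟩ : x)) ?_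
    intro r r' h
    have h2 : (Obj.r r.1 : Obj K O J) = Obj.r r'.1 := congrArg Subtype.val h
    exact Subtype.ext (Obj.r.inj h2)
  have hlt : #{r : Raw O J (RO (BP K)) // F lam c r ∧ Obj.r r ∈ x} < #K := hle.trans_lt h1.small
  have h1' : (#{r : Raw O J (RO (BP K)) // F lam c r ∧ Obj.r r ∈ x}).ord <
      Ordinal.type (fun x y : K => x < y) := by
    rw [← not_le]
    intro h
    have h2 := Ordinal.card_le_card h
    rw [Cardinal.card_ord, Ordinal.card_type] at h2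
    exact absurd hlt (not_lt.2 h2)
  let δ : K := Ordinal.enum (fun x y : K => x < y)
    ⟨(#{r : Raw O J (RO (BP K)) // F lam c r ∧ Obj.r r ∈ x}).ord, h1'⟩
  have h2 : #{y // y < δ} = #{r : Raw O J (RO (BP K)) // F lam c r ∧ Obj.r r ∈ x} := by
    have h3 := Ordinal.card_typein (r := fun x y : K => x < y) δ
    rw [← h3, Ordinal.typein_enum, Cardinal.card_ord]
  obtain ⟨g⟩ := Cardinal.eq.1 h2
  let ρ : Iio δ → Iio δ → Prop := fun a a' => Ext ⊤ (g a).1 (g a').1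
  have h3 : ∃ i : K, (Obj.i ⟨δ, ρ, i⟩ : Obj K O J) ∉ x := by
    by_contra hno
    push Not at hno
    refine absurd h1.small (not_lt.2 ?_)
    refine Cardinal.mk_le_of_injective (f := fun i : K => (⟨Obj.i ⟨δ, ρ, i⟩, hno i⟩ : x)) ?_
    intro i i' h
    have h4 : (Obj.i ⟨δ, ρ, i⟩ : Obj K O J) = Obj.i ⟨δ, ρ, i'⟩ := congrArg Subtype.val h
    have h5 := Obj.i.inj h4
    exact congrArg Ix.i h5
  obtain ⟨i, hi⟩ := h3
  refine ⟨⟨δ, ρ, i⟩, fun a => (g a).1, hi, fun a => (g a).2, ?_, fun a a' => Iff.rfl⟩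
  intro r hr hrx
  exact ⟨g.symm ⟨r, hr, hrx⟩, by rw [Equiv.apply_symm_apply]⟩

/-- PROOF.  `refl`, `trans`: `Ext.refl`, `Ext.trans`.  `sig`: `Gx3.seq` and `surj`. -/
theorem Emb.spre (h3 : Gx3 lam c x) {μ : Ix K} {p : Iio μ.η → Raw O J (RO (BP K))}
    (h : Emb lam c x μ p) : SPre μ.ρ := by
  refine ⟨fun a => (h.ord a a).2 (Ext.refl _ _), fun a b d hab hbd => (h.ord a d).2
    (((h.ord a b).1 hab).trans ((h.ord b d).1 hbd)), fun f hf => ?_⟩
  obtain ⟨r, hr, hrx, hrf⟩ := h3.seq (fun n => p (f n)) (fun n => h.mem _)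
    (fun n => (h.ord _ _).1 (hf n))
  obtain ⟨b, rfl⟩ := h.surj r hr hrx
  exact ⟨b, fun n => (h.ord _ _).2 (hrf n)⟩

/-- Every condition of `BP K` can be extended such that the value at `μ` is defined.  PROOF.  `BP.upd` with the value `a`, if it is not
defined. -/
theorem exists_def {μ : Ix K} (hs : SPre μ.ρ) (a : Iio μ.η) (b : BP K) :
    ∃ b' ≤ b, ∃ v, b'.v μ = some v := by
  by_cases h : b.v μ = none
  · exact ⟨b.upd μ a hs, BP.upd_le (by intro a' ha'; rw [h] at ha'; cases ha'), a,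
      BP.upd_same _ _ _ _⟩
  · obtain ⟨v, hv⟩ := Option.ne_none_iff_exists'.1 h
    exact ⟨b, le_rfl, v, hv⟩

/-- Density argument: if for every `v ≤ a` there is `e ∈ Z`, `e ≤ v`, then `hN μ a ≤ ⨆ e ∈ Z, hN μ e`.

PROOF.  Let `b ∈ hN μ a` and `q ≤ b`; there is `r ≤ q` with `r.v μ = some v`, `μ.ρ v a`.  Let `e ∈ Z` with `μ.ρ e v`; `r.upd μ e ≤ r`
(`BP.upd_le`) and `r.upd μ e ∈ hN μ e` (`eB_le_hN`). -/
theorem hN_le_iSup {μ : Ix K} (hs : SPre μ.ρ) {a : Iio μ.η} {Z : Iio μ.η → Prop}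
    (hZ : ∀ v, μ.ρ v a → ∃ e, Z e ∧ μ.ρ e v) : hN μ a ≤ ⨆ e : {e // Z e}, hN μ e.1 := by
  rw [RO.le_def]
  intro b hb
  rw [RO.mem_iSup]
  intro q hq
  obtain ⟨r, hr, v, hv, hva⟩ := hb q hq
  obtain ⟨e, he, hev⟩ := hZ v hva
  refine ⟨r.upd μ e hs, (BP.upd_le ?_).trans hr, ⟨e, he⟩, ?_⟩
  · intro a' ha'
    rw [hv] at ha'
    cases ha'
    exact hev
  · exact eB_le_iff.1 (eB_le_hN (BP.upd_same _ _ _ _) (hs.refl e))

/-- The name of the generic set is a name of a directed family.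

PROOF.  `ne`: every `b` has an extension `b'` with `b'.v μ = some v` (`exists_def`, `a₀`), and `b' ∈ hN μ v`.  `dir`: let
`b ∈ hN μ a ⊓ hN μ a'` and `q ≤ b`; there are `r ≤ q`, `r.v μ = some v`, `μ.ρ v a`, and `r' ≤ r`, `r'.v μ = some v'`, `μ.ρ v' a'`; `μ.ρ v' v` (`r' ≤ r`), so
`v'` is below `a` and `a'`, and `r' ∈ hN μ v'`; use `h.ord`.  `lt`: `Gx3.r_h` and `SupX.lt`.  `cof`: `hN_le_iSup`: let `y < β` and `μ.ρ v a`; let
`Obj.o z ∈ x`, `y < z` (`SupX.cof`), and `r'` with `Ext ⊤ r' (p v)`, `z < r'.h` (`Gx3.height`), `r' = p e` (`surj`). -/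
theorem Emb.ndir (h3 : Gx3 lam c x) {μ : Ix K} {p : Iio μ.η → Raw O J (RO (BP K))}
    (h : Emb lam c x μ p) {β : O} (hβ : SupX x β) (a₀ : Iio μ.η) : NDir (hN μ) p β := by
  have hs : SPre μ.ρ := h.spre h3
  refine ⟨?_, ?_, ?_, ?_⟩
  · rw [eq_top_iff, RO.le_def]
    intro b _
    rw [RO.mem_iSup]
    intro q _
    obtain ⟨b', hb', v, hv⟩ := exists_def hs a₀ q
    exact ⟨b', hb', v, eB_le_iff.1 (eB_le_hN hv (hs.refl v))⟩
  · intro a a'
    rw [RO.le_def]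
    rintro b hb
    rw [RO.mem_iSup]
    intro q hq
    rw [RO.mem_inf] at hb
    obtain ⟨r, hr, v, hv, hva⟩ := hb.1 q hq
    obtain ⟨r', hr', v', hv', hva'⟩ := hb.2 r (hr.trans hq)
    obtain ⟨v'', hv'', hvv⟩ := hr' μ v hv
    rw [hv'] at hv''
    cases hv''
    exact ⟨r', hr'.trans hr, ⟨v', (h.ord _ _).1 (hs.trans _ _ _ hvv hva), (h.ord _ _).1 hva'⟩,
      eB_le_iff.1 (eB_le_hN hv' (hs.refl v'))⟩
  · intro a
    exact hβ.lt _ (h3.r_h (p a) (h.mem a).1 (h.mem a).2)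
  · intro y hy a
    refine hN_le_iSup hs (Z := fun e => Ext ⊤ (p e) (p a) ∧ y < (p e).h) ?_
    intro v hva
    obtain ⟨z, hz, hyz⟩ := hβ.cof y hy
    obtain ⟨r', hr', hrx, hext, hzr⟩ := h3.height (p v) z (h.mem v).1 (h.mem v).2 hz
    obtain ⟨e, rfl⟩ := h.surj r' hr' hrx
    exact ⟨e, ⟨hext.trans ((h.ord _ _).1 hva), hyz.trans hzr⟩, (h.ord _ _).2 hext⟩

/-- The limit condition.

PROOF.  `F_nlim` with `Emb.ndir`; `#(⋃ a, (p a).W) ≤ lam` by `Par.mk_iUnion_le`, `#(Iio μ.η) ≤ lam` by `hκ` (`Iio μ.η` is a subtype of `K`). -/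
theorem Emb.F_q (P : Par O J (RO (BP K)) Th lam L) (hκ : #K ≤ lam) (h3 : Gx3 lam c x) {μ : Ix K}
    {p : Iio μ.η → Raw O J (RO (BP K))} (h : Emb lam c x μ p) {β : O} (hβ : SupX x β)
    (a₀ : Iio μ.η) : F lam c (nlimR (hN μ) p β) := by
  refine F_nlim (fun a => (h.mem a).1) (h.ndir h3 hβ a₀) (P.mk_iUnion_le ?_ _ fun a =>
    (h.mem a).1.1.W_small)
  exact (Cardinal.mk_subtype_le _).trans hκ

/-- PROOF.  Let `β` be the least upper bound of `{y | Obj.o y ∈ x}` (`P.bdd`, size `≤ #x < #K ≤ lam`); `lt`: `Gx2.o_lt`. -/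
theorem exists_sup (P : Par O J (RO (BP K)) Th lam L) (hκ : #K ≤ lam) (h1 : Gx1 x) (h2 : Gx2 x) :
    ∃ β : O, SupX x β := by
  have hle : #{y : O | (Obj.o y : Obj K O J) ∈ x} ≤ #x := by
    refine Cardinal.mk_le_of_injective
      (f := fun y : {y : O | (Obj.o y : Obj K O J) ∈ x} => (⟨Obj.o y.1, y.2⟩ : x)) ?_
    intro y y' h
    have h2 : (Obj.o y.1 : Obj K O J) = Obj.o y'.1 := congrArg Subtype.val h
    exact Subtype.ext (Obj.o.inj h2)
  obtain ⟨β, hβ⟩ := P.exists_lub (hle.trans (h1.small.le.trans hκ))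
  refine ⟨β, fun y hy => ?_, fun y hy => ?_⟩
  · obtain ⟨z, hyz, hz⟩ := h2.o_lt y hy
    exact lt_of_lt_of_le hyz (hβ.1 hz)
  · by_contra hno
    push Not at hno
    exact absurd (hβ.2 fun z hz => hno z hz) (not_le.2 hy)

/-- PROOF.  Limit point: `x` contains some `Obj.o y₀` (`hne`), and for `y < β` there is `z ∈ x`, `y < z < β`.  Let `f n < β` be a sequence
cofinal in `β`; for every `n` there is `z ∈ x` with `f n < z`; `Gx2.o_unc` gives `z ∈ x` with `f n < z` for all `n`; `z < β`,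
contradiction. -/
theorem SupX.unc (h2 : Gx2 x) {β : O} (hβ : SupX x β) (hne : ∃ y, Obj.o y ∈ x) :
    IsLimPt β ∧ ¬ CofOm β := by
  obtain ⟨y₀, hy₀⟩ := hne
  refine ⟨⟨⟨y₀, hβ.lt y₀ hy₀⟩, fun y hy => ?_⟩, ?_⟩
  · obtain ⟨z, hz, hyz⟩ := hβ.cof y hy
    exact ⟨z, hyz, hβ.lt z hz⟩
  · rintro ⟨f, hf1, hf2⟩
    obtain ⟨z, hz, hfz⟩ := h2.o_unc f (fun n => by
      obtain ⟨z, hz, hyz⟩ := hβ.cof (f n) (hf1 n)
      exact ⟨z, hyz.le, hz⟩)
    obtain ⟨n, hn⟩ := hf2 z (hβ.lt z hz)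
    exact lt_asymm hn (hfz n)

end CG
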