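import Pool.Agent.W_MP_7dc84e_h31.FoC

/-!
# MP_7dc84e_lc : closed unbounded and stationary sets in the model
-/

set_option autoImplicit false
set_option linter.unusedSectionVars false

universe u

open Cardinal Set HESR IM.BSet BVM CGM
open IM (BSet)

namespace CG

variable {O : Type u} [LinearOrder O] [WellFoundedLT O] {D : Type u} [CompleteBooleanAlgebra D]
variable {l : O} {S T : O → D} {lam : D → Prop} {hl : IsUF lam}

/-- An element of `C` above `chk y`. -/
theorem fod_above {C : BSet D} {y : O}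
    (h : ∃ z, E hl z (val hl (chkT O)) ∧ (E hl z (val hl C) ∧ E hl (val hl (chk y)) z)) :
    lam (⨆ z : Ioi y, bmem (chk z.1) C) := by
  have hT : TD1 (D := D) fun lam hl z => E hl z (val hl C) ∧ E hl (val hl (chk y)) z :=
    TD.and (TD.mem (Tm.var 0) (Tm.const _)) (TD.mem (Tm.const _) (Tm.var 0))
  rw [exists_chkT_iff hT] at h
  refine hl.mono (iSup_le fun w => ?_) h
  by_cases hw : y < w
  · refine le_trans ?_ (le_iSup (fun z : Ioi y => bmem (chk z.1) C) ⟨w, hw⟩)
    rw [le_iff_ultra]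
    intro lam' hl' h'
    exact E_val.1 ((TD.b1_iff hT (hl := hl')).2 h').1
  · have h1 : TD.b1 hT (chk w) = ⊥ := by
      rw [eq_bot_iff_ultra]
      intro lam' hl' h'
      exact hw (E_chk.1 ((TD.b1_iff hT (hl := hl')).2 h').2)
    rw [h1]
    exact bot_le

/-- An element of `C` between `chk y` and `chk x`. -/
theorem fod_between {C : BSet D} {x y : O}
    (h : ∃ z, E hl z (val hl (chk x)) ∧ (E hl z (val hl C) ∧ E hl (val hl (chk y)) z)) :
    lam (⨆ z : Ioo y x, bmem (chk z.1) C) := by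
  have hT : TD1 (D := D) fun lam hl z => E hl z (val hl C) ∧ E hl (val hl (chk y)) z :=
    TD.and (TD.mem (Tm.var 0) (Tm.const _)) (TD.mem (Tm.const _) (Tm.var 0))
  rw [exists_chk_iff hT] at h
  refine hl.mono (iSup_le fun w => ?_) h
  by_cases hw : y < w.1
  · refine le_trans ?_ (le_iSup (fun z : Ioo y x => bmem (chk z.1) C) ⟨w.1, hw, w.2⟩)
    rw [le_iff_ultra]
    intro lam' hl' h'
    exact E_val.1 ((TD.b1_iff hT (hl := hl')).2 h').1
  · have h1 : TD.b1 hT (chk w.1) = ⊥ := by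
      rw [eq_bot_iff_ultra]
      intro lam' hl' h'
      exact hw (E_chk.1 ((TD.b1_iff hT (hl := hl')).2 h').2)
    rw [h1]
    exact bot_le

/-- The converse of `fod_between`. -/
theorem fod_between_of {C : BSet D} {x y : O} (h : lam (⨆ z : Ioo y x, bmem (chk z.1) C)) :
    ∃ z, E hl z (val hl C) ∧ E hl z (val hl (chk x)) ∧ E hl (val hl (chk y)) z := by
  have hT : TD1 (D := D) fun lam hl z => E hl z (val hl C) ∧ E hl (val hl (chk y)) z :=
    TD.and (TD.mem (Tm.var 0) (Tm.const _)) (TD.mem (Tm.const _) (Tm.var 0))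
  have h1 : ∃ z, E hl z (val hl (chk x)) ∧ (E hl z (val hl C) ∧ E hl (val hl (chk y)) z) := by
    rw [exists_chk_iff hT]
    refine hl.mono (iSup_le fun z => ?_) h
    refine le_trans ?_ (le_iSup (fun v : Iio x => TD.b1 hT (chk v.1)) ⟨z.1, z.2.2⟩)
    rw [TD.le_b1]
    intro lam' hl' h'
    exact ⟨E_val.2 h', E_chk_of z.2.1⟩
  obtain ⟨z, hz1, hz2, hz3⟩ := h1
  exact ⟨z, hz2, hz1, hz3⟩

/-- Closure of `C` at a limit point. -/
theorem fod_close {C : BSet D} {x : O} (hx : IsLimPt x)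
    (hv : lam (⨅ y : Iio x, ⨆ z : Ioo y.1 x, bmem (chk z.1) C)) :
    (∃ y, E hl y (val hl (chk x))) ∧ ∀ y, E hl y (val hl (chk x)) →
      ∃ z, E hl z (val hl C) ∧ E hl z (val hl (chk x)) ∧ E hl y z := by
  refine ⟨?_, ?_⟩
  · obtain ⟨⟨y, hy⟩, -⟩ := hx
    exact ⟨_, E_chk_of hy⟩
  · refine forall_chk (P := fun lam hl y => ∃ z, E hl z (val hl C) ∧ E hl z (val hl (chk x)) ∧
      E hl y z) ?_ (a := ⨅ y : Iio x, ⨆ z : Ioo y.1 x, bmem (chk z.1) C) ?_ hv
    · refine TD.ex (P := fun lam hl z v => E hl z (val hl C) ∧ E hl z (val hl (chk x)) ∧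
        E hl (v 0) z) ?_
      exact TD.and (TD.mem (Tm.var 0) (Tm.const _)) (TD.and (TD.mem (Tm.var 0) (Tm.const _))
        (TD.mem (Tm.var 1) (Tm.var 0)))
    · intro y hy lam' hl' h'
      exact fod_between_of (hl'.mono (iInf_le _ (⟨y, hy⟩ : Iio x)) h')

/-- The set named by `δ` is closed unbounded, if the truth value of the corresponding combinatorial statement is `⊤`.

PROOF.  `Sub`: `sub_sN`.  Unbounded: by `forall_chkT` for `chk y`; `⊤ ≤ ⨆ z : Ioi y, δ z`, and `exists_sN_iff` for the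
property `E (chk y) ·`: its value at `chk z` is `⊤` for `y < z` (`E_chk_of`).  Closed: let `a ∈ chkT O`, by `forall_chkT`
(the property `(∃ x, E x a) → (∀ x, E x a → ..) → E a (sN δ)` is `TD1`) we may take `a = chk x`.  If `x` is not a limit point:
either `x` is minimal, then `chk x` has no element (`isEmp_chk`); or there is `y < x` with no `z ∈ (y, x)`; then for `chk y ∈ chk x`
there is no `z' ∈ chk x` with `chk y ∈ z'` (`forall_chk`).  If `x` is a limit point: assume
`∀ y, E y (chk x) → ∃ z, E z (sN δ) ∧ E z (chk x) ∧ E y z` (truth value `v`); claim `v ≤ ⨅ y : Iio x, ⨆ z : Ioo y x, δ z`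
(`exists_sN_iff` for the property `E · (chk x) ∧ E (chk y) ·`, whose value at `chk z` is `⊥` unless `y < z < x`), hence
`v ≤ δ x` by `hδ`, and `chk x ∈ sN δ` by `E_sN`. -/
theorem isClub_sN {δ : O → D} (hδ : clubV δ = ⊤) :
    IsClub (E hl) (val hl (chkT O : BSet D)) (val hl (sN δ)) := by
  have hδ1 : (⨅ y : O, ⨆ z : Ioi y, δ z.1) = ⊤ := top_le_iff.1 (hδ ▸ inf_le_left)
  have hδ2 : (⨅ x : {x : O // IsLimPt x},
      (⨅ y : Iio x.1, ⨆ z : Ioo y.1 x.1, δ z.1)ᶜ ⊔ δ x.1) = ⊤ := top_le_iff.1 (hδ ▸ inf_le_right)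
  refine ⟨sub_sN, ?_, ?_⟩
  · refine forall_chkT (P := fun lam hl x => ∃ y, E hl y (val hl (sN δ)) ∧ E hl x y) ?_ (a := ⊤) ?_
      hl.top
    · exact TD.ex (P := fun lam hl y v => E hl y (val hl (sN δ)) ∧ E hl (v 0) y)
        (TD.and (TD.mem (Tm.var 0) (Tm.const _)) (TD.mem (Tm.var 1) (Tm.var 0)))
    · intro w lam' hl' _
      have hT : TD1 (D := D) fun lam hl z => E hl (val hl (chk w)) z :=
        TD.mem (Tm.const _) (Tm.var 0)
      rw [exists_sN_iff hT]
      have h1 : lam' (⨆ z : Ioi w, δ z.1) := by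
        have h2 : (⨆ z : Ioi w, δ z.1) = ⊤ := iInf_eq_top.1 hδ1 w
        rw [h2]
        exact hl'.top
      refine hl'.mono (iSup_le fun z => ?_) h1
      refine le_trans (le_inf le_rfl ?_) (le_iSup (fun x : O => δ x ⊓ TD.b1 hT (chk x)) z.1)
      rw [TD.le_b1]
      intro lam'' hl'' _
      exact E_chk_of z.2
  · refine forall_chkT (P := fun lam hl a => (∃ x, E hl x a) →
      (∀ x, E hl x a → ∃ y, E hl y (val hl (sN δ)) ∧ E hl y a ∧ E hl x y) →
      E hl a (val hl (sN δ))) ?_ (a := ⊤) ?_ hl.top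
    · refine TD.imp (TD.ex (P := fun lam hl x v => E hl x (v 0))
        (TD.mem (Tm.var 0) (Tm.var 1))) (TD.imp ?_ (TD.mem (Tm.var 0) (Tm.const _)))
      refine TD.all (P := fun lam hl x v => E hl x (v 0) →
        ∃ y, E hl y (val hl (sN δ)) ∧ E hl y (v 0) ∧ E hl x y) (TD.imp
          (TD.mem (Tm.var 0) (Tm.var 1)) ?_)
      refine TD.ex (P := fun lam hl y v => E hl y (val hl (sN δ)) ∧ E hl y (v 1) ∧ E hl (v 0) y) ?_
      exact TD.and (TD.mem (Tm.var 0) (Tm.const _)) (TD.and (TD.mem (Tm.var 0) (Tm.var 2))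
        (TD.mem (Tm.var 1) (Tm.var 0)))
    · intro w lam' hl' _ h1 h2
      rw [E_sN]
      by_cases hw : IsLimPt w
      · have hT : TD0 (D := D) fun lam hl => ∀ y, E hl y (val hl (chk w)) →
            ∃ z, E hl z (val hl (sN δ)) ∧ E hl z (val hl (chk w)) ∧ E hl y z := by
          refine TD.all (P := fun lam hl y v => E hl y (val hl (chk w)) →
            ∃ z, E hl z (val hl (sN δ)) ∧ E hl z (val hl (chk w)) ∧ E hl y z) (TD.imp
              (TD.mem (Tm.var 0) (Tm.const _)) ?_)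
          refine TD.ex (P := fun lam hl z v => E hl z (val hl (sN δ)) ∧ E hl z (val hl (chk w)) ∧
            E hl (v 0) z) ?_
          exact TD.and (TD.mem (Tm.var 0) (Tm.const _)) (TD.and (TD.mem (Tm.var 0) (Tm.const _))
            (TD.mem (Tm.var 1) (Tm.var 0)))
        have h3 : lam' (TD.b0 hT) := (TD.b0_iff hT).1 h2
        have h4 : TD.b0 hT ≤ ⨅ y : Iio w, ⨆ z : Ioo y.1 w, δ z.1 := by
          refine le_iInf fun y => ?_
          rw [le_iff_ultra]
          intro lam'' hl'' h5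
          have h6 := (TD.b0_iff hT (hl := hl'')).2 h5 _ (E_chk_of y.2)
          have hT' : TD1 (D := D) fun lam hl z => E hl z (val hl (chk w)) ∧
              E hl (val hl (chk y.1)) z :=
            TD.and (TD.mem (Tm.var 0) (Tm.const _)) (TD.mem (Tm.const _) (Tm.var 0))
          rw [exists_sN_iff hT'] at h6
          refine hl''.mono (iSup_le fun x => ?_) h6
          by_cases hx : y.1 < x ∧ x < w
          · exact le_trans inf_le_left
              (le_iSup (fun z : Ioo y.1 w => δ z.1) ⟨x, hx.1, hx.2⟩)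
          · have h7 : TD.b1 hT' (chk x) = ⊥ := by
              rw [eq_bot_iff_ultra]
              intro lam₃ hl₃ h8
              obtain ⟨h9, h10⟩ := (TD.b1_iff hT' (hl := hl₃)).2 h8
              exact hx ⟨E_chk.1 h10, E_chk.1 h9⟩
            rw [h7, inf_bot_eq]
            exact bot_le
        have h5 : lam' ((⨅ y : Iio w, ⨆ z : Ioo y.1 w, δ z.1)ᶜ ⊔ δ w) := by
          have h6 := iInf_eq_top.1 hδ2 ⟨w, hw⟩
          rw [h6]
          exact hl'.top
        rcases hl'.sup_iff.1 h5 with h6 | h6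
        · exact absurd (hl'.mono h4 h3) (hl'.compl_iff.1 h6)
        · exact h6
      · exfalso
        by_cases hy : ∃ y, y < w
        · have h3 : ∃ y, y < w ∧ ∀ z, y < z → ¬ z < w := by
            by_contra hc
            push Not at hc
            refine hw ⟨hy, fun y hy => ?_⟩
            obtain ⟨z, hz1, hz2⟩ := hc y hy
            exact ⟨z, hz1, hz2⟩
          obtain ⟨y, hy, hz⟩ := h3
          obtain ⟨z, -, hz1, hz2⟩ := h2 _ (E_chk_of hy)
          refine forall_chk (P := fun lam hl z => ¬ E hl (val hl (chk y)) z)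
            (TD.not (TD.mem (Tm.const _) (Tm.var 0))) (a := ⊤) ?_ hl'.top z hz1 hz2
          intro v hv lam'' hl'' _ h4
          exact hz v (E_chk.1 h4) hv
        · obtain ⟨x, hx⟩ := h1
          exact isEmp_chk (fun x hx => hy ⟨x, hx⟩) x hx

/-- Names of closed unbounded subsets of `O`.

PROOF.  Let `c` be the truth value of `IsClub (chkT O) C` (`TD.isClub`, `TD.b0`), and `δ x := bmem (chk x) C ⊔ cᶜ`.
`clubV δ = ⊤`: it suffices (`eq_top` via `⊤ ≤`, `le_iff_ultra`; or algebraically) that both factors are `⊤`.  First factor: for `y : O`,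
`cᶜ ≤ ⨆ z : Ioi y, δ z` (`O` has no maximum: `hmax`), and `c ≤ ⨆ z : Ioi y, bmem (chk z) C`: in a quotient by `lam ∋ c` the set `C` is
unbounded in `chkT O`: there is `z' ∈ C` with `chk y ∈ z'`; `z' ∈ chkT O`, use `exists_chkT_iff`.  Second factor: let `x` be a limit
point, `v := ⨅ y : Iio x, ⨆ z : Ioo y x, δ z`; show `v ≤ δ x`, i.e. `v ⊓ c ≤ bmem (chk x) C`: in a quotient by `lam ∋ v ⊓ c`:
for all `y < x` there is `z ∈ C ∩ chk x` with `chk y ∈ z` (from `lam (⨆ z : Ioo y x, δ z)`, `lam c`: `lam (⨆ z : Ioo y x, bmem (chk z) C)`, use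
`exists_chk_iff`), so by `forall_chk` (for the property of the elements `y` of `chk x`) the closure of `C` gives
`chk x ∈ C`.  Finally, if `C` is closed unbounded in the quotient by `lam`, then `lam c`, and `val C = val (sN δ)` by
extensionality: elements of both sets are elements of `chkT O` (`sub_sN`); by `forall_chkT` it suffices to compare at `chk x`:
`E_sN`, `lam (δ x) ↔ lam (bmem (chk x) C)` since not `lam cᶜ`. -/
theorem exists_club_name (hmax : ∀ y : O, ∃ z, y < z) (C : BSet D) :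
    ∃ δ : O → D, clubV δ = ⊤ ∧ ∀ (lam : D → Prop) (hl : IsUF lam),
      IsClub (E hl) (val hl (chkT O)) (val hl C) → val hl C = val hl (sN δ) := by
  have hT : TD0 (D := D) fun lam hl => IsClub (E hl) (val hl (chkT O)) (val hl C) :=
    TD.isClub (Tm.const _) (Tm.const _)
  obtain ⟨c, hc⟩ : ∃ c, c = TD.b0 hT := ⟨_, rfl⟩
  have hcl : ∀ (lam : D → Prop) (hl : IsUF lam),
      IsClub (E hl) (val hl (chkT O)) (val hl C) ↔ lam c := by
    intro lam hl
    rw [hc]
    exact TD.b0_iff hT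
  refine ⟨fun x => bmem (chk x) C ⊔ cᶜ, ?_, ?_⟩
  · unfold clubV
    rw [inf_eq_top_iff]
    constructor
    · rw [iInf_eq_top]
      intro y
      rw [← top_le_iff, le_iff_ultra]
      intro lam hl _
      by_cases h1 : lam c
      · have h2 := (hcl lam hl).2 h1
        obtain ⟨z, hz1, hz2⟩ := h2.2.1 _ (E_chkT y)
        have h3 := fod_above (hl := hl) ⟨z, h2.1 z hz1, hz1, hz2⟩
        exact hl.mono (iSup_mono fun z => le_sup_left) h3
      · obtain ⟨z, hz⟩ := hmax y
        have h2 := hl.compl_iff.2 h1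
        exact hl.mono (le_sup_right.trans
          (le_iSup (fun z : Ioi y => bmem (chk z.1) C ⊔ cᶜ) ⟨z, hz⟩)) h2
    · rw [iInf_eq_top]
      intro x
      rw [← top_le_iff, le_iff_ultra]
      intro lam hl _
      rw [hl.sup_iff, hl.compl_iff]
      by_cases h0 : lam (⨅ y : Iio x.1, ⨆ z : Ioo y.1 x.1, bmem (chk z.1) C ⊔ cᶜ)
      · right
        by_cases h1 : lam c
        · have h2 := (hcl lam hl).2 h1
          have h3 : lam (⨅ y : Iio x.1, ⨆ z : Ioo y.1 x.1, bmem (chk z.1) C) := by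
            refine hl.mono ?_ (hl.inf h0 h1)
            refine le_iInf fun y => ?_
            refine le_trans (inf_le_inf_right _ (iInf_le _ y)) ?_
            rw [iSup_inf_eq]
            refine iSup_mono fun z => ?_
            rw [inf_sup_right, compl_inf_eq_bot, sup_bot_eq]
            exact inf_le_left
          obtain ⟨h4, h5⟩ := fod_close (hl := hl) x.2 h3
          have h6 := h2.2.2 _ (E_chkT x.1) h4 h5
          exact hl.mono le_sup_left (E_val.1 h6)
        · exact hl.mono le_sup_right (hl.compl_iff.2 h1)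
      · exact Or.inl h0
  · intro lam hl h
    have h1 := (hcl lam hl).1 h
    have h2 : ∀ x, E hl x (val hl (chkT O)) → (E hl x (val hl C) ↔
        E hl x (val hl (sN fun x : O => bmem (chk x) C ⊔ cᶜ))) := by
      refine forall_chkT (P := fun lam hl x => (E hl x (val hl C) ↔
        E hl x (val hl (sN fun x : O => bmem (chk x) C ⊔ cᶜ)))) ?_ (a := c) ?_ h1
      · exact TD.iff (TD.mem (Tm.var 0) (Tm.const _)) (TD.mem (Tm.var 0) (Tm.const _))
      · intro w lam' hl' h3
        rw [E_sN, hl'.sup_iff, E_val]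
        constructor
        · exact Or.inl
        · rintro (h4 | h4)
          · exact h4
          · exact absurd h3 (hl'.compl_iff.1 h4)
    refine (zfc hl).ext _ _ fun x => ⟨fun hx => ?_, fun hx => ?_⟩
    · exact (h2 x (h.1 x hx)).1 hx
    · exact (h2 x (sub_sN x hx)).2 hx

/-- Closed unbounded subsets of `β`.

PROOF.  As the first part of the proof of `exists_club_name`, relative to `chk β`: `ε x := bmem (chk x) C` satisfies
`lam (clubVB β ε)` for all `lam` such that `C` is closed unbounded in `chk β`: let `c` be the truth value of this statement; show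
`c ≤ clubVB β ε`. -/
theorem clubVB_of (β : O) (C : BSet D) (h : IsClub (E hl) (val hl (chk β)) (val hl C)) :
    lam (clubVB β fun x => bmem (chk x) C) := by
  have hT : TD0 (D := D) fun lam hl => IsClub (E hl) (val hl (chk β)) (val hl C) :=
    TD.isClub (Tm.const _) (Tm.const _)
  have h1 : lam (TD.b0 hT) := (TD.b0_iff hT).1 h
  refine hl.mono ?_ h1
  refine le_inf (le_iInf fun y => ?_) (le_iInf fun x => ?_)
  · rw [le_iff_ultra]
    intro lam' hl' h2
    have h3 := (TD.b0_iff hT (hl := hl')).2 h2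
    obtain ⟨z, hz1, hz2⟩ := h3.2.1 _ (E_chk_of y.2)
    exact fod_between (hl := hl') ⟨z, h3.1 z hz1, hz1, hz2⟩
  · rw [le_iff_ultra]
    intro lam' hl' h2
    have h3 := (TD.b0_iff hT (hl := hl')).2 h2
    rw [hl'.sup_iff, hl'.compl_iff]
    by_cases h0 : lam' (⨅ y : Iio x.1, ⨆ z : Ioo y.1 x.1, bmem (chk z.1) C)
    · obtain ⟨h4, h5⟩ := fod_close (hl := hl') x.2.1 h0
      exact Or.inr (E_val.1 (h3.2.2 _ (E_chk_of x.2.2) h4 h5))
    · exact Or.inl h0

/-- PROOF.  Let `C` be closed unbounded in `chk β`; `C = val hl C'`; `lam (clubVB β ε)` by `clubVB_of` for `ε x := bmem (chk x) C'`, and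
`lam (stV S β)`, so `lam (⨆ x : Iio β, ε x ⊓ S x)`; by `exists_sN_iff` (or `exists_chk_iff`) there is `x ∈ C` in `sN S`. -/
theorem isStat_of {β : O} (h : lam (stV S β)) :
    IsStat (E hl) (val hl (chk β : BSet D)) (val hl (sN S)) := by
  intro C hC
  obtain ⟨C, rfl⟩ := exists_name C
  have h1 := clubVB_of β C hC
  have h2 : lam ((clubVB β fun x => bmem (chk x) C)ᶜ ⊔ ⨆ x : Iio β, bmem (chk x.1) C ⊓ S x.1) :=
    hl.mono (iInf_le (fun ε : O → D => (clubVB β ε)ᶜ ⊔ ⨆ x : Iio β, ε x.1 ⊓ S x.1)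
      fun x => bmem (chk x) C) h
  rw [hl.sup_iff, hl.compl_iff] at h2
  have h3 := h2.resolve_left (fun h => h h1)
  have hT : TD1 (D := D) fun lam hl x => E hl x (val hl C) := TD.mem (Tm.var 0) (Tm.const _)
  have h4 : ∃ x, E hl x (val hl (sN S)) ∧ E hl x (val hl C) := by
    rw [exists_sN_iff hT]
    refine hl.mono (iSup_le fun x => ?_) h3
    refine le_trans (le_inf inf_le_right (inf_le_left.trans ?_))
      (le_iSup (fun x : O => S x ⊓ TD.b1 hT (chk x)) x.1)
    rw [TD.le_b1]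
    intro lam' hl' h5
    exact E_val.2 h5
  obtain ⟨x, hx1, hx2⟩ := h4
  exact ⟨x, hx2, hx1⟩

/-- PROOF.  `big` and `seg`: if `y` were the maximum of `O`, then `O = Iio y ∪ {y}` would have size `≤ #(Iio l)`. -/
theorem NCoreD.no_max (h : NCoreD O D l S T) : ∀ y : O, ∃ z, y < z := by
  intro y
  by_contra hc
  push Not at hc
  have h1 : (Set.univ : Set O) = Iio y ∪ {y} := by
    ext z
    simp only [Set.mem_univ, Set.mem_union, Set.mem_Iio, Set.mem_singleton_iff, true_iff]
    exact (hc z).lt_or_eq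
  have h2 : #O ≤ #(Iio l) := by
    rw [← Cardinal.mk_univ, h1]
    refine (Cardinal.mk_union_le _ _).trans ?_
    rw [Cardinal.mk_singleton]
    refine (add_le_add_left (h.seg y) 1).trans ?_
    rw [Cardinal.add_one_eq h.l_inf]
  exact absurd h.big (not_lt.2 h2)

/-- Stationary sets from their truth values. -/
theorem fod_stat (h : NCoreD O D l S T) {R : O → D}
    (hR : ∀ δ : O → D, clubV δ = ⊤ → (⨆ x, δ x ⊓ R x) = ⊤) :
    IsStat (E hl) (val hl (chkT O : BSet D)) (val hl (sN R)) := by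
  intro C hC
  obtain ⟨C, rfl⟩ := exists_name C
  obtain ⟨δ, hδ, hδC⟩ := exists_club_name h.no_max C
  rw [hδC lam hl hC]
  have hT : TD1 (D := D) fun lam hl x => E hl x (val hl (sN R)) := TD.mem (Tm.var 0) (Tm.const _)
  rw [exists_sN_iff hT]
  have h1 : lam (⨆ x, δ x ⊓ R x) := by
    rw [hR δ hδ]
    exact hl.top
  refine hl.mono (iSup_mono fun x => inf_le_inf_left _ ?_) h1
  rw [TD.le_b1]
  intro lam' hl' h2
  exact E_sN.2 h2

/-- `S` is stationary.

PROOF.  Let `C` be closed unbounded in `chkT O`, `C = val hl (sN δ)` with `clubV δ = ⊤` (`exists_club_name`).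
`lam (⨆ x, δ x ⊓ S x)` by `h.stS`; use `exists_sN_iff` for the property `E · (sN S)` and `E_sN`. -/
theorem isStat_S (h : NCoreD O D l S T) :
    IsStat (E hl) (val hl (chkT O : BSet D)) (val hl (sN S)) :=
  fod_stat h h.stS

theorem isStat_T (h : NCoreD O D l S T) :
    IsStat (E hl) (val hl (chkT O : BSet D)) (val hl (sN T)) :=
  fod_stat h h.stT

/-- `S` reflects stationarily often.

PROOF.  Let `C = val hl (sN δ)` as before.  `lam (⨆ β : {β // IsLimPt β ∧ ¬ CofOm β}, δ β ⊓ stV S β)` by `h.refl`.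
Apply `exists_sN_iff` to the property `InTr (chkT O) (sN S) ·` (`TD.inTr`): it suffices that
`δ β ⊓ stV S β ≤ δ β ⊓ TD.b1 _ (chk β)` for these `β`, i.e. that `InTr (chkT O) (sN S) (chk β)` holds in the quotients by `lam' ∋ stV S β`:
`E_chkT`, `cf_unc`, `isStat_of`. -/
theorem reflects (h : NCoreD O D l S T) :
    ∀ C, IsClub (E hl) (val hl (chkT O : BSet D)) C →
      ∃ b, E hl b C ∧ InTr (E hl) (val hl (chkT O)) (val hl (sN S)) b := by
  intro C hC
  obtain ⟨C, rfl⟩ := exists_name C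
  obtain ⟨δ, hδ, hδC⟩ := exists_club_name h.no_max C
  rw [hδC lam hl hC]
  have hT : TD1 (D := D) fun lam hl b => InTr (E hl) (val hl (chkT O)) (val hl (sN S)) b :=
    TD.inTr (Tm.const _) (Tm.const _) (Tm.var 0)
  rw [exists_sN_iff hT]
  have h1 : lam (⨆ β : {β : O // IsLimPt β ∧ ¬ CofOm β}, δ β.1 ⊓ stV S β.1) := by
    rw [h.refl δ hδ]
    exact hl.top
  refine hl.mono (iSup_le fun β => ?_) h1
  refine le_trans (inf_le_inf_left _ ?_) (le_iSup (fun x : O => δ x ⊓ TD.b1 hT (chk x)) β.1)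
  rw [TD.le_b1]
  intro lam' hl' h2
  exact ⟨E_chkT β.1, cf_unc h β.2.1 β.2.2, isStat_of h2⟩

/-- The elements of `S` have the cofinality of `l`.

PROOF.  `forall_sN`: let `x : O`, `lam (S x)`, so `S x ≠ ⊥`, `CofOm x` (`h.S_cof`).  Take `μ := omB` (`isCf_om` for `l` (`h.l_cof`) and
for `x`). -/
theorem cf_S (h : NCoreD O D l S T) :
    ∀ a, E hl a (val hl (sN S)) → ∃ μ, IsCf (E hl) (val hl (chk l : BSet D)) μ ∧ IsCf (E hl) a μ := by
  refine forall_sN (P := fun lam hl a => ∃ μ, IsCf (E hl) (val hl (chk l)) μ ∧ IsCf (E hl) a μ) ?_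
    (a := ⊤) ?_ hl.top
  · exact TD.ex (P := fun lam hl μ v => IsCf (E hl) (val hl (chk l)) μ ∧ IsCf (E hl) (v 0) μ)
      (TD.and (TD.isCf (Tm.const _) (Tm.var 0)) (TD.isCf (Tm.var 1) (Tm.var 0)))
  · intro x lam' hl' _ hx
    have h1 : S x ≠ ⊥ := fun h0 => hl'.bot (by rwa [h0] at hx)
    exact ⟨_, isCf_om h.l_cof, isCf_om (h.S_cof x h1)⟩

end CG
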