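import Pool.Agent.W_MP_7dc84e_h31.FoB
import Pool.Agent.W_MP_7dc84e_h31.FoD

/-!
# MP_7dc84e_lc : there is no concentrated club guessing sequence; the model
-/

set_option autoImplicit false
set_option linter.unusedSectionVars false

universe u

open Cardinal Set HESR IM.BSet BVM CGM
open IM (BSet)

namespace CG

variable {O : Type u} [LinearOrder O] [WellFoundedLT O] {D : Type u} [CompleteBooleanAlgebra D]
variable {l : O} {S T : O → D} {lam : D → Prop} {hl : IsUF lam}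

/-- There is no `T`-concentrated club guessing sequence on `S`.

PROOF.  Suppose that there is one for some `lam`, named by `C`; let `d ∈ lam`, `d ≠ ⊥`, be the truth value of
`IsConc (chkT O) (sN S) (sN T) C` (`TD.isConc`).  For `x y : O` let `c₀ x y` be the truth value of `∃ u, App C (chk x) u ∧ E (chk y) u`, and
`c x y := c₀ x y ⊔ dᶜ` if `y < x`, `c x y := c₀ x y` otherwise.  Claim: for `y < x`, `S x ≤ ⨆ z : Ioo y x, c x z`.  If `S x = ⊥`, trivial.
Otherwise `CofOm x` (`h.S_cof`), so `x` is a limit point and `Ioo y x` is nonempty, hence `dᶜ ≤ ⨆ z : Ioo y x, c x z`; and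
`d ⊓ S x ≤ ⨆ z : Ioo y x, c₀ x z`: in a quotient by `lam' ∋ d ⊓ S x`: `chk x ∈ sN S` (`E_sN`), so `App C (chk x) u` for some `u`,
`Sub u (chk x)`, and for `chk y ∈ chk x` there is `z' ∈ u` with `chk y ∈ z'`; `z' ∈ chk x`, use `exists_chk_iff`.
`h.kill` for `c` and `d` gives `b ≤ d`, `b ≠ ⊥`, and `δ` with `clubV δ = ⊤` and `b ⊓ (S x ⊓ ⨅ y, (c x y)ᶜ ⊔ (δ y ⊓ T y)) = ⊥` for all `x`.
Let `lam'` be an ultrafilter with `b ∈ lam'` (`exists_isUF`); in its quotient `IsConc .. C` holds (`b ≤ d`), `sN δ` is closed unbounded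
(`isClub_sN`).  So there are `a`, `u` with `a ∈ sN δ`, `App C a u`, `Sub u (sN δ)`, `Sub u (sN T)`; `a ∈ sN S` since `C` is a
function with domain `sN S`.  So by `exists_sN_iff` for the property
`Q a := ∃ u, App C a u ∧ Sub u (sN δ) ∧ Sub u (sN T)`: `lam' (⨆ x, S x ⊓ [[Q (chk x)]])`, hence `lam' (b ⊓ ⨆ x, S x ⊓ [[Q (chk x)]])`.  But for
every `x`, `b ⊓ S x ⊓ [[Q (chk x)]] ≤ b ⊓ (S x ⊓ ⨅ y, (c x y)ᶜ ⊔ (δ y ⊓ T y)) = ⊥`: in a quotient by an ultrafilter containing the left side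
and `c x y`: `lam'' (c₀ x y)` (as `lam'' d`), so `chk y ∈ u` for the `u` with `App C (chk x) u` (`C` is a function; the `u` of `Q` is the same),
hence `chk y ∈ sN δ`, `chk y ∈ sN T`, i.e. `lam'' (δ y)`, `lam'' (T y)`.  Contradiction. -/
theorem not_isConc (h : NCoreD O D l S T) :
    ¬ ∃ C, IsConc (E hl) (val hl (chkT O : BSet D)) (val hl (sN S)) (val hl (sN T)) C := by
  classical
  rintro ⟨C0, hC0⟩
  obtain ⟨C, rfl⟩ := exists_name C0
  have hTD : TD0 (D := D) fun lam hl =>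
      IsConc (E hl) (val hl (chkT O : BSet D)) (val hl (sN S)) (val hl (sN T)) (val hl C) :=
    TD.isConc (Tm.const _) (Tm.const _) (Tm.const _) (Tm.const _)
  have hc0 : ∀ x y : O, TD0 (D := D) fun lam hl =>
      ∃ u, App (E hl) (val hl C) (val hl (chk x)) u ∧ E hl (val hl (chk y)) u := fun x y =>
    TD.ex (TD.and (TD.app (Tm.const _) (Tm.const _) (Tm.var 0)) (TD.mem (Tm.const _) (Tm.var 0)))
  have hld : lam (TD.b0 hTD) := (TD.b0_iff hTD).1 hC0
  have hd0 : TD.b0 hTD ≠ ⊥ := fun h0 => hl.bot (h0 ▸ hld)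
  let c : O → O → D := fun x y => if y < x then TD.b0 (hc0 x y) ⊔ (TD.b0 hTD)ᶜ else TD.b0 (hc0 x y)
  have hle : ∀ x y, TD.b0 (hc0 x y) ≤ c x y := by
    intro x y
    by_cases hxy : y < x
    · simp only [c, if_pos hxy]
      exact le_sup_left
    · simp only [c, if_neg hxy]
      exact le_rfl
  have hle' : ∀ x y, y < x → (TD.b0 hTD)ᶜ ≤ c x y := by
    intro x y hxy
    simp only [c, if_pos hxy]
    exact le_sup_right
  have hcle : ∀ x y, c x y ≤ TD.b0 (hc0 x y) ⊔ (TD.b0 hTD)ᶜ := by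
    intro x y
    by_cases hxy : y < x
    · simp only [c, if_pos hxy]
      exact le_rfl
    · simp only [c, if_neg hxy]
      exact le_sup_left
  clear_value c
  -- the sets `C_x` are cofinal
  have hA : ∀ x, ∀ y < x, S x ≤ ⨆ z : Ioo y x, c x z.1 := by
    intro x y hyx
    rw [le_iff_ultra]
    intro lam1 hl1 hS
    by_cases hd : lam1 (TD.b0 hTD)
    · obtain ⟨hfun, hcof, -⟩ := (TD.b0_iff (hl := hl1) hTD).2 hd
      obtain ⟨u, hu⟩ := hfun.ex (E_sN.2 hS)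
      obtain ⟨hsub, hun⟩ := hcof _ _ hu
      obtain ⟨z, hzu, hyz⟩ := hun _ (E_chk_of hyx)
      have hP : TD1 (D := D) fun lam hl z => E hl (val hl (chk y)) z ∧
          ∃ u, App (E hl) (val hl C) (val hl (chk x)) u ∧ E hl z u :=
        TD.and (TD.mem (Tm.const _) (Tm.var 0)) (TD.ex (TD.and (TD.app (Tm.const _) (Tm.const _)
          (Tm.var 0)) (TD.mem (Tm.var 1) (Tm.var 0))))
      have h1 : lam1 (⨆ v : Iio x, TD.b1 hP (chk v.1)) :=
        (exists_chk_iff hP).1 ⟨z, hsub z hzu, hyz, u, hu, hzu⟩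
      refine hl1.mono (iSup_le fun v => ?_) h1
      rw [le_iff_ultra]
      intro lam2 hl2 h2
      obtain ⟨h3, h4⟩ := (TD.b1_iff (hl := hl2) hP).2 h2
      have h5 : y < v.1 := E_chk.1 h3
      exact hl2.mono ((hle x v.1).trans (le_iSup (fun z : Ioo y x => c x z.1) ⟨v.1, h5, v.2⟩))
        ((TD.b0_iff (hc0 x v.1)).1 h4)
    · obtain ⟨f, hf1, hf2⟩ := h.S_cof x fun h0 => hl1.bot (h0 ▸ hS)
      obtain ⟨n, hn⟩ := hf2 y hyx
      exact hl1.mono ((hle' x (f n) (hf1 n)).trans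
        (le_iSup (fun z : Ioo y x => c x z.1) ⟨f n, hn, hf1 n⟩)) (hl1.compl_iff.2 hd)
  obtain ⟨b, hb0, hbd, δ, hδ, hb⟩ := h.kill c hA _ hd0
  obtain ⟨lam1, hl1, hb1⟩ := exists_isUF hb0
  obtain ⟨hfun, -, hg⟩ := (TD.b0_iff (hl := hl1) hTD).2 (hl1.mono hbd hb1)
  obtain ⟨a, u, -, hau, hu1, hu2⟩ := hg _ (isClub_sN hδ) _ (isClub_sN hδ)
  have hQ : TD1 (D := D) fun lam hl z => ∃ u, App (E hl) (val hl C) z u ∧
      Sub (E hl) u (val hl (sN δ)) ∧ Sub (E hl) u (val hl (sN T)) :=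
    TD.ex (TD.and (TD.app (Tm.const _) (Tm.var 1) (Tm.var 0)) (TD.and
      (TD.sub (Tm.var 0) (Tm.const _)) (TD.sub (Tm.var 0) (Tm.const _))))
  have h1 : lam1 (⨆ x, S x ⊓ TD.b1 hQ (chk x)) :=
    (exists_sN_iff hQ).1 ⟨a, hfun.dom (zfc hl1) hau, u, hau, hu1, hu2⟩
  have h2 : b ⊓ (⨆ x, S x ⊓ TD.b1 hQ (chk x)) = ⊥ := by
    rw [inf_iSup_eq, ← le_bot_iff]
    refine iSup_le fun x => ?_
    rw [← hb x]
    refine le_inf inf_le_left (le_inf (inf_le_right.trans inf_le_left) (le_iInf fun y => ?_))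
    rw [le_iff_ultra]
    intro lam2 hl2 h3
    obtain ⟨h4, h5⟩ := hl2.inf_iff.1 h3
    obtain ⟨-, h6⟩ := hl2.inf_iff.1 h5
    rw [hl2.sup_iff, hl2.compl_iff, hl2.inf_iff]
    by_cases hcx : lam2 (c x y)
    · right
      have hld2 : lam2 (TD.b0 hTD) := hl2.mono hbd h4
      have h7 : lam2 (TD.b0 (hc0 x y)) := by
        rcases hl2.sup_iff.1 (hl2.mono (hcle x y) hcx) with h8 | h8
        · exact h8
        · exact absurd hld2 (hl2.compl_iff.1 h8)
      obtain ⟨u1, hu1, hyu⟩ := (TD.b0_iff (hl := hl2) (hc0 x y)).2 h7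
      obtain ⟨u2, hu2, hs1, hs2⟩ := (TD.b1_iff (hl := hl2) hQ).2 h6
      obtain ⟨hfun2, -, -⟩ := (TD.b0_iff (hl := hl2) hTD).2 hld2
      have he : u1 = u2 := hfun2.val (zfc hl2) hu1 hu2
      rw [← he] at hs1 hs2
      exact ⟨E_sN.1 (hs1 _ hyu), E_sN.1 (hs2 _ hyu)⟩
    · exact Or.inl hcx
  exact hl1.bot (h2 ▸ hl1.inf hb1 h1)

/-- PROOF.  Collect: `isInfCard_l`, `isSuccCard_l`, `sub_sN`, `cf_S`, `isStat_S`, `reflects`, `isStat_T`, `not_isConc`. -/
theorem negQ1_X (h : NCoreD O D l S T) : NegQ1 (E hl) :=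
  ⟨val hl (chk l : BSet D), val hl (chkT O : BSet D), val hl (sN S), val hl (sN T), isInfCard_l h,
    isSuccCard_l h, sub_sN, cf_S h, isStat_S h, reflects h, sub_sN, isStat_T h, not_isConc h⟩

/-- The countable well-founded model.

PROOF.  As `model_of_core` in `Pool/Agent/W_315f31_h40/Final1.lean`: `exists_names_closed` (with `W := fun x _ => x` and `x0 := omB`),
`exists_wf` for `a := ⊤` (`h.nt`), `zfc_mdl`, and `fo_transfer` for `NegQ1.fo` (`k := 0`) with `negQ1_X`. -/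
theorem model_of (h : NCoreD O D l S T) :
    ∃ (M : Type (u + 1)) (E : M → M → Prop), Countable M ∧ WellFounded E ∧ HESR.IsZFC E ∧
      NegQ1 E := by
  obtain ⟨N, hNc, -, -, hN⟩ := exists_names_closed (D := D) (fun x _ => x) omB
  obtain ⟨lam, hl, -, hwf⟩ := exists_wf (D := D) h.nt N hNc
  have hM : Countable (Mdl hl N) := by
    have h1 : Countable N := hNc.to_subtype
    have h2 : Function.Surjective fun z : N => (⟨val hl z.1, z.1, z.2, rfl⟩ : Mdl hl N) := by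
      rintro ⟨x, z, hz, rfl⟩
      exact ⟨⟨z, hz⟩, rfl⟩
    exact h2.countable
  exact ⟨Mdl hl N, EM hl N, hM, hwf, zfc_mdl hl N hN,
    (fo_transfer hN (NegQ1.fo (k := 0)) Fin.elim0).2 (negQ1_X h)⟩

end CG
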