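import Pool.Agent.W_MP_7dc84e_h31.CC

/-!
# MP_7dc84e_lc : the generic clubs kill all the sequences
-/

set_option autoImplicit false
set_option linter.unusedSectionVars false

universe u

open Cardinal Set

namespace CG

variable {O J Bt Th : Type u} [LinearOrder O] [LinearOrder J] [CompleteBooleanAlgebra Bt]
variable [WellFoundedLT J]
variable {lam : Cardinal.{u}} {L : ℕ → Cardinal.{u}} {c : J → Nm O J Bt}

/-- Maximal antichains in a set of conditions. -/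
theorem kil_mac {α : Type*} [Preorder α] (D : Set α) : ∃ A ⊆ D,
    (∀ p ∈ A, ∀ q ∈ A, p ≠ q → ¬ ∃ r, r ≤ p ∧ r ≤ q) ∧
    ∀ p ∈ D, ∃ r ∈ A, ∃ q, q ≤ p ∧ q ≤ r := by
  obtain ⟨A, hA⟩ := zorn_subset
    {A : Set α | A ⊆ D ∧ ∀ p ∈ A, ∀ q ∈ A, p ≠ q → ¬ ∃ r, r ≤ p ∧ r ≤ q} (by
      intro ch hch hchain
      refine ⟨⋃₀ ch, ⟨Set.sUnion_subset fun s hs => (hch hs).1, ?_⟩,
        fun s hs => Set.subset_sUnion_of_mem hs⟩
      rintro p ⟨s, hs, hp⟩ q ⟨t, ht, hq⟩ hpq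
      rcases hchain.total hs ht with h | h
      · exact (hch ht).2 p (h hp) q hq hpq
      · exact (hch hs).2 p hp q (h hq) hpq)
  refine ⟨A, hA.prop.1, hA.prop.2, fun p hp => ?_⟩
  by_contra hcon
  push Not at hcon
  have h1 : insert p A ∈ {A : Set α | A ⊆ D ∧
      ∀ p ∈ A, ∀ q ∈ A, p ≠ q → ¬ ∃ r, r ≤ p ∧ r ≤ q} := by
    refine ⟨Set.insert_subset hp hA.prop.1, ?_⟩
    rintro a ha b hb hab ⟨r, hra, hrb⟩
    rcases Set.mem_insert_iff.1 ha with rfl | ha'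
    · rcases Set.mem_insert_iff.1 hb with rfl | hb'
      · exact hab rfl
      · exact hcon b hb' r hra hrb
    · rcases Set.mem_insert_iff.1 hb with rfl | hb'
      · exact hcon a ha' r hrb hra
      · exact hA.prop.2 a ha' b hb' hab ⟨r, hra, hrb⟩
  have h2 : p ∈ A := hA.le_of_ge h1 (Set.subset_insert p A) (Set.mem_insert p A)
  exact hcon p h2 p le_rfl le_rfl

/-- The clubs kill all the sequences.

PROOF.  For every `x : O` let `A x` be a maximal antichain in `{p : Cnd lam c | ∃ C, Cof C x ∧ G x C p}` (`zorn_subset` or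
`exists_maximal..`), and for `p ∈ A x` choose `C x p`.  Let `N := {((p.b, p.p), x, C x p) | x, p ∈ A x}`.  Then
`#N ≤ #O * 2 ^ lam = 2 ^ lam` (`P.O_card`, `cnd_cc`), and the union of the supports of the conditions in `N` has size
`≤ 2 ^ lam * lam = 2 ^ lam`, so it is bounded by some `j₀ : J` (`hJ`).  By `hc` there is `j ≥ j₀` with `c j = N`.
Every triple of `N` is good: `GoodT N (PF lam c (Iio j)) p.b p.p x (C x p)`: `uniq`: let `((b', r'), x, C') ∈ N`, so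
`(b', r')` comes from `p' ∈ A x` with `C' = C x p'`; given `a ≠ ⊥`, `u` as in `uniq`, `(a, u)` is a common extension of `p` and
`p'` in `Cnd` (`PF ..` gives `F`), so `p = p'` and `C' = C`.
Now let `p.b ≤ p.p.S x`, `j ∈ p.p.W`.  By `hG` there is `q₁ ≤ p` with `Cof C x`, `G x C q₁` for some `C`; by the maximality of
`A x` there are `r ∈ A x` and `q` with `q ≤ q₁`, `q ≤ r` (otherwise `A x ∪ {q₁}` would be a larger antichain).  Let
`C := C x r`; `G x C q` by `hmono`.  By `hq.2` (`j ∈ q.p.W`) and `at_iff` for the triple `(r.b, r.p, C)` with `a := q.b`,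
`u := q.p.res (Iio j)` (`F_res`; `Ext q.b u r.p` by `Ext.res_left`, as `r.p.W ⊆ Iio j`):
`q.b ⊓ (q.p.S x ⊓ ⨅ y : C, q.p.d j y ⊓ q.p.T y) = ⊥`, and `q.b ≤ q.p.S x` by `Ext.le_S`. -/
theorem kill_gen (P : Par O J Bt Th lam L)
    (hJ : ∀ s : Set J, #s ≤ 2 ^ lam → ∃ j, ∀ i ∈ s, i < j)
    (hc : ∀ N : Nm O J Bt, #N ≤ 2 ^ lam → (∀ t ∈ N, Basic lam t.1.2) → ∀ i, ∃ j, i ≤ j ∧ c j = N)
    (G : O → Set O → Cnd lam c → Prop) (hmono : ∀ x C p q, G x C p → q ≤ p → G x C q)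
    (hG : ∀ x (p : Cnd lam c), p.b ≤ p.p.S x → ∃ q ≤ p, ∃ C, Cof C x ∧ G x C q) :
    ∃ j, ∀ x (p : Cnd lam c), p.b ≤ p.p.S x → j ∈ p.p.W →
      ∃ q ≤ p, ∃ C, Cof C x ∧ G x C q ∧ q.b ⊓ ⨅ y : C, q.p.d j y.1 ⊓ q.p.T y.1 = ⊥ := by
  classical
  have hl := P.aleph
  have hκ : ℵ₀ ≤ (2 : Cardinal.{u}) ^ lam := hl.trans (cantor lam).le
  choose A hAD hanti hmax using fun x : O => kil_mac {p : Cnd lam c | ∃ C, Cof C x ∧ G x C p}
  have hC' : ∀ (x : O) (p : Cnd lam c), ∃ C : Set O, p ∈ A x → Cof C x ∧ G x C p := by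
    intro x p
    by_cases hp : p ∈ A x
    · obtain ⟨C, hC⟩ := hAD x hp
      exact ⟨C, fun _ => hC⟩
    · exact ⟨∅, fun h => absurd h hp⟩
  choose C hC using hC'
  obtain ⟨N, hN⟩ : ∃ N : Nm O J Bt,
      N = ⋃ x, (fun p : Cnd lam c => ((p.b, p.p), x, C x p)) '' A x := ⟨_, rfl⟩
  have hNmem : ∀ t ∈ N, ∃ x, ∃ p ∈ A x, ((p.b, p.p), x, C x p) = t := by
    intro t ht
    rw [hN] at ht
    obtain ⟨x, hx⟩ := Set.mem_iUnion.1 ht
    exact ⟨x, hx⟩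
  have hNmem' : ∀ x, ∀ p ∈ A x, (((p.b, p.p), x, C x p) : (Bt × Raw O J Bt) × O × Set O) ∈ N := by
    intro x p hp
    rw [hN]
    exact Set.mem_iUnion.2 ⟨x, p, hp, rfl⟩
  have hNcard : #N ≤ 2 ^ lam := by
    rw [hN]
    refine (Cardinal.mk_iUnion_le _).trans ?_
    calc #O * ⨆ x, #((fun p : Cnd lam c => ((p.b, p.p), x, C x p)) '' A x)
        ≤ 2 ^ lam * 2 ^ lam := by
          refine mul_le_mul' P.O_card (ciSup_le' fun x => ?_)
          exact Cardinal.mk_image_le.trans (cnd_cc P (A x) (hanti x))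
      _ = 2 ^ lam := Cardinal.mul_eq_self hκ
  have hNbas : ∀ t ∈ N, Basic lam t.1.2 := by
    intro t ht
    obtain ⟨x, p, hp, rfl⟩ := hNmem t ht
    exact p.hp.1
  have hU : #(⋃ t : N, t.1.1.2.W : Set J) ≤ 2 ^ lam := by
    refine (Cardinal.mk_iUnion_le _).trans ?_
    calc #N * ⨆ t : N, #(t.1.1.2.W) ≤ 2 ^ lam * 2 ^ lam := by
          refine mul_le_mul' hNcard (ciSup_le' fun t => ?_)
          exact (hNbas t.1 t.2).W_small.trans (cantor lam).le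
      _ = 2 ^ lam := Cardinal.mul_eq_self hκ
  obtain ⟨j₀, hj₀⟩ := hJ _ hU
  obtain ⟨j, hj, hcj⟩ := hc N hNcard hNbas j₀
  have hWj : ∀ x, ∀ r ∈ A x, r.p.W ⊆ Iio j := by
    intro x r hr i hi
    exact lt_of_lt_of_le (hj₀ i (Set.mem_iUnion.2 ⟨⟨_, hNmem' x r hr⟩, hi⟩)) hj
  have hgood : ∀ x, ∀ r ∈ A x, GoodT (c j) (PF lam c (Iio j)) r.b r.p x (C x r) := by
    intro x r hr
    refine ⟨?_, ⟨r.hp, hWj x r hr⟩, (hC x r hr).1, ?_⟩
    · rw [hcj]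
      exact hNmem' x r hr
    · intro b' r' C' hmem _ a u ha har har' hu hur hur'
      rw [hcj] at hmem
      obtain ⟨x', p', hp', heq⟩ := hNmem _ hmem
      simp only [Prod.mk.injEq] at heq
      obtain ⟨⟨h1, h2⟩, h3, h4⟩ := heq
      subst h3
      subst h1
      subst h2
      have h5 : r = p' := by
        by_contra hne
        exact hanti x' r hr p' hp' hne ⟨⟨a, u, ha, hu.1⟩, ⟨har, hur⟩, ⟨har', hur'⟩⟩
      rw [← h4, h5]
  refine ⟨j, fun x p hp hjp => ?_⟩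
  obtain ⟨q₁, hq₁, C₁, hC₁, hG₁⟩ := hG x p hp
  obtain ⟨r, hr, q, hqq₁, hqr⟩ := hmax x q₁ ⟨C₁, hC₁, hG₁⟩
  have hqp : q ≤ p := hqq₁.trans hq₁
  refine ⟨q, hqp, C x r, (hC x r hr).1, hmono x _ r q (hC x r hr).2 hqr, ?_⟩
  have hjq : j ∈ q.p.W := hqp.2.W hjp
  have h1 := at_iff.1 (q.hp.2 j hjq) r.b r.p x (C x r) (hgood x r hr) q.b (q.p.res (Iio j))
    hqr.1 (F_res (isIn_Iio j) q.hp) (hqr.2.res_left (hWj x r hr)) (Ext.refl _ _)
  have h2 : q.b ≤ q.p.S x := hqp.2.le_S p.hp.1 le_rfl (hqp.1.trans hp)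
  rw [← inf_assoc, inf_eq_left.2 h2] at h1
  exact h1

end CG
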