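import Pool.Agent.W_MP_7dc84e_h31.NcCov
import Pool.Agent.W_MP_7dc84e_h31.Kill

/-!
# MP_7dc84e_lc : there is no concentrated club guessing sequence
-/

set_option autoImplicit false
set_option linter.unusedSectionVars false

universe u

open Cardinal Set

namespace CG

variable {O J Bt Th : Type u} [LinearOrder O] [LinearOrder J] [CompleteBooleanAlgebra Bt]
variable [WellFoundedLT O] [WellFoundedLT J]
variable {lam : Cardinal.{u}} {L : ℕ → Cardinal.{u}} {c : J → Nm O J Bt}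

/-- The sequences are killed.

PROOF.  Apply `kill_gen` to `G x C p := ∀ y ∈ C, cc x y p` (monotone by `hm`; `hG`: by `cnd_decide` for `cc x`): it gives `j`.
Given `p`, let `q ≤ p` with `j ∈ q.p.W` (`exists_supp`), and `R := DN j` (`clubN_DN`).  Let `r ≤ q`, `SN x r`; `j ∈ r.p.W`.
`kill_gen` gives `q₁ ≤ r` and `C` with `Cof C x`, `cc x y q₁` for `y ∈ C` and
`q₁.b ⊓ ⨅ y : C, q₁.p.d j y ⊓ q₁.p.T y = ⊥`.  Since `q₁.b ≠ ⊥`, there is `y ∈ C` such that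
`b := q₁.b ⊓ (q₁.p.d j y ⊓ q₁.p.T y)ᶜ ≠ ⊥`.  Let `t := q₁.cut b`; `cc x y t`.  Suppose `t' ≤ t`, `DN j y t'` and `TN y t'`.
By `DN` there is `t'' ≤ t'` with `t''.b ≤ t''.p.d j y`; also `t''.b ≤ t''.p.T y` (`reg_TN.mono`).  `y < x` (`Cof`) and
`x ≤ q₁.p.h` (`SN x q₁`, `S_hi`), and `j ∈ q₁.p.W`, so from `t'' ≤ q₁`: `t''.b ≤ q₁.p.d j y` and `t''.b ≤ q₁.p.T y`; but
`t''.b ≤ b`, so `t''.b = ⊥`.  Contradiction. -/
theorem cnd_kill (P : Par O J Bt Th lam L) {B : Type u} [Preorder B] {e : B → Bt} (hB : SigB e)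
    (hJ : ∀ s : Set J, #s ≤ 2 ^ lam → ∃ j, ∀ i ∈ s, i < j)
    (hc : ∀ N : Nm O J Bt, #N ≤ 2 ^ lam → (∀ t ∈ N, Basic lam t.1.2) → ∀ i, ∃ j, i ≤ j ∧ c j = N)
    (cc : O → O → Cnd lam c → Prop) (hm : ∀ x, Reg (cc x))
    (hcc : ∀ x p, SN x p → ∀ y < x, ∀ q ≤ p, ∃ r ≤ q, ∃ z, y < z ∧ z < x ∧ cc x z r)
    (p : Cnd lam c) :
    ∃ q ≤ p, ∃ R : O → Cnd lam c → Prop, ClubN R ∧ ∀ x, ∀ r ≤ q, SN x r →
      ∃ t ≤ r, ∃ y, cc x y t ∧ ∀ t' ≤ t, ¬ (R y t' ∧ TN y t') := by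
  classical
  obtain ⟨j, hj⟩ := kill_gen P hJ hc (fun x C q => ∀ y ∈ C, cc x y q)
    (fun x C p q h hqp y hy => (hm x).mono y p q (h y hy) hqp)
    (fun x p hp => cnd_decide P hB (hm x) hp (hcc x p hp))
  obtain ⟨q, hqp, -, hjq, -, -, -⟩ := exists_supp P.aleph p j
  refine ⟨q, hqp, DN j, clubN_DN P j, fun x r hr hS => ?_⟩
  obtain ⟨q₁, hq₁, C, hC, hcy, hbot⟩ := hj x r hS (hr.2.W hjq)
  have hjq₁ : j ∈ q₁.p.W := hq₁.2.W (hr.2.W hjq)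
  have hS₁ : SN x q₁ := reg_SN.mono x r q₁ hS hq₁
  have hx : x ≤ q₁.p.h := by
    by_contra hcon
    have h1 := q₁.hp.1.S_hi x (not_le.1 hcon)
    have h2 : q₁.b ≤ ⊥ := by
      rw [← h1]
      exact hS₁
    exact q₁.hb (le_bot_iff.1 h2)
  obtain ⟨y, hy⟩ : ∃ y : C, ¬ q₁.b ≤ q₁.p.d j y.1 ⊓ q₁.p.T y.1 := by
    by_contra hcon
    push Not at hcon
    have h1 : q₁.b ≤ ⨅ y : C, q₁.p.d j y.1 ⊓ q₁.p.T y.1 := le_iInf hcon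
    rw [inf_eq_left.2 h1] at hbot
    exact q₁.hb hbot
  have hb : q₁.b ⊓ (q₁.p.d j y.1 ⊓ q₁.p.T y.1)ᶜ ≠ ⊥ := by
    intro h
    exact hy (disjoint_compl_right_iff.1 (disjoint_iff.2 h))
  have hcut : q₁.cut _ hb ≤ q₁ := q₁.cut_le hb inf_le_left
  refine ⟨q₁.cut _ hb, hcut.trans hq₁, y.1, (hm x).mono y.1 q₁ _ (hcy y.1 y.2) hcut, ?_⟩
  rintro t' ht' ⟨hD, hT⟩
  obtain ⟨t'', ht'', -, hd⟩ := hD t' le_rfl
  have hT'' : TN y.1 t'' := reg_TN.mono y.1 t' t'' hT ht''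
  have hle : t'' ≤ q₁ := (ht''.trans ht').trans hcut
  have hyh : y.1 ≤ q₁.p.h := (hC.1 y.1 y.2).le.trans hx
  have h1 : t''.b ≤ q₁.p.d j y.1 := by
    have h2 := hle.2.d j hjq₁ y.1 hyh
    rw [inf_eq_left.2 hd] at h2
    exact inf_eq_left.1 h2.symm
  have h3 : t''.b ≤ q₁.p.T y.1 := by
    have h2 := hle.2.T y.1 hyh
    rw [inf_eq_left.2 (show t''.b ≤ t''.p.T y.1 from hT'')] at h2
    exact inf_eq_left.1 h2.symm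
  have h4 : t''.b ≤ q₁.b ⊓ (q₁.p.d j y.1 ⊓ q₁.p.T y.1)ᶜ := (ht''.trans ht').1
  have h5 : t''.b ≤ ⊥ := by
    calc t''.b ≤ (q₁.p.d j y.1 ⊓ q₁.p.T y.1) ⊓ (q₁.p.d j y.1 ⊓ q₁.p.T y.1)ᶜ :=
          le_inf (le_inf h1 h3) (h4.trans inf_le_right)
      _ = ⊥ := inf_compl_self _
  exact t''.hb (le_bot_iff.1 h5)

end CG
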