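import Pool.Agent.W_MP_7dc84e_h31.NcSt
import Pool.Agent.W_MP_7dc84e_h31.NcKill

/-!
# MP_7dc84e_lc : the properties of the forcing
-/

set_option autoImplicit false
set_option linter.unusedSectionVars false

universe u

open Cardinal Set

namespace CG

variable {O J Bt Th : Type u} [LinearOrder O] [LinearOrder J] [CompleteBooleanAlgebra Bt]
variable [WellFoundedLT O] [WellFoundedLT J]
variable {lam : Cardinal.{u}} {L : ℕ → Cardinal.{u}} {c : J → Nm O J Bt}

/-- `lam` is not the supremum of a set of smaller cardinals `L n ≤ μ`.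

PROOF.  Suppose `L n ≤ μ` for all `n`, `μ < lam`; we may assume `ℵ₀ ≤ μ`.  `P.dec` for a type `A` with `#A = lam` gives
`f : A → ℕ` with `#{a // f a ≤ n} ≤ L n ≤ μ`; `A` is the union of these sets, so `lam ≤ ℵ₀ * μ = μ`.  Contradiction. -/
theorem Par.exists_L_gt (P : Par O J Bt Th lam L) {μ : Cardinal.{u}} (hμ : μ < lam) :
    ∃ n, μ < L n := by
  by_contra hno
  push Not at hno
  have hinf : ℵ₀ ≤ μ := P.L_inf.trans (hno 0)
  obtain ⟨f, hf⟩ := P.dec lam.out (by rw [Cardinal.mk_out])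
  have hun : (⋃ n : ULift.{u} ℕ, {a : lam.out | f a ≤ n.down}) = Set.univ := by
    refine Set.eq_univ_of_forall fun a => ?_
    exact mem_iUnion.2 ⟨⟨f a⟩, le_refl (f a)⟩
  have h1 : lam ≤ #(ULift.{u} ℕ) * ⨆ n : ULift.{u} ℕ, #({a : lam.out | f a ≤ n.down} : Set _) := by
    refine le_trans (le_of_eq ?_) (Cardinal.mk_iUnion_le _)
    rw [hun, Cardinal.mk_univ, Cardinal.mk_out]
  have h2 : (⨆ n : ULift.{u} ℕ, #({a : lam.out | f a ≤ n.down} : Set _)) ≤ μ :=
    ciSup_le' fun n => (hf n.down).trans (hno n.down)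
  have h3 : #(ULift.{u} ℕ) ≤ μ := by
    rw [Cardinal.mk_uLift, Cardinal.mk_nat, Cardinal.lift_aleph0]
    exact hinf
  have h4 : lam ≤ μ := by
    refine h1.trans ((mul_le_mul' h3 h2).trans (le_of_eq ?_))
    exact Cardinal.mul_eq_self hinf
  exact absurd h4 (not_le.2 hμ)

/-- A well-order of size `> μ` has an initial segment of size `μ`. -/
theorem exists_Iio_card {X : Type u} [LinearOrder X] [WellFoundedLT X] {μ : Cardinal.{u}}
    (h : μ < #X) : ∃ x : X, #(Iio x) = μ := by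
  have h1 : μ.ord < Ordinal.type (fun a b : X => a < b) :=
    (Cardinal.ord_lt_ord.2 h).trans_le (Cardinal.ord_le_type _)
  obtain ⟨x, hx⟩ := Ordinal.typein_surj (fun a b : X => a < b) h1
  refine ⟨x, ?_⟩
  have h2 := Ordinal.card_typein (r := fun a b : X => a < b) x
  rw [hx, Cardinal.card_ord] at h2
  exact h2.symm

/-- The point `l`.

PROOF.  The set of the `x : O` with `lam ≤ #(Iio x)` is nonempty: otherwise, as `lam < #O` (`Par.lt_O`), choose ... (a
well-order all of whose initial segments have size `< lam` has size `≤ lam`: it has type `≤ lam.ord`).  Let `l` be its least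
element.  `#(Iio l) = lam` by `P.seg`, and `#(Iio a) < lam` for `a < l`.  `CofOm l`: for `n : ℕ` let `f n < l` be such that
`L n ≤ #(Iio (f n))`, which exists: otherwise all `a < l` have `#(Iio a) < L n`, so `Iio l` has size `≤ L n < 2 ^ L n ≤ lam`.
Let `y < l`: by `exists_L_gt` there is `n` with `#(Iio y) < L n ≤ #(Iio (f n))`, so `y < f n`. -/
theorem Par.exists_l (P : Par O J Bt Th lam L) :
    ∃ l : O, #(Iio l) = lam ∧ (∀ a < l, #(Iio a) < lam) ∧ CofOm l := by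
  obtain ⟨x0, hx0⟩ := exists_Iio_card (X := O) P.lt_O
  have hne : {x : O | lam ≤ #(Iio x)}.Nonempty := ⟨x0, hx0.ge⟩
  have hwf : WellFounded (fun a b : O => a < b) := wellFounded_lt
  obtain ⟨l, hl1, hl2⟩ : ∃ l : O, lam ≤ #(Iio l) ∧ ∀ a < l, #(Iio a) < lam := by
    refine ⟨hwf.min _ hne, hwf.min_mem _ hne, fun a ha => ?_⟩
    by_contra hno
    have hmem : a ∈ {x : O | lam ≤ #(Iio x)} := not_lt.1 hno
    exact hwf.not_lt_min {x : O | lam ≤ #(Iio x)} hmem ha
  have hl : #(Iio l) = lam := le_antisymm (P.seg l) hl1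
  have hex : ∀ n, ∃ a < l, L n ≤ #(Iio a) := by
    intro n
    have hlt : L n < #(Iio l) := by
      rw [hl]
      exact (Cardinal.cantor _).trans_le (P.L_pow n)
    obtain ⟨a, ha⟩ := exists_Iio_card (X := Iio l) hlt
    refine ⟨a.1, a.2, ?_⟩
    rw [← ha]
    refine Cardinal.mk_le_of_injective (f := fun z : Iio a => (⟨z.1.1, z.2⟩ : Iio a.1)) ?_
    intro z w hzw
    apply Subtype.ext
    apply Subtype.ext
    have h := congrArg (fun t : Iio a.1 => t.1) hzw
    exact h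
  choose f hf1 hf2 using hex
  refine ⟨l, hl, hl2, f, hf1, fun y hy => ?_⟩
  obtain ⟨n, hn⟩ := P.exists_L_gt (hl2 y hy)
  refine ⟨n, ?_⟩
  by_contra hno
  have h1 : #(Iio (f n)) ≤ #(Iio y) :=
    Cardinal.mk_le_mk_of_subset (Iio_subset_Iio (not_lt.1 hno))
  exact absurd (hn.trans_le ((hf2 n).trans h1)) (lt_irrefl _)

/-- A condition.  PROOF.  `(⊤, r)` where `r` has height `x` (any element of `O`), `S = T = ∅` and empty support. -/
theorem exists_cnd (P : Par O J Bt Th lam L) (hne : (⊤ : Bt) ≠ ⊥) : Nonempty (Cnd lam c) := by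
  have hO : #O ≠ 0 := ((zero_le (a := lam)).trans_lt P.lt_O).ne'
  obtain ⟨x⟩ := Cardinal.mk_ne_zero_iff.1 hO
  refine ⟨⟨⊤, ⟨x, fun _ => ⊥, fun _ => ⊥, ∅, fun _ _ => ⊥⟩, hne, ⟨?_, ?_, ?_, ?_, ?_, ?_, ?_, ?_, ?_⟩,
    ?_⟩⟩
  · exact fun _ _ => rfl
  · exact fun _ h => absurd rfl h
  · exact fun _ _ => rfl
  · exact fun _ h => absurd rfl h
  · show #((∅ : Set J) : Type u) ≤ lam
    rw [Cardinal.mk_eq_zero]
    exact zero_le
  · exact fun _ _ _ => rfl
  · exact fun _ _ _ => rfl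
  · exact fun _ h => absurd h (notMem_empty _)
  · rintro j y ⟨⟨z, hz⟩, -⟩
    refine (iInf_le _ ⟨z, hz⟩).trans (iSup_le fun w => ?_)
    exact bot_le
  · exact fun _ h => absurd h (notMem_empty _)

/-- All the properties except `refl`.

PROOF.  Collect: `exists_cnd`, `reg_SN`, `reg_TN`, `SN_cof`, `P.seg`, `Par.lt_O`, `cnd_cov` with `θ := #Bt < lam`
(`#Bt < #Th ≤ L 0 ≤ lam`), `cnd_wd`, `cnd_stS`, `cnd_stT`, `cnd_kill` (`lam = #(Iio l)`). -/
theorem ncore_of (P : Par O J Bt Th lam L) (hne : (⊤ : Bt) ≠ ⊥) {B : Type u} [Preorder B]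
    {e : B → Bt} (hB : SigB e) (hJ : ∀ s : Set J, #s ≤ 2 ^ lam → ∃ j, ∀ i ∈ s, i < j)
    (hc : ∀ N : Nm O J Bt, #N ≤ 2 ^ lam → (∀ t ∈ N, Basic lam t.1.2) → ∀ i, ∃ j, i ≤ j ∧ c j = N)
    {l : O} (hl : #(Iio l) = lam) (hl1 : ∀ a < l, #(Iio a) < lam) (hl2 : CofOm l)
    (hrefl : ∀ R : O → Cnd lam c → Prop, ClubN R → ∀ p, ∃ q ≤ p, ∃ β, IsLimPt β ∧ ¬ CofOm β ∧
      R β q ∧ StatN β SN q) :
    NCore O (Cnd lam c) l SN TN where
  ne := exists_cnd P hne
  wf := inferInstance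
  S_nm := reg_SN
  T_nm := reg_TN
  S_cof := fun x p h => SN_cof x p h
  seg := fun a => hl.symm ▸ P.seg a
  big := hl.symm ▸ P.lt_O
  l_init := fun a ha => hl.symm ▸ hl1 a ha
  l_inf := hl.symm ▸ P.aleph
  l_cof := hl2
  cov := by
    refine ⟨#Bt, ?_, ?_⟩
    · rw [hl]
      exact (P.Bt_lt.trans_le P.Th_le).trans_le (P.L_le 0)
    · intro A R hA hm hd p
      exact cnd_cov P A R (hl ▸ hA) hm hd p
  wd := fun R hm hd p => cnd_wd P hB R hm hd p
  stS := fun R hR p => cnd_stS P hR p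
  stT := fun R hR p => cnd_stT P hR p
  refl := hrefl
  kill := fun cc hm hcc p => cnd_kill P hB hJ hc cc hm hcc p

end CG
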