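import Pool.Agent.W_MP_7dc84e_h31.Defs

/-!
# MP_7dc84e_lc : existence of the parameters
-/

set_option autoImplicit false
set_option linter.unusedSectionVars false

universe u

open Cardinal Set

namespace CG

/-- The elements of a well-order with few predecessors. -/
theorem prx_mk_le (lam μ : Cardinal.{u}) :
    #{y : lam.ord.ToType // #(Iio y) < μ} ≤ μ := by
  have h1 : ∀ y : {y : lam.ord.ToType // #(Iio y) < μ},
      Ordinal.typein (α := lam.ord.ToType) (· < ·) y.1 < μ.ord := by
    intro y
    rw [Cardinal.lt_ord]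
    exact y.2
  have h2 : Function.Injective (fun y : {y : lam.ord.ToType // #(Iio y) < μ} =>
      Ordinal.ToType.mk (o := μ.ord)
        ⟨Ordinal.typein (α := lam.ord.ToType) (· < ·) y.1, h1 y⟩) := by
    intro y z hyz
    have h3 := congrArg Subtype.val (Ordinal.ToType.mk.injective hyz)
    exact Subtype.ext (Ordinal.typein_injective _ h3)
  have h4 := Cardinal.mk_le_of_injective h2
  rwa [Cardinal.mk_ord_toType] at h4

/-- The parameters.

PROOF.  Let `O := (succ lam).ord.toType` with its well-order.  `seg`: initial segments of `O` have size `< succ lam`.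
`bdd`: `succ lam` is regular (`Cardinal.isRegular_succ`).  `O_card`: `succ lam ≤ 2 ^ lam` (`Cardinal.cantor`).
Let `Th` be a type with `#Th = max ℵ₀ (succ #Bt) < lam` (a strong limit is closed under successors: `succ μ ≤ 2 ^ μ < lam`).
By `hcof` there is a sequence `f n < lam` with supremum `lam` in the sense of `hcof`; let `L n := max #Th (sup_{m ≤ n} f m)`, a
monotone sequence of infinite cardinals `< lam`; `2 ^ L n < lam` by `hstrong`.  `dec`: let `#A ≤ lam`, fix an injection
`e : A → lam.ord.toType`; for `a : A` let `g a := #(Iio (e a)) < lam` and `f a := ` the least `n` with `g a < L n` (exists by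
`hcof`).  `{a | f a ≤ n}` injects into `{y : lam.ord.toType | #(Iio y) < L n}`, which has size `≤ L n` (each `y` has
`typein < (L n).ord`: an ordinal of cardinality `< L n` is below the initial ordinal `(L n).ord`). -/
theorem exists_par (Bt : Type u) [CompleteBooleanAlgebra Bt] (lam : Cardinal.{u}) (hl : ℵ₀ < lam)
    (hstrong : ∀ μ < lam, 2 ^ μ < lam)
    (hcof : ∃ f : ℕ → Cardinal.{u}, (∀ n, f n < lam) ∧ ∀ μ < lam, ∃ n, μ < f n)
    (hBt : #Bt < lam) :
    ∃ (O Th : Type u) (_ : LinearOrder O) (_ : WellFoundedLT O) (L : ℕ → Cardinal.{u}),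
      ∀ (J : Type u) (_ : LinearOrder J), Par O J Bt Th lam L := by
  obtain ⟨f, hf1, hf2⟩ := hcof
  obtain ⟨κ, hκ⟩ : ∃ κ : Cardinal.{u}, κ = max ℵ₀ (Order.succ #Bt) := ⟨_, rfl⟩
  have hκlt : κ < lam := by
    rw [hκ]
    exact max_lt hl ((Order.succ_le_of_lt (Cardinal.cantor _)).trans_lt (hstrong _ hBt))
  have hκinf : ℵ₀ ≤ κ := by
    rw [hκ]
    exact le_max_left _ _
  have hκBt : #Bt < κ := by
    rw [hκ]
    exact (Order.lt_succ _).trans_le (le_max_right _ _)
  obtain ⟨L, hL⟩ : ∃ L : ℕ → Cardinal.{u},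
      L = fun n => max κ ((Finset.range (n + 1)).sup f) := ⟨_, rfl⟩
  have hLlt : ∀ n, L n < lam := by
    intro n
    rw [hL]
    refine max_lt hκlt ?_
    rw [Finset.sup_lt_iff (bot_le.trans_lt hl)]
    exact fun m _ => hf1 m
  have hκL : ∀ n, κ ≤ L n := by
    intro n
    rw [hL]
    exact le_max_left _ _
  have hfL : ∀ n, f n ≤ L n := by
    intro n
    rw [hL]
    exact (Finset.le_sup (f := f) (Finset.mem_range.2 (Nat.lt_succ_self n))).trans
      (le_max_right _ _)
  have hLmono : Monotone L := by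
    intro m n hmn
    rw [hL]
    exact max_le_max le_rfl (Finset.sup_mono (Finset.range_mono (Nat.succ_le_succ hmn)))
  have hdec : ∀ A : Type u, #A ≤ lam → ∃ f : A → ℕ, ∀ n, #{a // f a ≤ n} ≤ L n := by
    intro A hA
    have h1 : #A ≤ #(lam.ord.ToType) := by rwa [Cardinal.mk_ord_toType]
    obtain ⟨e⟩ := Cardinal.le_def _ _ |>.1 h1
    have h2 : ∀ a : A, ∃ n, #(Iio (e a)) < f n := by
      intro a
      refine hf2 _ ?_
      have h3 : #(Iio (e a)) < #(lam.ord.ToType) := Cardinal.mk_Iio_lt (e a) (by simp)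
      rwa [Cardinal.mk_ord_toType] at h3
    classical
    refine ⟨fun a => Nat.find (h2 a), fun n => ?_⟩
    have h4 : ∀ a : {a : A // Nat.find (h2 a) ≤ n}, #(Iio (e a.1)) < L n := fun a =>
      (Nat.find_spec (h2 a.1)).trans_le ((hfL _).trans (hLmono a.2))
    refine le_trans (Cardinal.mk_le_of_injective
      (f := fun a => (⟨e a.1, h4 a⟩ : {y : lam.ord.ToType // #(Iio y) < L n})) ?_)
      (prx_mk_le lam (L n))
    intro a b hab
    exact Subtype.ext (e.injective (congrArg Subtype.val hab))
  refine ⟨(Order.succ lam).ord.ToType, κ.out, inferInstance, inferInstance, L, fun J _ => ?_⟩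
  refine ⟨?_, ?_, ?_, hκinf.trans (hκL 0), hLmono, fun n => (hstrong _ (hLlt n)).le, hdec, ?_,
    ?_, ?_⟩
  · intro a
    have h1 : #(Iio a) < #((Order.succ lam).ord.ToType) := Cardinal.mk_Iio_lt a (by simp)
    rw [Cardinal.mk_ord_toType] at h1
    exact Order.lt_succ_iff.1 h1
  · intro s hs
    by_contra hcon
    push Not at hcon
    have h1 : IsCofinal s := fun x => by
      obtain ⟨a, ha, hxa⟩ := hcon x
      exact ⟨a, ha, hxa⟩
    have h2 := (Order.cof_le h1).trans hs
    rw [Ordinal.cof_toType, (Cardinal.isRegular_succ hl.le).cof_ord] at h2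
    exact absurd (Order.lt_succ lam) (not_lt.2 h2)
  · rw [Cardinal.mk_ord_toType]
    exact Order.succ_le_of_lt (Cardinal.cantor _)
  · rwa [Cardinal.mk_out]
  · rwa [Cardinal.mk_out]
  · rw [Cardinal.mk_out]
    exact hκL 0

end CG
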