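import Pool.Agent.W_MP_7dc84e_h31.ReflM
import Pool.Agent.W_MP_7dc84e_h31.NcMain
import Pool.Agent.W_MP_7dc84e_h31.FoE
import Pool.Agent.W_MP_7dc84e_h31.Bk
import Pool.Agent.W_MP_7dc84e_h31.ParEx
import Pool.Agent.W_MP_315f31_lc.Bridge

/-!
# MP_7dc84e_lc : the theorem
-/

set_option autoImplicit false
set_option linter.unusedSectionVars false

universe u

open Cardinal Set IM

namespace CG

/-- A strong limit cardinal of cofinality `ω` above `κ`. -/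
theorem exists_lam (κ : Cardinal.{u}) : ∃ lam : Cardinal.{u}, κ < lam ∧ ℵ₀ < lam ∧
    (∀ μ < lam, 2 ^ μ < lam) ∧
    ∃ f : ℕ → Cardinal.{u}, (∀ n, f n < lam) ∧ ∀ μ < lam, ∃ n, μ < f n := by
  let f : ℕ → Cardinal.{u} := fun n => Nat.rec (max κ ℵ₀) (fun _ c => 2 ^ c) n
  have hf0 : f 0 = max κ ℵ₀ := rfl
  have hfs : ∀ n, f (n + 1) = 2 ^ f n := fun n => rfl
  have hb : BddAbove (range f) := Cardinal.bddAbove_of_small
  have h1 : ∀ n, f n < ⨆ n, f n := fun n =>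
    (cantor (f n)).trans_le ((hfs n).symm.le.trans (le_ciSup hb (n + 1)))
  have h2 : ∀ μ < ⨆ n, f n, ∃ n, μ < f n := fun μ hμ => exists_lt_of_lt_ciSup hμ
  refine ⟨⨆ n, f n, (le_max_left κ ℵ₀).trans_lt (h1 0), (le_max_right κ ℵ₀).trans_lt (h1 0), ?_,
    f, h1, h2⟩
  intro μ hμ
  obtain ⟨n, hn⟩ := h2 μ hμ
  calc (2 : Cardinal.{u}) ^ μ ≤ 2 ^ f n := power_le_power_left two_ne_zero hn.le
    _ = f (n + 1) := (hfs n).symm
    _ < ⨆ n, f n := h1 (n + 1)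

/-- The theorem. -/
theorem main (κ : Cardinal.{u}) (h : DCT.IsSupercompact κ) :
    ∃ (M : Type (u + 1)) (E : M → M → Prop), Countable M ∧ WellFounded E ∧ HESR.IsZFC E ∧
      CGM.NegQ1 E := by
  obtain ⟨K, i1, -, i3, -, -, hKκ, hK⟩ := Pool.Agent.W_MP_315f31_lc.exists_K κ h.1
  have hsc : Pool.Agent.W_MP_315f31_lc.IsSupercompact (#K) := by
    rw [hKκ]
    exact DCT.isSupercompact_imp h
  have hKinf : ℵ₀ < #K := hK.card.aleph0_lt
  obtain ⟨lam, hlt, hlt', hstrong, hcof⟩ := exists_lam (#K)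
  have hBt : #(RO (BP K)) < lam := mk_RO_lt hKinf.le hlt hstrong
  obtain ⟨O, Th, j1, j2, L, hP⟩ := exists_par (RO (BP K)) lam hlt' hstrong hcof hBt
  have hP0 : Par O (ULift.{u} ℕ) (RO (BP K)) Th lam L := hP _ _
  obtain ⟨J, k1, k2, c, hJ, hc⟩ := exists_bk O (RO (BP K)) lam hlt'.le hP0.O_card hBt.le
  have P : Par O J (RO (BP K)) Th lam L := hP J k1
  obtain ⟨l, hl, hl1, hl2⟩ := P.exists_l
  have hne : (⊤ : RO (BP K)) ≠ ⊥ := by
    intro h0
    have h1 : BP.one ∈ (⊤ : RO (BP K)).1 := RO.mem_top _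
    rw [h0] at h1
    exact RO.mem_bot _ h1
  have hN : NCore O (Cnd lam c) l SN TN :=
    ncore_of P hne (sigB_eB BP.sig) hJ hc hl hl1 hl2 fun R hR p =>
      refl_main hsc hK P hlt.le hR p
  exact model_of hN.toD

end CG
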