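import Pool.Agent.W_MP_7dc84e_h31.NC
import Pool.Agent.W_315f31_h40.CoreD

/-!
# MP_7dc84e_lc : the properties of the forcing in terms of its regular open algebra

A name of a subset of `O` is a function `δ : O → D` into the complete Boolean algebra `D`.
-/

set_option autoImplicit false
set_option linter.unusedSectionVars false

universe u

open Cardinal Set IM

namespace CG

variable {O : Type u} [LinearOrder O] {D : Type u} [CompleteBooleanAlgebra D]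

/-- the truth value of: `δ` is closed unbounded in `O` -/
noncomputable def clubV (δ : O → D) : D :=
  (⨅ y : O, ⨆ z : Ioi y, δ z.1) ⊓
    ⨅ x : {x : O // IsLimPt x}, (⨅ y : Iio x.1, ⨆ z : Ioo y.1 x.1, δ z.1)ᶜ ⊔ δ x.1

/-- the truth value of: `ε` is closed unbounded in `β` -/
noncomputable def clubVB (β : O) (ε : O → D) : D :=
  (⨅ y : Iio β, ⨆ z : Ioo y.1 β, ε z.1) ⊓
    ⨅ x : {x : O // IsLimPt x ∧ x < β}, (⨅ y : Iio x.1, ⨆ z : Ioo y.1 x.1, ε z.1)ᶜ ⊔ ε x.1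

/-- the truth value of: `S` is stationary in `β` -/
noncomputable def stV (S : O → D) (β : O) : D :=
  ⨅ ε : O → D, (clubVB β ε)ᶜ ⊔ ⨆ x : Iio β, ε x.1 ⊓ S x.1

/-- The properties of the forcing, in terms of a complete Boolean algebra. -/
structure NCoreD (O : Type u) [LinearOrder O] (D : Type u) [CompleteBooleanAlgebra D] (l : O)
    (S T : O → D) : Prop where
  nt : (⊤ : D) ≠ ⊥
  wf : WellFoundedLT O
  S_cof : ∀ x, S x ≠ ⊥ → CofOm x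
  seg : ∀ a : O, #(Iio a) ≤ #(Iio l)
  big : #(Iio l) < #O
  l_init : ∀ a < l, #(Iio a) < #(Iio l)
  l_inf : ℵ₀ ≤ #(Iio l)
  l_cof : CofOm l
  cov : ∃ θ < #(Iio l), ∀ (A : Type u) (f : A → O → D), #A ≤ #(Iio l) →
    (∀ a, (⨆ x, f a x) = ⊤) → ∀ d : D, d ≠ ⊥ → ∃ b : D, b ≠ ⊥ ∧ b ≤ d ∧
      ∃ g : A → Set O, (∀ a, #(g a) ≤ θ) ∧ ∀ a, b ≤ ⨆ x ∈ g a, f a x
  wd : ∀ f : ℕ → O → D, (∀ n, (⨆ x, f n x) = ⊤) → ∀ d : D, d ≠ ⊥ → ∃ b : D, b ≠ ⊥ ∧ b ≤ d ∧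
    ∃ g : ℕ → O, ∀ n, b ≤ f n (g n)
  stS : ∀ δ : O → D, clubV δ = ⊤ → (⨆ x, δ x ⊓ S x) = ⊤
  stT : ∀ δ : O → D, clubV δ = ⊤ → (⨆ x, δ x ⊓ T x) = ⊤
  refl : ∀ δ : O → D, clubV δ = ⊤ →
    (⨆ β : {β : O // IsLimPt β ∧ ¬ CofOm β}, δ β.1 ⊓ stV S β.1) = ⊤
  kill : ∀ c : O → O → D, (∀ x, ∀ y < x, S x ≤ ⨆ z : Ioo y x, c x z.1) → ∀ d : D, d ≠ ⊥ →
    ∃ b : D, b ≠ ⊥ ∧ b ≤ d ∧ ∃ δ : O → D, clubV δ = ⊤ ∧
      ∀ x, b ⊓ (S x ⊓ ⨅ y : O, (c x y)ᶜ ⊔ (δ y ⊓ T y)) = ⊥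

section
variable {P : Type u} [Preorder P]

/-- The regular open set of a name. -/
def toR {A : Type u} {R : A → P → Prop} (hR : Reg R) (x : A) : RO P :=
  ⟨{p | R x p}, fun p => ⟨fun hp q hq => ⟨q, le_rfl, hR.mono x p q hp hq⟩, fun h => hR.reg x p h⟩⟩

theorem ncd_top_iff {u : RO P} : u = ⊤ ↔ ∀ p, p ∈ u.1 := by
  constructor
  · rintro rfl p
    exact RO.mem_top p
  · intro h
    exact top_le_iff.1 fun p _ => h p

theorem ncd_exists_mem {u : RO P} (h : u ≠ ⊥) : ∃ p, p ∈ u.1 := by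
  by_contra hc
  push Not at hc
  apply h
  apply le_bot_iff.1
  intro p hp
  exact absurd hp (hc p)

/-- implications -/
theorem ncd_mem_imp {u v : RO P} {p : P} : p ∈ (uᶜ ⊔ v).1 ↔ ∀ q ≤ p, q ∈ u.1 → q ∈ v.1 := by
  constructor
  · intro h q hq hqu
    refine RO.mem_of_dense fun r hr => ?_
    obtain ⟨t, ht, h1 | h1⟩ := h r (hr.trans hq)
    · exact absurd (RO.mem_lower hqu (ht.trans hr)) (h1 t (le_refl t))
    · exact ⟨t, ht, h1⟩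
  · intro h q hq
    by_cases hc : ∃ r ≤ q, r ∈ u.1
    · obtain ⟨r, hr, hr'⟩ := hc
      exact ⟨r, hr, Or.inr (h r (hr.trans hq) hr')⟩
    · exact ⟨q, le_refl q, Or.inl fun r hr hr' => hc ⟨r, hr, hr'⟩⟩

theorem ncd_mem_cl (q : P) : q ∈ (RO.cl {q}).1 :=
  fun r hr => ⟨r, le_refl r, q, rfl, hr⟩

theorem ncd_cl_ne (q : P) : RO.cl {q} ≠ ⊥ := by
  intro h
  have h1 := ncd_mem_cl q
  rw [h] at h1
  exact RO.mem_bot _ h1

theorem ncd_cl_le {q : P} {u : RO P} (h : q ∈ u.1) : RO.cl {q} ≤ u := by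
  intro p hp
  refine RO.mem_of_dense fun r hr => ?_
  obtain ⟨t, ht, t', ht', htt⟩ := hp r hr
  have e : t' = q := ht'
  subst e
  exact ⟨t, ht, RO.mem_lower h htt⟩

/-- The name of a family of regular open sets.

PROOF.  `RO.mem_lower`, `RO.mem_of_dense`. -/
theorem reg_mem {A : Type u} (δ : A → RO P) : Reg fun x p => p ∈ (δ x).1 :=
  ⟨fun _ _ _ hp hq => RO.mem_lower hp hq, fun _ _ h => RO.mem_of_dense h⟩

/-- PROOF.  Unfold: membership of `p` in infima, suprema, complements, joins of regular open sets (`RO.mem_iInf`,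
`RO.mem_iSup`, `RO.mem_compl`, see `Pool/Agent/W_MP_0bf392_lc/RO.lean` and `Pool/Agent/W_315f31_h40/CoreD.lean`).  -/
theorem clubV_top_iff {δ : O → RO P} : clubV δ = ⊤ ↔ ClubN fun x p => p ∈ (δ x).1 := by
  rw [ncd_top_iff]
  constructor
  · intro h
    refine ⟨reg_mem δ, ?_, ?_⟩
    · intro y p
      have h1 := (RO.mem_iInf _ _).1 (h p).1 y
      obtain ⟨q, hq, z, hz⟩ := (RO.mem_iSup _ _).1 h1 p (le_refl p)
      exact ⟨q, hq, z.1, z.2, hz⟩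
    · intro x hx p hp
      have h1 := (RO.mem_iInf _ _).1 (h p).2 ⟨x, hx⟩
      refine ncd_mem_imp.1 h1 p (le_refl p) ?_
      refine (RO.mem_iInf _ _).2 fun y => (RO.mem_iSup _ _).2 fun q hq => ?_
      obtain ⟨r, hr, z, hz1, hz2, hz3⟩ := hp y.1 y.2 q hq
      exact ⟨r, hr, ⟨z, hz1, hz2⟩, hz3⟩
  · intro h p
    refine ⟨?_, ?_⟩
    · refine (RO.mem_iInf _ _).2 fun y => (RO.mem_iSup _ _).2 fun q _ => ?_
      obtain ⟨r, hr, z, hz1, hz2⟩ := h.unb y q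
      exact ⟨r, hr, ⟨z, hz1⟩, hz2⟩
    · refine (RO.mem_iInf _ _).2 fun x => ncd_mem_imp.2 fun q _ hq => ?_
      refine h.cl x.1 x.2 q fun y hy r hr => ?_
      obtain ⟨t, ht, z, hz⟩ := (RO.mem_iSup _ _).1 ((RO.mem_iInf _ _).1 hq ⟨y, hy⟩) r hr
      exact ⟨t, ht, z.1, z.2.1, z.2.2, hz⟩

/-- PROOF.  As `clubV_top_iff`, below the condition `p`. -/
theorem mem_clubVB_iff {β : O} {ε : O → RO P} {p : P} :
    p ∈ (clubVB β ε).1 ↔ ClubB β (fun x p => p ∈ (ε x).1) p := by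
  constructor
  · intro h
    refine ⟨?_, ?_⟩
    · intro y hy q hq
      have h1 := (RO.mem_iInf _ _).1 h.1 ⟨y, hy⟩
      obtain ⟨r, hr, z, hz⟩ := (RO.mem_iSup _ _).1 h1 q hq
      exact ⟨r, hr, z.1, z.2.1, z.2.2, hz⟩
    · intro x hxβ hx q hq hq'
      have h1 := (RO.mem_iInf _ _).1 h.2 ⟨x, hx, hxβ⟩
      refine ncd_mem_imp.1 h1 q hq ?_
      refine (RO.mem_iInf _ _).2 fun y => (RO.mem_iSup _ _).2 fun r hr => ?_
      obtain ⟨t, ht, z, hz1, hz2, hz3⟩ := hq' y.1 y.2 r hr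
      exact ⟨t, ht, ⟨z, hz1, hz2⟩, hz3⟩
  · intro h
    refine ⟨?_, ?_⟩
    · refine (RO.mem_iInf _ _).2 fun y => (RO.mem_iSup _ _).2 fun q hq => ?_
      obtain ⟨r, hr, z, hz1, hz2, hz3⟩ := h.unb y.1 y.2 q hq
      exact ⟨r, hr, ⟨z, hz1, hz2⟩, hz3⟩
    · refine (RO.mem_iInf _ _).2 fun x => ncd_mem_imp.2 fun q hq hq' => ?_
      refine h.cl x.1 x.2.2 x.2.1 q hq fun y hy r hr => ?_
      obtain ⟨t, ht, z, hz⟩ := (RO.mem_iSup _ _).1 ((RO.mem_iInf _ _).1 hq' ⟨y, hy⟩) r hr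
      exact ⟨t, ht, z.1, z.2.1, z.2.2, hz⟩

/-- PROOF.  `p` is in `stV S β` iff for every `ε : O → RO P`, for every `q ≤ p` some `q' ≤ q` is in
`(clubVB β ε)ᶜ` or in some `ε x ⊓ S x`, `x < β`.  `←`: let `ε`, `q ≤ p` be given.  If no `r ≤ q` is in `clubVB β ε`, then
`q ∈ (clubVB β ε)ᶜ`; otherwise take such an `r` and use `StatN` for the name of `ε` (`reg_mem`, `mem_clubVB_iff`). -/
theorem mem_stV_of {β : O} {S : O → P → Prop} (hS : Reg S) {p : P} (h : StatN β S p) :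
    p ∈ (stV (toR hS) β).1 := by
  refine (RO.mem_iInf _ _).2 fun ε => ncd_mem_imp.2 fun q hq hq' => ?_
  refine (RO.mem_iSup _ _).2 fun q₁ hq₁ => ?_
  obtain ⟨r, hr, x, hx, hx1, hx2⟩ := h (fun x p => p ∈ (ε x).1) (reg_mem ε) q₁ (hq₁.trans hq)
    (mem_clubVB_iff.1 (RO.mem_lower hq' hq₁))
  exact ⟨r, hr, ⟨x, hx⟩, hx1, hx2⟩

/-- The conversion.

PROOF.  Translate every clause; for `d ≠ ⊥` choose `p ∈ d.1`, and take for `b` the regular open set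
`{r | ∀ r' ≤ r, ∃ r'' ≤ r', r'' ≤ q}` generated by the condition `q` which is found (`RO.cl {q}`, or as `io` in
`Pool/Agent/W_315f31_h40/CoreD.lean`); `b ≤ u` iff `q ∈ u.1`.  The relations are `R x p := p ∈ (f x).1` (`reg_mem`), for which
`⨆ x, f x = ⊤` means that densely some `R x` holds.  `refl`: by `clubV_top_iff`, `h.refl` and `mem_stV_of` the
supremum contains densely many conditions.  `kill`: `h.kill` for `c x y p := p ∈ (c x y).1` gives `q ≤ p` and `R`;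
`δ := toR R`; if `r` is a condition in `b ⊓ (S x ⊓ ⨅ y, (c x y)ᶜ ⊔ (δ y ⊓ T y))`, take `r₁ ≤ r, q`, then `t ≤ r₁` and `y` with
`t ∈ c x y` and no `t' ≤ t` in `δ y ⊓ T y`; but `t ∈ (c x y)ᶜ ⊔ (δ y ⊓ T y)`, so some `t' ≤ t` is in `(c x y)ᶜ` (impossible) or in
`δ y ⊓ T y`: contradiction. -/
theorem NCore.toD {l : O} {S T : O → P → Prop} (h : NCore O P l S T) :
    NCoreD O (RO P) l (toR h.S_nm) (toR h.T_nm) := by
  refine ⟨?_, h.wf, ?_, h.seg, h.big, h.l_init, h.l_inf, h.l_cof, ?_, ?_, ?_, ?_, ?_, ?_⟩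
  · -- nt
    intro hc
    obtain ⟨p⟩ := h.ne
    have h1 : p ∈ (⊤ : RO P).1 := RO.mem_top p
    rw [hc] at h1
    exact RO.mem_bot _ h1
  · -- S_cof
    intro x hx
    obtain ⟨p, hp⟩ := ncd_exists_mem hx
    exact h.S_cof x p hp
  · -- cov
    obtain ⟨θ, hθ, H⟩ := h.cov
    refine ⟨θ, hθ, fun A f hA hf d hd => ?_⟩
    obtain ⟨p, hp⟩ := ncd_exists_mem hd
    obtain ⟨q, hq, g, hg1, hg2⟩ := H A (fun a x p => p ∈ (f a x).1) hA
      (fun a x p q hp hq => RO.mem_lower hp hq)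
      (fun a p => by
        obtain ⟨r, hr, x, hx⟩ := (RO.mem_iSup _ _).1 (ncd_top_iff.1 (hf a) p) p (le_refl p)
        exact ⟨r, hr, x, hx⟩) p
    refine ⟨RO.cl {q}, ncd_cl_ne q, ncd_cl_le (RO.mem_lower hp hq), g, hg1, fun a => ?_⟩
    refine ncd_cl_le (RO.mem_of_dense fun r hr => ?_)
    obtain ⟨t, ht, x, hx, htx⟩ := hg2 a r hr
    exact ⟨t, ht, (le_iSup₂_of_le (f := fun x (_ : x ∈ g a) => f a x) x hx le_rfl) htx⟩
  · -- wd
    intro f hf d hd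
    obtain ⟨p, hp⟩ := ncd_exists_mem hd
    obtain ⟨q, hq, g, hg⟩ := h.wd (fun n x p => p ∈ (f n x).1)
      (fun n x p q hp hq => RO.mem_lower hp hq)
      (fun n p => by
        obtain ⟨r, hr, x, hx⟩ := (RO.mem_iSup _ _).1 (ncd_top_iff.1 (hf n) p) p (le_refl p)
        exact ⟨r, hr, x, hx⟩) p
    exact ⟨RO.cl {q}, ncd_cl_ne q, ncd_cl_le (RO.mem_lower hp hq), g, fun n => ncd_cl_le (hg n)⟩
  · -- stS
    intro δ hδ
    refine ncd_top_iff.2 fun p => (RO.mem_iSup _ _).2 fun q _ => ?_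
    obtain ⟨r, hr, x, hx1, hx2⟩ := h.stS _ (clubV_top_iff.1 hδ) q
    exact ⟨r, hr, x, hx1, hx2⟩
  · -- stT
    intro δ hδ
    refine ncd_top_iff.2 fun p => (RO.mem_iSup _ _).2 fun q _ => ?_
    obtain ⟨r, hr, x, hx1, hx2⟩ := h.stT _ (clubV_top_iff.1 hδ) q
    exact ⟨r, hr, x, hx1, hx2⟩
  · -- refl
    intro δ hδ
    refine ncd_top_iff.2 fun p => (RO.mem_iSup _ _).2 fun q _ => ?_
    obtain ⟨r, hr, β, hβ1, hβ2, hβ3, hβ4⟩ := h.refl _ (clubV_top_iff.1 hδ) q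
    exact ⟨r, hr, ⟨β, hβ1, hβ2⟩, hβ3, mem_stV_of h.S_nm hβ4⟩
  · -- kill
    intro c hc d hd
    obtain ⟨p, hp⟩ := ncd_exists_mem hd
    obtain ⟨q, hq, R, hR, hk⟩ := h.kill (fun x y p => p ∈ (c x y).1) (fun x => reg_mem (c x))
      (fun x p hSp y hy q hq => by
        have h1 : q ∈ (⨆ z : Ioo y x, c x z.1).1 :=
          hc x y hy (RO.mem_lower (u := toR h.S_nm x) hSp hq)
        obtain ⟨r, hr, z, hz⟩ := (RO.mem_iSup _ _).1 h1 q (le_refl q)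
        exact ⟨r, hr, z.1, z.2.1, z.2.2, hz⟩) p
    refine ⟨RO.cl {q}, ncd_cl_ne q, ncd_cl_le (RO.mem_lower hp hq), toR hR.toReg, ?_, ?_⟩
    · exact clubV_top_iff.2 hR
    · intro x
      by_contra hne
      obtain ⟨r, hr1, hr2, hr3⟩ := ncd_exists_mem hne
      obtain ⟨r₁, hr₁, q', hq', hrq⟩ := hr1 r (le_refl r)
      have e : q' = q := hq'
      subst e
      obtain ⟨t, ht, y, hy1, hy2⟩ := hk x r₁ hrq
        (RO.mem_lower (u := toR h.S_nm x) hr2 hr₁)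
      have h1 := (RO.mem_iInf _ _).1 hr3 y
      have h2 := ncd_mem_imp.1 h1 t (ht.trans hr₁) hy1
      exact hy2 t (le_refl t) h2

end

end CG
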