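import Pool.Agent.W_MP_7dc84e_h31.Stmt
import Pool.Agent.W_MP_7dc84e_h31.NCD
import Pool.Agent.W_315f31_h40.Final0

/-!
# MP_7dc84e_lc : the notions of the statement are uniformly first-order, and have truth values
-/

set_option autoImplicit false
set_option linter.unusedSectionVars false

universe u

open Cardinal Set HESR IM.BSet
open IM (BSet)

namespace CGM

variable {k : ℕ}

/-- PROOF.  As in `Pool/Agent/W_MP_315f31_lc/C/StmtFO.lean`: unfold and use the lemmas `.fo` (`DCT.Cov` is `HESR.Cov` by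
`rfl`; `HESR.Cov.fo`). -/
theorem cov_fo (a b : Fin k) : FO.{u} (fun _ E v => DCT.Cov E (v a) (v b)) :=
  HESR.Cov.fo a b

theorem IsInfCard.fo (a : Fin k) : FO.{u} (fun _ E v => IsInfCard E (v a)) := by
  unfold IsInfCard; (repeat' (first | exact IsCard.fo _ | exact cov_fo _ _ | exact Maps.fo _ _ _ | exact IsFun.fo _ _ | exact App.fo _ _ _ | exact IsOmega.fo _ | exact IsOrd.fo _ | exact Sub.fo _ _ | exact FO.eq _ _ | exact FO.mem _ _ | apply FO.not | apply FO.and | apply FO.or | apply FO.iff | apply FO.imp | apply FO.ex | apply FO.all))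

theorem IsSuccCard.fo (a b : Fin k) : FO.{u} (fun _ E v => IsSuccCard E (v a) (v b)) := by
  unfold IsSuccCard; (repeat' (first | exact IsCard.fo _ | exact cov_fo _ _ | exact Maps.fo _ _ _ | exact IsFun.fo _ _ | exact App.fo _ _ _ | exact IsOmega.fo _ | exact IsOrd.fo _ | exact Sub.fo _ _ | exact FO.eq _ _ | exact FO.mem _ _ | apply FO.not | apply FO.and | apply FO.or | apply FO.iff | apply FO.imp | apply FO.ex | apply FO.all))

theorem IsCofMap.fo (a b c : Fin k) : FO.{u} (fun _ E v => IsCofMap E (v a) (v b) (v c)) := by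
  unfold IsCofMap; (repeat' (first | exact IsCard.fo _ | exact cov_fo _ _ | exact Maps.fo _ _ _ | exact IsFun.fo _ _ | exact App.fo _ _ _ | exact IsOmega.fo _ | exact IsOrd.fo _ | exact Sub.fo _ _ | exact FO.eq _ _ | exact FO.mem _ _ | apply FO.not | apply FO.and | apply FO.or | apply FO.iff | apply FO.imp | apply FO.ex | apply FO.all))

theorem IsCf.fo (a b : Fin k) : FO.{u} (fun _ E v => IsCf E (v a) (v b)) := by
  unfold IsCf; (repeat' (first | exact IsCofMap.fo _ _ _ | exact IsCard.fo _ | exact cov_fo _ _ | exact Maps.fo _ _ _ | exact IsFun.fo _ _ | exact App.fo _ _ _ | exact IsOmega.fo _ | exact IsOrd.fo _ | exact Sub.fo _ _ | exact FO.eq _ _ | exact FO.mem _ _ | apply FO.not | apply FO.and | apply FO.or | apply FO.iff | apply FO.imp | apply FO.ex | apply FO.all))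

theorem IsClub.fo (a b : Fin k) : FO.{u} (fun _ E v => IsClub E (v a) (v b)) := by
  unfold IsClub; (repeat' (first | exact IsCard.fo _ | exact cov_fo _ _ | exact Maps.fo _ _ _ | exact IsFun.fo _ _ | exact App.fo _ _ _ | exact IsOmega.fo _ | exact IsOrd.fo _ | exact Sub.fo _ _ | exact FO.eq _ _ | exact FO.mem _ _ | apply FO.not | apply FO.and | apply FO.or | apply FO.iff | apply FO.imp | apply FO.ex | apply FO.all))

theorem IsStat.fo (a b : Fin k) : FO.{u} (fun _ E v => IsStat E (v a) (v b)) := by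
  unfold IsStat; (repeat' (first | exact IsClub.fo _ _ | exact IsCard.fo _ | exact cov_fo _ _ | exact Maps.fo _ _ _ | exact IsFun.fo _ _ | exact App.fo _ _ _ | exact IsOmega.fo _ | exact IsOrd.fo _ | exact Sub.fo _ _ | exact FO.eq _ _ | exact FO.mem _ _ | apply FO.not | apply FO.and | apply FO.or | apply FO.iff | apply FO.imp | apply FO.ex | apply FO.all))

theorem InTr.fo (a b c : Fin k) : FO.{u} (fun _ E v => InTr E (v a) (v b) (v c)) := by
  unfold InTr; (repeat' (first | exact IsStat.fo _ _ | exact IsCf.fo _ _ | exact IsCard.fo _ | exact cov_fo _ _ | exact Maps.fo _ _ _ | exact IsFun.fo _ _ | exact App.fo _ _ _ | exact IsOmega.fo _ | exact IsOrd.fo _ | exact Sub.fo _ _ | exact FO.eq _ _ | exact FO.mem _ _ | apply FO.not | apply FO.and | apply FO.or | apply FO.iff | apply FO.imp | apply FO.ex | apply FO.all))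

theorem IsConc.fo (a b c d : Fin k) : FO.{u} (fun _ E v => IsConc E (v a) (v b) (v c) (v d)) := by
  unfold IsConc; (repeat' (first | exact IsClub.fo _ _ | exact IsCard.fo _ | exact cov_fo _ _ | exact Maps.fo _ _ _ | exact IsFun.fo _ _ | exact App.fo _ _ _ | exact IsOmega.fo _ | exact IsOrd.fo _ | exact Sub.fo _ _ | exact FO.eq _ _ | exact FO.mem _ _ | apply FO.not | apply FO.and | apply FO.or | apply FO.iff | apply FO.imp | apply FO.ex | apply FO.all))

theorem NegQ1.fo : FO.{u} (fun _ E (_ : Fin k → _) => NegQ1 E) := by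
  unfold NegQ1; (repeat' (first | exact IsInfCard.fo _ | exact IsSuccCard.fo _ _ | exact IsCf.fo _ _ | exact IsStat.fo _ _ | exact IsClub.fo _ _ | exact InTr.fo _ _ _ | exact IsConc.fo _ _ _ _ | exact IsCard.fo _ | exact cov_fo _ _ | exact Maps.fo _ _ _ | exact IsFun.fo _ _ | exact App.fo _ _ _ | exact IsOmega.fo _ | exact IsOrd.fo _ | exact Sub.fo _ _ | exact FO.eq _ _ | exact FO.mem _ _ | apply FO.not | apply FO.and | apply FO.or | apply FO.iff | apply FO.imp | apply FO.ex | apply FO.all))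

end CGM

namespace BVM

open CGM

variable {D : Type u} [CompleteBooleanAlgebra D] {k : ℕ}
variable {f g h i : ∀ (lam : D → Prop) (hl : IsUF lam), (Fin k → X hl) → X hl}

/-- PROOF.  `TD.fo2` and `IsClub.fo`. -/
theorem TD.isClub (hf : Tm f) (hg : Tm g) :
    TD fun lam hl v => IsClub (E hl) (f lam hl v) (g lam hl v) := by
  exact TD.fo2 (R := fun _ E a b => IsClub E a b) (IsClub.fo 0 1) hf hg

theorem TD.isStat (hf : Tm f) (hg : Tm g) :
    TD fun lam hl v => IsStat (E hl) (f lam hl v) (g lam hl v) := by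
  exact TD.fo2 (R := fun _ E a b => IsStat E a b) (IsStat.fo 0 1) hf hg

theorem TD.isCf (hf : Tm f) (hg : Tm g) :
    TD fun lam hl v => IsCf (E hl) (f lam hl v) (g lam hl v) := by
  exact TD.fo2 (R := fun _ E a b => IsCf E a b) (IsCf.fo 0 1) hf hg

theorem TD.isCofMap (hf : Tm f) (hg : Tm g) (hh : Tm h) :
    TD fun lam hl v => IsCofMap (E hl) (f lam hl v) (g lam hl v) (h lam hl v) := by
  exact TD.fo3 (R := fun _ E a b c => IsCofMap E a b c) (IsCofMap.fo 0 1 2) hf hg hh

theorem TD.inTr (hf : Tm f) (hg : Tm g) (hh : Tm h) :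
    TD fun lam hl v => InTr (E hl) (f lam hl v) (g lam hl v) (h lam hl v) := by
  exact TD.fo3 (R := fun _ E a b c => InTr E a b c) (InTr.fo 0 1 2) hf hg hh

theorem TD.isConc (hf : Tm f) (hg : Tm g) (hh : Tm h) (hi : Tm i) :
    TD fun lam hl v => IsConc (E hl) (f lam hl v) (g lam hl v) (h lam hl v) (i lam hl v) := by
  exact TD.fo4 (R := fun _ E a b c d => IsConc E a b c d) (IsConc.fo 0 1 2 3) hf hg hh hi

/-- The name of a subset of `O`. -/
noncomputable def sN {O : Type u} [LinearOrder O] [WellFoundedLT O] (δ : O → D) : BSet D :=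
  mk O (fun x => chk x) δ

/-- PROOF.  As `E_tN` in `Pool/Agent/W_MP_315f31_lc/C/TreeX.lean`: `E_mk_iff` and `beq_chk_ne`. -/
theorem E_sN {O : Type u} [LinearOrder O] [WellFoundedLT O] {δ : O → D} {x : O}
    {lam : D → Prop} {hl : IsUF lam} :
    E hl (val hl (chk x)) (val hl (sN δ)) ↔ lam (δ x) := by
  unfold sN
  rw [E_mk_iff]
  have h : (⨆ i : O, δ i ⊓ beq (chk x) (chk i)) = δ x := by
    apply le_antisymm
    · refine iSup_le fun i => ?_
      by_cases hi : x = i
      · rw [← hi]
        exact inf_le_left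
      · rw [beq_chk_ne hi]
        simp
    · refine le_iSup_of_le x ?_
      rw [beq_refl]
      simp
  rw [h]

/-- PROOF.  `forall_mk`: every element of `sN δ` is an element of `chkT O` (`E_chkT`). -/
theorem sub_sN {O : Type u} [LinearOrder O] [WellFoundedLT O] {δ : O → D}
    {lam : D → Prop} {hl : IsUF lam} : Sub (E hl) (val hl (sN δ)) (val hl (chkT O)) := by
  refine forall_mk (P := fun lam hl x => E hl x (val hl (chkT O))) ?_ (a := ⊤) ?_ hl.top
  · exact TD.mem (Tm.var _) (Tm.const _)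
  · intro i lam hl _ _
    exact E_chkT i

/-- Quantification over the elements of a named subset of `O`.  PROOF.  `forall_mk`. -/
theorem forall_sN {O : Type u} [LinearOrder O] [WellFoundedLT O] {δ : O → D}
    {P : ∀ (lam : D → Prop) (hl : IsUF lam), X hl → Prop} (h : TD1 P) {a : D}
    (h1 : ∀ (x : O) (lam : D → Prop) (hl : IsUF lam), lam a → lam (δ x) → P lam hl (val hl (chk x)))
    {lam : D → Prop} {hl : IsUF lam} (hlam : lam a) :
    ∀ x, E hl x (val hl (sN δ)) → P lam hl x := by
  exact forall_mk h h1 hlam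

/-- Existence of an element of a named subset of `O`.  PROOF.  `exists_mk_iff`. -/
theorem exists_sN_iff {O : Type u} [LinearOrder O] [WellFoundedLT O] {δ : O → D}
    {P : ∀ (lam : D → Prop) (hl : IsUF lam), X hl → Prop} (h : TD1 P)
    {lam : D → Prop} {hl : IsUF lam} :
    (∃ x, E hl x (val hl (sN δ)) ∧ P lam hl x) ↔ lam (⨆ x, δ x ⊓ TD.b1 h (chk x)) := by
  exact exists_mk_iff h

end BVM
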