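import Pool.Agent.W_MP_7dc84e_h31.FoA

/-!
# MP_7dc84e_lc : the cardinals `l` and `l⁺` in the model
-/

set_option autoImplicit false
set_option linter.unusedSectionVars false

universe u

open Cardinal Set HESR IM.BSet BVM CGM
open IM (BSet)

namespace CG

variable {O : Type u} [LinearOrder O] [WellFoundedLT O] {D : Type u} [CompleteBooleanAlgebra D]
variable {l : O} {S T : O → D} {lam : D → Prop} {hl : IsUF lam}

/-- A function defined on a set with few elements is not onto. -/
theorem fob_not_cov (h : NCoreD O D l S T) {A : Type u} (j : A → BSet D) (hA : #A ≤ #(Iio l))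
    {C : BSet D} {M : Set O}
    (hC : ∀ y ∈ M, ∀ (lam : D → Prop) (hl : IsUF lam), E hl (val hl (chk y)) (val hl C))
    (hM : ∀ θ < #(Iio l), #A * θ < #M) {lam : D → Prop} {hl : IsUF lam} :
    ¬ HESR.Cov (E hl) (val hl (nm j)) (val hl C) := by
  classical
  intro hc
  have hT : TD1 (D := D) fun lam hl f => IsFun (E hl) f (val hl (nm j)) ∧
      ∀ y, E hl y (val hl C) → ∃ x, E hl x (val hl (nm j)) ∧ App (E hl) f x y := by
    refine TD.and (TD.isFun (Tm.var 0) (Tm.const _)) ?_
    refine TD.all (P := fun lam hl y v => E hl y (val hl C) →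
      ∃ x, E hl x (val hl (nm j)) ∧ App (E hl) (v 0) x y) ?_
    refine TD.imp (TD.mem (Tm.var 0) (Tm.const _)) ?_
    exact TD.ex (P := fun lam hl x v => E hl x (val hl (nm j)) ∧ App (E hl) (v 1) x (v 0))
      (TD.and (TD.mem (Tm.var 0) (Tm.const _)) (TD.app (Tm.var 2) (Tm.var 0) (Tm.var 1)))
  obtain ⟨F, hF⟩ := TD.exists_name hT
  set c : D := TD.b1 hT F with hcdef
  have hlc : lam c := by
    obtain ⟨f, hf, hf'⟩ := hc
    refine (TD.b1_iff hT).1 (hF lam hl f ⟨hf, fun y hy => ?_⟩)
    obtain ⟨x, hx⟩ := hf' y hy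
    exact ⟨x, hf.dom (zfc hl) hx, hx⟩
  have hc0 : c ≠ ⊥ := fun h0 => hl.bot (h0 ▸ hlc)
  have hApp : ∀ x : BSet D, TD1 (D := D) fun lam hl z => App (E hl) (val hl F) z (val hl x) :=
    fun x => TD.app (Tm.const _) (Tm.var 0) (Tm.const _)
  let g : A → O → D := fun i y => TD.b1 (hApp (chk y)) (j i)
  let g' : A → O → D := fun i y => g i y ⊔ (if y = l then (⨆ z, g i z)ᶜ else ⊥)
  obtain ⟨θ, hθ, hcov⟩ := h.cov
  obtain ⟨b, hb0, hbc, G, hG, hbG⟩ := hcov A g' hA (by
    intro i
    rw [eq_top_iff, ← sup_compl_eq_top (x := ⨆ z, g i z)]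
    refine sup_le (iSup_mono fun y => le_sup_left) ?_
    refine le_trans ?_ (le_iSup (g' i) l)
    change _ ≤ g i l ⊔ (if l = l then (⨆ z, g i z)ᶜ else ⊥)
    rw [if_pos rfl]
    exact le_sup_right) c hc0
  obtain ⟨y, hyM, hyG⟩ : ∃ y ∈ M, y ∉ ⋃ i, G i := by
    by_contra hcon
    push Not at hcon
    have h1 : #M ≤ #(⋃ i, G i : Set O) := Cardinal.mk_le_mk_of_subset hcon
    have h2 : #(⋃ i, G i : Set O) ≤ #A * θ :=
      (Cardinal.mk_iUnion_le G).trans (mul_le_mul' le_rfl (ciSup_le' hG))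
    exact absurd (h1.trans h2) (not_le.2 (hM θ hθ))
  have hne : ∀ i, ∀ x ∈ G i, x ≠ y := by
    rintro i x hx rfl
    exact hyG (mem_iUnion.2 ⟨i, hx⟩)
  -- `b` forces that `y` is a value
  have h1 : b ≤ ⨆ i, g i y := by
    rw [le_iff_ultra]
    intro lam hl hlam
    have h2 := (TD.b1_iff hT (hl := hl)).2 (hl.mono hbc hlam)
    exact (exists_nm_iff (hApp (chk y))).1 (h2.2 _ (hC y hyM lam hl))
  apply hb0
  rw [← le_bot_iff]
  have h2 : ∀ i, b ⊓ g i y ≤ ⊥ := by
    intro i
    have h3 : b ⊓ g i y ≤ (⨆ x ∈ G i, g' i x) ⊓ (b ⊓ g i y) :=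
      le_inf (inf_le_left.trans (hbG i)) le_rfl
    refine h3.trans ?_
    rw [iSup₂_inf_eq]
    refine iSup₂_le fun x hx => ?_
    change (g i x ⊔ (if x = l then (⨆ z, g i z)ᶜ else ⊥)) ⊓ (b ⊓ g i y) ≤ ⊥
    rw [inf_sup_right]
    refine sup_le ?_ ?_
    · rw [le_iff_ultra]
      intro lam hl hlam
      obtain ⟨h4, h5⟩ := hl.inf_iff.1 hlam
      obtain ⟨h6, h7⟩ := hl.inf_iff.1 h5
      have h8 := (TD.b1_iff hT (hl := hl)).2 (hl.mono hbc h6)
      have h9 := h8.1.val (zfc hl) ((TD.b1_iff (hApp (chk x)) (hl := hl)).2 h4)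
        ((TD.b1_iff (hApp (chk y)) (hl := hl)).2 h7)
      exact (hne i x hx (val_chk_inj.1 h9)).elim
    · by_cases hxl : x = l
      · rw [if_pos hxl]
        refine (inf_le_inf_left _ (inf_le_right.trans (le_iSup (g i) y))).trans ?_
        rw [compl_inf_eq_bot]
      · rw [if_neg hxl, bot_inf_eq]
  calc b = b ⊓ ⨆ i, g i y := (inf_eq_left.2 h1).symm
    _ = ⨆ i, b ⊓ g i y := inf_iSup_eq _ _
    _ ≤ ⊥ := iSup_le h2

/-- Functions from a small initial segment are not onto.

PROOF.  As `not_cov_Wo` in `Pool/Agent/W_315f31_h40/Cards.lean`.  Suppose `Cov (val (chk a)) (val C)` for some `lam`,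
where `C` is the name `chk x` or `chkT O`: let `A := Iio a`.  By fullness (`TD.exists_name`) let `F` be a name of a function with
domain `chk a` which covers `C` with value `c ∈ lam`.  For `i : Iio a` and `y : O` let `g i y` be the truth value of
`App F (chk i) (chk y)`, and let `f i y := g i y ⊔ (if y = y₀ then (⨆ y, g i y)ᶜ else ⊥)` (`y₀` any element of `O`), so
`⨆ y, f i y = ⊤`.  By `h.cov` there are `b ≤ c`, `b ≠ ⊥` and sets `G i ⊆ O` of size `≤ θ < #(Iio l)` with
`b ≤ ⨆ y ∈ G i, f i y`.  The set `⋃ i, G i ∪ {y₀}` has size `≤ #(Iio a) * θ + 1`; it is smaller than `M`, the set of the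
`y` with `chk y ∈ C` (`M = Iio x` resp. `M = O`), so there is `y ∈ M` outside.  `b ≤ ⨆ i, g i y` because `F` covers `C` (below `c`); but
`b ⊓ g i y ≤ ⨆ y' ∈ G i, f i y' ⊓ g i y = ⊥` because `F` is a function and `y' ≠ y` (`val_chk_inj`). -/
theorem not_cov_chk (h : NCoreD O D l S T) {a x : O} (ha : a < l) (hx : l ≤ x) :
    ¬ DCT.Cov (E hl) (val hl (chk a : BSet D)) (val hl (chk x)) := by
  rw [chk_eq a]
  refine fob_not_cov h (M := Iio x) (fun v : Iio a => (chk v.1 : BSet D)) (h.l_init a ha).le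
    (fun y hy lam hl => E_chk_of hy) (fun θ hθ => ?_)
  exact (Cardinal.mul_lt_of_lt h.l_inf (h.l_init a ha) hθ).trans_le
    (Cardinal.mk_le_mk_of_subset (Iio_subset_Iio hx))

/-- PROOF.  As `not_cov_chk`, with `a := l` and `C := chkT O`: `#(Iio l) * θ = #(Iio l) < #O` (`h.big`). -/
theorem not_cov_chkT (h : NCoreD O D l S T) :
    ¬ DCT.Cov (E hl) (val hl (chk l : BSet D)) (val hl (chkT O)) := by
  rw [chk_eq l]
  refine fob_not_cov h (M := univ) (fun v : Iio l => (chk v.1 : BSet D)) le_rfl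
    (fun y _ lam hl => E_chkT y) (fun θ hθ => ?_)
  rw [Cardinal.mk_univ]
  refine lt_of_le_of_lt (mul_le_mul' le_rfl hθ.le) ?_
  rw [Cardinal.mul_eq_self h.l_inf]
  exact h.big

/-- PROOF.  `forall_chkT`; for `x : O`, `#(Iio x) ≤ #(Iio l)` (`h.seg`) gives a surjection `Iio l → Option (Iio x)` or so, use
`cov_surj` (see the proof of `cov_K` and the use of `cov_surj` in `TreeX.lean`) and `chk_eq`. -/
theorem cov_elem (h : NCoreD O D l S T) :
    ∀ x, E hl x (val hl (chkT O)) → DCT.Cov (E hl) (val hl (chk l : BSet D)) x := by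
  classical
  refine forall_chkT (P := fun lam hl x => HESR.Cov (E hl) (val hl (chk l)) x)
    (TD.cov1 (Tm.const _) (Tm.var 0)) (a := ⊤) ?_ hl.top
  intro x lam hl _
  obtain ⟨φ⟩ := h.seg x
  rw [chk_eq l, chk_eq x]
  refine cov_surj (j := fun v : Iio l => (chk v.1 : BSet D))
    (fun i i' hii => beq_chk_ne fun h' => hii (Subtype.ext h'))
    (fun i => if hi : ∃ y, φ y = i then some hi.choose else none) ?_ hl
  intro y
  refine ⟨φ y, ?_⟩
  have hy : ∃ z, φ z = φ y := ⟨y, rfl⟩
  rw [dif_pos hy]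
  exact congrArg some (φ.injective hy.choose_spec)

/-- PROOF.  `l_inf` gives `a : ℕ → Iio l` strictly increasing (the first `ω` elements of `Iio l`: for every `n` the `n`-th
element exists, as `Iio l` is an infinite well-order).  By induction on `n`: `Sub (natB n) (chk x)` for all `x` which are not among
the first `n` elements; more precisely `natB n` is (in the quotient) the `n`-th element `chk (a n)`, as both are the
ordinals with exactly the elements `natB 0, …, natB (n-1)` (extensionality, `isSucc_natB`, `isSucc_chk`, `isEmp_chk`).  So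
`natB n = chk (a n) ∈ chk l` for all `n`, and `forall_omB` gives `Sub omB (chk l)`. -/
theorem sub_omB (h : NCoreD O D l S T) : Sub (E hl) (val hl (omB : BSet D)) (val hl (chk l)) := by
  have key : ∀ n : ℕ, ∃ a : O, a < l ∧ (Iio a).Finite ∧
      ∀ (lam : D → Prop) (hl : IsUF lam), val hl (natB n : BSet D) = val hl (chk a) := by
    have hinf : ¬ (Iio l).Finite := by
      intro hf
      exact absurd (Cardinal.lt_aleph0_iff_set_finite.2 hf) (not_lt.2 h.l_inf)
    intro n
    induction n with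
    | zero =>
      have hne : (univ : Set O).Nonempty := ⟨l, mem_univ _⟩
      obtain ⟨a, ha⟩ : ∃ a : O, a = (wellFounded_lt (α := O)).min univ hne := ⟨_, rfl⟩
      have hmin : ∀ x, ¬ x < a := by
        intro x
        rw [ha]
        exact WellFounded.not_lt_min _ univ (mem_univ x)
      have hIio : Iio a = ∅ := by
        ext x
        simp [hmin x]
      have hal : a < l := by
        refine lt_of_le_of_ne (not_lt.1 (hmin l)) ?_
        rintro rfl
        rw [hIio] at hinf
        exact hinf finite_empty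
      refine ⟨a, hal, by rw [hIio]; exact finite_empty, fun lam hl => ?_⟩
      refine (zfc hl).ext _ _ fun x => ?_
      exact iff_of_false (isEmp_natB x) (isEmp_chk hmin x)
    | succ n ih =>
      obtain ⟨a, hal, hfin, hval⟩ := ih
      have hne : (Ioi a).Nonempty := ⟨l, hal⟩
      obtain ⟨b, hb⟩ : ∃ b : O, b = (wellFounded_lt (α := O)).min (Ioi a) hne := ⟨_, rfl⟩
      have hab : a < b := by
        rw [hb]
        exact WellFounded.min_mem _ (Ioi a) hne
      have hmin : ∀ x, a < x → b ≤ x := by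
        intro x hx
        rw [hb]
        exact not_lt.1 (WellFounded.not_lt_min _ (Ioi a) hx)
      have hiff : ∀ x, x < b ↔ x ≤ a := by
        intro x
        constructor
        · intro hx
          by_contra hcon
          exact absurd (hmin x (not_le.1 hcon)) (not_le.2 hx)
        · intro hx
          exact lt_of_le_of_lt hx hab
      have hIio : Iio b = insert a (Iio a) := by
        ext x
        rw [mem_Iio, hiff, mem_insert_iff, mem_Iio]
        exact le_iff_eq_or_lt
      have hbf : (Iio b).Finite := by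
        rw [hIio]
        exact hfin.insert a
      have hbl : b < l := by
        refine lt_of_le_of_ne (hmin l hal) ?_
        rintro rfl
        exact hinf hbf
      refine ⟨b, hbl, hbf, fun lam hl => ?_⟩
      refine (zfc hl).ext _ _ fun x => ?_
      rw [isSucc_natB n x, isSucc_chk hiff x, hval lam hl]
  refine forall_omB (P := fun lam hl z => E hl z (val hl (chk l)))
    (TD.mem (Tm.var 0) (Tm.const _)) (a := ⊤) ?_ hl.top
  intro n lam hl _
  obtain ⟨a, hal, -, hval⟩ := key n
  rw [hval lam hl]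
  exact E_chk_of hal

/-- PROOF.  `IsCard`: `isOrd_chk`; an element `β` of `chk l` is handled by `forall_chk`: `β = chk a`, `a < l`, and `not_cov_chk`
with `x := l`.  `isOmega_omB`, `sub_omB`. -/
theorem isInfCard_l (h : NCoreD O D l S T) : IsInfCard (E hl) (val hl (chk l : BSet D)) := by
  refine ⟨⟨isOrd_chk l, ?_⟩, _, isOmega_omB, sub_omB h⟩
  have h1 : ∀ β, E hl β (val hl (chk l)) → ¬ HESR.Cov (E hl) β (val hl (chk l)) := by
    refine forall_chk (P := fun lam hl β => ¬ HESR.Cov (E hl) β (val hl (chk l)))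
      (TD.not (TD.cov1 (Tm.var 0) (Tm.const _))) (a := ⊤) ?_ hl.top
    intro v hv lam hl _
    exact not_cov_chk h hv le_rfl
  intro β f hβ hf hcov
  exact h1 β hβ ⟨f, hf, hcov⟩

/-- PROOF.  `isOrd_chkT`, `not_cov_chkT`, `cov_elem`. -/
theorem isSuccCard_l (h : NCoreD O D l S T) :
    IsSuccCard (E hl) (val hl (chk l : BSet D)) (val hl (chkT O)) := by
  exact ⟨isOrd_chkT, not_cov_chkT h, cov_elem h⟩

end CG
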