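import Pool.Agent.W_MP_7dc84e_h31.FoA

/-!
# MP_7dc84e_lc : cofinalities in the model
-/

set_option autoImplicit false
set_option linter.unusedSectionVars false

universe u

open Cardinal Set HESR IM.BSet BVM CGM
open IM (BSet)

namespace CG

variable {O : Type u} [LinearOrder O] [WellFoundedLT O] {D : Type u} [CompleteBooleanAlgebra D]
variable {l : O} {S T : O → D} {lam : D → Prop} {hl : IsUF lam}

/-- No cofinal function from a natural number to a limit ordinal, in a model. -/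
theorem FoC_nat {M : Type u} {E : M → M → Prop} (hZ : IsZFC E) {a : M} (ha : IsOrd E a)
    (h0 : ∃ x, E x a) (hlim : ∀ x, E x a → ∃ y, E y a ∧ E x y) (n : ℕ) :
    ∀ b, IsNum E n b → ¬ ∃ f, IsCofMap E f b a := by
  induction n with
  | zero =>
    rintro b hb ⟨f, hf, hcf⟩
    obtain ⟨x, hx⟩ := h0
    obtain ⟨y, z, hyz, -⟩ := hcf x hx
    exact hb y (hf.1.dom hZ hyz)
  | succ n ih =>
    rintro b ⟨y, hy, hs⟩ ⟨f, hf, hcf⟩
    have hyb : E y b := (hs y).2 (Or.inr rfl)
    have hsub : Sub E y b := fun z hz => (hs z).2 (Or.inl hz)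
    obtain ⟨g, hg, hgf⟩ := IsZFC.exRestr hZ hf.1 hsub
    have hgm : Maps E g y a := ⟨hg, fun u z huz => hf.2 u z ((hgf u (hg.dom hZ huz) z).1 huz)⟩
    have hnc : ¬ ∀ x, E x a → ∃ u z, App E g u z ∧ Sub E x z :=
      fun h => ih y hy ⟨g, hgm, h⟩
    push Not at hnc
    obtain ⟨x0, hx0, hx0'⟩ := hnc
    obtain ⟨z0, hz0⟩ := hf.1.ex hyb
    have hz0a : E z0 a := hf.2 y z0 hz0
    obtain ⟨m, hma, hxm, hzm⟩ : ∃ m, E m a ∧ E x0 m ∧ E z0 m := by
      rcases IsOrd.tri hZ (ha.mem hx0) (ha.mem hz0a) with h | h | h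
      · obtain ⟨m, hm, hm'⟩ := hlim z0 hz0a
        exact ⟨m, hm, (ha.mem hm).1 z0 hm' x0 h, hm'⟩
      · obtain ⟨m, hm, hm'⟩ := hlim z0 hz0a
        exact ⟨m, hm, h ▸ hm', hm'⟩
      · obtain ⟨m, hm, hm'⟩ := hlim x0 hx0
        exact ⟨m, hm, hm', (ha.mem hm).1 x0 hm' z0 h⟩
    obtain ⟨u, z, huz, hmz⟩ := hcf m hma
    rcases (hs u).1 (hf.1.dom hZ huz) with hu | hu
    · refine hx0' u z ((hgf u hu z).2 huz) ?_
      exact (ha.mem (hf.2 u z huz)).1 x0 (hmz x0 hxm)
    · rw [hu] at huz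
      have hzz : z = z0 := hf.1.val hZ huz hz0
      rw [hzz] at hmz
      exact IsZFC.irrefl hZ z0 (hmz z0 hzm)

/-- No cofinal function from a natural number to a limit ordinal.

PROOF.  Let `x : O` be a limit point.  Show by induction on `n : ℕ` that for all `lam`, `hl` there is no cofinal function `f`
from `natB n` to `chk x` (for all `f : X hl`; this is a statement in the model `X hl` of ZFC, `zfc hl`).  In the model `chk x` is an
ordinal which has an element and for every element a larger element (`forall_chk`: for `y < x` there is `z` with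
`y < z < x`).  `n = 0`: `natB 0` is empty, but `chk x` has an element.  `n + 1`: let `f` be a cofinal function from
`natB (n + 1) = natB n ∪ {natB n}`; by the induction hypothesis the restriction `f'` of `f` to `natB n` is not cofinal: there is
`y ∈ chk x` with `¬ Sub y (f' i)` for all `i ∈ natB n`.  Let `z := f (natB n)` and let `m` be the larger one of the ordinals `y`, `z`, and
`m' ∈ chk x` with `m ∈ m'`.  `Sub m' (f i)` fails for all `i`: for `i ∈ natB n`, `Sub m' (f i)` would imply `Sub y (f i)`; for `i = natB n`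
it would imply `m' ⊆ z ⊆ m`, so `m ∈ m`.  Contradiction to the cofinality of `f` at `m'`. -/
theorem not_cofMap_nat {x : O} (hx : IsLimPt x) (n : ℕ) :
    ¬ ∃ f, IsCofMap (E hl) f (val hl (natB n : BSet D)) (val hl (chk x)) := by
  refine FoC_nat (zfc hl) (isOrd_chk x) ?_ ?_ n _ (isNum_natB n)
  · obtain ⟨y, hy⟩ := hx.1
    exact ⟨_, E_chk_of hy⟩
  · refine forall_chk (P := fun lam hl z => ∃ y, E hl y (val hl (chk x)) ∧ E hl z y) ?_ (a := ⊤)
      ?_ hl.top
    · refine TD.ex (P := fun lam hl y v => E hl y (val hl (chk x)) ∧ E hl (v 0) y) ?_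
      exact (TD.mem (Tm.var 0) (Tm.const _)).and (TD.mem (Tm.var 1) (Tm.var 0))
    · intro v hv lam hl _
      obtain ⟨z, hz, hz'⟩ := hx.2 v hv
      exact ⟨_, E_chk_of hz', E_chk_of hz⟩

theorem FoC_lim {x : O} (hx : CofOm x) : IsLimPt x := by
  obtain ⟨f, hf, hf'⟩ := hx
  refine ⟨⟨f 0, hf 0⟩, fun y hy => ?_⟩
  obtain ⟨n, hn⟩ := hf' y hy
  exact ⟨f n, hn, hf n⟩

theorem FoC_td (x : BSet D) :
    TD1 (D := D) fun lam hl z => ¬ ∃ f, IsCofMap (E hl) f z (val hl x) := by
  refine TD.not ?_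
  refine TD.ex (P := fun lam hl f v => IsCofMap (E hl) f (v 0) (val hl x)) ?_
  exact TD.isCofMap (Tm.var 0) (Tm.var 1) (Tm.const _)

/-- PROOF.  `CofOm x` gives `f : ℕ → O` with values below `x`.  The name `F := nm fun n : ULift ℕ => prB (natB n) (chk (f n))` is
(for all `lam`) a function from `omB` to `chk x`, which is cofinal: for `y < x`, `y < f n` for some `n`, so
`Sub (chk y) (chk (f n))`.  An element `c` of `omB` is handled by `forall_omB` and `not_cofMap_nat`.  `isOrd`: `omB` is an ordinal by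
`isOmega_omB`. -/
theorem isCf_om {x : O} (hx : CofOm x) :
    IsCf (E hl) (val hl (chk x : BSet D)) (val hl omB) := by
  have hlim := FoC_lim hx
  obtain ⟨f, hf, hf'⟩ := hx
  refine ⟨isOmega_omB.1, ⟨val hl (fnB (fun n : ULift.{u} ℕ => natB n.down)
    fun n => chk (f n.down)), ⟨?_, ?_⟩, ?_⟩, ?_⟩
  · refine isFun_fnB ?_
    rintro ⟨i⟩ ⟨j⟩
    show beq (natB i) (natB j) ≤ beq (chk (f i)) (chk (f j))
    by_cases hij : i = j
    · subst hij
      rw [IM.BSet.beq_refl, IM.BSet.beq_refl]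
    · rw [beq_natB_ne hij]
      exact bot_le
  · refine forall_app_relB (P := fun lam hl _ y => E hl y (val hl (chk x))) ?_ (a := ⊤) ?_ hl.top
    · exact TD.mem (Tm.var 1) (Tm.const _)
    · rintro ⟨i⟩ lam hl _ _
      exact E_chk_of (hf i)
  · refine forall_chk (P := fun lam hl z => ∃ y w, App (E hl) (val hl
      (fnB (fun n : ULift.{u} ℕ => natB n.down) fun n => chk (f n.down))) y w ∧ Sub (E hl) z w)
      ?_ (a := ⊤) ?_ hl.top
    · refine TD.ex (P := fun lam hl y v => ∃ w, App (E hl) (val hl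
        (fnB (fun n : ULift.{u} ℕ => natB n.down) fun n => chk (f n.down))) y w ∧
          Sub (E hl) (v 0) w) ?_
      refine TD.ex (P := fun lam hl w v => App (E hl) (val hl
        (fnB (fun n : ULift.{u} ℕ => natB n.down) fun n => chk (f n.down))) (v 0) w ∧
          Sub (E hl) (v 1) w) ?_
      exact (TD.app (Tm.const _) (Tm.var 1) (Tm.var 0)).and (TD.sub (Tm.var 2) (Tm.var 0))
    · intro v hv lam hl _
      obtain ⟨n, hn⟩ := hf' v hv
      exact ⟨_, _, app_fnB_of (f := fun n : ULift.{u} ℕ => natB n.down)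
        (g := fun n => chk (f n.down)) ⟨n⟩, isTr_chk (f n) _ (E_chk_of hn)⟩
  · exact forall_omB (FoC_td (chk x)) (a := ⊤)
      (fun n lam hl _ => not_cofMap_nat hlim n) hl.top

/-- No cofinal function from `ω` to `β`.

PROOF.  Suppose there is one for some `lam`; by fullness (`TD.exists_name`) let `F` be a name of such a function with truth value
`c ∈ lam`.  For `n : ℕ`, `y : O` let `g n y := if y < β then [[App F (natB n) (chk y)]] else ⊥`, and
`f n y := g n y ⊔ (if y = β then (⨆ y, g n y)ᶜ else ⊥)`.  By `h.wd` there are `b ≤ c`, `b ≠ ⊥` and `G : ℕ → O` with `b ≤ f n (G n)`.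
`b ≤ c ≤ ⨆ y, g n y` for all `n` (`F` maps `omB` to `chk β`), so `G n < β` (if `G n = β`, then `b ≤ (⨆ y, g n y)ᶜ`, `b = ⊥`) and
`b ≤ g n (G n)`.  As `¬ CofOm β`, there is `y < β` such that `¬ y < G n` for all `n`; as `β` is a limit point let `y < y' < β`.  In a
quotient by `lam' ∋ b` (`exists_isUF`), `F` is cofinal, so there is `i ∈ omB` with `Sub (chk y') (F i)`; by `exists_omB_iff` (or
`forall_omB` for the negation) we may take `i = natB n`, `F i = chk (G n)`, `G n ≤ y < y'`; but `Sub (chk y') (chk (G n))` implies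
`chk y ∈ chk (G n)`, `y < G n`.  Contradiction. -/
theorem not_cofMap_om (h : NCoreD O D l S T) {β : O} (hβ : IsLimPt β) (hc : ¬ CofOm β) :
    ¬ ∃ f, IsCofMap (E hl) f (val hl (omB : BSet D)) (val hl (chk β)) := by
  classical
  rintro ⟨f0, hf0⟩
  have hP : TD1 (D := D) fun lam hl z =>
      IsCofMap (E hl) z (val hl (omB : BSet D)) (val hl (chk β)) :=
    TD.isCofMap (Tm.var 0) (Tm.const _) (Tm.const _)
  obtain ⟨F, hF⟩ := TD.exists_name hP
  have hlc : lam (TD.b1 hP F) := (TD.b1_iff hP).1 (hF lam hl f0 hf0)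
  have hcF : ∀ (lam : D → Prop) (hl : IsUF lam), lam (TD.b1 hP F) →
      IsCofMap (E hl) (val hl F) (val hl (omB : BSet D)) (val hl (chk β)) :=
    fun lam hl hlam => (TD.b1_iff hP).2 hlam
  have hcne : TD.b1 hP F ≠ ⊥ := fun h => hl.bot (h ▸ hlc)
  have hQ : ∀ n : ℕ, TD1 (D := D) fun lam hl z => App (E hl) (val hl F) (val hl (natB n)) z :=
    fun n => TD.app (Tm.const _) (Tm.const _) (Tm.var 0)
  obtain ⟨g, hg⟩ : ∃ g : ℕ → O → D, ∀ n y, g n y = if y < β then TD.b1 (hQ n) (chk y) else ⊥ :=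
    ⟨_, fun _ _ => rfl⟩
  have hcg : ∀ n, TD.b1 hP F ≤ ⨆ y, g n y := by
    intro n
    refine le_iff_ultra.2 fun lam hl hlam => ?_
    obtain ⟨hM, -⟩ := hcF lam hl hlam
    obtain ⟨z, hz⟩ := hM.1.ex (E_omB n)
    have h1 := (exists_chk_iff (hQ n)).1 ⟨z, hM.2 _ z hz, hz⟩
    refine hl.mono (iSup_le fun v => ?_) h1
    refine le_trans ?_ (le_iSup (g n) v.1)
    rw [hg, if_pos (show v.1 < β from v.2)]
  obtain ⟨b, hb, hbc, G, hG⟩ := h.wd
    (fun n y => g n y ⊔ (if y = β then (⨆ y, g n y)ᶜ else ⊥)) (by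
      intro n
      refine top_le_iff.1 ?_
      rw [← sup_compl_eq_top (x := ⨆ y, g n y)]
      refine sup_le (iSup_mono fun y => le_sup_left) ?_
      refine le_trans ?_ (le_iSup _ β)
      rw [if_pos rfl]
      exact le_sup_right) (TD.b1 hP F) hcne
  have hG1 : ∀ n, G n < β := by
    intro n
    by_contra hn
    apply hb
    have h1 := hG n
    rw [hg, if_neg hn, bot_sup_eq] at h1
    have h2 : b ≤ (⨆ y, g n y)ᶜ := by
      refine h1.trans ?_
      split_ifs
      · exact le_rfl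
      · exact bot_le
    refine le_bot_iff.1 ?_
    rw [← inf_compl_eq_bot (a := ⨆ y, g n y)]
    exact le_inf (hbc.trans (hcg n)) h2
  have hG2 : ∀ n, b ≤ TD.b1 (hQ n) (chk (G n)) := by
    intro n
    have h1 := hG n
    rw [if_neg (hG1 n).ne, sup_bot_eq, hg, if_pos (hG1 n)] at h1
    exact h1
  obtain ⟨y, hy, hyG⟩ : ∃ y, y < β ∧ ∀ n, ¬ y < G n := by
    by_contra hcon
    push Not at hcon
    exact hc ⟨G, hG1, hcon⟩
  obtain ⟨y', hyy', hy'⟩ := hβ.2 y hy
  obtain ⟨lam', hl', hb'⟩ := exists_isUF hb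
  have hcof := hcF lam' hl' (hl'.mono hbc hb')
  obtain ⟨i, z, hiz, hsub⟩ := hcof.2 _ (E_chk_of hy')
  have hi := hcof.1.1.dom (zfc hl') hiz
  have key : ∀ i, E hl' i (val hl' omB) → ∀ z, App (E hl') (val hl' F) i z →
      ¬ Sub (E hl') (val hl' (chk y')) z := by
    refine forall_omB (P := fun lam hl i => ∀ z, App (E hl) (val hl F) i z →
      ¬ Sub (E hl) (val hl (chk y')) z) ?_ (a := b) ?_ hb'
    · refine TD.all (P := fun lam hl z v => App (E hl) (val hl F) (v 0) z →
        ¬ Sub (E hl) (val hl (chk y')) z) ?_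
      exact (TD.app (Tm.const _) (Tm.var 1) (Tm.var 0)).imp
        (TD.not (TD.sub (Tm.const _) (Tm.var 0)))
    · intro n lam hl hlam z hz hsub
      have h1 : App (E hl) (val hl F) (val hl (natB n)) (val hl (chk (G n))) :=
        (TD.b1_iff (hQ n)).2 (hl.mono (hG2 n) hlam)
      have h2 := (hcF lam hl (hl.mono hbc hlam)).1.1.val (zfc hl) hz h1
      rw [h2] at hsub
      exact hyG n (E_chk.1 (hsub _ (E_chk_of hyy')))
  exact key i hi z hiz hsub

/-- Every ordinal of the model has a cofinality.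

PROOF.  In a model of ZFC (`hZ`): the identity function is a cofinal function from `a` to `a`, so the class of the ordinals `b` with a
cofinal function from `b` to `a` has an element `≤ a`; take the least one (foundation/separation: e.g. the `E`-minimal element of
the set of all `b ∈ a ∪ {a}` with this property; see the lemmas on ordinals in `W_MP_83aea7_lc/Ord.lean`). -/
theorem exists_isCf {M : Type u} {E : M → M → Prop} (hZ : IsZFC E) {a : M} (ha : IsOrd E a) :
    ∃ b, IsCf E a b := by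
  have hD : Def1 E fun b => ∃ f, IsCofMap E f b a := by
    refine Def.ex (R := fun f v => IsCofMap E f (v 0) a) ?_
    exact Def.fo3 (R := fun _ E x y z => IsCofMap E x y z) (IsCofMap.fo 0 1 2) (DefFun.var 0)
      (DefFun.var 1) (DefFun.const a)
  obtain ⟨f, hf, hf'⟩ := IsZFC.exId hZ a
  have hid : ∃ f, IsCofMap E f a a := by
    refine ⟨f, ⟨hf, fun x y hxy => ?_⟩, fun x hx => ⟨x, x, (hf' x hx x).2 rfl, fun _ h => h⟩⟩
    have hx := hf.dom hZ hxy
    rw [(hf' x hx y).1 hxy]
    exact hx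
  obtain ⟨b, hb, hb1, hb2⟩ := IsOrd.least hZ hD ha hid
  exact ⟨b, hb, hb1, hb2⟩

/-- PROOF.  Let `μ` be the cofinality of `chk β` (`exists_isCf`, `isOrd_chk`).  Both `μ` and `omB` are ordinals, so
`μ ∈ omB`, `μ = omB` or `omB ∈ μ`.  The first case is excluded by `not_cofMap_nat` (via `forall_omB`), the second one by
`not_cofMap_om`. -/
theorem cf_unc (h : NCoreD O D l S T) {β : O} (hβ : IsLimPt β) (hc : ¬ CofOm β) :
    ∃ w μ, IsOmega (E hl) w ∧ IsCf (E hl) (val hl (chk β : BSet D)) μ ∧ E hl w μ := by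
  obtain ⟨μ, hμ⟩ := exists_isCf (zfc hl) (isOrd_chk (hl := hl) β)
  refine ⟨val hl omB, μ, isOmega_omB, hμ, ?_⟩
  rcases IsOrd.tri (zfc hl) hμ.1 (isOmega_omB (hl := hl)).1 with h1 | h1 | h1
  · exact absurd hμ.2.1 (forall_omB (FoC_td (chk β)) (a := ⊤)
      (fun n lam hl _ => not_cofMap_nat hβ n) hl.top μ h1)
  · exact absurd (h1 ▸ hμ.2.1) (not_cofMap_om h hβ hc)
  · exact h1

end CG
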