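import Pool.Agent.W_MP_7dc84e_h31.Bas

/-!
# MP_7dc84e_lc : limits of directed families of conditions
-/

set_option autoImplicit false
set_option linter.unusedSectionVars false

universe u

open Cardinal Set

namespace CG

variable {O J Bt Th : Type u} [LinearOrder O] [LinearOrder J] [CompleteBooleanAlgebra Bt]
variable {ι : Type*} {lam : Cardinal.{u}} {p : ι → Raw O J Bt} {s : O} {vS vT : Bt}

/-! ### Values of the limit -/

theorem limR_S_eq (vS vT : Bt) (p : ι → Raw O J Bt) (s : O) :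
    (limR p s vS vT).S s = (⨆ a, (p a).S s) ⊔ vS := by
  simp [limR]

theorem limR_S_ne (vS vT : Bt) (p : ι → Raw O J Bt) {s x : O} (h : x ≠ s) :
    (limR p s vS vT).S x = ⨆ a, (p a).S x := by
  simp [limR, h]

theorem limR_T_eq (vS vT : Bt) (p : ι → Raw O J Bt) (s : O) :
    (limR p s vS vT).T s = (⨆ a, (p a).T s) ⊔ vT := by
  simp [limR]

theorem limR_T_ne (vS vT : Bt) (p : ι → Raw O J Bt) {s x : O} (h : x ≠ s) :
    (limR p s vS vT).T x = ⨆ a, (p a).T x := by
  simp [limR, h]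

theorem limR_d_top (vS vT : Bt) (p : ι → Raw O J Bt) {s : O} {j : J} (h : ∃ a, j ∈ (p a).W) :
    (limR p s vS vT).d j s = ⊤ := by
  simp only [limR]
  rw [if_pos ⟨h, rfl⟩, sup_top_eq]

theorem limR_d_ne (vS vT : Bt) (p : ι → Raw O J Bt) {s x : O} {j : J} (h : x ≠ s) :
    (limR p s vS vT).d j x = ⨆ a, (p a).d j x := by
  simp only [limR]
  rw [if_neg (fun h' => h h'.2), sup_bot_eq]

theorem limR_d_not (hp : ∀ a, Basic lam (p a)) {j : J} (h : ∀ a, j ∉ (p a).W) (x : O) :
    (limR p s vS vT).d j x = ⊥ := by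
  simp only [limR]
  rw [if_neg (fun h' => h'.1.elim h), sup_bot_eq, iSup_eq_bot]
  exact fun a => (hp a).d_out j (h a) x

theorem lim_supS (hp : ∀ a, Basic lam (p a)) (hd : Dirx p) {a : ι} {x : O}
    (hx : x ≤ (p a).h) : (⨆ e, (p e).S x) = (p a).S x := by
  refine le_antisymm (iSup_le fun e => ?_) (le_iSup (fun e => (p e).S x) a)
  obtain ⟨e', he1, he2⟩ := hd.2 a e
  by_cases hxe : x ≤ (p e).h
  · rw [← he2.S_eq hxe, he1.S_eq hx]
  · rw [(hp e).S_hi x (not_le.1 hxe)]
    exact bot_le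

theorem lim_supT (hp : ∀ a, Basic lam (p a)) (hd : Dirx p) {a : ι} {x : O}
    (hx : x ≤ (p a).h) : (⨆ e, (p e).T x) = (p a).T x := by
  refine le_antisymm (iSup_le fun e => ?_) (le_iSup (fun e => (p e).T x) a)
  obtain ⟨e', he1, he2⟩ := hd.2 a e
  by_cases hxe : x ≤ (p e).h
  · rw [← he2.T_eq hxe, he1.T_eq hx]
  · rw [(hp e).T_hi x (not_le.1 hxe)]
    exact bot_le

theorem lim_supd (hp : ∀ a, Basic lam (p a)) (hd : Dirx p) {a : ι} {j : J}
    (hj : j ∈ (p a).W) {x : O} (hx : x ≤ (p a).h) : (⨆ e, (p e).d j x) = (p a).d j x := by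
  refine le_antisymm (iSup_le fun e => ?_) (le_iSup (fun e => (p e).d j x) a)
  obtain ⟨e', he1, he2⟩ := hd.2 a e
  by_cases hje : j ∈ (p e).W
  · by_cases hxe : x ≤ (p e).h
    · rw [← he2.d_eq hje hxe, he1.d_eq hj hx]
    · rw [(hp e).d_hi j x (not_le.1 hxe)]
      exact bot_le
  · rw [(hp e).d_out j hje]
    exact bot_le

/-- The values of `S` below the heights.

PROOF.  `(limR p s vS vT).S x = (⨆ e, (p e).S x) ⊔ (if x = s then vS else ⊥)`.  For every `e` take `e'` with
`Ext ⊤ (p e') (p a)`, `Ext ⊤ (p e') (p e)`; if `x ≤ (p e).h`, then `(p e).S x = (p e').S x = (p a).S x`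
(`Ext.S_eq`), otherwise `(p e).S x = ⊥` (`Basic.S_hi`).  So `⨆ e, (p e).S x = (p a).S x`.  The second term is `⊥`: if
`x = s`, then `s ≤ (p a).h`, hence `(p a).h = s` is not `< s`, so `vS = ⊥` by `LimOk`. -/
theorem lim_S (hp : ∀ a, Basic lam (p a)) (hd : Dirx p) (hok : LimOk p s vS vT) {a : ι} {x : O}
    (hx : x ≤ (p a).h) : (limR p s vS vT).S x = (p a).S x := by
  by_cases h : x = s
  · subst h
    rw [limR_S_eq, lim_supS hp hd hx]
    rcases hok.2 with h2 | h2
    · rw [h2.1, sup_bot_eq]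
    · exact absurd (h2 a) (not_lt.2 hx)
  · rw [limR_S_ne _ _ _ h, lim_supS hp hd hx]

/-- The values of `T` below the heights.  PROOF: as for `lim_S`. -/
theorem lim_T (hp : ∀ a, Basic lam (p a)) (hd : Dirx p) (hok : LimOk p s vS vT) {a : ι} {x : O}
    (hx : x ≤ (p a).h) : (limR p s vS vT).T x = (p a).T x := by
  by_cases h : x = s
  · subst h
    rw [limR_T_eq, lim_supT hp hd hx]
    rcases hok.2 with h2 | h2
    · rw [h2.2, sup_bot_eq]
    · exact absurd (h2 a) (not_lt.2 hx)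
  · rw [limR_T_ne _ _ _ h, lim_supT hp hd hx]

/-- The values of `d j` below the heights.

PROOF.  `(limR p s vS vT).d j x = (⨆ e, (p e).d j x) ⊔ (if (∃ a, j ∈ (p a).W) ∧ x = s then ⊤ else ⊥)`.  For every
`e` with `j ∈ (p e).W` and `x ≤ (p e).h` we have `(p e).d j x = (p a).d j x` by a common extension (`Ext.d_eq`); for
`j ∉ (p e).W` use `Basic.d_out`, for `(p e).h < x` use `Basic.d_hi`: the value is `⊥`.  If `x = s`, then
`(p a).h = s = x` and `(p a).d j x = ⊤` by `Basic.d_top`, so both sides are `⊤`. -/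
theorem lim_d (hp : ∀ a, Basic lam (p a)) (hd : Dirx p) (hs : ∀ a, (p a).h ≤ s) {a : ι} {j : J}
    (hj : j ∈ (p a).W) {x : O} (hx : x ≤ (p a).h) : (limR p s vS vT).d j x = (p a).d j x := by
  by_cases h : x = s
  · subst h
    rw [limR_d_top _ _ _ ⟨a, hj⟩]
    have h2 : (p a).h = x := le_antisymm (hs a) hx
    have h3 := (hp a).d_top j hj
    rw [h2] at h3
    exact h3.symm
  · rw [limR_d_ne _ _ _ h, lim_supd hp hd hj hx]

/-- The limit extends the conditions.  PROOF: `lim_S`, `lim_T`, `lim_d`; the support is `⋃ a, (p a).W`. -/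
theorem ext_lim (hp : ∀ a, Basic lam (p a)) (hd : Dirx p) (hok : LimOk p s vS vT) (a : ι) :
    Ext ⊤ (limR p s vS vT) (p a) := by
  refine ⟨hok.1 a, fun j hj => mem_iUnion.2 ⟨a, hj⟩, fun x hx => ?_, fun x hx => ?_,
    fun j hj x hx => ?_⟩
  · rw [lim_S hp hd hok hx]
  · rw [lim_T hp hd hok hx]
  · rw [lim_d hp hd hok.1 hj hx]

/-- The limit satisfies `Basic`.

PROOF.  `S_hi`, `T_hi`, `d_hi`, `d_out`, `d_top`, `W_small`: immediate from the definition of `limR` and the facts for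
the `p a` (heights `≤ s`).  `S_cof`: if `S x ≠ ⊥`, then `(p a).S x ≠ ⊥` for some `a`, or `x = s` and `vS ≠ ⊥`;
similarly `T_lim`.  `d_cl`: let `x` be a limit point and `j` given.  If `j ∉ ⋃ a, (p a).W`, then all values
`d j z` are `⊥` and `Iio x` is nonempty, so the left side is `⊥`.  Let `j ∈ ⋃ a, (p a).W`.  If `x = s`, then
`d j s = ⊤`.  If `s < x`, use `y = s ∈ Iio x` in the infimum: all `d j z`, `s < z`, are `⊥`.  If `x < s`, then `x` is
not an upper bound of the heights, so `x < (p a).h` for some `a`, and by directedness we may assume `j ∈ (p a).W`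
(`Ext` increases heights and supports); for all `z ≤ x` we have `(limR ..).d j z = (p a).d j z` by `lim_d`, so the
claim follows from `d_cl` for `p a`. -/
theorem basic_lim (hp : ∀ a, Basic lam (p a)) (hd : Dirx p)
    (hW : #(⋃ a, (p a).W : Set J) ≤ lam) (hs : IsLUB (range fun a => (p a).h) s)
    (hS : vS ≠ ⊥ → CofOm s) (hT : vT ≠ ⊥ → IsLimPt s) : Basic lam (limR p s vS vT) := by
  have hle : ∀ a, (p a).h ≤ s := fun a => hs.1 ⟨a, rfl⟩
  refine ⟨?_, ?_, ?_, ?_, hW, ?_, ?_, ?_, ?_⟩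
  · intro x hx
    have hx' : s < x := hx
    rw [limR_S_ne _ _ _ hx'.ne', iSup_eq_bot]
    exact fun a => (hp a).S_hi x ((hle a).trans_lt hx')
  · intro x hx
    have key : (∀ a, (p a).S x = ⊥) → x = s ∧ vS ≠ ⊥ := by
      intro h0
      by_cases h : x = s
      · subst h
        refine ⟨rfl, fun hv => hx ?_⟩
        rw [limR_S_eq, hv, sup_bot_eq, iSup_eq_bot]
        exact h0
      · exfalso
        apply hx
        rw [limR_S_ne _ _ _ h, iSup_eq_bot]
        exact h0
    by_cases h0 : ∀ a, (p a).S x = ⊥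
    · obtain ⟨rfl, hv⟩ := key h0
      exact hS hv
    · push Not at h0
      obtain ⟨a, ha⟩ := h0
      exact (hp a).S_cof x ha
  · intro x hx
    have hx' : s < x := hx
    rw [limR_T_ne _ _ _ hx'.ne', iSup_eq_bot]
    exact fun a => (hp a).T_hi x ((hle a).trans_lt hx')
  · intro x hx
    have key : (∀ a, (p a).T x = ⊥) → x = s ∧ vT ≠ ⊥ := by
      intro h0
      by_cases h : x = s
      · subst h
        refine ⟨rfl, fun hv => hx ?_⟩
        rw [limR_T_eq, hv, sup_bot_eq, iSup_eq_bot]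
        exact h0
      · exfalso
        apply hx
        rw [limR_T_ne _ _ _ h, iSup_eq_bot]
        exact h0
    by_cases h0 : ∀ a, (p a).T x = ⊥
    · obtain ⟨rfl, hv⟩ := key h0
      exact hT hv
    · push Not at h0
      obtain ⟨a, ha⟩ := h0
      exact (hp a).T_lim x ha
  · intro j hj x
    exact limR_d_not hp (fun a ha => hj (mem_iUnion.2 ⟨a, ha⟩)) x
  · intro j x hx
    have hx' : s < x := hx
    rw [limR_d_ne _ _ _ hx'.ne', iSup_eq_bot]
    exact fun a => (hp a).d_hi j x ((hle a).trans_lt hx')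
  · intro j hj
    exact limR_d_top _ _ _ (mem_iUnion.1 hj)
  · intro j x hx
    by_cases hj : ∃ a, j ∈ (p a).W
    · rcases lt_trichotomy x s with h | h | h
      · -- `x < s`
        have h1 : ∃ a, x < (p a).h := by
          by_contra hcon
          push Not at hcon
          exact absurd (hs.2 (by rintro _ ⟨a, rfl⟩; exact hcon a)) (not_le.2 h)
        obtain ⟨a, ha⟩ := h1
        obtain ⟨a', ha'⟩ := hj
        obtain ⟨e, he1, he2⟩ := hd.2 a a'
        have hxe : x < (p e).h := ha.trans_le he1.h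
        have hje : j ∈ (p e).W := he2.W ha'
        rw [lim_d hp hd hle hje hxe.le]
        refine le_trans (le_of_eq ?_) ((hp e).d_cl j x hx)
        refine iInf_congr fun y => iSup_congr fun z => ?_
        exact lim_d hp hd hle hje (z.2.2.le.trans hxe.le)
      · subst h
        rw [limR_d_top _ _ _ hj]
        exact le_top
      · -- `s < x`
        refine (iInf_le _ (⟨s, h⟩ : Iio x)).trans (iSup_le fun z => ?_)
        have hz : s < z.1 := z.2.1
        rw [limR_d_ne _ _ _ hz.ne']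
        refine iSup_le fun a => ?_
        rw [(hp a).d_hi j z.1 ((hle a).trans_lt hz)]
        exact bot_le
    · obtain ⟨⟨y, hy⟩, -⟩ := hx
      refine (iInf_le _ (⟨y, hy⟩ : Iio x)).trans (iSup_le fun z => ?_)
      rw [limR_d_not hp (fun a ha => hj ⟨a, ha⟩)]
      exact bot_le

variable [WellFoundedLT J] {c : J → Nm O J Bt}

/-- The requirement at `k` for the limit; the requirement at `x = s` with the new value `vS` has to be checked.

PROOF.  Use `at_iff`.  Let `b r x C` with `GoodT ..`, `a ≤ b`, `PF lam c (Iio k) u`, `Ext a u r` and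
`Ext a u (q.res (Iio k))` be given, where `q := limR p s vS vT`.  Since
`q.S x = (⨆ e, (p e).S x) ⊔ (if x = s then vS else ⊥)`, by distributivity it suffices to show that
`a ⊓ (v ⊓ ⨅ y : C, q.d k y ⊓ q.T y) = ⊥` for `v = (p e).S x` and (if `x = s`) for `v = vS`; the latter is the
assumption `hs`.  Let `v = (p e).S x`.  Choose `e'` such that `Ext ⊤ (p e') (p e)` and `k ∈ (p e').W`.  If
`(p e).h < x`, then `v = ⊥`.  Otherwise `x ≤ (p e).h ≤ (p e').h` and `v = (p e').S x`; for `y ∈ C` we have `y < x`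
(`GoodT.cof`), so `q.d k y = (p e').d k y` and `q.T y = (p e').T y` (`lim_d`, `lim_T`).  Moreover
`Ext a u ((p e').res (Iio k))` (from `Ext a u (q.res (Iio k))` and `ext_lim`, `Ext.res`, `Ext.mono`, `Ext.trans`).
So the claim follows from `At lam c k (p e')`. -/
theorem at_lim (hp : ∀ a, F lam c (p a)) (hd : Dirx p) (hok : LimOk p s vS vT) {k : J}
    (hk : k ∈ ⋃ a, (p a).W)
    (hs : ∀ b r C, GoodT (c k) (PF lam c (Iio k)) b r s C → ∀ a u, a ≤ b → PF lam c (Iio k) u →
      Ext a u r → Ext a u ((limR p s vS vT).res (Iio k)) →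
      a ⊓ (vS ⊓ ⨅ y : C, (limR p s vS vT).d k y.1 ⊓ (limR p s vS vT).T y.1) = ⊥) :
    At lam c k (limR p s vS vT) := by
  have hb : ∀ a, Basic lam (p a) := fun a => (hp a).1
  rw [at_iff]
  intro b r x C hG a u hab hu hur huq
  -- the part of the values of the family
  have h1 : ∀ e, a ⊓ ((p e).S x ⊓
      ⨅ y : C, (limR p s vS vT).d k y.1 ⊓ (limR p s vS vT).T y.1) = ⊥ := by
    intro e
    obtain ⟨a0, ha0⟩ := mem_iUnion.1 hk
    obtain ⟨e', he1, he2⟩ := hd.2 e a0
    have hke : k ∈ (p e').W := he2.W ha0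
    by_cases hxe : x ≤ (p e).h
    · have hxe' : x ≤ (p e').h := hxe.trans he1.h
      have h2 := (at_iff.1 ((hp e').2 k hke)) b r x C hG a u hab hu hur
        (huq.trans (((ext_lim hb hd hok e').res (Iio k)).mono le_top))
      rw [he1.S_eq hxe] at h2
      refine le_bot_iff.1 (le_trans (le_of_eq ?_) h2.le)
      congr 2
      refine iInf_congr fun y => ?_
      have hy : y.1 ≤ (p e').h := (hG.cof.1 y.1 y.2).le.trans hxe'
      rw [lim_d hb hd hok.1 hke hy, lim_T hb hd hok hy]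
    · rw [(hb e).S_hi x (not_le.1 hxe), bot_inf_eq, inf_bot_eq]
  have h2 : a ⊓ ((⨆ e, (p e).S x) ⊓
      ⨅ y : C, (limR p s vS vT).d k y.1 ⊓ (limR p s vS vT).T y.1) = ⊥ := by
    rw [iSup_inf_eq, inf_iSup_eq, iSup_eq_bot]
    exact h1
  by_cases h : x = s
  · subst h
    rw [limR_S_eq, inf_sup_right, inf_sup_left, h2, hs b r C hG a u hab hu hur huq, sup_bot_eq]
  · rw [limR_S_ne _ _ _ h]
    exact h2

/-- The limit is a condition, if `S` gets no new element.  PROOF: `basic_lim` and `at_lim` (with `vS = ⊥`). -/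
theorem F_lim (hp : ∀ a, F lam c (p a)) (hd : Dirx p) (hW : #(⋃ a, (p a).W : Set J) ≤ lam)
    (hs : IsLUB (range fun a => (p a).h) s) (hok : LimOk p s ⊥ vT) (hT : vT ≠ ⊥ → IsLimPt s) :
    F lam c (limR p s ⊥ vT) := by
  refine ⟨basic_lim (fun a => (hp a).1) hd hW hs (fun h => absurd rfl h) hT, fun k hk => ?_⟩
  refine at_lim hp hd hok hk ?_
  intro b r C _ a u _ _ _ _
  rw [bot_inf_eq, inf_bot_eq]

end CG
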