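import Pool.Agent.W_MP_7dc84e_h31.Lim

/-!
# MP_7dc84e_lc : the limit of a sequence of systems along an index
-/

set_option autoImplicit false
set_option linter.unusedSectionVars false

universe u

open Cardinal Set

namespace CG

variable {O J Bt Th : Type u} [LinearOrder O] [LinearOrder J] [CompleteBooleanAlgebra Bt]
variable [WellFoundedLT J] {lam : Cardinal.{u}} {c : J → Nm O J Bt}
variable {w : ℕ → Set J} {X : ℕ → Sys O J Bt Th} {α : O}

theorem limX_sle (hS : SeqD lam c w X α) {m n : ℕ} (h : m ≤ n) : SLE (X n) (X m) := by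
  induction n, h using Nat.le_induction with
  | base => exact fun t => Ext.refl ⊤ _
  | succ n _ ih => exact fun t => (hS.le n t).trans (ih t)

theorem limX_wmono (hS : SeqD lam c w X α) {m n : ℕ} (h : m ≤ n) : w m ⊆ w n :=
  monotone_nat_of_le_succ (f := w) hS.mono h

/-- PROOF.  `m ≤ n` gives `SLE (X n) (X m)` by induction; so the family `n ↦ (X n).cond t` is directed. -/
theorem SeqD.dir (hS : SeqD lam c w X α) (t : J → Th) : Dirx fun n => (X n).cond t := by
  exact ⟨⟨0⟩, fun a b => ⟨max a b, limX_sle hS (le_max_left a b) t,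
    limX_sle hS (le_max_right a b) t⟩⟩

/-- PROOF.  `(X n).h < α` for all `n` (second alternative of `LimOk`). -/
theorem SeqD.limOk (hS : SeqD lam c w X α) (t : J → Th) (vS vT : Bt) :
    LimOk (fun n => (X n).cond t) α vS vT := by
  exact ⟨fun a => (hS.hα a).le, Or.inr fun a => hS.hα a⟩

/-- PROOF.  From `hα` and `cofα`: `α` is the least upper bound, and it is `CofOm`: the sequence of the heights. -/
theorem SeqD.lub (hS : SeqD lam c w X α) : IsLUB (range fun n => (X n).h) α ∧ CofOm α := by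
  refine ⟨⟨?_, ?_⟩, fun n => (X n).h, hS.hα, hS.cofα⟩
  · rintro _ ⟨n, rfl⟩
    exact (hS.hα n).le
  · intro b hb
    by_contra hcon
    obtain ⟨n, hn⟩ := hS.cofα b (not_le.1 hcon)
    exact absurd (hb ⟨n, rfl⟩) (not_le.2 hn)

/-- PROOF.  `basic_lim` (`vS = ⊤`, `vT = ⊥`); the support is a countable union of sets of size `≤ lam`
(`Cardinal.mk_iUnion_le_sum_mk`, `ℵ₀ ≤ lam`). -/
theorem basic_limX (hl : ℵ₀ ≤ lam) (hS : SeqD lam c w X α) (t : J → Th) :
    Basic lam (limX X α t) := by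
  have hp : ∀ n, Basic lam ((X n).cond t) := fun n => ((hS.sys n).ok t).1
  have hW : #(⋃ n, ((X n).cond t).W : Set J) ≤ lam := by
    have h1 := mk_iUnion_le_lift (fun n : ℕ => ((X n).cond t).W)
    have h2 : (⨆ n : ℕ, lift.{0} #((X n).cond t).W) ≤ lam :=
      ciSup_le' fun n => by
        rw [lift_uzero]
        exact (hp n).W_small
    rw [lift_uzero] at h1
    refine h1.trans ?_
    rw [mk_nat, lift_aleph0]
    exact (mul_le_mul' hl h2).trans (le_of_eq (mul_eq_self hl))
  exact basic_lim hp (hS.dir t) hW hS.lub.1 (fun _ => hS.lub.2) (fun h => absurd rfl h)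

/-- PROOF.  `ext_lim`. -/
theorem ext_limX (hS : SeqD lam c w X α) (t : J → Th) (n : ℕ) :
    Ext ⊤ (limX X α t) ((X n).cond t) := by
  exact ext_lim (fun n => ((hS.sys n).ok t).1) (hS.dir t) (hS.limOk t ⊤ ⊥) n

theorem limX_h (t : J → Th) : (limX X α t).h = α := rfl

theorem limX_W (t : J → Th) : (limX X α t).W = ⋃ n, (X n).W := rfl

/-- The limit conditions have the same `S` and `T`.  PROOF.  From the definition. -/
theorem limX_S (t t' : J → Th) : (limX X α t).S = (limX X α t').S := rfl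

theorem limX_T (t t' : J → Th) : (limX X α t).T = (limX X α t').T := rfl

/-- PROOF.  From the definition of `limX`: the `if` is `⊤` at `x = α`. -/
theorem limX_S_top (t : J → Th) : (limX X α t).S α = ⊤ := by
  unfold limX
  rw [limR_S_eq, sup_top_eq]

/-- The coordinate `k` of the limit depends only on the values of `t` at the elements of the support which are `≤ k`.

PROOF.  `(limX X α t).d k x = (⨆ n, (X n).D t k x) ⊔ ..`; `(X n).D t k = (X n).D t' k` by coherence, since
`w n ⊆ (X n).W ⊆ ⋃ n, (X n).W`. -/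
theorem limX_d_congr (hS : SeqD lam c w X α) {t t' : J → Th} {k : J}
    (h : ∀ i ∈ ⋃ n, (X n).W, i ≤ k → t i = t' i) : (limX X α t).d k = (limX X α t').d k := by
  have h1 : ∀ n, (X n).D t k = (X n).D t' k := fun n =>
    (hS.sys n).coh t t' k (fun i hi hik => h i (mem_iUnion.2 ⟨n, (hS.sys n).hw hi⟩) hik)
  funext x
  simp only [limX, limR, Sys.cond, h1]
  by_cases hc : (∃ a, k ∈ (X a).W) ∧ x = α
  · rw [if_pos hc, if_pos hc]
  · rw [if_neg hc, if_neg hc]

/-- Restrictions of the limit to `I`.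

PROOF.  `Raw.ext'` and `limX_d_congr` (`I` is an initial segment: for `k ∈ I` all `i ≤ k` are in `I`). -/
theorem limX_res_congr (hS : SeqD lam c w X α) {t t' : J → Th} {I : Set J} (hI : IsIn I)
    (h : ∀ i ∈ ⋃ n, (X n).W, i ∈ I → t i = t' i) :
    (limX X α t).res I = (limX X α t').res I := by
  refine Raw.ext' rfl rfl rfl rfl ?_
  funext j
  by_cases hj : j ∈ I
  · rw [res_d_of hj, res_d_of hj]
    refine limX_d_congr hS (fun i hi hij => h i hi ?_)
    rcases hij.eq_or_lt with h1 | h1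
    · rw [h1]
      exact hj
    · exact hI j hj i h1
  · funext x
    rw [res_d_not hj, res_d_not hj]

/-- Two options at the coordinate `j` give clubs which are disjoint in `T` above some `g < α`.

PROOF.  `j ∈ (X m).W ⊆ ⋃ w n`, so `j ∈ w n` for some `n`; let `g := (X n).h`.  Let `g < x < α`.  Let `m` be the least
number with `x ≤ (X m).h` (it exists by `cofα`); `m > n`, so `m = m' + 1` with `m' ≥ n` and `(X m').h < x`.  Apply
`Dis (w (m' + 1)) (X m').h (X (m' + 1))` (`j ∈ w n ⊆ w (m' + 1)` by `mono`) to `t`, `t'`: for `i ∈ w (m' + 1)`, `i < j`, we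
have `i ∈ (X (m' + 1)).W`, so `t i = t' i`.  The values of the limits at `x ≤ (X m).h` are those of `(X m).cond t`,
`(X m).cond t'` (`ext_limX`; `j ∈ w m ⊆ (X m).W`). -/
theorem limX_dis (hS : SeqD lam c w X α) {j : J} (hj : j ∈ ⋃ n, (X n).W) :
    ∃ g < α, ∀ t t' : J → Th, (∀ i ∈ ⋃ n, (X n).W, i < j → t i = t' i) → t j ≠ t' j →
      ∀ x, g < x → x < α →
        (limX X α t).d j x ⊓ (limX X α t').d j x ⊓ (limX X α t).T x = ⊥ := by
  classical
  obtain ⟨m0, hm0⟩ := mem_iUnion.1 hj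
  obtain ⟨n, hn⟩ := mem_iUnion.1 (hS.supp m0 hm0)
  refine ⟨(X n).h, hS.hα n, ?_⟩
  intro t t' htt hne x hgx hxα
  have hex : ∃ m, x ≤ (X m).h := by
    obtain ⟨m, hm⟩ := hS.cofα x hxα
    exact ⟨m, hm.le⟩
  obtain ⟨m, hm, hmin⟩ : ∃ m, x ≤ (X m).h ∧ ∀ k < m, (X k).h < x :=
    ⟨Nat.find hex, Nat.find_spec hex, fun k hk => not_le.1 (Nat.find_min hex hk)⟩
  have hnm : n < m := by
    by_contra hcon
    have h1 : (X m).h ≤ (X n).h := (limX_sle hS (not_lt.1 hcon) t).h
    exact absurd (hm.trans h1) (not_le.2 hgx)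
  obtain ⟨m', rfl⟩ : ∃ m', m = m' + 1 := ⟨m - 1, by omega⟩
  have hm' : (X m').h < x := hmin m' (by omega)
  have hjw : j ∈ w (m' + 1) := limX_wmono hS hnm.le hn
  have hjW : j ∈ (X (m' + 1)).W := (hS.sys (m' + 1)).hw hjw
  have hd := hS.dis m' t t' j hjw
    (fun i hi hij => htt i (mem_iUnion.2 ⟨m' + 1, (hS.sys (m' + 1)).hw hi⟩) hij) hne x hm'
  have e1 : (limX X α t).d j x = (X (m' + 1)).D t j x :=
    (ext_limX hS t (m' + 1)).d_eq hjW hm
  have e2 : (limX X α t').d j x = (X (m' + 1)).D t' j x :=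
    (ext_limX hS t' (m' + 1)).d_eq hjW hm
  have e3 : (limX X α t).T x = (X (m' + 1)).T x := (ext_limX hS t (m' + 1)).T_eq hm
  rw [e1, e2, e3]
  exact hd

end CG
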