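import Pool.Agent.W_MP_7dc84e_h31.Obj

/-!
# MP_7dc84e_lc : almost all sets of objects are good, the traces on `BP K`

The lemmas on fine normal ultrafilters are in `Pool/Agent/W_MP_315f31_lc/D_h1/Ufil.lean` (`all_small'`, `all_countable`,
`mem'`, `ex`, `all`, `ex_seq`, `all_seq`, `closed`, `ex_set`).
-/

set_option autoImplicit false
set_option linter.unusedSectionVars false

universe u

open Cardinal Set IM Pool.Agent.W_MP_315f31_lc

namespace CG

variable {K O J : Type u} [LinearOrder K] [LinearOrder O] [LinearOrder J]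

/-- PROOF.  `small`: `hU.small`.  `b_supp`: for fixed `b` the support is countable, so by `all_countable` and `mem'`, for almost all `x`,
`Obj.i i ∈ x` for all `i` in the support; use `all` to get this for almost all `x` and all `b` with `Obj.b b ∈ x` (apply `all` to
the property `φ a x := ∀ b, a = Obj.b b → ..` of `a : Obj`).
`b_res`: (1) For almost all `x`, `Obj.i i ∈ x` implies `Obj.k k ∈ x` for all `k < i.η` (`all`, `all_small'` with `#(Iio i.η) < #K` and
`mem'`).  (2) For a sequence `s : ℕ → Obj` let `dec s : BP K` be the (unique, `BP.ext`) condition `b` with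
`∀ i a, b.v i = some a ↔ ∃ n, s (2 * n) = Obj.i i ∧ s (2 * n + 1) = Obj.k a.1`, if there is one, and `BP.one` otherwise.  By `all_seq`
(`I = ℕ`, `ℵ₀ < #K`) and `mem'`, for almost all `x`: `Obj.b (dec s) ∈ x` for all sequences `s` in `x`.  Let `x` have the
properties (1), (2), and let `b : BP K`, `b' := b.res {i | Obj.i i ∈ x}`.  If the support of `b'` is empty, then `b' = dec s` for a
constant sequence `s` in `x` (choose the value `Obj.k k₀` for some `k₀ : K`, in `x` for almost all `x`).  Otherwise enumerate the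
support of `b'` as `i_n`, `n ∈ ℕ` (`Set.Countable.exists_eq_range`), let `b'.v i_n = some a_n` and `s (2 * n) := Obj.i i_n`,
`s (2 * n + 1) := Obj.k a_n.1`, which are elements of `x` (`a_n.1 < i_n.η`, (1)).  `dec s = b'`. -/
theorem gx1 (hK : Inacc K) {U : Ultrafilter (Set (Obj K O J))} (hU : IsFNU (#K) U) :
    ∀ᶠ x in (U : Filter (Set (Obj K O J))), Gx1 x := by
  classical
  have hω : ℵ₀ < #K := hK.card.1
  have hne : Nonempty K := by
    rw [← Cardinal.mk_ne_zero_iff]
    exact (lt_trans Cardinal.aleph0_pos hω).ne'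
  obtain ⟨k₀⟩ := hne
  have hsm : ∀ᶠ x : Set (Obj K O J) in (U : Filter (Set (Obj K O J))), #x < #K := hU.small
  -- the supports
  have hsupp : ∀ᶠ x in (U : Filter (Set (Obj K O J))), ∀ a ∈ x, ∀ b : BP K, a = Obj.b b →
      ∀ i, b.v i ≠ none → Obj.i i ∈ x := by
    refine hU.all (φ := fun a x => ∀ b : BP K, a = Obj.b b → ∀ i, b.v i ≠ none → Obj.i i ∈ x) ?_
    intro a
    by_cases h : ∃ b : BP K, a = Obj.b b
    · obtain ⟨b₀, hb₀⟩ := h
      have hc : Countable {i | b₀.v i ≠ none} := b₀.ctb.to_subtype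
      have h1 : ∀ᶠ x in (U : Filter (Set (Obj K O J))), ∀ i : {i | b₀.v i ≠ none},
          Obj.i i.1 ∈ x := hU.all_countable hω fun i => hU.mem' (Obj.i i.1)
      filter_upwards [h1] with x hx b hb i hi
      have h2 : b₀ = b := by
        rw [hb₀] at hb
        exact Obj.b.inj hb
      subst h2
      exact hx ⟨i, hi⟩
    · exact Filter.Eventually.of_forall fun x b hb => absurd ⟨b, hb⟩ h
  -- the initial segments
  have hseg : ∀ᶠ x in (U : Filter (Set (Obj K O J))), ∀ a ∈ x, ∀ i : Ix K, a = Obj.i i →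
      ∀ k < i.η, Obj.k k ∈ x := by
    refine hU.all (φ := fun a x => ∀ i : Ix K, a = Obj.i i → ∀ k < i.η, Obj.k k ∈ x) ?_
    intro a
    by_cases h : ∃ i : Ix K, a = Obj.i i
    · obtain ⟨i₀, hi₀⟩ := h
      have h1 : ∀ᶠ x in (U : Filter (Set (Obj K O J))), ∀ k : Iio i₀.η, Obj.k k.1 ∈ x :=
        hU.all_small' (hK.lt i₀.η) fun k => hU.mem' (Obj.k k.1)
      filter_upwards [h1] with x hx i hi k hk
      have h2 : i₀ = i := by
        rw [hi₀] at hi
        exact Obj.i.inj hi
      subst h2
      exact hx ⟨k, hk⟩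
    · exact Filter.Eventually.of_forall fun x i hi => absurd ⟨i, hi⟩ h
  -- the sequences
  have hseq : ∀ᶠ x in (U : Filter (Set (Obj K O J))), ∀ s : ℕ → Obj K O J, (∀ n, s n ∈ x) →
      ∀ b : BP K, (∀ i a, b.v i = some a ↔
        ∃ n, s (2 * n) = Obj.i i ∧ s (2 * n + 1) = Obj.k a.1) → Obj.b b ∈ x := by
    refine hU.all_seq (I := ℕ) (φ := fun s x => ∀ b : BP K, (∀ i a, b.v i = some a ↔
        ∃ n, s (2 * n) = Obj.i i ∧ s (2 * n + 1) = Obj.k a.1) → Obj.b b ∈ x) ?_ ?_
    · simpa using hω
    · intro s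
      by_cases h : ∃ b : BP K, ∀ i a, b.v i = some a ↔
          ∃ n, s (2 * n) = Obj.i i ∧ s (2 * n + 1) = Obj.k a.1
      · obtain ⟨b₀, hb₀⟩ := h
        filter_upwards [hU.mem' (Obj.b b₀)] with x hx b hb
        have h2 : b₀ = b := by
          apply BP.ext
          intro i
          apply Option.ext
          intro a
          rw [hb₀ i a, hb i a]
        rw [← h2]
        exact hx
      · exact Filter.Eventually.of_forall fun x b hb => absurd ⟨b, hb⟩ h
  filter_upwards [hsm, hsupp, hseg, hseq, hU.mem' (Obj.k k₀)] with x h1 h2 h3 h4 h5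
  refine ⟨h1, ?_, fun b hb i hi => h2 _ hb b rfl i hi⟩
  intro b
  obtain ⟨b', hb'⟩ : ∃ b', b' = b.res {i | Obj.i i ∈ x} := ⟨_, rfl⟩
  rw [← hb']
  have hin : ∀ i, b'.v i ≠ none → Obj.i i ∈ x := by
    intro i hi
    by_contra hc
    apply hi
    rw [hb']
    unfold BP.res
    simp [hc]
  by_cases hS : {i | b'.v i ≠ none} = ∅
  · refine h4 (fun _ => Obj.k k₀) (fun _ => h5) b' ?_
    intro i a
    constructor
    · intro h
      exfalso
      have : i ∈ {i | b'.v i ≠ none} := by
        change b'.v i ≠ none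
        rw [h]
        simp
      rw [hS] at this
      exact this
    · rintro ⟨n, h, -⟩
      exact absurd h (by simp)
  · have hSn : {i | b'.v i ≠ none}.Nonempty := Set.nonempty_iff_ne_empty.mpr hS
    obtain ⟨e, he⟩ := b'.ctb.exists_eq_range hSn
    have hen : ∀ n, b'.v (e n) ≠ none := by
      intro n
      have : e n ∈ {i | b'.v i ≠ none} := by rw [he]; exact ⟨n, rfl⟩
      exact this
    choose a ha using fun n => Option.ne_none_iff_exists'.mp (hen n)
    obtain ⟨g, hg⟩ : ∃ g : ℕ → K, ∀ n, g n = (a n).1 := ⟨fun n => (a n).1, fun _ => rfl⟩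
    obtain ⟨s, hs⟩ : ∃ s : ℕ → Obj K O J, s = fun m =>
        if m % 2 = 0 then Obj.i (e (m / 2)) else Obj.k (g (m / 2)) := ⟨_, rfl⟩
    have hs0 : ∀ n, s (2 * n) = Obj.i (e n) := by
      intro n
      rw [hs]
      have e1 : 2 * n % 2 = 0 := by omega
      have e2 : 2 * n / 2 = n := by omega
      simp only [e1, e2, if_true]
    have hs1 : ∀ n, s (2 * n + 1) = Obj.k (a n).1 := by
      intro n
      rw [hs, ← hg]
      have e1 : (2 * n + 1) % 2 = 1 := by omega
      have e2 : (2 * n + 1) / 2 = n := by omega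
      simp only [e1, e2, one_ne_zero, if_false]
    refine h4 s ?_ b' ?_
    · intro m
      rcases Nat.even_or_odd' m with ⟨n, rfl | rfl⟩
      · rw [hs0]
        exact hin _ (hen n)
      · rw [hs1]
        exact h3 _ (hin _ (hen n)) (e n) rfl _ (a n).2
    · intro i w
      constructor
      · intro h
        have hi : i ∈ {i | b'.v i ≠ none} := by
          change b'.v i ≠ none
          rw [h]
          simp
        rw [he] at hi
        obtain ⟨n, rfl⟩ := hi
        refine ⟨n, hs0 n, ?_⟩
        rw [hs1]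
        have h6 := ha n
        rw [h] at h6
        rw [Option.some.inj h6]
      · rintro ⟨n, h6, h7⟩
        rw [hs0] at h6
        rw [hs1] at h7
        have h8 : e n = i := Obj.i.inj h6
        subst h8
        have h9 : (a n).1 = w.1 := Obj.k.inj h7
        rw [ha n, Subtype.ext h9]

end CG
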