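import Pool.Agent.W_MP_7dc84e_h31.Obj

/-!
# MP_7dc84e_lc : almost all sets of objects are good, the traces on `O` and on the conditions

The lemmas on fine normal ultrafilters are in `Pool/Agent/W_MP_315f31_lc/D_h1/Ufil.lean` (`all_small'`, `all_countable`,
`mem'`, `ex`, `all`, `ex_seq`, `all_seq`, `closed`, `ex_set`).
-/

set_option autoImplicit false
set_option linter.unusedSectionVars false

universe u

open Cardinal Set IM Pool.Agent.W_MP_315f31_lc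

namespace CG

variable {K O J Th : Type u} [LinearOrder K] [LinearOrder O] [LinearOrder J]
variable [WellFoundedLT O] [WellFoundedLT J]
variable {lam : Cardinal.{u}} {L : ℕ → Cardinal.{u}} {c : J → Nm O J (RO (BP K))}

theorem gx2 (P : Par O J (RO (BP K)) Th lam L) (hK : ℵ₀ < #K)
    {U : Ultrafilter (Set (Obj K O J))} (hU : IsFNU (#K) U) :
    ∀ᶠ x in (U : Filter (Set (Obj K O J))), Gx2 x := by
  have h1 : ∀ᶠ x in (U : Filter (Set (Obj K O J))), ∀ a ∈ x, ∀ y, a = Obj.o y →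
      ∃ z, y < z ∧ Obj.o z ∈ x := by
    refine hU.all fun a => ?_
    by_cases ha : ∃ y, a = Obj.o y
    · obtain ⟨y, rfl⟩ := ha
      obtain ⟨z, hz⟩ := P.exists_gt y
      filter_upwards [hU.mem' (Obj.o z)] with x hx y' hy'
      obtain rfl := Obj.o.inj hy'
      exact ⟨z, hz, hx⟩
    · exact Filter.Eventually.of_forall fun x y hy => absurd ⟨y, hy⟩ ha
  have h2 : ∀ᶠ x in (U : Filter (Set (Obj K O J))), ∀ s : ℕ → Obj K O J, (∀ n, s n ∈ x) →
      ∀ g : ℕ → O, (∀ n, s n = Obj.o (g n)) → ∃ z, Obj.o z ∈ x ∧ ∀ n, g n < z := by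
    refine hU.all_seq (by simpa using hK) fun s => ?_
    by_cases hs : ∃ g : ℕ → O, ∀ n, s n = Obj.o (g n)
    · obtain ⟨g, hg⟩ := hs
      obtain ⟨z, hz⟩ := P.bdd (range g) ((mk_le_aleph0_iff.2 (countable_range g).to_subtype).trans
        P.aleph)
      filter_upwards [hU.mem' (Obj.o z)] with x hx g' hg'
      have : g' = g := funext fun n => Obj.o.inj ((hg' n).symm.trans (hg n))
      subst this
      exact ⟨z, hx, fun n => hz _ ⟨n, rfl⟩⟩
    · exact Filter.Eventually.of_forall fun x g hg => absurd ⟨g, hg⟩ hs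
  have h3 : ∀ᶠ x in (U : Filter (Set (Obj K O J))), ∀ a ∈ x, ∀ α, a = Obj.o α → CofOm α →
      ∃ f : ℕ → O, (∀ n, f n < α ∧ Obj.o (f n) ∈ x) ∧ ∀ y < α, ∃ n, y < f n := by
    refine hU.all fun a => ?_
    by_cases ha : ∃ α, a = Obj.o α ∧ CofOm α
    · obtain ⟨α, rfl, f, hf1, hf2⟩ := ha
      filter_upwards [hU.all_countable hK fun n => hU.mem' (Obj.o (f n))] with x hx α' hα' _
      obtain rfl := Obj.o.inj hα'
      exact ⟨f, fun n => ⟨hf1 n, hx n⟩, hf2⟩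
    · exact Filter.Eventually.of_forall fun x α hα hc => absurd ⟨α, hα, hc⟩ ha
  filter_upwards [h1, h2, h3] with x g1 g2 g3
  refine ⟨fun y hy => g1 _ hy y rfl, fun f hf => ?_, fun α hα hc => g3 _ hα α rfl hc⟩
  choose g hg1 hg2 using hf
  obtain ⟨z, hz1, hz2⟩ := g2 (fun n => Obj.o (g n)) hg2 g fun _ => rfl
  exact ⟨z, hz1, fun n => (hg1 n).trans_lt (hz2 n)⟩

theorem gx3 (P : Par O J (RO (BP K)) Th lam L) (hK : ℵ₀ < #K)
    {U : Ultrafilter (Set (Obj K O J))} (hU : IsFNU (#K) U) :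
    ∀ᶠ x in (U : Filter (Set (Obj K O J))), Gx3 lam c x := by
  have h1 : ∀ᶠ x in (U : Filter (Set (Obj K O J))), ∀ a ∈ x, ∀ r, a = Obj.r r →
      Obj.o r.h ∈ x := by
    refine hU.all fun a => ?_
    by_cases ha : ∃ r, a = Obj.r r
    · obtain ⟨r, rfl⟩ := ha
      filter_upwards [hU.mem' (Obj.o r.h)] with x hx r' hr'
      obtain rfl := Obj.r.inj hr'
      exact hx
    · exact Filter.Eventually.of_forall fun x y hy => absurd ⟨y, hy⟩ ha
  have h2 : ∀ᶠ x in (U : Filter (Set (Obj K O J))), ∀ a ∈ x, ∀ a' ∈ x, ∀ r y, a = Obj.r r →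
      a' = Obj.o y → F lam c r →
      ∃ r', F lam c r' ∧ Obj.r r' ∈ x ∧ Ext ⊤ r' r ∧ y < r'.h := by
    refine hU.all fun a => hU.all fun a' => ?_
    by_cases ha : ∃ r y, a = Obj.r r ∧ a' = Obj.o y ∧ F lam c r
    · obtain ⟨r, y, rfl, rfl, hr⟩ := ha
      obtain ⟨z, hz⟩ := P.exists_gt y
      filter_upwards [hU.mem' (Obj.r (extR r (max r.h z)))] with x hx r' y' hr' hy' _
      obtain rfl := Obj.r.inj hr'
      obtain rfl := Obj.o.inj hy'
      exact ⟨extR r (max r.h z), F_extR hr (le_max_left _ _), hx, ext_extR hr.1 (le_max_left _ _),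
        hz.trans_le (le_max_right _ _)⟩
    · exact Filter.Eventually.of_forall fun x r y hr hy hF => absurd ⟨r, y, hr, hy, hF⟩ ha
  have h3 : ∀ᶠ x in (U : Filter (Set (Obj K O J))), ∀ s : ℕ → Obj K O J, (∀ n, s n ∈ x) →
      ∀ f : ℕ → Raw O J (RO (BP K)), (∀ n, s n = Obj.r (f n)) → (∀ n, F lam c (f n)) →
      (∀ n, Ext ⊤ (f (n + 1)) (f n)) → ∃ r, F lam c r ∧ Obj.r r ∈ x ∧ ∀ n, Ext ⊤ r (f n) := by
    refine hU.all_seq (by simpa using hK) fun s => ?_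
    by_cases hs : ∃ f : ℕ → Raw O J (RO (BP K)), (∀ n, s n = Obj.r (f n)) ∧
        (∀ n, F lam c (f n)) ∧ (∀ n, Ext ⊤ (f (n + 1)) (f n))
    · obtain ⟨f, hf1, hf2, hf3⟩ := hs
      have hmono : ∀ m n, m ≤ n → Ext ⊤ (f n) (f m) := by
        intro m n hmn
        induction hmn with
        | refl => exact Ext.refl _ _
        | step _ ih => exact (hf3 _).trans ih
      obtain ⟨r, hr, hr'⟩ := PF_closed P (I := univ) (ι := ULift.{u} ℕ)
        ((mk_le_aleph0 (α := ULift.{u} ℕ)).trans P.aleph) (fun n => f n.down)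
        (fun n => ⟨hf2 _, subset_univ _⟩) ⟨⟨⟨0⟩⟩, fun m n => ⟨⟨max m.down n.down⟩,
          hmono _ _ (le_max_left _ _), hmono _ _ (le_max_right _ _)⟩⟩
      filter_upwards [hU.mem' (Obj.r r)] with x hx f' hf' _ _
      have : f' = f := funext fun n => Obj.r.inj ((hf' n).symm.trans (hf1 n))
      subst this
      exact ⟨r, hr.1, hx, fun n => hr' ⟨n⟩⟩
    · exact Filter.Eventually.of_forall fun x f hf1 hf2 hf3 => absurd ⟨f, hf1, hf2, hf3⟩ hs
  filter_upwards [h1, h2, h3] with x g1 g2 g3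
  refine ⟨fun r _ hr => g1 _ hr r rfl, fun r y hr hr' hy => g2 _ hr' _ hy r y rfl rfl hr,
    fun f hf hf' => g3 (fun n => Obj.r (f n)) (fun n => (hf n).2) f (fun _ => rfl)
      (fun n => (hf n).1) hf'⟩

theorem gx4 (P : Par O J (RO (BP K)) Th lam L) (_hK : ℵ₀ < #K)
    {U : Ultrafilter (Set (Obj K O J))} (hU : IsFNU (#K) U) {R : O → Cnd lam c → Prop}
    (hR : ClubN R) : ∀ᶠ x in (U : Filter (Set (Obj K O J))), Gx4 R x := by
  have h1 : ∀ᶠ x in (U : Filter (Set (Obj K O J))), ∀ a₁ ∈ x, ∀ a₂ ∈ x, ∀ a₃ ∈ x,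
      ∀ (b : BP K) (r : Raw O J (RO (BP K))) (y : O), a₁ = Obj.b b → a₂ = Obj.r r → a₃ = Obj.o y →
      F lam c r → ∃ (b' : BP K) (r' : Raw O J (RO (BP K))) (z : O), Obj.b b' ∈ x ∧ Obj.r r' ∈ x ∧
      Obj.o z ∈ x ∧ b' ≤ b ∧ Ext ⊤ r' r ∧ y < z ∧
      ∃ (hb : eB b' ≠ ⊥) (hr : F lam c r'), R z ⟨eB b', r', hb, hr⟩ := by
    refine hU.all fun a₁ => hU.all fun a₂ => hU.all fun a₃ => ?_
    by_cases ha : ∃ (b : BP K) (r : Raw O J (RO (BP K))) (y : O), a₁ = Obj.b b ∧ a₂ = Obj.r r ∧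
        a₃ = Obj.o y ∧ F lam c r
    · obtain ⟨b, r, y, rfl, rfl, rfl, hr⟩ := ha
      have hB := sigB_eB (B := BP K) BP.sig
      obtain ⟨q, hq, z, hz, hRz⟩ := hR.unb y ⟨eB b, r, hB.ne b, hr⟩
      have hm : F lam c (mixR q.b q.p r) := F_mixR P.aleph q.hp hr hq.2
      obtain ⟨b', hb', hb''⟩ := hB.dense q.b b q.hb hq.1
      filter_upwards [hU.mem' (Obj.b b'), hU.mem' (Obj.r (mixR q.b q.p r)), hU.mem' (Obj.o z)]
        with x hx1 hx2 hx3 b0 r0 y0 e1 e2 e3 _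
      obtain rfl := Obj.b.inj e1
      obtain rfl := Obj.r.inj e2
      obtain rfl := Obj.o.inj e3
      refine ⟨b', mixR q.b q.p r, z, hx1, hx2, hx3, hb', ext_mixR_top hr.1 hq.2, hz, hB.ne b', hm,
        hR.mono z q _ hRz ⟨hb'', ?_⟩⟩
      exact (ext_mixR_left q.b q.p r).mono hb''
    · exact Filter.Eventually.of_forall fun x b r y e1 e2 e3 hF =>
        absurd ⟨b, r, y, e1, e2, e3, hF⟩ ha
  filter_upwards [h1] with x g1 b r y hb hr hr' hy
  exact g1 _ hb _ hr' _ hy b r y rfl rfl rfl hr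

end CG
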