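import Pool.Agent.W_MP_7dc84e_h31.Obj

/-!
# MP_7dc84e_lc : reflection of the genericity lemma for `S`

The lemmas on fine normal ultrafilters are in `Pool/Agent/W_MP_315f31_lc/D_h1/Ufil.lean` (`all_small'`, `all_countable`,
`mem'`, `ex`, `all`, `ex_seq`, `all_seq`, `closed`, `ex_set`).
-/

set_option autoImplicit false
set_option linter.unusedSectionVars false

universe u

open Cardinal Set IM Pool.Agent.W_MP_315f31_lc

namespace CG

variable {K O J Th : Type u} [LinearOrder K] [LinearOrder O] [LinearOrder J]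
variable [WellFoundedLT O] [WellFoundedLT J]
variable {lam : Cardinal.{u}} {L : ℕ → Cardinal.{u}} {c : J → Nm O J (RO (BP K))}

/-- fixed lists -/
theorem gx5_list {κ : Cardinal.{u}} {U : Ultrafilter (Set (Obj K O J))} (hU : IsFNU κ U)
    (l : List O) :
    ∀ᶠ x in (U : Filter (Set (Obj K O J))), ∀ y ∈ l, Obj.o y ∈ x := by
  induction l with
  | nil => exact Filter.Eventually.of_forall fun x y hy => absurd hy List.not_mem_nil
  | cons a l ih =>
    filter_upwards [ih, hU.mem' (Obj.o a)] with x hx hx' y hy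
    rcases List.mem_cons.1 hy with rfl | hy
    · exact hx'
    · exact hx y hy

/-- closure under the formation of finite lists -/
theorem gx5_cons {κ : Cardinal.{u}} {U : Ultrafilter (Set (Obj K O J))} (hU : IsFNU κ U) :
    ∀ᶠ x in (U : Filter (Set (Obj K O J))), ∀ l : List O, (∀ y ∈ l, Obj.o y ∈ x) →
      Obj.l l ∈ x := by
  have h1 : ∀ᶠ x in (U : Filter (Set (Obj K O J))), ∀ a ∈ x, ∀ b ∈ x, ∀ (y : O) (l : List O),
      a = Obj.o y → b = Obj.l l → Obj.l (y :: l) ∈ x := by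
    refine hU.all fun a => hU.all fun b => ?_
    by_cases h : ∃ (y : O) (l : List O), a = Obj.o y ∧ b = Obj.l l
    · obtain ⟨y, l, rfl, rfl⟩ := h
      filter_upwards [hU.mem' (Obj.l (y :: l))] with x hx y' l' h1 h2
      injection h1 with h1
      injection h2 with h2
      subst h1
      subst h2
      exact hx
    · exact Filter.Eventually.of_forall fun x y l h1 h2 => absurd ⟨y, l, h1, h2⟩ h
  filter_upwards [h1, hU.mem' (Obj.l [])] with x hx hx'
  intro l
  induction l with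
  | nil => exact fun _ => hx'
  | cons y l ih =>
    intro h
    exact hx _ (h y List.mem_cons_self) _ (ih fun z hz => h z (List.mem_cons_of_mem y hz)) y l
      rfl rfl

theorem gx5_e {κ : Cardinal.{u}} {U : Ultrafilter (Set (Obj K O J))} (hU : IsFNU κ U) :
    ∀ᶠ x in (U : Filter (Set (Obj K O J))), ∀ (l : List O) (r : Raw O J (RO (BP K))),
      Obj.l l ∈ x → Obj.r r ∈ x → Obj.e l r ∈ x := by
  have h1 : ∀ᶠ x in (U : Filter (Set (Obj K O J))), ∀ a ∈ x, ∀ b ∈ x, ∀ (l : List O)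
      (r : Raw O J (RO (BP K))), a = Obj.l l → b = Obj.r r → Obj.e l r ∈ x := by
    refine hU.all fun a => hU.all fun b => ?_
    by_cases h : ∃ (l : List O) (r : Raw O J (RO (BP K))), a = Obj.l l ∧ b = Obj.r r
    · obtain ⟨l, r, rfl, rfl⟩ := h
      filter_upwards [hU.mem' (Obj.e l r)] with x hx l' r' h1 h2
      injection h1 with h1
      injection h2 with h2
      subst h1
      subst h2
      exact hx
    · exact Filter.Eventually.of_forall fun x l r h1 h2 => absurd ⟨l, r, h1, h2⟩ h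
  filter_upwards [h1] with x hx l r h2 h3
  exact hx _ h2 _ h3 l r rfl rfl

theorem gx5_foldr (o₀ a : O) (l : List O) :
    l.foldr max o₀ < a ↔ o₀ < a ∧ ∀ y ∈ l, y < a := by
  induction l with
  | nil => simp
  | cons y l ih =>
    rw [List.foldr_cons, max_lt_iff, ih, List.forall_mem_cons]
    tauto

/-- PROOF.  Suppose that this is false.  Then for almost all `x` (`U` is an ultrafilter) there are `E_x`, `p_x` such that `E_x` is open and dense
in `x` in the sense of `Gx5`, `Obj.r p_x ∈ x`, `F lam c p_x`, and there are no `q`, `α` as in `Gx5`.  By `ex` we may assume that `p_x = p₀` is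
constant for almost all `x` (apply `ex` to the property `φ a x := ∃ p, a = Obj.r p ∧ ∃ E, ..`).  Choose `E_x` and put
`W x := {Obj.e l r | Obj.e l r ∈ x, E_x l r}` (a set of objects), `E l r := (∀ᶠ x in U, Obj.e l r ∈ W x)`, i.e. for almost all
`x`, `E_x l r`.  For almost all `x` (by `closed`, `all`, `all_seq`, `all_countable`, `mem'`):
(1) `Obj.e l r ∈ x ↔ Obj.l l ∈ x ∧ Obj.r r ∈ x`; `Obj.l l ∈ x ↔ ∀ y ∈ l, Obj.o y ∈ x` (for `←`: `all_seq` with `I = Fin n`, for all `n`);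
(2) for all `l`, `r` with `Obj.e l r ∈ x`: `E_x l r ↔ E l r` (`ex_set`).
`E` is open: let `F lam c p`, `F lam c q`, `E l p`, `Ext ⊤ q p`; for almost all `x`, `Obj.r p, Obj.r q ∈ x` and `E_x l p`, so `E_x l q`.
`E l` is dense: let `F lam c p`; for almost all `x`: `Obj.l l ∈ x`, `Obj.r p ∈ x`, so there is `q` with `F lam c q`, `Obj.r q ∈ x`,
`Ext ⊤ q p`, `E_x l q`; by `ex` such a `q` can be chosen constant for almost all `x`; so `E l q`.
So `ODs lam c E` with the index set `Y := List O`.  Let `o₀` be the least element of `O` (`O` is a nonempty well-order), and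
`ρ l := l.foldr max o₀`; `ρ l < a` implies `y < a` for all `y ∈ l`; `#{l // ρ l < a} ≤ #(List (Iio a)) ≤ max ℵ₀ #(Iio a) ≤ lam`
(`Cardinal.mk_list_le_max`).  `stS_gen` gives `q`, `α` with `F lam c q`, `Ext ⊤ q p₀`, `p₀.h < α`, `CofOm α`, `α ≤ q.h`, `q.S α = ⊤` and for
every `l` with `ρ l < α` a condition `p' l` with `F lam c (p' l)`, `Ext ⊤ q (p' l)`, `(p' l).h < α`, `E l (p' l)`.  If `y < α` for all `y ∈ l`, then
`ρ l < α` (as `o₀ ≤ p₀.h < α`).  For almost all `x`: `Obj.r q ∈ x`, `Obj.o α ∈ x`, and for all `l` with `Obj.l l ∈ x` and `ρ l < α`: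
`Obj.r (p' l) ∈ x` (`all` and `mem'`), and `E_x l (p' l)` by (2).  So `q`, `α` are as in `Gx5` for `E_x`.  Contradiction. -/
theorem gx5 (P : Par O J (RO (BP K)) Th lam L) (hK : ℵ₀ < #K)
    {U : Ultrafilter (Set (Obj K O J))} (hU : IsFNU (#K) U) :
    ∀ᶠ x in (U : Filter (Set (Obj K O J))), Gx5 lam c x := by
  classical
  by_contra hcon
  rw [← Ultrafilter.eventually_not] at hcon
  -- the failure for one `x`
  obtain ⟨Bad, hBad⟩ : ∃ Bad : Set (Obj K O J) → (List O → Raw O J (RO (BP K)) → Prop) →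
      Raw O J (RO (BP K)) → Prop, ∀ x E p, Bad x E p ↔
      ((∀ l p q, F lam c p → Obj.r p ∈ x → F lam c q → Obj.r q ∈ x → E l p → Ext ⊤ q p → E l q) ∧
      (∀ l p, (∀ y ∈ l, Obj.o y ∈ x) → F lam c p → Obj.r p ∈ x →
        ∃ q, F lam c q ∧ Obj.r q ∈ x ∧ Ext ⊤ q p ∧ E l q) ∧
      F lam c p ∧
      ¬ ∃ q α, F lam c q ∧ Obj.r q ∈ x ∧ Obj.o α ∈ x ∧ Ext ⊤ q p ∧ p.h < α ∧ CofOm α ∧
        α ≤ q.h ∧ q.S α = ⊤ ∧ ∀ l, (∀ y ∈ l, y < α ∧ Obj.o y ∈ x) →
          ∃ p', F lam c p' ∧ Obj.r p' ∈ x ∧ Ext ⊤ q p' ∧ p'.h < α ∧ E l p') :=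
    ⟨_, fun _ _ _ => Iff.rfl⟩
  have h1 : ∀ᶠ x in (U : Filter (Set (Obj K O J))), ∃ a ∈ x,
      ∃ p, a = Obj.r p ∧ ∃ E, Bad x E p := by
    filter_upwards [hcon] with x hx
    unfold Gx5 at hx
    push Not at hx
    obtain ⟨E, e1, e2, p, e3, e4, e5⟩ := hx
    refine ⟨Obj.r p, e4, p, rfl, E, (hBad x E p).2 ⟨e1, e2, e3, ?_⟩⟩
    rintro ⟨q, α, f1, f2, f3, f4, f5, f6, f7, f8, f9⟩
    obtain ⟨l, g1, g2⟩ := e5 q α f1 f2 f3 f4 f5 f6 f7 f8
    obtain ⟨p', k1, k2, k3, k4, k5⟩ := f9 l g1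
    exact g2 p' k1 k2 k3 k4 k5
  obtain ⟨a, ha⟩ := hU.ex h1
  obtain ⟨x₀, -, p₀, rfl, -⟩ := ha.exists
  have h2 : ∀ᶠ x in (U : Filter (Set (Obj K O J))), ∃ E, Bad x E p₀ := by
    filter_upwards [ha] with x hx
    obtain ⟨-, p, hp, E, hE⟩ := hx
    injection hp with hp
    subst hp
    exact ⟨E, hE⟩
  obtain ⟨Ex, hEx⟩ : ∃ Ex : Set (Obj K O J) → List O → Raw O J (RO (BP K)) → Prop,
      ∀ x, (∃ E, Bad x E p₀) → Bad x (Ex x) p₀ :=
    ⟨fun x => if h : ∃ E, Bad x E p₀ then h.choose else fun _ _ => True, fun x h => by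
      simp only [dif_pos h]
      exact h.choose_spec⟩
  have h3 : ∀ᶠ x in (U : Filter (Set (Obj K O J))), Bad x (Ex x) p₀ := by
    filter_upwards [h2] with x hx
    exact hEx x hx
  have hset : ∀ᶠ x in (U : Filter (Set (Obj K O J))), ∀ (l : List O) (r : Raw O J (RO (BP K))),
      Obj.e l r ∈ x → (∀ᶠ x' in (U : Filter (Set (Obj K O J))), Ex x' l r) → Ex x l r := by
    have h4 := hU.ex_set fun x => {a | ∃ l r, a = Obj.e l r ∧ Ex x l r}
    filter_upwards [h4] with x hx l r hlr hE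
    have h5 : Obj.e l r ∈ {a : Obj K O J | ∃ l r, a = Obj.e l r ∧ Ex x l r} := by
      refine (hx _ hlr).2 ?_
      filter_upwards [hE] with x' hx'
      exact ⟨l, r, rfl, hx'⟩
    obtain ⟨l', r', h6, h7⟩ := h5
    injection h6 with h6 h8
    subst h6
    subst h8
    exact h7
  have hp₀ : F lam c p₀ := by
    obtain ⟨x, hx⟩ := h3.exists
    exact ((hBad _ _ _).1 hx).2.2.1
  have hOD : ODs lam c fun (l : List O) r =>
      ∀ᶠ x in (U : Filter (Set (Obj K O J))), Ex x l r := by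
    refine ⟨?_, ?_⟩
    · intro l p q hp hq hE hpq
      filter_upwards [h3, hE, hU.mem' (Obj.r p), hU.mem' (Obj.r q)] with x e1 e2 e3 e4
      exact ((hBad _ _ _).1 e1).1 l p q hp e3 hq e4 e2 hpq
    · intro l p hp
      have h4 : ∀ᶠ x in (U : Filter (Set (Obj K O J))), ∃ a ∈ x,
          ∃ q, a = Obj.r q ∧ F lam c q ∧ Ext ⊤ q p ∧ Ex x l q := by
        filter_upwards [h3, gx5_list hU l, hU.mem' (Obj.r p)] with x e1 e2 e3
        obtain ⟨q, f1, f2, f3, f4⟩ := ((hBad _ _ _).1 e1).2.1 l p e2 hp e3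
        exact ⟨Obj.r q, f2, q, rfl, f1, f3, f4⟩
      obtain ⟨a, ha⟩ := hU.ex h4
      obtain ⟨x₁, -, q, rfl, hq1, hq2, -⟩ := ha.exists
      refine ⟨q, hq1, hq2, ?_⟩
      filter_upwards [ha] with x hx
      obtain ⟨-, q', h5, -, -, h6⟩ := hx
      injection h5 with h5
      subst h5
      exact h6
  have hρ : ∀ a, #{l : List O // l.foldr max p₀.h < a} ≤ lam := by
    intro a
    have h4 : {l : List O | l.foldr max p₀.h < a} ⊆
        Set.range (List.map (Subtype.val : Iio a → O)) := by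
      intro l hl
      rw [Set.range_list_map_coe]
      exact ((gx5_foldr _ _ _).1 hl).2
    have h5 : #{l : List O // l.foldr max p₀.h < a} ≤
        #(Set.range (List.map (Subtype.val : Iio a → O))) := mk_le_mk_of_subset h4
    refine h5.trans (mk_range_le.trans ((mk_list_le_max _).trans ?_))
    exact max_le P.aleph (P.seg a)
  obtain ⟨q, α, q1, q2, q3, q4, q5, q6, q7⟩ := stS_gen P hp₀ hρ hOD
  choose p' r1 r2 r3 r4 r5 using q7
  have hl : ∀ᶠ x in (U : Filter (Set (Obj K O J))), ∀ a ∈ x, ∀ (l : List O)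
      (h : l.foldr max p₀.h < α), a = Obj.l l → Obj.r (p' l h) ∈ x := by
    refine hU.all fun a => ?_
    by_cases h : ∃ (l : List O), l.foldr max p₀.h < α ∧ a = Obj.l l
    · obtain ⟨l, h, rfl⟩ := h
      filter_upwards [hU.mem' (Obj.r (p' l h))] with x hx l' h' e1
      injection e1 with e1
      subst e1
      exact hx
    · exact Filter.Eventually.of_forall fun x l h' e1 => absurd ⟨l, h', e1⟩ h
  obtain ⟨x, y1, y2, y3, y4, y5, y6, y7⟩ := (h3.and (hset.and (hl.and ((gx5_cons hU).and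
    ((gx5_e hU).and ((hU.mem' (Obj.r q)).and (hU.mem' (Obj.o α)))))))).exists
  refine ((hBad _ _ _).1 y1).2.2.2 ⟨q, α, q1, y6, y7, q2, q3, q4, q5, q6, fun l hl' => ?_⟩
  have h6 : l.foldr max p₀.h < α := (gx5_foldr _ _ _).2 ⟨q3, fun y hy => (hl' y hy).1⟩
  have h7 : Obj.l l ∈ x := y4 l fun y hy => (hl' y hy).2
  have h8 : Obj.r (p' l h6) ∈ x := y3 _ h7 l h6 rfl
  exact ⟨p' l h6, r1 l h6, h8, r3 l h6, r4 l h6, y2 l _ (y5 l _ h7 h8) (r5 l h6)⟩

end CG
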