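import Pool.Agent.W_MP_7dc84e_h31.Defs

/-!
# MP_7dc84e_lc : the properties of the forcing which are used in the Boolean-valued model

`P` is a preorder (`q ≤ p`: `q` is stronger), `O` is a well-order of type `λ⁺` and `l : O` is the point such that `Iio l`
has type `λ`.  A subset of `O` in the extension is given by a relation `R : O → P → Prop`: `R x p` says that `p`
forces `x ∈ R`.
-/

set_option autoImplicit false
set_option linter.unusedSectionVars false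

universe u

open Cardinal Set

namespace CG

variable {O P : Type u} [LinearOrder O] [Preorder P]

/-- `R` is the forcing relation of a name of a subset of `A` -/
structure Reg {A : Type u} (R : A → P → Prop) : Prop where
  mono : ∀ a p q, R a p → q ≤ p → R a q
  reg : ∀ a p, (∀ q ≤ p, ∃ r ≤ q, R a r) → R a p

/-- `p` forces that `R` is a closed unbounded subset of `{x | x < β}` -/
structure ClubB (β : O) (R : O → P → Prop) (p : P) : Prop where
  unb : ∀ y < β, ∀ q ≤ p, ∃ r ≤ q, ∃ z, y < z ∧ z < β ∧ R z r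
  cl : ∀ x < β, IsLimPt x → ∀ q ≤ p,
    (∀ y < x, ∀ r ≤ q, ∃ t ≤ r, ∃ z, y < z ∧ z < x ∧ R z t) → R x q

/-- every condition forces that `R` is a closed unbounded subset of `O` -/
structure ClubN (R : O → P → Prop) : Prop extends Reg R where
  unb : ∀ y, ∀ p, ∃ q ≤ p, ∃ z, y < z ∧ R z q
  cl : ∀ x, IsLimPt x → ∀ p, (∀ y < x, ∀ q ≤ p, ∃ r ≤ q, ∃ z, y < z ∧ z < x ∧ R z r) → R x p

/-- `p` forces that `S` is stationary in `β` -/
def StatN (β : O) (S : O → P → Prop) (p : P) : Prop :=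
  ∀ R : O → P → Prop, Reg R → ∀ q ≤ p, ClubB β R q → ∃ r ≤ q, ∃ x < β, R x r ∧ S x r

/-- The properties of the forcing. -/
structure NCore (O P : Type u) [LinearOrder O] [Preorder P] (l : O) (S T : O → P → Prop) : Prop where
  ne : Nonempty P
  wf : WellFoundedLT O
  S_nm : Reg S
  T_nm : Reg T
  S_cof : ∀ x p, S x p → CofOm x
  seg : ∀ a : O, #(Iio a) ≤ #(Iio l)
  big : #(Iio l) < #O
  l_init : ∀ a < l, #(Iio a) < #(Iio l)
  l_inf : ℵ₀ ≤ #(Iio l)
  l_cof : CofOm l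
  /-- functions are covered by functions whose values are small sets -/
  cov : ∃ θ < #(Iio l), ∀ (A : Type u) (R : A → O → P → Prop), #A ≤ #(Iio l) →
    (∀ a x p q, R a x p → q ≤ p → R a x q) → (∀ a p, ∃ q ≤ p, ∃ x, R a x q) →
    ∀ p, ∃ q ≤ p, ∃ g : A → Set O, (∀ a, #(g a) ≤ θ) ∧ ∀ a, ∀ r ≤ q, ∃ t ≤ r, ∃ x ∈ g a, R a x t
  /-- no new sequences of length `ω` -/
  wd : ∀ R : ℕ → O → P → Prop, (∀ n x p q, R n x p → q ≤ p → R n x q) →
    (∀ n p, ∃ q ≤ p, ∃ x, R n x q) → ∀ p, ∃ q ≤ p, ∃ g : ℕ → O, ∀ n, R n (g n) q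
  /-- `S` is stationary -/
  stS : ∀ R : O → P → Prop, ClubN R → ∀ p, ∃ q ≤ p, ∃ x, R x q ∧ S x q
  /-- `T` is stationary -/
  stT : ∀ R : O → P → Prop, ClubN R → ∀ p, ∃ q ≤ p, ∃ x, R x q ∧ T x q
  /-- `S` reflects stationarily often -/
  refl : ∀ R : O → P → Prop, ClubN R → ∀ p, ∃ q ≤ p, ∃ β, IsLimPt β ∧ ¬ CofOm β ∧ R β q ∧
    StatN β S q
  /-- there is no `T`-concentrated club guessing sequence on `S`; `c x y p` says that `p` forces `y ∈ C_x` -/
  kill : ∀ c : O → O → P → Prop, (∀ x, Reg (c x)) →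
    (∀ x p, S x p → ∀ y < x, ∀ q ≤ p, ∃ r ≤ q, ∃ z, y < z ∧ z < x ∧ c x z r) →
    ∀ p, ∃ q ≤ p, ∃ R : O → P → Prop, ClubN R ∧ ∀ x, ∀ r ≤ q, S x r →
      ∃ t ≤ r, ∃ y, c x y t ∧ ∀ t' ≤ t, ¬ (R y t' ∧ T y t')

end CG
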