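import Pool.Agent.W_MP_7dc84e_h31.NcSet

/-!
# MP_7dc84e_lc : covering and distributivity of the forcing
-/

set_option autoImplicit false
set_option linter.unusedSectionVars false

universe u

open Cardinal Set

namespace CG

variable {O J Bt Th : Type u} [LinearOrder O] [LinearOrder J] [CompleteBooleanAlgebra Bt]
variable [WellFoundedLT O] [WellFoundedLT J]
variable {lam : Cardinal.{u}} {L : ℕ → Cardinal.{u}} {c : J → Nm O J Bt}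

/-- `B` is a `σ`-closed preorder and `e : B → Bt` is a dense embedding -/
structure SigB {B : Type u} [Preorder B] (e : B → Bt) : Prop where
  ne : ∀ b, e b ≠ ⊥
  mono : ∀ b b', b' ≤ b → e b' ≤ e b
  dense : ∀ x b, x ≠ ⊥ → x ≤ e b → ∃ b' ≤ b, e b' ≤ x
  dense' : ∀ x, x ≠ ⊥ → ∃ b, e b ≤ x
  sig : ∀ f : ℕ → B, (∀ n, f (n + 1) ≤ f n) → ∃ b, ∀ n, b ≤ f n

/-- Relations which depend on a name become open dense sets of pairs. -/
theorem openDense_of {R : O → Cnd lam c → Prop} (hm : ∀ x p q, R x p → q ≤ p → R x q)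
    (hd : ∀ p, ∃ q ≤ p, ∃ x, R x q) : OpenDense lam c univ
      (fun b u => ∃ (hb : b ≠ ⊥) (hu : F lam c u) (x : O), R x ⟨b, u, hb, hu⟩) := by
  constructor
  · rintro b u b' u' ⟨hb, hu, x, hx⟩ hbb hb' hu' hext
    exact ⟨hb', hu'.1, x, hm x _ _ hx ⟨hbb, hext⟩⟩
  · intro b u hb hu
    obtain ⟨q, hq, x, hx⟩ := hd ⟨b, u, hb, hu.1⟩
    exact ⟨q.b, q.p, hq.1, q.hb, ⟨q.hp, subset_univ _⟩, hq.2, q.hb, q.hp, x, hx⟩

/-- Covering.

PROOF.  Apply `term_dense` (`I = univ`) to `E a b u := ∃ hb hu x, R a x ⟨b, u, hb, hu⟩` (`openDense_of`): there is `q₁` with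
`F lam c q₁`, `Ext ⊤ q₁ p.p` and for all `a` and `b ≠ ⊥` some `b' ≤ b`, `b' ≠ ⊥` with `E a b' q₁`.  Let `q := (p.b, q₁)`.
For `a : A` and `b : Bt` with `E a b q₁` choose `x a b`, and let `g a` be the set of all these `x a b`; `#(g a) ≤ #Bt`
(`Cardinal.mk_range_le`).  Let `r ≤ q`; take `b' ≤ r.b`, `b' ≠ ⊥` with `E a b' q₁`.  `t := r.cut b'` is below `r`
and below `⟨b', q₁, ..⟩` (`Ext b' r.p q₁` from `r ≤ q` by `Ext.mono`), so `R a (x a b') t`. -/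
theorem cnd_cov (P : Par O J Bt Th lam L) (A : Type u) (R : A → O → Cnd lam c → Prop)
    (hA : #A ≤ lam) (hm : ∀ a x p q, R a x p → q ≤ p → R a x q)
    (hd : ∀ a p, ∃ q ≤ p, ∃ x, R a x q) (p : Cnd lam c) :
    ∃ q ≤ p, ∃ g : A → Set O, (∀ a, #(g a) ≤ #Bt) ∧
      ∀ a, ∀ r ≤ q, ∃ t ≤ r, ∃ x ∈ g a, R a x t := by
  classical
  obtain ⟨q₁, hq₁, hext, hE⟩ := term_dense P (I := univ) hA
    (fun a b u => ∃ (hb : b ≠ ⊥) (hu : F lam c u) (x : O), R a x ⟨b, u, hb, hu⟩)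
    (fun a => openDense_of (hm a) (hd a)) (p := p.p) ⟨p.hp, subset_univ _⟩
  refine ⟨⟨p.b, q₁, p.hb, hq₁.1⟩, ⟨le_rfl, hext.mono le_top⟩,
    fun a => Set.range (fun b : {b : Bt // ∃ x : O, ∃ hb : b ≠ ⊥, R a x ⟨b, q₁, hb, hq₁.1⟩} =>
      b.2.choose), fun a => mk_range_le.trans (mk_subtype_le _), ?_⟩
  intro a r hr
  obtain ⟨b', hb', hb'0, hb, hu, x0, hx0⟩ := hE a r.b r.hb
  have hex : ∃ x : O, ∃ hb : b' ≠ ⊥, R a x ⟨b', q₁, hb, hq₁.1⟩ := ⟨x0, hb, hx0⟩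
  obtain ⟨hb2, hx⟩ := hex.choose_spec
  refine ⟨r.cut b' hb'0, r.cut_le hb'0 hb', hex.choose, ⟨⟨b', hex⟩, rfl⟩, ?_⟩
  exact hm a _ _ _ hx ⟨le_rfl, hr.2.mono hb'⟩

/-- No new `ω`-sequences.

PROOF.  Choose `b₀ : B` with `e b₀ ≤ p.b` (`dense'`) and construct by recursion `b n : B`, raws `u n` with `F lam c (u n)` and
`g n : O` such that `b (n + 1) ≤ b n`, `Ext ⊤ (u (n + 1)) (u n)`, `R n (g n) ⟨e (b (n + 1)), u (n + 1), ..⟩`, `u 0 = p.p`.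
Step: by `hd` there is `q' ≤ ⟨e (b n), u n⟩` and `x` with `R n x q'`.  Let `u (n + 1) := mixR q'.b q'.p (u n)` (`F_mixR`):
`Ext ⊤ (u (n + 1)) (u n)` and `Ext q'.b (u (n + 1)) q'.p`.  By `dense` there is `b (n + 1) ≤ b n` with
`e (b (n + 1)) ≤ q'.b`.  Then `⟨e (b (n + 1)), u (n + 1)⟩ ≤ q'`.
Finally let `b ω ≤ b n` for all `n` (`sig`) and `u ω` a lower bound of the `u n` (`PF_closed` for `I = univ` and the index type
`ULift ℕ`, `ℵ₀ ≤ lam`).  `q := ⟨e (b ω), u ω⟩` is below `⟨e (b (n + 1)), u (n + 1)⟩` for all `n` and below `p`. -/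
theorem cnd_wd (P : Par O J Bt Th lam L) {B : Type u} [Preorder B] {e : B → Bt} (hB : SigB e)
    (R : ℕ → O → Cnd lam c → Prop) (hm : ∀ n x p q, R n x p → q ≤ p → R n x q)
    (hd : ∀ n p, ∃ q ≤ p, ∃ x, R n x q) (p : Cnd lam c) :
    ∃ q ≤ p, ∃ g : ℕ → O, ∀ n, R n (g n) q := by
  classical
  have step : ∀ (n : ℕ) (s : B × {u : Raw O J Bt // F lam c u}),
      ∃ (s' : B × {u : Raw O J Bt // F lam c u}) (x : O), s'.1 ≤ s.1 ∧ Ext ⊤ s'.2.1 s.2.1 ∧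
        R n x ⟨e s'.1, s'.2.1, hB.ne _, s'.2.2⟩ := by
    intro n s
    obtain ⟨q', hq', x, hx⟩ := hd n ⟨e s.1, s.2.1, hB.ne _, s.2.2⟩
    have hq1 : q'.b ≤ e s.1 := hq'.1
    have hq2 : Ext q'.b q'.p s.2.1 := hq'.2
    obtain ⟨b', hb', hb'2⟩ := hB.dense q'.b s.1 q'.hb hq1
    refine ⟨(b', ⟨mixR q'.b q'.p s.2.1, F_mixR P.aleph q'.hp s.2.2 hq2⟩), x, hb',
      ext_mixR_top s.2.2.1 hq2, ?_⟩
    exact hm n x _ _ hx ⟨hb'2, (ext_mixR_left _ _ _).mono hb'2⟩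
  choose stp xs h1 h2 h3 using step
  obtain ⟨b₀, hb₀⟩ := hB.dense' p.b p.hb
  let s : ℕ → B × {u : Raw O J Bt // F lam c u} :=
    fun n => Nat.rec (b₀, ⟨p.p, p.hp⟩) (fun n s => stp n s) n
  have hs : ∀ n, s (n + 1) = stp n (s n) := fun n => rfl
  have hs0 : s 0 = (b₀, ⟨p.p, p.hp⟩) := rfl
  have hb : ∀ n, (s (n + 1)).1 ≤ (s n).1 := fun n => by rw [hs]; exact h1 n (s n)
  have hu : ∀ {m n : ℕ}, m ≤ n → Ext ⊤ (s n).2.1 (s m).2.1 := by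
    intro m n hmn
    induction n, hmn using Nat.le_induction with
    | base => exact Ext.refl _ _
    | succ n _ ih =>
      rw [hs]
      exact (h2 n (s n)).trans ih
  obtain ⟨bw, hbw⟩ := hB.sig (fun n => (s n).1) hb
  have hcard : #(ULift.{u} ℕ) ≤ lam := by
    rw [mk_uLift, mk_nat, lift_aleph0]
    exact P.aleph
  obtain ⟨uw, huw, huw2⟩ := PF_closed P (I := univ) hcard (fun n => (s n.down).2.1)
    (fun n => (⟨(s n.down).2.2, subset_univ _⟩ : PF lam c univ _))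
    ⟨⟨⟨0⟩⟩, fun m n => ⟨⟨max m.down n.down⟩, hu (le_max_left _ _), hu (le_max_right _ _)⟩⟩
  refine ⟨⟨e bw, uw, hB.ne _, huw.1⟩, ⟨?_, ?_⟩, fun n => xs n (s n), fun n => ?_⟩
  · exact (hB.mono _ _ (hbw 0)).trans hb₀
  · exact (huw2 ⟨0⟩).mono le_top
  · have h4 := h3 n (s n)
    refine hm n _ _ _ h4 ⟨?_, ?_⟩
    · exact hB.mono _ _ (hbw (n + 1))
    · exact (huw2 ⟨n + 1⟩).mono le_top

/-- The cofinal sets can be decided on a cofinal subset.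

PROOF.  `CofOm x` by `SN_cof` (`SN x p`): let `f n < x` be cofinal.  Let `R n z q := (q and p are incompatible) ∨
(f n < z ∧ z < x ∧ cc z q)`, where incompatible means `¬ ∃ r, r ≤ q ∧ r ≤ p`.  `R` is monotone and dense: given `q`, if `q`, `p` are
compatible, let `r ≤ q, p`; by `hc` for `y := f n` there are `t ≤ r`, `z` with `f n < z < x`, `cc z t`.
`cnd_wd` gives `q ≤ p` and `g`; `q` is compatible with `p`, so `f n < g n < x` and `cc (g n) q`.  Take `C := range g`. -/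
theorem cnd_decide (P : Par O J Bt Th lam L) {B : Type u} [Preorder B] {e : B → Bt}
    (hB : SigB e) {cc : O → Cnd lam c → Prop} (hm : Reg cc) {x : O} {p : Cnd lam c}
    (hS : SN x p) (hc : ∀ y < x, ∀ q ≤ p, ∃ r ≤ q, ∃ z, y < z ∧ z < x ∧ cc z r) :
    ∃ q ≤ p, ∃ C, Cof C x ∧ ∀ y ∈ C, cc y q := by
  classical
  obtain ⟨f, hf1, hf2⟩ := SN_cof x p hS
  obtain ⟨q, hq, g, hg⟩ := cnd_wd P hB
    (fun n z q => (¬ ∃ r, r ≤ q ∧ r ≤ p) ∨ (f n < z ∧ z < x ∧ cc z q))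
    (by
      rintro n z q q' (h | h) hqq
      · exact Or.inl fun h' => h (by
          obtain ⟨r, hr1, hr2⟩ := h'
          exact ⟨r, hr1.trans hqq, hr2⟩)
      · exact Or.inr ⟨h.1, h.2.1, hm.mono _ _ _ h.2.2 hqq⟩)
    (by
      intro n q
      by_cases h : ∃ r, r ≤ q ∧ r ≤ p
      · obtain ⟨r, hr1, hr2⟩ := h
        obtain ⟨t, ht, z, hz1, hz2, hz3⟩ := hc (f n) (hf1 n) r hr2
        exact ⟨t, ht.trans hr1, z, Or.inr ⟨hz1, hz2, hz3⟩⟩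
      · exact ⟨q, le_rfl, x, Or.inl h⟩) p
  have hg' : ∀ n, f n < g n ∧ g n < x ∧ cc (g n) q := fun n =>
    (hg n).resolve_left fun h => h ⟨q, le_rfl, hq⟩
  refine ⟨q, hq, Set.range g, ⟨?_, ?_⟩, ?_⟩
  · rintro _ ⟨n, rfl⟩
    exact (hg' n).2.1
  · intro y hy
    obtain ⟨n, hn⟩ := hf2 y hy
    exact ⟨g n, ⟨n, rfl⟩, hn.trans (hg' n).1⟩
  · rintro _ ⟨n, rfl⟩
    exact (hg' n).2.2

end CG
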