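import Pool.Agent.W_MP_7dc84e_h31.NC
import Pool.Agent.W_MP_7dc84e_h31.CC
import Pool.Agent.W_MP_7dc84e_h31.Dist

/-!
# MP_7dc84e_lc : the generic sets
-/

set_option autoImplicit false
set_option linter.unusedSectionVars false

universe u

open Cardinal Set

namespace CG

variable {O J Bt Th : Type u} [LinearOrder O] [LinearOrder J] [CompleteBooleanAlgebra Bt]
variable [WellFoundedLT O] [WellFoundedLT J]
variable {lam : Cardinal.{u}} {L : ℕ → Cardinal.{u}} {c : J → Nm O J Bt}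

/-- the generic set `S` -/
def SN (x : O) (p : Cnd lam c) : Prop := p.b ≤ p.p.S x

/-- the generic set `T` -/
def TN (x : O) (p : Cnd lam c) : Prop := p.b ≤ p.p.T x

/-- the generic club of the coordinate `j` -/
def DN (j : J) (x : O) (p : Cnd lam c) : Prop := ∀ q ≤ p, ∃ r ≤ q, j ∈ r.p.W ∧ r.b ≤ r.p.d j x

/-- the condition `p` with a smaller first coordinate -/
def Cnd.cut (p : Cnd lam c) (b : Bt) (hb : b ≠ ⊥) : Cnd lam c := ⟨b, p.p, hb, p.hp⟩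

theorem Cnd.cut_le (p : Cnd lam c) {b : Bt} (hb : b ≠ ⊥) (h : b ≤ p.b) : p.cut b hb ≤ p :=
  ⟨h, Ext.refl _ _⟩

/-- Extension of a condition to an arbitrary height, with no new elements of `S`, `T`.

PROOF.  If `x ≤ p.p.h`, take `p`.  Otherwise take `(p.b, extR p.p x)` (`F_extR`, `ext_extR`). -/
theorem exists_height (p : Cnd lam c) (x : O) :
    ∃ q ≤ p, q.b = p.b ∧ x ≤ q.p.h ∧ q.p.S = p.p.S ∧ q.p.T = p.p.T ∧ q.p.W = p.p.W := by
  rcases le_or_gt x p.p.h with hx | hx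
  · exact ⟨p, le_rfl, rfl, hx, rfl, rfl, rfl⟩
  · exact ⟨⟨p.b, extR p.p x, p.hb, F_extR p.hp hx.le⟩,
      ⟨le_rfl, (ext_extR p.hp.1 hx.le).mono le_top⟩, rfl, le_rfl, rfl, rfl, rfl⟩

/-- PROOF.  `(p.b, addR {j} p.p)` (`F_addR`, `ext_addR`). -/
theorem exists_supp (hl : ℵ₀ ≤ lam) (p : Cnd lam c) (j : J) :
    ∃ q ≤ p, q.b = p.b ∧ j ∈ q.p.W ∧ q.p.h = p.p.h ∧ q.p.S = p.p.S ∧ q.p.T = p.p.T := by
  have hX : #({j} : Set J) ≤ lam := by
    rw [mk_singleton]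
    exact one_le_aleph0.trans hl
  exact ⟨⟨p.b, addR {j} p.p, p.hb, F_addR p.hp hl hX⟩, ⟨le_rfl, ext_addR.mono le_top⟩, rfl,
    Or.inr rfl, rfl, rfl, rfl⟩

theorem ncset_ne_bot {b y : Bt} (h : ¬ b ≤ y) : b ⊓ yᶜ ≠ ⊥ := fun h0 =>
  h (disjoint_compl_right_iff.1 (disjoint_iff.2 h0))

theorem ncset_bot {b y : Bt} (h1 : b ≤ y) (h2 : b ≤ yᶜ) : b = ⊥ :=
  le_bot_iff.1 ((le_inf h1 h2).trans (inf_compl_self y).le)

/-- If `q ≤ p`, `x ≤ p.p.h`, then `q.b ⊓ q.p.S x = q.b ⊓ p.p.S x`: from `Ext.S`.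

PROOF of the statement.  `mono`: `Ext.le_S`.  `reg`: suppose that every `q ≤ p` has an extension `r` with
`r.b ≤ r.p.S x`, and let `b := p.b ⊓ (p.p.S x)ᶜ`; suppose `b ≠ ⊥`.  If `x ≤ p.p.h`, let `r` be an extension of
`q := p.cut b` as above; `r.b = r.b ⊓ r.p.S x = r.b ⊓ p.p.S x = ⊥` since `r.b ≤ b`, a contradiction.  If `p.p.h < x`, then
`p.p.S x = ⊥` (`S_hi`); let `q` be the extension of `p` from `exists_height p x`: `q.p.S x = p.p.S x = ⊥`, and for the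
extension `r` of `q` we get `r.b = r.b ⊓ r.p.S x = r.b ⊓ q.p.S x = ⊥`. -/
theorem reg_SN : Reg (SN (lam := lam) (c := c)) := by
  refine ⟨fun x p q h hq => hq.2.le_S p.hp.1 le_rfl (hq.1.trans h), fun x p hR => ?_⟩
  by_contra hcon
  have hb := ncset_ne_bot hcon
  rcases le_or_gt x p.p.h with hx | hx
  · obtain ⟨r, hr, hrS⟩ := hR (p.cut _ hb) (p.cut_le hb inf_le_left)
    have h1 : r.b ⊓ r.p.S x = r.b ⊓ p.p.S x := hr.2.S x hx
    rw [inf_eq_left.2 (show r.b ≤ r.p.S x from hrS)] at h1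
    exact r.hb (ncset_bot (inf_eq_left.1 h1.symm) (hr.1.trans inf_le_right))
  · obtain ⟨q, hq, -, hxq, hS, hT, -⟩ := exists_height p x
    obtain ⟨r, hr, hrS⟩ := hR q hq
    have h1 : r.b ⊓ r.p.S x = r.b ⊓ q.p.S x := hr.2.S x hxq
    rw [inf_eq_left.2 (show r.b ≤ r.p.S x from hrS), hS, p.hp.1.S_hi x hx, inf_bot_eq] at h1
    exact r.hb h1

/-- PROOF.  As `reg_SN`. -/
theorem reg_TN : Reg (TN (lam := lam) (c := c)) := by
  refine ⟨fun x p q h hq => hq.2.le_T p.hp.1 le_rfl (hq.1.trans h), fun x p hR => ?_⟩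
  by_contra hcon
  have hb := ncset_ne_bot hcon
  rcases le_or_gt x p.p.h with hx | hx
  · obtain ⟨r, hr, hrS⟩ := hR (p.cut _ hb) (p.cut_le hb inf_le_left)
    have h1 : r.b ⊓ r.p.T x = r.b ⊓ p.p.T x := hr.2.T x hx
    rw [inf_eq_left.2 (show r.b ≤ r.p.T x from hrS)] at h1
    exact r.hb (ncset_bot (inf_eq_left.1 h1.symm) (hr.1.trans inf_le_right))
  · obtain ⟨q, hq, -, hxq, hS, hT, -⟩ := exists_height p x
    obtain ⟨r, hr, hrS⟩ := hR q hq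
    have h1 : r.b ⊓ r.p.T x = r.b ⊓ q.p.T x := hr.2.T x hxq
    rw [inf_eq_left.2 (show r.b ≤ r.p.T x from hrS), hT, p.hp.1.T_hi x hx, inf_bot_eq] at h1
    exact r.hb h1

/-- PROOF.  `p.b ≠ ⊥`, so `p.p.S x ≠ ⊥`; `Basic.S_cof`. -/
theorem SN_cof (x : O) (p : Cnd lam c) (h : SN x p) : CofOm x :=
  p.hp.1.S_cof x fun h0 => p.hb (le_bot_iff.1 (h0 ▸ h))

/-- The generic clubs.

PROOF.  `mono`, `reg`: immediate from the form of the definition (densely below `p`).  `unb`: given `y`, `p` choose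
`z > y` with `z > p.p.h` (`Par.exists_gt`); let `q₀ ≤ p` with `j ∈ q₀.p.W` (`exists_supp`), `q := (q₀.b, extR q₀.p z)`
(`F_extR`); `q.p.d j z = ⊤`.  Then `DN j z q`: for `r ≤ q` itself `j ∈ r.p.W`, `r.b ≤ r.p.d j z` by `Ext.le_d`.
`cl`: let `x` be a limit point and `p` with the property `(*)`: for all `y < x`, `q ≤ p` there are `r ≤ q` and `z ∈ (y, x)` with
`DN j z r`.  Let `q ≤ p`.  By `exists_supp`, `exists_height` there is `r ≤ q` with `j ∈ r.p.W`, `x ≤ r.p.h`.  Claim: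
`r.b ≤ ⨅ y : Iio x, ⨆ z : Ioo y x, r.p.d j z`, so `r.b ≤ r.p.d j x` by `d_cl`.  Suppose not; then there is `y < x` with
`b := r.b ⊓ (⨆ z : Ioo y x, r.p.d j z)ᶜ ≠ ⊥`.  By `(*)` there are `r' ≤ r.cut b` and `z ∈ (y, x)` with `DN j z r'`, and so
`r'' ≤ r'` with `r''.b ≤ r''.p.d j z`.  But `r''.b ⊓ r''.p.d j z = r''.b ⊓ r.p.d j z` (`z ≤ r.p.h`, `j ∈ r.p.W`), hence
`r''.b ≤ r.p.d j z ≤ ⨆ z, r.p.d j z` and `r''.b ≤ b`, so `r''.b = ⊥`.  Contradiction. -/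
theorem clubN_DN (P : Par O J Bt Th lam L) (j : J) : ClubN (DN (lam := lam) (c := c) j) where
  mono := fun _ _ _ h hq r hr => h r (hr.trans hq)
  reg := fun x p h q hq => by
    obtain ⟨r, hr, hr'⟩ := h q hq
    obtain ⟨t, ht, h1⟩ := hr' r le_rfl
    exact ⟨t, ht.trans hr, h1⟩
  unb := fun y p => by
    obtain ⟨z, hz⟩ := P.exists_gt (max y p.p.h)
    obtain ⟨q0, hq0, -, hj, hh, -, -⟩ := exists_supp P.aleph p j
    have hz' : q0.p.h ≤ z := by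
      rw [hh]
      exact (le_max_right _ _).trans hz.le
    refine ⟨⟨q0.b, extR q0.p z, q0.hb, F_extR q0.hp hz'⟩,
      le_trans (show _ ≤ q0 from ⟨le_rfl, (ext_extR q0.hp.1 hz').mono le_top⟩) hq0, z,
      (le_max_left _ _).trans_lt hz, ?_⟩
    intro r hr
    refine ⟨r, le_rfl, hr.2.W hj, ?_⟩
    refine hr.2.le_d (F_extR q0.hp hz').1 le_rfl ?_
    exact le_top.trans (amal0_extR_mem hj).ge
  cl := fun x hx p hstar q hq => by
    obtain ⟨q1, hq1, -, hj1, -, -, -⟩ := exists_supp P.aleph q j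
    obtain ⟨r, hr, -, hxr, -, -, hW⟩ := exists_height q1 x
    have hjr : j ∈ r.p.W := by
      rw [hW]
      exact hj1
    refine ⟨r, hr.trans hq1, hjr, ?_⟩
    refine le_trans ?_ (r.hp.1.d_cl j x hx)
    refine le_iInf fun y => ?_
    by_contra hcon
    have hb := ncset_ne_bot hcon
    obtain ⟨r', hr', z, hyz, hzx, hD⟩ := hstar y.1 y.2 (r.cut _ hb)
      ((r.cut_le hb inf_le_left).trans (hr.trans (hq1.trans hq)))
    obtain ⟨r2, hr2, -, hle⟩ := hD r' le_rfl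
    have h3 : r2 ≤ r.cut _ hb := hr2.trans hr'
    have h4 : r2.b ⊓ r2.p.d j z = r2.b ⊓ r.p.d j z := h3.2.d j hjr z (hzx.le.trans hxr)
    rw [inf_eq_left.2 hle] at h4
    have h5 : r2.b ≤ r.p.d j z := inf_eq_left.1 h4.symm
    have h6 : r.p.d j z ≤ ⨆ z : Ioo y.1 x, r.p.d j z.1 :=
      le_iSup (fun z : Ioo y.1 x => r.p.d j z.1) ⟨z, hyz, hzx⟩
    exact r2.hb (ncset_bot (h5.trans h6) (h3.1.trans inf_le_right))

end CG
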