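import Pool.Agent.W_MP_7dc84e_h31.Stage

/-!
# MP_7dc84e_lc : the sequence of systems
-/

set_option autoImplicit false
set_option linter.unusedSectionVars false

universe u

open Cardinal Set

namespace CG

variable {O J Bt Th : Type u} [LinearOrder O] [LinearOrder J] [CompleteBooleanAlgebra Bt]
variable [WellFoundedLT O] [WellFoundedLT J]
variable {lam : Cardinal.{u}} {L : ℕ → Cardinal.{u}} {c : J → Nm O J Bt}

/-- the data at stage `n` of the construction of the sequence -/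
structure SqOk (lam : Cardinal.{u}) (L : ℕ → Cardinal.{u}) (c : J → Nm O J Bt) (n : ℕ)
    (w : Set J) (X : Sys O J Bt Th) (G : ℕ → Set J) : Prop where
  sys : IsSys lam c w X
  card : #w ≤ L n
  Gmono : Monotone G
  Gcard : ∀ m, #(G m) ≤ L m
  Gsub : ∀ m, G m ⊆ X.W
  Gsup : X.W ⊆ ⋃ m, G m

/-- a filtration of a set of size `≤ lam` -/
theorem sq_filt (P : Par O J Bt Th lam L) {W : Set J} (hW : #W ≤ lam) :
    ∃ G : ℕ → Set J, Monotone G ∧ (∀ m, #(G m) ≤ L m) ∧ (∀ m, G m ⊆ W) ∧ W ⊆ ⋃ m, G m := by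
  obtain ⟨f, hf⟩ := P.dec W hW
  refine ⟨fun m => {j | ∃ h : j ∈ W, f ⟨j, h⟩ ≤ m}, ?_, ?_, ?_, ?_⟩
  · intro m m' hm j hj
    obtain ⟨h, h'⟩ := hj
    exact ⟨h, h'.trans hm⟩
  · intro m
    have h1 : {j | ∃ h : j ∈ W, f ⟨j, h⟩ ≤ m} = Subtype.val '' {a : W | f a ≤ m} := by
      ext j
      constructor
      · rintro ⟨h, h'⟩
        exact ⟨⟨j, h⟩, h', rfl⟩
      · rintro ⟨⟨i, hi⟩, h', rfl⟩
        exact ⟨hi, h'⟩
    show #({j | ∃ h : j ∈ W, f ⟨j, h⟩ ≤ m} : Set J) ≤ L m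
    rw [h1]
    exact Cardinal.mk_image_le.trans (hf m)
  · rintro m j ⟨h, -⟩
    exact h
  · intro j hj
    exact mem_iUnion.2 ⟨f ⟨j, hj⟩, hj, le_rfl⟩

/-- one step of the recursion -/
theorem sq_step (P : Par O J Bt Th lam L) {Y : Type u} {ρ : Y → O}
    (hρ : ∀ a, #{y // ρ y < a} ≤ lam) {E : Y → Raw O J Bt → Prop} (hE : ODs lam c E) {n : ℕ}
    {w : Set J} {X : Sys O J Bt Th} {G : ℕ → Set J} (h : SqOk lam L c n w X G) :
    ∃ (X' : Sys O J Bt Th) (G' : ℕ → Set J), SqOk lam L c (n + 1) (w ∪ G (n + 1)) X' G' ∧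
      SLE X' X ∧ X.h < X'.h ∧ Dis (w ∪ G (n + 1)) X.h X' ∧
      (∀ y t, ρ y < X.h → E y (X'.cond t)) ∧ ∀ m, G m ⊆ G' m := by
  have hTh : Nonempty Th := by
    rw [← Cardinal.mk_ne_zero_iff]
    exact (Cardinal.aleph0_pos.trans_le P.Th_inf).ne'
  have hcard : #(w ∪ G (n + 1) : Set J) ≤ L (n + 1) := by
    refine (Cardinal.mk_union_le _ _).trans ?_
    calc #w + #(G (n + 1)) ≤ L (n + 1) + L (n + 1) :=
          add_le_add (h.card.trans (P.L_mono (Nat.le_succ n))) (h.Gcard (n + 1))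
      _ = L (n + 1) := Cardinal.add_eq_self (P.L_aleph (n + 1))
  have hsys : IsSys lam c (w ∪ G (n + 1)) X :=
    h.sys.mono subset_union_left (union_subset h.sys.hw (h.Gsub (n + 1)))
  have hE' : ODs lam c (fun (y : {y // ρ y < X.h}) => E y.1) :=
    ⟨fun y => hE.op y.1, fun y => hE.de y.1⟩
  obtain ⟨X', h1, h2, h3, h4, h5⟩ := stage P hcard hsys (hρ X.h) hE'
  have t0 : J → Th := fun _ => hTh.some
  have hW' : #X'.W ≤ lam := (h1.ok t0).1.W_small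
  obtain ⟨F', f1, f2, f3, f4⟩ := sq_filt P hW'
  refine ⟨X', fun m => G m ∪ F' m, ⟨h1, hcard, ?_, ?_, ?_, ?_⟩, h2, h3, h4,
    fun y t hy => h5 ⟨y, hy⟩ t, fun m => subset_union_left⟩
  · intro m m' hm
    exact union_subset_union (h.Gmono hm) (f1 hm)
  · intro m
    refine (Cardinal.mk_union_le _ _).trans ?_
    calc #(G m) + #(F' m) ≤ L m + L m := add_le_add (h.Gcard m) (f2 m)
      _ = L m := Cardinal.add_eq_self (P.L_aleph m)
  · intro m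
    exact union_subset ((h.Gsub m).trans (h2 t0).W) (f3 m)
  · intro j hj
    obtain ⟨m, hm⟩ := mem_iUnion.1 (f4 hj)
    exact mem_iUnion.2 ⟨m, Or.inr hm⟩

/-- The sequence of systems.

PROOF.  Let `h' > p0.h`, `X 0` the constant system with `(X 0).cond t = extR p0 h'` for all `t` (with `w 0 = ∅`;
`extR_T` gives `hT`).  By recursion construct `(w n, X n, G n)` where `IsSys lam c (w n) (X n)`, `#(w n) ≤ L n`,
`G n : ℕ → Set J` is monotone, `#(G n m) ≤ L m`, `G n m ⊆ (X n).W` and `(X n).W ⊆ ⋃ m, G n m`.  For `n = 0` take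
`f : (X 0).W → ℕ` from `P.dec` and `G 0 m := {j | ∃ h : j ∈ (X 0).W, f ⟨j, h⟩ ≤ m}`.  Given the data for `n`, let
`w (n + 1) := w n ∪ G n (n + 1)` (a subset of `(X n).W` of size `≤ L n + L (n + 1) ≤ L (n + 1)`); `X n` is a system for
`w (n + 1)` (`IsSys.mono`).  Let `X (n + 1)` be given by `stage` for the requirements `{y // ρ y < (X n).h}`.
Let `f` be as in `P.dec` for `(X (n + 1)).W` and `G (n + 1) m := G n m ∪ {j | ∃ h : j ∈ (X (n + 1)).W, f ⟨j, h⟩ ≤ m}`.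
Let `α` be the supremum of the heights (`exists_sup_seq`).  `supp`: let `j ∈ (X n).W`, so `j ∈ G n m` for some `m`; for
`m' ≥ n, m` we have `j ∈ G n m ⊆ G n (m' + 1) ⊆ G m' (m' + 1) ⊆ w (m' + 1)`. -/
theorem exists_seq (P : Par O J Bt Th lam L) {p0 : Raw O J Bt} (hp0 : F lam c p0) {Y : Type u}
    {ρ : Y → O} (hρ : ∀ a, #{y // ρ y < a} ≤ lam) {E : Y → Raw O J Bt → Prop}
    (hE : ODs lam c E) :
    ∃ (w : ℕ → Set J) (X : ℕ → Sys O J Bt Th) (α : O), SeqD lam c w X α ∧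
      (∀ t, Ext ⊤ ((X 0).cond t) p0) ∧ ∀ n y t, ρ y < (X n).h → E y ((X (n + 1)).cond t) := by
  obtain ⟨h', hh'⟩ := P.exists_gt p0.h
  obtain ⟨G0, g1, g2, g3, g4⟩ := sq_filt P hp0.1.W_small
  let X0 : Sys O J Bt Th := ⟨h', p0.S, p0.T, p0.W, fun _ => (extR p0 h').d⟩
  have hX0 : ∀ t, X0.cond t = extR p0 h' := fun t => rfl
  have hsys0 : IsSys lam c ∅ X0 := by
    refine ⟨fun t => ?_, fun t t' k _ => rfl, empty_subset _, ?_⟩
    · rw [hX0]
      exact F_extR hp0 hh'.le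
    · exact extR_T hp0.1 hh'
  have hok0 : SqOk lam L c 0 ∅ X0 G0 := by
    refine ⟨hsys0, ?_, g1, g2, g3, g4⟩
    rw [Cardinal.mk_eq_zero]
    exact zero_le
  let St : ℕ → Type u := fun n =>
    {s : Set J × Sys O J Bt Th × (ℕ → Set J) // SqOk lam L c n s.1 s.2.1 s.2.2}
  have hstep : ∀ (n : ℕ) (s : St n), ∃ s' : St (n + 1),
      s'.1.1 = s.1.1 ∪ s.1.2.2 (n + 1) ∧ SLE s'.1.2.1 s.1.2.1 ∧ s.1.2.1.h < s'.1.2.1.h ∧
      Dis s'.1.1 s.1.2.1.h s'.1.2.1 ∧ (∀ y t, ρ y < s.1.2.1.h → E y (s'.1.2.1.cond t)) ∧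
      ∀ m, s.1.2.2 m ⊆ s'.1.2.2 m := by
    rintro n ⟨⟨w, X, G⟩, hs⟩
    obtain ⟨X', G', a1, a2, a3, a4, a5, a6⟩ := sq_step P hρ hE hs
    exact ⟨⟨⟨w ∪ G (n + 1), X', G'⟩, a1⟩, rfl, a2, a3, a4, a5, a6⟩
  choose nx k1 k2 k3 k4 k5 k6 using hstep
  let s0 : St 0 := ⟨⟨∅, X0, G0⟩, hok0⟩
  let st : ∀ n, St n := fun n => Nat.rec (motive := St) s0 (fun n s => nx n s) n
  have hst0 : st 0 = s0 := rfl
  have hst : ∀ n, st (n + 1) = nx n (st n) := fun n => rfl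
  have m1 : ∀ n, (st (n + 1)).1.1 = (st n).1.1 ∪ (st n).1.2.2 (n + 1) := fun n => k1 n (st n)
  have m2 : ∀ n, SLE (st (n + 1)).1.2.1 (st n).1.2.1 := fun n => k2 n (st n)
  have m3 : ∀ n, (st n).1.2.1.h < (st (n + 1)).1.2.1.h := fun n => k3 n (st n)
  have m4 : ∀ n, Dis (st (n + 1)).1.1 (st n).1.2.1.h (st (n + 1)).1.2.1 := fun n => k4 n (st n)
  have m5 : ∀ n y t, ρ y < (st n).1.2.1.h → E y ((st (n + 1)).1.2.1.cond t) :=
    fun n => k5 n (st n)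
  have m6 : ∀ n m, (st n).1.2.2 m ⊆ (st (n + 1)).1.2.2 m := fun n => k6 n (st n)
  have m7 : ∀ m, Monotone fun n => (st n).1.2.2 m := fun m =>
    monotone_nat_of_le_succ fun n => m6 n m
  obtain ⟨α, hα1, hα2, -, -, -⟩ := exists_sup_seq P (fun n => (st n).1.2.1.h) m3
  refine ⟨fun n => (st n).1.1, fun n => (st n).1.2.1, α,
    ⟨fun n => (st n).2.sys, fun n => ?_, m2, m3, m4, fun n j hj => ?_, hα1, hα2⟩,
    fun t => ?_, fun n y t hy => m5 n y t hy⟩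
  · show (st n).1.1 ⊆ (st (n + 1)).1.1
    rw [m1]
    exact subset_union_left
  · obtain ⟨m, hm⟩ := mem_iUnion.1 ((st n).2.Gsup hj)
    refine mem_iUnion.2 ⟨max n m + 1, ?_⟩
    show j ∈ (st (max n m + 1)).1.1
    rw [m1]
    refine Or.inr ?_
    have e1 : j ∈ (st n).1.2.2 (max n m + 1) :=
      (st n).2.Gmono ((le_max_right n m).trans (Nat.le_succ _)) hm
    exact m7 (max n m + 1) (le_max_left n m) e1
  · show Ext ⊤ (X0.cond t) p0
    rw [hX0]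
    exact ext_extR hp0.1 hh'.le

end CG
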