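import Pool.Agent.W_MP_7dc84e_h31.Branch
import Pool.Agent.W_MP_7dc84e_h31.Seq

/-!
# MP_7dc84e_lc : the genericity lemmas for `S` and `T`
-/

set_option autoImplicit false
set_option linter.unusedSectionVars false

universe u

open Cardinal Set

namespace CG

variable {O J Bt Th : Type u} [LinearOrder O] [LinearOrder J] [CompleteBooleanAlgebra Bt]
variable [WellFoundedLT O] [WellFoundedLT J]
variable {lam : Cardinal.{u}} {L : ℕ → Cardinal.{u}} {c : J → Nm O J Bt}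

/-- Genericity for `S`.

PROOF.  `exists_seq` gives `w`, `X`, `α`, `branch` gives `t`, `q`.  `Ext ⊤ q ((X n).cond t)` for all `n` by `ext_limX`; so
`Ext ⊤ q p0`.  `CofOm α` by `SeqD.lub`; `α = (limX X α t).h ≤ q.h`; `q.S α = (limX X α t).S α = ⊤` (`limX_S_top`).  Let
`ρ y < α`; `ρ y < (X n).h` for some `n` (`cofα`).  Take `p' := (X (n + 1)).cond t`. -/
theorem stS_gen (P : Par O J Bt Th lam L) {p0 : Raw O J Bt} (hp0 : F lam c p0) {Y : Type u}
    {ρ : Y → O} (hρ : ∀ a, #{y // ρ y < a} ≤ lam) {E : Y → Raw O J Bt → Prop}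
    (hE : ODs lam c E) :
    ∃ (q : Raw O J Bt) (α : O), F lam c q ∧ Ext ⊤ q p0 ∧ p0.h < α ∧ CofOm α ∧ α ≤ q.h ∧
      q.S α = ⊤ ∧
      ∀ y, ρ y < α → ∃ p', F lam c p' ∧ Ext ⊤ p' p0 ∧ Ext ⊤ q p' ∧ p'.h < α ∧ E y p' := by
  obtain ⟨w, X, α, hS, h0, hreq⟩ := exists_seq P hp0 hρ hE
  obtain ⟨t, q, hq, hqX⟩ := branch P hS
  have hX : ∀ n, Ext ⊤ q ((X n).cond t) := fun n => hqX.trans (ext_limX hS t n)
  have hle : p0.h ≤ (X 0).h := (h0 t).h
  refine ⟨q, α, hq, (hX 0).trans (h0 t), lt_of_le_of_lt hle (hS.hα 0), hS.lub.2, hqX.h, ?_, ?_⟩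
  · rw [hqX.S_eq (x := α) le_rfl, limX_S_top]
  · intro y hy
    obtain ⟨n, hn⟩ := hS.cofα _ hy
    exact ⟨(X (n + 1)).cond t, (hS.sys (n + 1)).ok t,
      (limX_sle hS (Nat.zero_le (n + 1)) t).trans (h0 t), hX (n + 1), hS.hα (n + 1),
      hreq n y t hn⟩

/-- Genericity for `T`.

PROOF.  Construct a sequence of conditions `p n` with `p 0 = p0`, `Ext ⊤ (p (n + 1)) (p n)`, `(p n).h < (p (n + 1)).h` and
`E y (p (n + 1))` for all `y` with `ρ y < (p n).h` (`PF_dist` with `I = univ` for the index set `{y // ρ y < (p n).h}`, then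
`extR` to a larger height, which preserves `E y` by `hE.op`).  Let `α` be the supremum of the heights (`exists_sup_seq`) and
`q := limR p α ⊥ ⊤`: a condition by `F_lim` (`LimOk` by the second alternative), extending all `p n` by `ext_lim`, and
`q.T α = ⊤`, `q.h = α`. -/
theorem stT_gen (P : Par O J Bt Th lam L) {p0 : Raw O J Bt} (hp0 : F lam c p0) {Y : Type u}
    {ρ : Y → O} (hρ : ∀ a, #{y // ρ y < a} ≤ lam) {E : Y → Raw O J Bt → Prop}
    (hE : ODs lam c E) :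
    ∃ (q : Raw O J Bt) (α : O), F lam c q ∧ Ext ⊤ q p0 ∧ p0.h < α ∧ CofOm α ∧ α ≤ q.h ∧
      q.T α = ⊤ ∧
      ∀ y, ρ y < α → ∃ p', F lam c p' ∧ Ext ⊤ p' p0 ∧ Ext ⊤ q p' ∧ p'.h < α ∧ E y p' := by
  classical
  -- one step of the construction
  have hstep : ∀ p : {p : Raw O J Bt // F lam c p}, ∃ q : {q : Raw O J Bt // F lam c q},
      Ext ⊤ q.1 p.1 ∧ p.1.h < q.1.h ∧ ∀ y, ρ y < p.1.h → E y q.1 := by
    rintro ⟨p, hp⟩
    obtain ⟨r, hr, hrp, hrE⟩ := PF_dist P (I := univ) (A := {y // ρ y < p.h}) (hρ p.h)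
      (fun y u => E y.1 u)
      (fun y u v hu hv hE1 hvu => hE.op y.1 u v hu.1 hv.1 hE1 hvu)
      (fun y u hu => by
        obtain ⟨v, hv, hvu, hE1⟩ := hE.de y.1 u hu.1
        exact ⟨v, ⟨hv, subset_univ _⟩, hvu, hE1⟩) (p := p) ⟨hp, subset_univ _⟩
    obtain ⟨h', hh'⟩ := P.exists_gt r.h
    have hF : F lam c (extR r h') := F_extR hr.1 hh'.le
    have hx : Ext ⊤ (extR r h') r := ext_extR hr.1.1 hh'.le
    refine ⟨⟨extR r h', hF⟩, hx.trans hrp, lt_of_le_of_lt hrp.h hh', fun y hy => ?_⟩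
    exact hE.op y r _ hr.1 hF (hrE ⟨y, hy⟩) hx
  choose nx hnx1 hnx2 hnx3 using hstep
  obtain ⟨p, hp0', hps⟩ : ∃ p : ℕ → {p : Raw O J Bt // F lam c p}, p 0 = ⟨p0, hp0⟩ ∧
      ∀ n, p (n + 1) = nx (p n) :=
    ⟨fun n => Nat.rec ⟨p0, hp0⟩ (fun _ x => nx x) n, rfl, fun n => rfl⟩
  have hlt : ∀ n, (p n).1.h < (p (n + 1)).1.h := by
    intro n
    rw [hps n]
    exact hnx2 _
  have hmono : ∀ m n, m ≤ n → Ext ⊤ (p n).1 (p m).1 := by
    intro m n hmn
    induction n, hmn using Nat.le_induction with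
    | base => exact Ext.refl ⊤ _
    | succ n _ ih =>
      rw [hps n]
      exact (hnx1 _).trans ih
  obtain ⟨α, h1, h2, hlub, hcof, hlim⟩ := exists_sup_seq P (fun n => (p n).1.h) hlt
  have hd : Dirx (fun n => (p n).1) :=
    ⟨⟨0⟩, fun a b => ⟨max a b, hmono _ _ (le_max_left a b), hmono _ _ (le_max_right a b)⟩⟩
  have hW : #(⋃ n, ((p n).1).W : Set J) ≤ lam := by
    have h3 := mk_iUnion_le_lift (fun n : ℕ => ((p n).1).W)
    have h4 : (⨆ n : ℕ, lift.{0} #((p n).1).W) ≤ lam :=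
      ciSup_le' fun n => by
        rw [lift_uzero]
        exact (p n).2.1.W_small
    rw [lift_uzero] at h3
    refine h3.trans ?_
    rw [mk_nat, lift_aleph0]
    exact (mul_le_mul' P.aleph h4).trans (le_of_eq (mul_eq_self P.aleph))
  have hok : LimOk (fun n => (p n).1) α (⊥ : Bt) ⊤ := ⟨fun a => (h1 a).le, Or.inr h1⟩
  have hq : F lam c (limR (fun n => (p n).1) α ⊥ ⊤) :=
    F_lim (fun n => (p n).2) hd hW hlub hok (fun _ => hlim)
  have hext : ∀ n, Ext ⊤ (limR (fun n => (p n).1) α ⊥ ⊤) (p n).1 := fun n =>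
    ext_lim (fun n => (p n).2.1) hd hok n
  have e0 : (p 0).1 = p0 := by rw [hp0']
  have hall : ∀ n, Ext ⊤ (p n).1 p0 := by
    intro n
    have h3 := hmono 0 n (Nat.zero_le n)
    rw [e0] at h3
    exact h3
  refine ⟨limR (fun n => (p n).1) α ⊥ ⊤, α, hq, (hext 0).trans (hall 0), ?_, hcof, le_rfl, ?_, ?_⟩
  · have h3 := h1 0
    rw [e0] at h3
    exact h3
  · rw [limR_T_eq, sup_top_eq]
  · intro y hy
    obtain ⟨n, hn⟩ := h2 _ hy
    refine ⟨(p (n + 1)).1, (p (n + 1)).2, hall (n + 1), hext (n + 1), h1 (n + 1), ?_⟩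
    rw [hps n]
    exact hnx3 _ y hn

end CG
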