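import Pool.Agent.W_MP_7dc84e_h31.NcCov
import Pool.Agent.W_MP_7dc84e_h31.StGen

/-!
# MP_7dc84e_lc : `S` and `T` are stationary
-/

set_option autoImplicit false
set_option linter.unusedSectionVars false

universe u

open Cardinal Set

namespace CG

variable {O J Bt Th : Type u} [LinearOrder O] [LinearOrder J] [CompleteBooleanAlgebra Bt]
variable [WellFoundedLT O] [WellFoundedLT J]
variable {lam : Cardinal.{u}} {L : ℕ → Cardinal.{u}} {c : J → Nm O J Bt}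

/-- The requirement: densely in `Bt`, `u` forces some `z > y` below the height of `u` into `R`. -/
def EU (R : O → Cnd lam c → Prop) (y : O) (u : Raw O J Bt) : Prop :=
  ∀ b, b ≠ ⊥ → ∃ b' ≤ b, ∃ (hb : b' ≠ ⊥) (hu : F lam c u) (z : O), y < z ∧ z ≤ u.h ∧
    R z ⟨b', u, hb, hu⟩

/-- PROOF.  `op`: from the monotonicity of `R`.  `de`: let `F lam c p`.  The relation
`E b u := ∃ hb hu z, y < z ∧ z ≤ u.h ∧ R z ⟨b, u, hb, hu⟩` is `OpenDense lam c univ`: openness as in `openDense_of`; density: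
given `(b, u)`, `hR.unb` gives `q ≤ ⟨b, u, ..⟩` and `z > y` with `R z q`, and `exists_height q z` gives `q' ≤ q` with
`z ≤ q'.p.h`; `R z q'` by monotonicity.  `term_dense` (index set `PUnit`) gives `q` with `F lam c q`, `Ext ⊤ q p` and for all
`b ≠ ⊥` some `b' ≤ b` with `E b' q`, which is `EU R y q`. -/
theorem ods_EU (P : Par O J Bt Th lam L) {R : O → Cnd lam c → Prop} (hR : ClubN R) :
    ODs lam c (EU R) := by
  constructor
  · intro y p q hp hq hE hext b hb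
    obtain ⟨b', hb', hb0, hu, z, hyz, hz, hR'⟩ := hE b hb
    exact ⟨b', hb', hb0, hq, z, hyz, hz.trans hext.h,
      hR.mono _ _ _ hR' ⟨le_rfl, hext.mono le_top⟩⟩
  · intro y p hp
    have hod : OpenDense lam c univ (fun b u => ∃ (hb : b ≠ ⊥) (hu : F lam c u) (z : O),
        y < z ∧ z ≤ u.h ∧ R z ⟨b, u, hb, hu⟩) := by
      constructor
      · rintro b u b' u' ⟨hb, hu, z, h1, h2, h3⟩ hbb hb' hu' hext
        exact ⟨hb', hu'.1, z, h1, h2.trans hext.h, hR.mono _ _ _ h3 ⟨hbb, hext⟩⟩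
      · intro b u hb hu
        obtain ⟨q, hq, z, hz, hRz⟩ := hR.unb y ⟨b, u, hb, hu.1⟩
        obtain ⟨q', hq', -, e2, -, -, -⟩ := exists_height q z
        have h := hq'.trans hq
        exact ⟨q'.b, q'.p, h.1, q'.hb, ⟨q'.hp, subset_univ _⟩, h.2, q'.hb, q'.hp, z, hz, e2,
          hR.mono _ _ _ hRz hq'⟩
    have h1 : #(PUnit.{u + 1}) ≤ lam := by
      rw [Cardinal.mk_punit]
      exact Cardinal.one_le_aleph0.trans P.aleph
    obtain ⟨q, hq, hqp, hE⟩ := term_dense P h1 (fun _ => _) (fun _ => hod) (p := p)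
      ⟨hp, subset_univ _⟩
    refine ⟨q, hq.1, hqp, fun b hb => ?_⟩
    obtain ⟨b', hb', hb0, _, hu, z, h1, h2, h3⟩ := hE PUnit.unit b hb
    exact ⟨b', hb', hb0, hu, z, h1, h2, h3⟩

/-- A condition forces a limit of elements of the club into the club.

PROOF.  `hR.cl`: `α` is a limit point.  Let `y < α`, `q' ≤ ⟨b, q, ..⟩`.  Take `p'` as in `h` for `y`; `EU R y p'` for
`q'.b` gives `b' ≤ q'.b`, `z > y`, `z ≤ p'.h < α` with `R z ⟨b', p', ..⟩`.  `r := q'.cut b'` is below `q'` and below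
`⟨b', p', ..⟩` (`Ext b' q'.p p'` by `Ext.trans` of `q' ≤ ⟨b, q⟩` and `Ext ⊤ q p'`), so `R z r`. -/
theorem club_lim {R : O → Cnd lam c → Prop} (hR : ClubN R) {q : Raw O J Bt} {α : O} {b : Bt}
    (hb : b ≠ ⊥) (hq : F lam c q) (hα : IsLimPt α)
    (h : ∀ y < α, ∃ p', F lam c p' ∧ Ext ⊤ q p' ∧ p'.h < α ∧ EU R y p') :
    R α ⟨b, q, hb, hq⟩ := by
  refine hR.cl α hα _ ?_
  intro y hy q' hq'
  obtain ⟨p', hp', hqp', hh, hE⟩ := h y hy
  obtain ⟨b', hb', hb0, hu, z, h1, h2, h3⟩ := hE q'.b q'.hb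
  refine ⟨q'.cut b' hb0, q'.cut_le hb0 hb', z, h1, h2.trans_lt hh, ?_⟩
  refine hR.mono _ _ _ h3 ⟨le_rfl, ?_⟩
  exact (hq'.2.mono hb').trans (hqp'.mono le_top)

/-- PROOF.  `stS_gen` for `p0 := p.p`, `Y := O`, `ρ := id` (`P.seg`), `E := EU R` gives `q₁`, `α`; take `q := (p.b, q₁)` and
`x := α`; `SN α q` since `q₁.S α = ⊤`, and `R α q` by `club_lim` (`CofOm.isLimPt`). -/
theorem cnd_stS (P : Par O J Bt Th lam L) {R : O → Cnd lam c → Prop} (hR : ClubN R)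
    (p : Cnd lam c) : ∃ q ≤ p, ∃ x, R x q ∧ SN x q := by
  obtain ⟨q₁, α, h1, h2, -, h4, -, h6, h7⟩ :=
    stS_gen P p.hp (Y := O) (ρ := id) P.seg (ods_EU P hR)
  refine ⟨⟨p.b, q₁, p.hb, h1⟩, ⟨le_rfl, h2.mono le_top⟩, α, ?_, ?_⟩
  · refine club_lim hR p.hb h1 h4.isLimPt fun y hy => ?_
    obtain ⟨p', a1, -, a3, a4, a5⟩ := h7 y hy
    exact ⟨p', a1, a3, a4, a5⟩
  · show p.b ≤ q₁.S α
    rw [h6]
    exact le_top

/-- PROOF.  As `cnd_stS`, with `stT_gen`. -/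
theorem cnd_stT (P : Par O J Bt Th lam L) {R : O → Cnd lam c → Prop} (hR : ClubN R)
    (p : Cnd lam c) : ∃ q ≤ p, ∃ x, R x q ∧ TN x q := by
  obtain ⟨q₁, α, h1, h2, -, h4, -, h6, h7⟩ :=
    stT_gen P p.hp (Y := O) (ρ := id) P.seg (ods_EU P hR)
  refine ⟨⟨p.b, q₁, p.hb, h1⟩, ⟨le_rfl, h2.mono le_top⟩, α, ?_, ?_⟩
  · refine club_lim hR p.hb h1 h4.isLimPt fun y hy => ?_
    obtain ⟨p', a1, -, a3, a4, a5⟩ := h7 y hy
    exact ⟨p', a1, a3, a4, a5⟩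
  · show p.b ≤ q₁.T α
    rw [h6]
    exact le_top

end CG
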