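import Pool.Agent.W_MP_7dc84e_h31.BP
import Pool.Agent.W_MP_7dc84e_h31.StGen
import Pool.Agent.W_MP_315f31_lc.D_h1.Ufil
import Pool.Agent.W_MP_315f31_lc.Core

/-!
# MP_7dc84e_lc : the objects, and the good sets of objects

`U` is a fine normal `#K`-complete ultrafilter on the sets of objects.  For `U`-many sets `x` of objects the trace of the
forcing on `x` has all the properties listed below.
-/

set_option autoImplicit false
set_option linter.unusedSectionVars false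

universe u

open Cardinal Set IM

namespace CG

/-- the objects -/
inductive Obj (K O J : Type u) [LinearOrder K] : Type u
  | b (b : BP K) : Obj K O J
  | i (i : Ix K) : Obj K O J
  | k (k : K) : Obj K O J
  | r (r : Raw O J (RO (BP K))) : Obj K O J
  | o (x : O) : Obj K O J
  | l (l : List O) : Obj K O J
  | e (l : List O) (r : Raw O J (RO (BP K))) : Obj K O J

variable {K O J Th : Type u} [LinearOrder K] [LinearOrder O] [LinearOrder J]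
variable [WellFoundedLT O] [WellFoundedLT J]
variable {lam : Cardinal.{u}} {L : ℕ → Cardinal.{u}} {c : J → Nm O J (RO (BP K))}

/-- the properties of the traces on `BP K` -/
structure Gx1 (x : Set (Obj K O J)) : Prop where
  small : #x < #K
  b_res : ∀ b : BP K, Obj.b (b.res {i | Obj.i i ∈ x}) ∈ x
  b_supp : ∀ b : BP K, Obj.b b ∈ x → ∀ i, b.v i ≠ none → Obj.i i ∈ x

/-- the properties of the trace on `O` -/
structure Gx2 (x : Set (Obj K O J)) : Prop where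
  o_lt : ∀ y, Obj.o y ∈ x → ∃ z, y < z ∧ Obj.o z ∈ x
  o_unc : ∀ f : ℕ → O, (∀ n, ∃ z, f n ≤ z ∧ Obj.o z ∈ x) → ∃ z, Obj.o z ∈ x ∧ ∀ n, f n < z
  cofs : ∀ α, Obj.o α ∈ x → CofOm α →
    ∃ f : ℕ → O, (∀ n, f n < α ∧ Obj.o (f n) ∈ x) ∧ ∀ y < α, ∃ n, y < f n

/-- the properties of the trace on the conditions -/
structure Gx3 (lam : Cardinal.{u}) (c : J → Nm O J (RO (BP K))) (x : Set (Obj K O J)) : Prop where
  r_h : ∀ r, F lam c r → Obj.r r ∈ x → Obj.o r.h ∈ x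
  height : ∀ r y, F lam c r → Obj.r r ∈ x → Obj.o y ∈ x →
    ∃ r', F lam c r' ∧ Obj.r r' ∈ x ∧ Ext ⊤ r' r ∧ y < r'.h
  seq : ∀ f : ℕ → Raw O J (RO (BP K)), (∀ n, F lam c (f n) ∧ Obj.r (f n) ∈ x) →
    (∀ n, Ext ⊤ (f (n + 1)) (f n)) → ∃ r, F lam c r ∧ Obj.r r ∈ x ∧ ∀ n, Ext ⊤ r (f n)

/-- the club `R` is unbounded in the trace -/
def Gx4 (R : O → Cnd lam c → Prop) (x : Set (Obj K O J)) : Prop :=
  ∀ (b : BP K) (r : Raw O J (RO (BP K))) (y : O), Obj.b b ∈ x → F lam c r → Obj.r r ∈ x →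
    Obj.o y ∈ x → ∃ (b' : BP K) (r' : Raw O J (RO (BP K))) (z : O), Obj.b b' ∈ x ∧ Obj.r r' ∈ x ∧
      Obj.o z ∈ x ∧ b' ≤ b ∧ Ext ⊤ r' r ∧ y < z ∧
      ∃ (hb : eB b' ≠ ⊥) (hr : F lam c r'), R z ⟨eB b', r', hb, hr⟩

/-- the genericity lemma for `S` in the trace -/
def Gx5 (lam : Cardinal.{u}) (c : J → Nm O J (RO (BP K))) (x : Set (Obj K O J)) : Prop :=
  ∀ E : List O → Raw O J (RO (BP K)) → Prop,
    (∀ l p q, F lam c p → Obj.r p ∈ x → F lam c q → Obj.r q ∈ x → E l p → Ext ⊤ q p → E l q) →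
    (∀ l p, (∀ y ∈ l, Obj.o y ∈ x) → F lam c p → Obj.r p ∈ x →
      ∃ q, F lam c q ∧ Obj.r q ∈ x ∧ Ext ⊤ q p ∧ E l q) →
    ∀ p, F lam c p → Obj.r p ∈ x →
      ∃ q α, F lam c q ∧ Obj.r q ∈ x ∧ Obj.o α ∈ x ∧ Ext ⊤ q p ∧ p.h < α ∧ CofOm α ∧ α ≤ q.h ∧
        q.S α = ⊤ ∧ ∀ l, (∀ y ∈ l, y < α ∧ Obj.o y ∈ x) →
          ∃ p', F lam c p' ∧ Obj.r p' ∈ x ∧ Ext ⊤ q p' ∧ p'.h < α ∧ E l p'

end CG
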