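import Pool.Agent.W_MP_7dc84e_h31.Emb
import Pool.Agent.W_MP_7dc84e_h31.NcSt

/-!
# MP_7dc84e_lc : the limit condition forces `β` into every club
-/

set_option autoImplicit false
set_option linter.unusedSectionVars false

universe u

open Cardinal Set IM

namespace CG

variable {K O J Th : Type u} [LinearOrder K] [LinearOrder O] [LinearOrder J]
variable [WellFoundedLT O] [WellFoundedLT J]
variable {lam : Cardinal.{u}} {L : ℕ → Cardinal.{u}} {c : J → Nm O J (RO (BP K))}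
variable {x : Set (Obj K O J)} {μ : Ix K} {p : Iio μ.η → Raw O J (RO (BP K))} {β : O}

/-- Below the limit condition: a condition of `BP K` whose value at `μ` is `v` forces `p v` into the generic filter.

PROOF.  `eB b ≤ hN μ v` (`eB_le_hN`), `Ext (hN μ v) q (p v)` by `ext_nlim`; `Ext.mono`, `Ext.trans`. -/
theorem ext_of_def (h3 : Gx3 lam c x) (h : Emb lam c x μ p) (hβ : SupX x β) {b : BP K}
    {v : Iio μ.η} (hv : b.v μ = some v) {q' : Raw O J (RO (BP K))}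
    (hq : Ext (eB b) q' (nlimR (hN μ) p β)) : Ext (eB b) q' (p v) := by
  have h5 : eB b ≤ hN μ v := eB_le_hN hv ((h.ord v v).2 (Ext.refl _ _))
  exact hq.trans ((ext_nlim (fun a => (h.mem a).1.1) (h.ndir h3 hβ v) v).mono h5)

/-- The limit condition forces `β` into the club `R`.

PROOF.  `hR.cl β`: `β` is a limit point.  Let `y < β` and `q' ≤ ⟨d, q, ..⟩` (`q` the limit condition).  By `sigB_eB.dense'` there is `b` with
`eB b ≤ q'.b`, and by `exists_def` we may assume `b.v μ = some v` (`SigB.mono`).  Let `Obj.o y' ∈ x`, `y < y'` (`SupX.cof`).  `Gx4` for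
`b.res {i | Obj.i i ∈ x}` (`Gx1.b_res`), `p v`, `y'` gives `b'`, `r'`, `z` in `x` with `b' ≤ b.res ..`, `Ext ⊤ r' (p v)`, `y' < z`,
`R z ⟨eB b', r', ..⟩`.  `r' = p v'` (`surj`), `μ.ρ v' v`.  Let `b₁ := BP.glue {i | Obj.i i ∈ x} b' b` and `b₃ := b₁.upd μ v' _`.
`b₁ ≤ b` (`glue_le`), `b₁ ≤ b'` (`glue_le'`, `Gx1.b_supp`), `b₁.v μ = b.v μ = some v` (`glue_of_not`, `h.out`), so `b₃ ≤ b₁` (`upd_le`).  Let
`r := ⟨eB b₃, q'.p, ..⟩`.  `r ≤ q'` since `eB b₃ ≤ eB b ≤ q'.b`.  `r ≤ ⟨eB b', r', ..⟩`: `eB b₃ ≤ eB b'`, and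
`Ext (eB b₃) q'.p (p v')` by `ext_of_def`.  So `R z r`, and `y < y' < z < β` (`SupX.lt`). -/
theorem refl_club (P : Par O J (RO (BP K)) Th lam L) {R : O → Cnd lam c → Prop} (hR : ClubN R)
    (h1 : Gx1 x) (h3 : Gx3 lam c x) (h4 : Gx4 R x) (h : Emb lam c x μ p) (hβ : SupX x β)
    (hl : IsLimPt β) (a₀ : Iio μ.η) {d : RO (BP K)} (hd : d ≠ ⊥)
    (hq : F lam c (nlimR (hN μ) p β)) : R β ⟨d, nlimR (hN μ) p β, hd, hq⟩ := by
  have hs := h.spre h3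
  have hB : SigB (eB : BP K → RO (BP K)) := sigB_eB BP.sig
  refine hR.cl β hl _ ?_
  intro y hy q' hq'
  obtain ⟨b0, hb0⟩ := hB.dense' q'.b q'.hb
  obtain ⟨b, hb, v, hv⟩ := exists_def hs a₀ b0
  have hbq : eB b ≤ q'.b := (hB.mono _ _ hb).trans hb0
  obtain ⟨y', hy', hyy'⟩ := hβ.cof y hy
  obtain ⟨b', r', z, hb'x, hr'x, hzx, hb', hr', hyz, hb'0, hr'F, hRz⟩ :=
    h4 (b.res {i | Obj.i i ∈ x}) (p v) y' (h1.b_res b) (h.mem v).1 (h.mem v).2 hy'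
  obtain ⟨v', rfl⟩ := h.surj r' hr'F hr'x
  have hvv : μ.ρ v' v := (h.ord v' v).2 hr'
  have e1 : BP.glue {i | Obj.i i ∈ x} b' b ≤ b := BP.glue_le hb'
  have e2 : BP.glue {i | Obj.i i ∈ x} b' b ≤ b' := BP.glue_le' (h1.b_supp b' hb'x)
  have e3 : (BP.glue {i | Obj.i i ∈ x} b' b).v μ = some v := by
    rw [BP.glue_of_not h.out, hv]
  have e4 : (BP.glue {i | Obj.i i ∈ x} b' b).upd μ v' hs ≤ BP.glue {i | Obj.i i ∈ x} b' b :=
    BP.upd_le (fun a ha => by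
      rw [e3] at ha
      obtain rfl := Option.some.inj ha
      exact hvv)
  have e5 : ((BP.glue {i | Obj.i i ∈ x} b' b).upd μ v' hs).v μ = some v' := BP.upd_same _ _ _ _
  generalize (BP.glue {i | Obj.i i ∈ x} b' b).upd μ v' hs = b3 at e4 e5
  have e6 : eB b3 ≤ q'.b := (hB.mono _ _ (e4.trans e1)).trans hbq
  have e7 : eB b3 ≤ eB b' := hB.mono _ _ (e4.trans e2)
  refine ⟨⟨eB b3, q'.p, hB.ne b3, q'.hp⟩, ⟨e6, Ext.refl _ _⟩, z, hyy'.trans hyz, hβ.lt z hzx, ?_⟩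
  exact hR.mono _ _ _ hRz ⟨e7, ext_of_def h3 h hβ e5 (hq'.2.mono e6)⟩

end CG
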