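import Mathlib

/-!
# MP_7dc84e_lc : a tree of states decided by a filter (abstract lemma)
-/

set_option autoImplicit false
set_option linter.unusedSectionVars false

universe u

open Set

namespace CG

/-- A maximal antichain in `Z` for a symmetric and reflexive relation `C` of compatibility. -/
theorem treeS_antichain {V : Type u} (C : V → V → Prop) (hs : ∀ v w, C v w → C w v)
    (hr : ∀ v, C v v) (Z : Set V) :
    ∃ M : Set V, M ⊆ Z ∧ (∀ w ∈ M, ∀ w' ∈ M, C w w' → w = w') ∧ ∀ z ∈ Z, ∃ w ∈ M, C z w := by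
  obtain ⟨M, hM, hmax⟩ := zorn_subset {M : Set V | M ⊆ Z ∧ M.Pairwise fun w w' => ¬ C w w'}
    (fun c hc hch => ⟨⋃₀ c, ⟨sUnion_subset fun s hs => (hc hs).1,
      (pairwise_sUnion hch.directedOn).2 fun s hs => (hc hs).2⟩, fun s hs => subset_sUnion_of_mem hs⟩)
  refine ⟨M, hM.1, fun w hw w' hw' hC => ?_, fun z hz => ?_⟩
  · by_contra hne
    exact hM.2 hw hw' hne hC
  · by_contra hno
    push Not at hno
    have h1 : insert z M ∈ {M : Set V | M ⊆ Z ∧ M.Pairwise fun w w' => ¬ C w w'} := by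
      refine ⟨insert_subset hz hM.1, ?_⟩
      rw [pairwise_insert]
      exact ⟨hM.2, fun b hb _ => ⟨hno b hb, fun h => hno b hb (hs _ _ h)⟩⟩
    exact hno z (hmax h1 (subset_insert z M) (mem_insert z M)) (hr z)

/-- The states which are decided by `v` for a list of inputs. -/
def treeS_St {V A Y : Type u} (ρ : V → V → Prop) (π : A → V) (s0 : A) (M : A → Y → Set V)
    (n : A → Y → V → A) : List Y → V → A → Prop
  | [], v, s => s = s0 ∧ ρ v (π s0)
  | y :: l, v, s' => ∃ s, treeS_St ρ π s0 M n l v s ∧ ∃ w ∈ M s y, s' = n s y w ∧ ρ v w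

/-- `V` is a preorder (`ρ v w`: `v ≤ w`), `Σ'` (here `A`) is a set of states, the state `s` is possible below `π s`.  `N s y s'`: `s'` is
a possible successor of `s` for the input `y`.  Below each `v ≤ π s` there is a possible successor.  Then there is a choice of
successors such that every `v` in a generic filter decides at most one state for every finite sequence of inputs (the list
`l`, the last input is the head of the list).

PROOF.  For `s : A`, `y : Y` let `Z s y := {v | ∃ s', N s y s' ∧ v = π s' ∧ ρ v (π s)}`, let `M s y` be a maximal subset of `Z s y` such that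
different elements of `M s y` are incompatible (`v`, `w` are compatible if `∃ u, ρ u v ∧ ρ u w`) (Zorn, `zorn_subset`), and for
`v ∈ M s y` choose `n s y v` with `N s y (n s y v)`, `π (n s y v) = v`.  Define by recursion on the list:
`St [] v s := s = s0 ∧ ρ v (π s0)`, `St (y :: l) v s' := ∃ s, St l v s ∧ ∃ w ∈ M s y, s' = n s y w ∧ ρ v w`.
The first five properties are proved by induction on `l` (uniqueness: if `St (y :: l) v s'`, `St (y :: l) v s''`, then by induction the
states `s` are the same, and the two `w, w' ∈ M s y` are both above `v`, so `w = w'`).  Last property, by induction on `l`: `l = []`: take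
`v' = v`.  `y :: l`: let `ρ v₁ v` and `St l v₁ s`; by the third property `ρ v₁ (π s)`; by `hN` there is `s'` with `N s y s'` and
`ρ (π s') v₁`; so `π s' ∈ Z s y`, and by the maximality of `M s y` there is `w ∈ M s y` compatible with `π s'`: let `ρ v₂ w`,
`ρ v₂ (π s')`.  Then `St (y :: l) v₂ (n s y w)` (`St l v₂ s` by the second property). -/
theorem tree_states {V A Y : Type u} (ρ : V → V → Prop) (hr : ∀ v, ρ v v)
    (ht : ∀ u v w, ρ u v → ρ v w → ρ u w) (π : A → V) (N : A → Y → A → Prop)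
    (hN : ∀ s y v, ρ v (π s) → ∃ s', N s y s' ∧ ρ (π s') v) (s0 : A) :
    ∃ St : List Y → V → A → Prop,
      (∀ v s, St [] v s ↔ s = s0 ∧ ρ v (π s0)) ∧
      (∀ l v v' s, St l v s → ρ v' v → St l v' s) ∧
      (∀ l v s, St l v s → ρ v (π s)) ∧
      (∀ l v s s', St l v s → St l v s' → s = s') ∧
      (∀ y l v s', St (y :: l) v s' → ∃ s, St l v s ∧ N s y s') ∧
      ∀ l v, ρ v (π s0) → ∃ v', ρ v' v ∧ ∃ s, St l v' s := by
  have hM : ∀ (s : A) (y : Y), ∃ M : Set V, M ⊆ {v | ∃ s', N s y s' ∧ v = π s' ∧ ρ v (π s)} ∧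
      (∀ w ∈ M, ∀ w' ∈ M, (∃ u, ρ u w ∧ ρ u w') → w = w') ∧
      ∀ z ∈ {v | ∃ s', N s y s' ∧ v = π s' ∧ ρ v (π s)}, ∃ w ∈ M, ∃ u, ρ u z ∧ ρ u w := fun s y =>
    treeS_antichain (fun v w => ∃ u, ρ u v ∧ ρ u w) (fun v w ⟨u, h1, h2⟩ => ⟨u, h2, h1⟩)
      (fun v => ⟨v, hr v, hr v⟩) _
  choose M hMZ hMu hMm using hM
  have hn : ∀ (s : A) (y : Y) (w : V), ∃ s', w ∈ M s y → N s y s' ∧ w = π s' := by
    intro s y w
    by_cases hw : w ∈ M s y
    · obtain ⟨s', h1, h2, -⟩ := hMZ s y hw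
      exact ⟨s', fun _ => ⟨h1, h2⟩⟩
    · exact ⟨s, fun h => absurd h hw⟩
  choose n hn using hn
  have hmono : ∀ (l : List Y) (v v' : V) (s : A), treeS_St ρ π s0 M n l v s → ρ v' v →
      treeS_St ρ π s0 M n l v' s := by
    intro l
    induction l with
    | nil => exact fun v v' s h h' => ⟨h.1, ht _ _ _ h' h.2⟩
    | cons y l ih =>
      rintro v v' s' ⟨s, h1, w, hw, h2, h3⟩ h'
      exact ⟨s, ih _ _ _ h1 h', w, hw, h2, ht _ _ _ h' h3⟩
  have hpi : ∀ (l : List Y) (v : V) (s : A), treeS_St ρ π s0 M n l v s → ρ v (π s) := by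
    intro l
    cases l with
    | nil =>
      rintro v s ⟨rfl, h⟩
      exact h
    | cons y l =>
      rintro v s' ⟨s, -, w, hw, rfl, h3⟩
      rw [← (hn s y w hw).2]
      exact h3
  refine ⟨treeS_St ρ π s0 M n, fun v s => Iff.rfl, hmono, hpi, ?_, ?_, ?_⟩
  · intro l
    induction l with
    | nil => exact fun v s s' h h' => h.1.trans h'.1.symm
    | cons y l ih =>
      rintro v s' s'' ⟨s, h1, w, hw, rfl, h3⟩ ⟨t, h1', w', hw', rfl, h3'⟩
      obtain rfl := ih v s t h1 h1'
      rw [hMu s y w hw w' hw' ⟨v, h3, h3'⟩]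
  · rintro y l v s' ⟨s, h1, w, hw, rfl, h3⟩
    exact ⟨s, h1, (hn s y w hw).1⟩
  · intro l v hv
    induction l with
    | nil => exact ⟨v, hr v, s0, rfl, hv⟩
    | cons y l ih =>
      obtain ⟨v₁, h1, s, hs⟩ := ih
      obtain ⟨s', hs', h2⟩ := hN s y v₁ (hpi l v₁ s hs)
      obtain ⟨w, hw, v₂, h3, h4⟩ := hMm s y (π s')
        ⟨s', hs', rfl, ht _ _ _ h2 (hpi l v₁ s hs)⟩
      exact ⟨v₂, ht _ _ _ h3 (ht _ _ _ h2 h1), n s y w, s,
        hmono l v₁ v₂ s hs (ht _ _ _ h3 h2), w, hw, rfl, h4⟩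

end CG
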