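import Pool.Agent.W_MP_7dc84e_h31.ReflA
import Pool.Agent.W_MP_7dc84e_h31.TreeS

/-!
# MP_7dc84e_lc : the limit condition forces that `S` is stationary in `β`
-/

set_option autoImplicit false
set_option linter.unusedSectionVars false

universe u

open Cardinal Set IM

namespace CG

variable {K O J Th : Type u} [LinearOrder K] [LinearOrder O] [LinearOrder J]
variable [WellFoundedLT O] [WellFoundedLT J]
variable {lam : Cardinal.{u}} {L : ℕ → Cardinal.{u}} {c : J → Nm O J (RO (BP K))}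
variable {x : Set (Obj K O J)} {μ : Ix K} {p : Iio μ.η → Raw O J (RO (BP K))} {β : O}

/-- Deciding a subset of `β`.

PROOF.  `term_dense` (`I = univ`) with the index set `Iio β` (`P.seg`) and
`E z b u := ∃ hb hu, ε z ⟨b, u, hb, hu⟩ ∨ ∀ r ≤ ⟨b, u, hb, hu⟩, ¬ ε z r`: it is open (`hε.mono`) and dense (if the second
alternative fails for `(b, u)` there is `r ≤ (b, u)` with `ε z r`; take `(r.b, r.p)`). -/
theorem exists_dec (P : Par O J (RO (BP K)) Th lam L) {ε : O → Cnd lam c → Prop} (hε : Reg ε)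
    (β : O) {u : Raw O J (RO (BP K))} (hu : F lam c u) :
    ∃ q, ∃ hq : F lam c q, Ext ⊤ q u ∧ ∀ z < β, ∀ b, b ≠ ⊥ → ∃ b' ≤ b, ∃ hb : b' ≠ ⊥,
      ε z ⟨b', q, hb, hq⟩ ∨ ∀ r ≤ (⟨b', q, hb, hq⟩ : Cnd lam c), ¬ ε z r := by
  obtain ⟨q, hq, hqu, hE⟩ := term_dense P (I := univ) (A := Iio β) (P.seg β)
    (fun z b u => ∃ (hb : b ≠ ⊥) (hu : F lam c u), ε z.1 ⟨b, u, hb, hu⟩ ∨
      ∀ r ≤ (⟨b, u, hb, hu⟩ : Cnd lam c), ¬ ε z.1 r)
    (fun z => by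
      constructor
      · rintro b u b' u' ⟨hb, hu, h⟩ hbb hb' hu' hext
        refine ⟨hb', hu'.1, ?_⟩
        rcases h with h | h
        · exact Or.inl (hε.mono _ _ _ h ⟨hbb, hext⟩)
        · refine Or.inr fun r hr => h r (hr.trans ?_)
          exact ⟨hbb, hext⟩
      · intro b u hb hu
        by_cases h : ∃ r ≤ (⟨b, u, hb, hu.1⟩ : Cnd lam c), ε z.1 r
        · obtain ⟨r, hr, hεr⟩ := h
          exact ⟨r.b, r.p, hr.1, r.hb, ⟨r.hp, subset_univ _⟩, hr.2, r.hb, r.hp, Or.inl hεr⟩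
        · refine ⟨b, u, le_rfl, hb, hu, Ext.refl _ _, hb, hu.1, Or.inr fun r hr hεr => ?_⟩
          exact h ⟨r, hr, hεr⟩)
    (p := u) ⟨hu, subset_univ _⟩
  refine ⟨q, hq.1, hqu, fun z hz b hb => ?_⟩
  obtain ⟨b', hb', hb0, hb1, _, h⟩ := hE ⟨z, hz⟩ b hb
  exact ⟨b', hb', hb1, h⟩

/-- One step: the condition `b` of `BP K`, whose value at `μ` is above `v₁`, can be extended such that it forces an element `z > y` of the
club, below the height of the condition `p v'` coded at `μ`.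

PROOF.  `b₁ := b.upd μ v₁ _ ≤ b` and `⟨eB b₁, q₃, ..⟩ ≤ q₁` (`eB b₁ ≤ eB b ≤ q₁.b`).  By `hclub.unb y` there are `r ≤ ⟨eB b₁, q₃⟩` and `z` with
`y < z < β`, `ε z r`.  By `hdec` for `z`, `r.b` there is `b' ≤ r.b` with `ε z ⟨b', q₃⟩` or `∀ r' ≤ ⟨b', q₃⟩, ¬ ε z r'`; the latter is impossible, because
`r.cut b'` is below `r` and below `⟨b', q₃⟩`.  By `sigB_eB.dense` (for `b' ≤ eB b₁`) there is `b₂ ≤ b₁` in `BP K` with `eB b₂ ≤ b'`.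
`b₂.v μ = some v₂`, `μ.ρ v₂ v₁`.  Let `Obj.o z' ∈ x`, `z < z'` (`SupX.cof`), and (`Gx3.height`, `surj`) `v'` with
`Ext ⊤ (p v') (p v₂)`, `z' < (p v').h`.  Take `b₃ := b₂.upd μ v' _`; `ε z ⟨eB b₃, q₃⟩` by `hε.mono`. -/
theorem stat_step {ε : O → Cnd lam c → Prop} (hε : Reg ε) (h3 : Gx3 lam c x)
    (h : Emb lam c x μ p) (hβ : SupX x β) {q₁ : Cnd lam c} (hclub : ClubB β ε q₁)
    {q₃ : Raw O J (RO (BP K))} (hq₃ : F lam c q₃) (hext : Ext ⊤ q₃ q₁.p)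
    (hdec : ∀ z < β, ∀ b, b ≠ ⊥ → ∃ b' ≤ b, ∃ hb : b' ≠ ⊥,
      ε z ⟨b', q₃, hb, hq₃⟩ ∨ ∀ r ≤ (⟨b', q₃, hb, hq₃⟩ : Cnd lam c), ¬ ε z r)
    {b : BP K} (hb : eB b ≤ q₁.b) {v v₁ : Iio μ.η} (hv : b.v μ = some v) (hv₁ : μ.ρ v₁ v) {y : O}
    (hy : y < β) :
    ∃ b' ≤ b, ∃ v', b'.v μ = some v' ∧ μ.ρ v' v₁ ∧ ∃ z, y < z ∧ z < (p v').h ∧
      ∃ hb' : eB b' ≠ ⊥, ε z ⟨eB b', q₃, hb', hq₃⟩ := by
  have hs : SPre μ.ρ := h.spre h3
  have hB : SigB (eB : BP K → RO (BP K)) := sigB_eB BP.sig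
  have hb₁ : b.upd μ v₁ hs ≤ b := BP.upd_le fun a ha => by
    rw [hv] at ha
    rw [← Option.some.inj ha]
    exact hv₁
  have hc₁ : (⟨eB (b.upd μ v₁ hs), q₃, hB.ne _, hq₃⟩ : Cnd lam c) ≤ q₁ :=
    ⟨(hB.mono _ _ hb₁).trans hb, hext.mono le_top⟩
  obtain ⟨r, hr, z, hyz, hzβ, hεr⟩ := hclub.unb y hy _ hc₁
  obtain ⟨b', hb', hb0, hdec'⟩ := hdec z hzβ r.b r.hb
  have hεb : ε z ⟨b', q₃, hb0, hq₃⟩ := by
    rcases hdec' with h1 | h1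
    · exact h1
    · refine absurd (hε.mono _ _ _ hεr (r.cut_le hb0 hb')) (h1 _ ?_)
      exact ⟨le_rfl, hr.2.mono hb'⟩
  obtain ⟨b₂, hb₂, hb₂'⟩ := hB.dense b' (b.upd μ v₁ hs) hb0 (hb'.trans hr.1)
  obtain ⟨v₂, hv₂, hρ₂⟩ := hb₂ μ v₁ (BP.upd_same _ _ _ _)
  obtain ⟨z', hz'x, hzz'⟩ := hβ.cof z hzβ
  obtain ⟨r', hr'F, hr'x, hr'e, hr'h⟩ := h3.height (p v₂) z' (h.mem v₂).1 (h.mem v₂).2 hz'x
  obtain ⟨v', rfl⟩ := h.surj r' hr'F hr'x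
  have hρ' : μ.ρ v' v₂ := (h.ord v' v₂).2 hr'e
  have hb₃ : b₂.upd μ v' hs ≤ b₂ := BP.upd_le fun a ha => by
    rw [hv₂] at ha
    rw [← Option.some.inj ha]
    exact hρ'
  refine ⟨b₂.upd μ v' hs, hb₃.trans (hb₂.trans hb₁), v', BP.upd_same _ _ _ _,
    hs.trans _ _ _ hρ' hρ₂, z, hyz, hzz'.trans hr'h, hB.ne _, ?_⟩
  exact hε.mono _ _ _ hεb ⟨(hB.mono _ _ hb₃).trans hb₂', Ext.refl _ _⟩

/-- The limit condition forces that `S` is stationary in `β`.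

PROOF.  Let `ε`, `q₁ ≤ ⟨d, q, ..⟩` (`q` the limit condition) with `ClubB β ε q₁` be given.  Let `q₃` be as in `exists_dec` for `u := q₁.p`, and
`b₂` with `eB b₂ ≤ q₁.b`, `b₂.v μ = some v₂` (`sigB_eB.dense'`, `exists_def`).
STATES: `A := {s : BP K × Iio μ.η // s.1 ≤ b₂ ∧ s.1.v μ = some s.2}`, `π s := s.2`, `s0 := (b₂, v₂)`,
`N s y s' := s'.1 ≤ s.1 ∧ (y < β → ∃ z, y < z ∧ z < (p s'.2).h ∧ ∃ hb, ε z ⟨eB s'.1, q₃, hb, _⟩)`.  The hypothesis `hN` of `tree_states`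
(`V := Iio μ.η`, `ρ := μ.ρ`, inputs `Y := O`): for `y < β` this is `stat_step`; for `y ≥ β` take `s.1.upd μ v₁ _`.  Let `St` be as in
`tree_states`.
For `l : List O`, `r` let `E l r := ∃ a, p a = r ∧ ((¬ ∃ w, μ.ρ w a ∧ μ.ρ w v₂) ∨ ∃ s, St l a s)`.  `E` is open and dense in the
sense of `Gx5`: open: by `surj`, `ord` and the second property of `St` (note that `p` is injective up to equivalence:
if `p a = p a'`, then `μ.ρ a a'`, `μ.ρ a' a`); dense: let `p a` be given; if `a`, `v₂` are compatible, let `w` be below both, and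
apply the last property of `St` to `w`.
`Gx5` for `E` and `p v₂` gives `q* = p w` and `α`: `Obj.o α ∈ x` (so `α < β`), `(p v₂).h < α`, `CofOm α`, `α ≤ (p w).h`, `(p w).S α = ⊤`,
`μ.ρ w v₂`.  Let `f : ℕ → O` be cofinal in `α` with `Obj.o (f n) ∈ x` (`Gx2.cofs`), and let `l 0 := []`, `l (n + 1) := f n :: l n`.  For every
`n` there is (by `Gx5`) a condition `p (a n)` with `μ.ρ w (a n)`, `(p (a n)).h < α`, `E (l n) (p (a n))`; as `w` is below `a n` and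
`v₂`, there is `s n` with `St (l n) (a n) (s n)` (replace `a n` by the index in the definition of `E`).  So `St (l n) w (s n)`; by the
fifth property and uniqueness, `N (s n) (f n) (s (n + 1))`; `s 0 = s0`; and `μ.ρ (a n) (π (s n))`, so `(p (π (s n))).h ≤ (p (a n)).h < α`.
Let `z n` be as in `N (s n) (f n) (s (n + 1))` (`f n < α < β`): `f n < z n < (p (s (n + 1)).2).h < α`.
By `BP.exists_lower` for the sequence `(s n).1` and `w` (`μ.ρ w (s n).2` by the third property for `St (l n) w (s n)`) there is `bω`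
with `bω ≤ (s n).1` for all `n` and `bω.v μ = some w`.  Let `r := ⟨eB bω, q₃, ..⟩`; `r ≤ q₁`.
`ε α r`: by `hclub.cl α` (`α` is a limit point, `α < β`) for the condition `r`: let `y < α`, `r' ≤ r`; let `y < f n`; `z n ∈ (y, α)` and
`ε (z n) r'` by `hε.mono` (`r' ≤ r ≤ ⟨eB (s (n + 1)).1, q₃⟩`).
`SN α r`: `SN α ⟨eB bω, q, ..⟩` holds: `eB bω ≤ hN μ w` (`eB_le_hN`) and `hN μ w ⊓ q.S α = hN μ w ⊓ (p w).S α = hN μ w` (`nlim_S`); and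
`Ext (eB bω) q₃ q` (from `Ext ⊤ q₃ q₁.p` and `q₁ ≤ ⟨d, q⟩`), use `Ext.le_S` (`α < β = q.h`). -/
theorem refl_stat (P : Par O J (RO (BP K)) Th lam L) (h1 : Gx1 x) (h2 : Gx2 x)
    (h3 : Gx3 lam c x) (h5 : Gx5 lam c x) (h : Emb lam c x μ p) (hβ : SupX x β)
    (hl : IsLimPt β) (a₀ : Iio μ.η) {d : RO (BP K)} (hd : d ≠ ⊥)
    (hq : F lam c (nlimR (hN μ) p β)) :
    StatN β SN (⟨d, nlimR (hN μ) p β, hd, hq⟩ : Cnd lam c) := by
  intro ε hε q₁ hq₁ hclub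
  have hs : SPre μ.ρ := h.spre h3
  have hB : SigB (eB : BP K → RO (BP K)) := sigB_eB BP.sig
  obtain ⟨q₃, hq₃, hext₃, hdec⟩ := exists_dec P hε β q₁.hp
  obtain ⟨b₁, hb₁⟩ := hB.dense' q₁.b q₁.hb
  obtain ⟨b₂, hb₂₁, v₂, hv₂⟩ := exists_def hs a₀ b₁
  have hb₂ : eB b₂ ≤ q₁.b := (hB.mono _ _ hb₂₁).trans hb₁
  obtain ⟨St, t1, t2, t3, t4, t5, t6⟩ := tree_states
    (A := {s : BP K × Iio μ.η // s.1 ≤ b₂ ∧ s.1.v μ = some s.2}) (Y := O) μ.ρ hs.refl hs.trans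
    (fun s => s.1.2)
    (fun s y s' => s'.1.1 ≤ s.1.1 ∧ (y < β → ∃ z, y < z ∧ z < (p s'.1.2).h ∧
      ∃ hb : eB s'.1.1 ≠ ⊥, ε z ⟨eB s'.1.1, q₃, hb, hq₃⟩))
    (fun s y v hv => by
      by_cases hy : y < β
      · obtain ⟨b', hb', v', hv', hρ, z, h1z, h2z, hb0, hz⟩ := stat_step hε h3 h hβ hclub hq₃
          hext₃ hdec (b := s.1.1) ((hB.mono _ _ s.2.1).trans hb₂) (v := s.1.2) (v₁ := v) s.2.2 hv hy
        exact ⟨⟨(b', v'), hb'.trans s.2.1, hv'⟩, ⟨hb', fun _ => ⟨z, h1z, h2z, hb0, hz⟩⟩, hρ⟩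
      · have hle : s.1.1.upd μ v hs ≤ s.1.1 := BP.upd_le fun a ha => by
          rw [s.2.2] at ha
          rw [← Option.some.inj ha]
          exact hv
        exact ⟨⟨(s.1.1.upd μ v hs, v), hle.trans s.2.1, BP.upd_same s.1.1 μ v hs⟩,
          ⟨hle, fun hy' => absurd hy' hy⟩, hs.refl _⟩)
    ⟨(b₂, v₂), le_rfl, hv₂⟩
  obtain ⟨qs, α, hqsF, hqsx, hαx, hqse, hα1, hαc, hα2, hSα, hE5⟩ := h5
    (fun l r => ∃ a, p a = r ∧ ((¬ ∃ w, μ.ρ w a ∧ μ.ρ w v₂) ∨ ∃ s, St l a s))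
    (by
      rintro l p₀ q₀ - - hqF hqx ⟨a, rfl, ha⟩ hext
      obtain ⟨a', rfl⟩ := h.surj q₀ hqF hqx
      have hρ : μ.ρ a' a := (h.ord a' a).2 hext
      refine ⟨a', rfl, ?_⟩
      rcases ha with ha | ⟨s, hs'⟩
      · refine Or.inl ?_
        rintro ⟨w, hw1, hw2⟩
        exact ha ⟨w, hs.trans _ _ _ hw1 hρ, hw2⟩
      · exact Or.inr ⟨s, t2 _ _ _ _ hs' hρ⟩)
    (by
      intro l p₀ _ hpF hpx
      obtain ⟨a, rfl⟩ := h.surj p₀ hpF hpx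
      by_cases hw : ∃ w, μ.ρ w a ∧ μ.ρ w v₂
      · obtain ⟨w, hw1, hw2⟩ := hw
        obtain ⟨v', hv', s, hs'⟩ := t6 l w hw2
        exact ⟨p v', (h.mem v').1, (h.mem v').2, (h.ord v' a).1 (hs.trans _ _ _ hv' hw1),
          v', rfl, Or.inr ⟨s, hs'⟩⟩
      · exact ⟨p a, hpF, hpx, Ext.refl _ _, a, rfl, Or.inl hw⟩)
    (p v₂) (h.mem v₂).1 (h.mem v₂).2
  obtain ⟨w, rfl⟩ := h.surj qs hqsF hqsx
  have hwv : μ.ρ w v₂ := (h.ord w v₂).2 hqse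
  have hαβ : α < β := hβ.lt α hαx
  obtain ⟨f, hf1, hf2⟩ := h2.cofs α hαx hαc
  obtain ⟨ll, hl0, hl1⟩ : ∃ ll : ℕ → List O, ll 0 = [] ∧ ∀ n, ll (n + 1) = f n :: ll n :=
    ⟨fun n => Nat.rec [] (fun k l => f k :: l) n, rfl, fun _ => rfl⟩
  have hll : ∀ n, ∀ y ∈ ll n, y < α ∧ Obj.o y ∈ x := by
    intro n
    induction n with
    | zero =>
      intro y hy
      rw [hl0] at hy
      simp at hy
    | succ n ih =>
      intro y hy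
      rw [hl1, List.mem_cons] at hy
      rcases hy with rfl | hy
      · exact hf1 n
      · exact ih y hy
  have hex : ∀ n, ∃ a s, μ.ρ w a ∧ (p a).h < α ∧ St (ll n) a s := by
    intro n
    obtain ⟨p', -, -, hp'e, hp'h, a, rfl, ha⟩ := hE5 (ll n) (hll n)
    have hwa : μ.ρ w a := (h.ord w a).2 hp'e
    rcases ha with ha | ⟨s, hs'⟩
    · exact absurd ⟨w, hwa, hwv⟩ ha
    · exact ⟨a, s, hwa, hp'h, hs'⟩
  choose a st hwa hah hSt using hex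
  have hSw : ∀ n, St (ll n) w (st n) := fun n => t2 _ _ _ _ (hSt n) (hwa n)
  have hNs : ∀ n, (st (n + 1)).1.1 ≤ (st n).1.1 ∧ (f n < β → ∃ z, f n < z ∧
      z < (p (st (n + 1)).1.2).h ∧ ∃ hb : eB (st (n + 1)).1.1 ≠ ⊥,
        ε z ⟨eB (st (n + 1)).1.1, q₃, hb, hq₃⟩) := by
    intro n
    have h6 := hSw (n + 1)
    rw [hl1] at h6
    obtain ⟨s', h7, h8⟩ := t5 _ _ _ _ h6
    rw [t4 _ _ _ _ h7 (hSw n)] at h8
    exact h8
  have hhα : ∀ n, (p (st n).1.2).h < α := fun n =>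
    lt_of_le_of_lt ((h.ord _ _).1 (t3 _ _ _ (hSt n))).h (hah n)
  obtain ⟨bω, hbω, hbωv⟩ := BP.exists_lower (fun n => (st n).1.1) (fun n => (hNs n).1) μ w
    (fun n => ⟨(st n).1.2, (st n).2.2, t3 _ _ _ (hSw n)⟩)
  have hbωq : eB bω ≤ q₁.b := (hB.mono _ _ ((hbω 0).trans (st 0).2.1)).trans hb₂
  refine ⟨⟨eB bω, q₃, hB.ne bω, hq₃⟩, ⟨hbωq, hext₃.mono le_top⟩, α, hαβ, ?_, ?_⟩
  · refine hclub.cl α hαβ hαc.isLimPt _ ⟨hbωq, hext₃.mono le_top⟩ ?_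
    intro y hy r' hr'
    obtain ⟨n, hn⟩ := hf2 y hy
    obtain ⟨z, hz1, hz2, hb0, hz3⟩ := (hNs n).2 ((hf1 n).1.trans hαβ)
    refine ⟨r', le_rfl, z, hn.trans hz1, hz2.trans (hhα (n + 1)), ?_⟩
    refine hε.mono _ _ _ hz3 (hr'.trans ?_)
    exact ⟨hB.mono _ _ (hbω (n + 1)), Ext.refl _ _⟩
  · have hnd : NDir (hN μ) p β := h.ndir h3 hβ a₀
    have h6 := nlim_S (fun a => (h.mem a).1.1) hnd (a := w) hα2
    rw [hSα, inf_top_eq] at h6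
    have h7 : eB bω ≤ (nlimR (hN μ) p β).S α :=
      (eB_le_hN hbωv (hs.refl w)).trans (inf_eq_left.1 h6)
    have h8 : Ext (eB bω) q₃ (nlimR (hN μ) p β) :=
      (hext₃.mono le_top).trans (hq₁.2.mono hbωq)
    exact h8.le_S hq.1 le_rfl h7

end CG
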