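import Pool.Agent.W_MP_7dc84e_h31.ReflB
import Pool.Agent.W_MP_7dc84e_h31.Meas1
import Pool.Agent.W_MP_7dc84e_h31.Meas2
import Pool.Agent.W_MP_7dc84e_h31.Meas5

/-!
# MP_7dc84e_lc : `S` reflects stationarily often
-/

set_option autoImplicit false
set_option linter.unusedSectionVars false

universe u

open Cardinal Set IM Pool.Agent.W_MP_315f31_lc

namespace CG

variable {K O J Th : Type u} [LinearOrder K] [WellFoundedLT K] [LinearOrder O] [LinearOrder J]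
variable [WellFoundedLT O] [WellFoundedLT J]
variable {lam : Cardinal.{u}} {L : ℕ → Cardinal.{u}} {c : J → Nm O J (RO (BP K))}

/-- Reflection.

PROOF.  Let `b₀ : BP K` with `eB b₀ ≤ p.b` (`sigB_eB.dense'`).  Let `U` be a fine normal ultrafilter on the sets of objects (`hsc`).  By `gx1`,
..., `gx5` and `mem'` there is a set `x` of objects with `Gx1 x`, ..., `Gx5 lam c x`, `Obj.b b₀ ∈ x`, `Obj.r p.p ∈ x`.  Let `μ`, `pp` be as in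
`exists_emb`, `β` as in `exists_sup`; `β` is a limit point and `¬ CofOm β` (`SupX.unc`; `Obj.o p.p.h ∈ x` by `Gx3.r_h`).  Let `a₀` with
`pp a₀ = p.p` (`surj`), `q₁ := nlimR (hN μ) pp β`, a condition by `Emb.F_q`.  `b₀.v μ = none` by `Gx1.b_supp` and `Emb.out`; let
`b₁ := b₀.upd μ a₀ _ ≤ b₀`, `d := eB b₁`, `q := ⟨d, q₁, ..⟩`.  `q ≤ p`: `d ≤ eB b₀ ≤ p.b` and `Ext d q₁ (pp a₀)` by `ext_of_def` (with
`Ext.refl`).  `R β q` by `refl_club`, `StatN β SN q` by `refl_stat`. -/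
theorem refl_main (hsc : IsSupercompact (#K)) (hK : Inacc K) (P : Par O J (RO (BP K)) Th lam L)
    (hκ : #K ≤ lam) {R : O → Cnd lam c → Prop} (hR : ClubN R) (p : Cnd lam c) :
    ∃ q ≤ p, ∃ β, IsLimPt β ∧ ¬ CofOm β ∧ R β q ∧ StatN β SN q := by
  have hB : SigB (eB : BP K → RO (BP K)) := sigB_eB BP.sig
  obtain ⟨b₀, hb₀⟩ := hB.dense' p.b p.hb
  obtain ⟨U, hU⟩ := hsc.2 (Obj K O J)
  have hK0 : ℵ₀ < #K := hK.card.aleph0_lt
  have hev : ∀ᶠ x in (U : Filter (Set (Obj K O J))), Gx1 x ∧ Gx2 x ∧ Gx3 lam c x ∧ Gx4 R x ∧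
      Gx5 lam c x ∧ Obj.b b₀ ∈ x ∧ Obj.r p.p ∈ x := by
    filter_upwards [gx1 hK hU, gx2 P hK0 hU, gx3 P hK0 hU, gx4 P hK0 hU hR, gx5 P hK0 hU,
      hU.mem' (Obj.b b₀), hU.mem' (Obj.r p.p)] with x h1 h2 h3 h4 h5 h6 h7
    exact ⟨h1, h2, h3, h4, h5, h6, h7⟩
  obtain ⟨x, h1, h2, h3, h4, h5, hb, hp⟩ := hev.exists
  obtain ⟨μ, pp, hE⟩ := exists_emb (lam := lam) (c := c) hK.lt h1
  obtain ⟨β, hβ⟩ := exists_sup P hκ h1 h2
  obtain ⟨hl, hc⟩ := hβ.unc h2 ⟨_, h3.r_h _ p.hp hp⟩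
  obtain ⟨a₀, ha₀⟩ := hE.surj p.p p.hp hp
  have hq := hE.F_q P hκ h3 hβ a₀
  have hs := hE.spre h3
  have hb1 : b₀.upd μ a₀ hs ≤ b₀ := BP.upd_le fun a ha =>
    absurd (h1.b_supp b₀ hb μ (by rw [ha]; exact Option.some_ne_none a)) hE.out
  have hd : eB (b₀.upd μ a₀ hs) ≠ ⊥ := hB.ne _
  refine ⟨⟨eB (b₀.upd μ a₀ hs), nlimR (hN μ) pp β, hd, hq⟩, ⟨(hB.mono _ _ hb1).trans hb₀, ?_⟩, β,
    hl, hc, refl_club P hR h1 h3 h4 hE hβ hl a₀ hd hq,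
    refl_stat P h1 h2 h3 h5 hE hβ hl a₀ hd hq⟩
  rw [← ha₀]
  exact ext_of_def h3 hE hβ (BP.upd_same _ _ _ _) (Ext.refl _ _)

end CG
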