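import Pool.Agent.W_MP_7dc84e_h31.Lim
import Pool.Agent.W_MP_7dc84e_h31.ParF

/-!
# MP_7dc84e_lc : limits of systems of conditions
-/

set_option autoImplicit false
set_option linter.unusedSectionVars false

universe u

open Cardinal Set

namespace CG

variable {O J Bt Th : Type u} [LinearOrder O] [LinearOrder J] [CompleteBooleanAlgebra Bt]
variable [WellFoundedLT J] {lam : Cardinal.{u}} {c : J → Nm O J Bt}

/-- the limit of a family of systems -/
noncomputable def limS {ι : Type*} (X : ι → Sys O J Bt Th) (s : O) : Sys O J Bt Th := by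
  classical
  exact ⟨s, fun x => ⨆ a, (X a).S x, fun x => ⨆ a, (X a).T x, ⋃ a, (X a).W,
    fun t j x => (⨆ a, (X a).D t j x) ⊔ (if (∃ a, j ∈ (X a).W) ∧ x = s then ⊤ else ⊥)⟩

/-- PROOF.  From the definitions. -/
theorem limS_cond {ι : Type*} (X : ι → Sys O J Bt Th) (s : O) (t : J → Th) :
    (limS X s).cond t = limR (fun a => (X a).cond t) s ⊥ ⊥ := by
  refine Raw.ext' rfl ?_ ?_ rfl rfl
  · funext x
    simp [limS, Sys.cond, limR]
  · funext x
    simp [limS, Sys.cond, limR]

theorem SLE.refl (X : Sys O J Bt Th) : SLE X X := fun _ => Ext.refl _ _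

theorem SLE.trans {X Y Z : Sys O J Bt Th} (h1 : SLE X Y) (h2 : SLE Y Z) : SLE X Z :=
  fun t => (h1 t).trans (h2 t)

/-- PROOF.  The coherence and `w ⊆ X.W` for a smaller set `w` are weaker assumptions; `h` gives `w' ⊆ X.W`. -/
theorem IsSys.mono {w w' : Set J} {X : Sys O J Bt Th} (hX : IsSys lam c w X) (hw : w ⊆ w')
    (h : w' ⊆ X.W) : IsSys lam c w' X := by
  exact ⟨hX.ok, fun t t' k h' => hX.coh t t' k fun i hi hik => h' i (hw hi) hik, h, hX.hT⟩

/-- PROOF.  For `X.h < x` all values `X.D t k x` are `⊥` (`Basic.d_hi`). -/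
theorem dis_self {w : Set J} {X : Sys O J Bt Th} (hX : IsSys lam c w X) : Dis w X.h X := by
  intro t t' k _ _ _ x hx
  have h1 : X.D t k x = ⊥ := (hX.ok t).1.d_hi k x hx
  rw [h1, bot_inf_eq, bot_inf_eq]

variable [WellFoundedLT O] {L : ℕ → Cardinal.{u}}

/-- Limits of systems.

PROOF.  Let `s` be the least upper bound of the heights (`Par.exists_lub`) and `Y := limS X s`.  By `limS_cond` and
`F_lim` all conditions `Y.cond t` are conditions (the family `a ↦ (X a).cond t` is directed by `hd`; `LimOk` by the first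
alternative), and they extend the `(X a).cond t` by `ext_lim`.  Coherence: immediate from the coherence of all `X a`.
`w ⊆ (X a).W ⊆ Y.W`.  `Y.T s = ⨆ a, (X a).T s = ⊥`: if `(X a).h = s` use `hT` of `X a`, if `(X a).h < s` use `T_hi`.
`Dis w g Y`: let `t t' k x` be given, `g < x`.  If `s < x`, then `Y.T x = ⊥` (`T_hi`); if `x = s`, then `Y.T s = ⊥`.
Otherwise `x < s`, so `x ≤ (X a).h` for some `a`; as `k ∈ w ⊆ (X a).W`, the values of `Y` at `x` are those of `X a`
(from `SLE Y (X a)`), use `Dis w g (X a)`. -/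
theorem sys_lim (P : Par O J Bt Th lam L) {ι : Type u} (hι : #ι ≤ lam) (hne : Nonempty ι)
    {w : Set J} (X : ι → Sys O J Bt Th) (hX : ∀ a, IsSys lam c w (X a))
    (hd : ∀ a b, ∃ e, SLE (X e) (X a) ∧ SLE (X e) (X b)) :
    ∃ Y : Sys O J Bt Th, IsSys lam c w Y ∧ (∀ a, SLE Y (X a)) ∧
      ∀ g, (∀ a, Dis w g (X a)) → Dis w g Y := by
  obtain ⟨a0⟩ := hne
  have hh : #(range fun a => (X a).h) ≤ lam := Cardinal.mk_range_le.trans hι
  obtain ⟨s, hs⟩ := P.exists_lub hh
  have hle : ∀ a, (X a).h ≤ s := fun a => hs.1 ⟨a, rfl⟩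
  have hW : #(⋃ a, (X a).W : Set J) ≤ lam := by
    have ht : Nonempty (J → Th) := by
      have h1 : Nonempty Th := by
        rw [← Cardinal.mk_ne_zero_iff]
        exact (Cardinal.aleph0_pos.trans_le P.Th_inf).ne'
      exact ⟨fun _ => h1.some⟩
    obtain ⟨t⟩ := ht
    exact P.mk_iUnion_le hι _ fun a => ((hX a).ok t).1.W_small
  have hdir : ∀ t, Dirx fun a => (X a).cond t := fun t =>
    ⟨⟨a0⟩, fun a b => by
      obtain ⟨e, h1, h2⟩ := hd a b
      exact ⟨e, h1 t, h2 t⟩⟩
  have hok : ∀ t : J → Th, LimOk (fun a => (X a).cond t) s (⊥ : Bt) ⊥ := fun t =>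
    ⟨hle, Or.inl ⟨rfl, rfl⟩⟩
  have hF : ∀ t, F lam c ((limS X s).cond t) := by
    intro t
    rw [limS_cond]
    exact F_lim (fun a => (hX a).ok t) (hdir t) hW hs (hok t) fun h => absurd rfl h
  have hext : ∀ a, SLE (limS X s) (X a) := by
    intro a t
    rw [limS_cond]
    exact ext_lim (fun a => ((hX a).ok t).1) (hdir t) (hok t) a
  have ht : Nonempty (J → Th) := by
    have h1 : Nonempty Th := by
      rw [← Cardinal.mk_ne_zero_iff]
      exact (Cardinal.aleph0_pos.trans_le P.Th_inf).ne'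
    exact ⟨fun _ => h1.some⟩
  obtain ⟨t0⟩ := ht
  have hTs : (⨆ a, (X a).T s) = ⊥ := by
    rw [iSup_eq_bot]
    intro a
    rcases (hle a).lt_or_eq with h | h
    · exact ((hX a).ok t0).1.T_hi s h
    · rw [← h]
      exact (hX a).hT
  refine ⟨limS X s, ⟨hF, ?_, ?_, hTs⟩, hext, ?_⟩
  · intro t t' k htt
    funext x
    have h1 : ∀ a, (X a).D t k = (X a).D t' k := fun a => (hX a).coh t t' k htt
    simp only [limS, h1]
  · exact fun k hk => mem_iUnion.2 ⟨a0, (hX a0).hw hk⟩
  · intro g hg t t' k hk h1 h2 x hx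
    rcases lt_trichotomy x s with h | h | h
    · have h3 : ∃ a, x < (X a).h := by
        by_contra hcon
        push Not at hcon
        exact absurd (hs.2 (by rintro _ ⟨a, rfl⟩; exact hcon a)) (not_le.2 h)
      obtain ⟨a, ha⟩ := h3
      have e1 : (limS X s).D t k x = (X a).D t k x := (hext a t).d_eq ((hX a).hw hk) ha.le
      have e2 : (limS X s).D t' k x = (X a).D t' k x := (hext a t').d_eq ((hX a).hw hk) ha.le
      have e3 : (limS X s).T x = (X a).T x := (hext a t).T_eq ha.le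
      rw [e1, e2, e3]
      exact hg a t t' k hk h1 h2 x hx
    · subst h
      have e3 : (limS X x).T x = ⊥ := hTs
      rw [e3, inf_bot_eq]
    · have e3 : (limS X s).T x = ⊥ := (hF t0).1.T_hi x h
      rw [e3, inf_bot_eq]

end CG
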