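import Pool.Agent.W_MP_7dc84e_h31.SysStep
import Pool.Agent.W_MP_7dc84e_h31.SysLim
import Pool.Agent.W_MP_7dc84e_h31.Tower

/-!
# MP_7dc84e_lc : one stage of the construction
-/

set_option autoImplicit false
set_option linter.unusedSectionVars false

universe u

open Cardinal Set

namespace CG

variable {O J Bt Th : Type u} [LinearOrder O] [LinearOrder J] [CompleteBooleanAlgebra Bt]
variable [WellFoundedLT O] [WellFoundedLT J]
variable {lam : Cardinal.{u}} {L : ℕ → Cardinal.{u}} {c : J → Nm O J Bt}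

/-- The requirements on a family of open dense sets of conditions. -/
structure ODs (lam : Cardinal.{u}) (c : J → Nm O J Bt) {Y : Type u} (E : Y → Raw O J Bt → Prop) :
    Prop where
  op : ∀ y p q, F lam c p → F lam c q → E y p → Ext ⊤ q p → E y q
  de : ∀ y p, F lam c p → ∃ q, F lam c q ∧ Ext ⊤ q p ∧ E y q

/-- One step: for given `t0` and `y` the system can be extended such that the condition of index `t0` is in `E y`.

PROOF.  `hE.de` gives `r₀` with `F`, `Ext ⊤ r₀ (X.cond t0)`, `E y r₀`.  Let `h' > r₀.h` (`Par.exists_gt`) and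
`r := extR r₀ h'`: `F_extR`, `ext_extR`, `r.T r.h = ⊥` (`extR_T`), `E y r` by `hE.op`.  Take `stepS X w t0 r`
(`isSys_step`, `sle_step`, `dis_step`, `stepS_cond_of`); its height is `h' > r₀.h ≥ X.h`. -/
theorem stage_one (P : Par O J Bt Th lam L) {w : Set J} {X : Sys O J Bt Th}
    (hX : IsSys lam c w X) {Y : Type u} {E : Y → Raw O J Bt → Prop} (hE : ODs lam c E) (y : Y)
    (t0 : J → Th) :
    ∃ X' : Sys O J Bt Th, IsSys lam c w X' ∧ SLE X' X ∧ X.h < X'.h ∧
      (∀ g, Dis w g X → Dis w g X') ∧ E y (X'.cond t0) := by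
  obtain ⟨r₀, hr0, hext0, hE0⟩ := hE.de y (X.cond t0) (hX.ok t0)
  obtain ⟨h', hh'⟩ := P.exists_gt r₀.h
  have hF : F lam c (extR r₀ h') := F_extR hr0 hh'.le
  have hx1 : Ext ⊤ (extR r₀ h') r₀ := ext_extR hr0.1 hh'.le
  have hx : Ext ⊤ (extR r₀ h') (X.cond t0) := hx1.trans hext0
  have hT : (extR r₀ h').T (extR r₀ h').h = ⊥ := extR_T hr0.1 hh'
  refine ⟨stepS X w t0 (extR r₀ h'), isSys_step P.aleph hX hF hx hT, sle_step hX hF hx, ?_,
    fun g hd => dis_step hX hF hx hT hd, ?_⟩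
  · exact lt_of_le_of_lt hext0.h hh'
  · rw [stepS_cond_of fun _ _ => rfl]
    exact hE.op y r₀ _ hr0 hF hE0 hx1

/-- One stage: all the requirements `y : Y` for all the indices `t`.

PROOF.  First extend `X` to `X₁` with `X.h < X₁.h` (`sys_step` with `r := extR (X.cond t0) h'`, `h' > X.h`, for any `t0`;
`Th` is nonempty by `ℵ₀ ≤ #Th`).  Apply `dist_abs` to `Q := {X' : Sys O J Bt Th // IsSys lam c w X' ∧ Dis w X.h X'}`
with `le X' X'' := SLE X'.1 X''.1`, the index set `A := Y × (w → Th)` (size `≤ lam * lam = lam` by `Par.Th_pow`) and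
`E' (y, τ) X' := E y (X'.cond t)` for `t := ` the extension of `τ` to `J` by a constant value.  Closure: `sys_lim`.
Openness: `hE.op`.  Density: `stage_one`.  Starting point `X₁` (`Dis w X.h X₁` from `dis_self` and `stage_one`/`dis_step`).
The result `X'` satisfies `E y (X'.cond t)` for the special `t` of the form above, hence for all `t`, because
`X'.cond t` depends only on the restriction of `t` to `w` (`coh`). -/
theorem stage (P : Par O J Bt Th lam L) {n : ℕ} {w : Set J} (hw : #w ≤ L n) {X : Sys O J Bt Th}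
    (hX : IsSys lam c w X) {Y : Type u} (hY : #Y ≤ lam) {E : Y → Raw O J Bt → Prop}
    (hE : ODs lam c E) :
    ∃ X' : Sys O J Bt Th, IsSys lam c w X' ∧ SLE X' X ∧ X.h < X'.h ∧ Dis w X.h X' ∧
      ∀ y t, E y (X'.cond t) := by
  classical
  have hTh : Nonempty Th := by
    rw [← Cardinal.mk_ne_zero_iff]
    exact (Cardinal.aleph0_pos.trans_le P.Th_inf).ne'
  obtain ⟨v⟩ := hTh
  have hE1 : ODs lam c (fun (_ : PUnit.{u + 1}) (_ : Raw O J Bt) => True) :=
    ⟨fun _ _ _ _ _ _ _ => trivial, fun _ p hp => ⟨p, hp, Ext.refl _ _, trivial⟩⟩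
  obtain ⟨X1, h1, h2, h3, h4, -⟩ := stage_one P hX hE1 PUnit.unit (fun _ => v)
  let Q := {X' : Sys O J Bt Th // IsSys lam c w X' ∧ Dis w X.h X'}
  let ex : (w → Th) → J → Th := fun τ j => if h : j ∈ w then τ ⟨j, h⟩ else v
  obtain ⟨X', hle, hall⟩ := dist_abs (Q := Q) (fun a b => SLE a.1 b.1) (fun q => SLE.refl q.1)
    (fun h h' => SLE.trans h h') lam
    (fun ι f hι hne hd => by
      obtain ⟨Y', hY1, hY2, hY3⟩ := sys_lim P hι hne (fun a => (f a).1) (fun a => (f a).2.1) hd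
      exact ⟨⟨Y', hY1, hY3 X.h fun a => (f a).2.2⟩, hY2⟩)
    (A := Y × (w → Th)) (by
      rw [Cardinal.mk_prod, Cardinal.lift_id, Cardinal.lift_id]
      exact (mul_le_mul' hY (P.Th_pow w hw)).trans (Cardinal.mul_eq_self P.aleph).le)
    (fun a X' => E a.1 (X'.1.cond (ex a.2)))
    (fun a q r h hle => hE.op a.1 _ _ (q.2.1.ok _) (r.2.1.ok _) h (hle _))
    (fun a q => by
      obtain ⟨X', g1, g2, -, g4, g5⟩ := stage_one P q.2.1 hE a.1 (ex a.2)
      exact ⟨⟨X', g1, g4 X.h q.2.2⟩, g2, g5⟩)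
    ⟨X1, h1, h4 X.h (dis_self hX)⟩
  refine ⟨X'.1, X'.2.1, SLE.trans hle h2, lt_of_lt_of_le h3 (hle fun _ => v).h, X'.2.2,
    fun y t => ?_⟩
  have h5 : E y (X'.1.cond (ex fun i => t i.1)) := hall (y, fun i => t i.1)
  have h6 : X'.1.cond (ex fun i => t i.1) = X'.1.cond t := by
    refine Raw.ext' rfl rfl rfl rfl (funext fun k => ?_)
    refine X'.2.1.coh _ _ k fun i hi _ => ?_
    exact dif_pos hi
  rw [← h6]
  exact h5

end CG
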