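import Pool.Agent.W_MP_315f31_lc.Thm

set_option autoImplicit false

/-!
# MP_7dc84e_lc : the statement

Everything below is about a structure `(M, E)`; `E x y` is read `x ∈ y`.  From `Pool/Agent/W_MP_83aea7_lc/Defs.lean` we use:
`IsZFC`, and the elementary notions `Sub` (`⊆`), `IsOrd` (ordinal), `IsOmega` (`ω`), `IsCard` (cardinal: an ordinal which
is not the image of a smaller ordinal), `App f x y` (`(x, y) ∈ f`), `IsFun f a` (`f` is a function with domain
`a`), `Maps f a b` (`f : a → b`); from `Pool/Agent/W_MP_315f31_lc/Thm.lean`: `Cov b a` (some function with domain `b` has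
all elements of `a` in its range) and `IsSupercompact`.
-/

namespace CGM
open HESR DCT
universe u
variable {M : Type u} (E : M → M → Prop)

/-- `l` is an infinite cardinal -/
def IsInfCard (l : M) : Prop := IsCard E l ∧ ∃ w, IsOmega E w ∧ Sub E w l

/-- `m = l⁺`: the ordinal which is not the image of `l` and all of whose elements are covered by an image of `l` -/
def IsSuccCard (l m : M) : Prop := IsOrd E m ∧ ¬ Cov E l m ∧ ∀ x, E x m → Cov E l x

/-- `f` is a cofinal function from `b` to the ordinal `a` -/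
def IsCofMap (f b a : M) : Prop := Maps E f b a ∧ ∀ x, E x a → ∃ y z, App E f y z ∧ Sub E x z

/-- `b` is the cofinality of the ordinal `a`: the least ordinal `b` with a cofinal function from `b` to `a` -/
def IsCf (a b : M) : Prop := IsOrd E b ∧ (∃ f, IsCofMap E f b a) ∧ ∀ c, E c b → ¬ ∃ f, IsCofMap E f c a

/-- `D` is a closed unbounded subset of the ordinal `m` -/
def IsClub (m D : M) : Prop :=
  Sub E D m ∧ (∀ x, E x m → ∃ y, E y D ∧ E x y) ∧
    ∀ a, E a m → (∃ x, E x a) → (∀ x, E x a → ∃ y, E y D ∧ E y a ∧ E x y) → E a D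

/-- `S` (that is, `S ∩ m`) is stationary in `m` -/
def IsStat (m S : M) : Prop := ∀ D, IsClub E m D → ∃ x, E x D ∧ E x S

/-- `b ∈ tr(S)` for `S ⊆ m`: `b ∈ m` has uncountable cofinality and `S ∩ b` is stationary in `b` -/
def InTr (m S b : M) : Prop :=
  E b m ∧ (∃ w μ, IsOmega E w ∧ IsCf E b μ ∧ E w μ) ∧ IsStat E b S

/-- `C = ⟨C_a : a ∈ S⟩` is a `T`-concentrated club guessing sequence on `S ⊆ m` -/
def IsConc (m S T C : M) : Prop :=
  IsFun E C S ∧ (∀ a c, App E C a c → Sub E c a ∧ ∀ x, E x a → ∃ y, E y c ∧ E x y) ∧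
    ∀ D, IsClub E m D → ∀ D', IsClub E m D' → ∃ a c, E a D' ∧ App E C a c ∧ Sub E c D ∧ Sub E c T

/-- the negation of Q1: for some infinite cardinal `l` with successor `m`, some stationary `S ⊆ E^m_{cf(l)}` which
reflects stationarily often, and some stationary `T ⊆ m`, there is no `T`-concentrated club guessing sequence on `S` -/
def NegQ1 : Prop :=
  ∃ l m S T, IsInfCard E l ∧ IsSuccCard E l m ∧
    Sub E S m ∧ (∀ a, E a S → ∃ μ, IsCf E l μ ∧ IsCf E a μ) ∧ IsStat E m S ∧
    (∀ D, IsClub E m D → ∃ b, E b D ∧ InTr E m S b) ∧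
    Sub E T m ∧ IsStat E m T ∧ ¬ ∃ C, IsConc E m S T C

end CGM
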