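import Pool.Agent.W_MP_7dc84e_h31.Amal
import Pool.Agent.W_MP_7dc84e_h31.ParF

/-!
# MP_7dc84e_lc : one step in the construction of a system of conditions
-/

set_option autoImplicit false
set_option linter.unusedSectionVars false

universe u

open Cardinal Set

namespace CG

variable {O J Bt Th : Type u} [LinearOrder O] [LinearOrder J] [CompleteBooleanAlgebra Bt]
variable [WellFoundedLT J]
variable {lam : Cardinal.{u}} {c : J → Nm O J Bt}

/-- The system `X` is extended such that the condition of index `t0` becomes `r`; the other conditions are extended in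
the cheapest possible way. -/
noncomputable def stepS (X : Sys O J Bt Th) (w : Set J) (t0 : J → Th) (r : Raw O J Bt) :
    Sys O J Bt Th := by
  classical
  exact ⟨r.h, r.S, r.T, r.W, fun t k x => if ∀ i ∈ w, i ≤ k → t i = t0 i then r.d k x else
    X.D t k x ⊔ (if k ∈ r.W ∧ x = r.h then ⊤ else ⊥)⟩

variable {X : Sys O J Bt Th} {w : Set J} {t0 : J → Th} {r : Raw O J Bt}

theorem step_addR_not {Y : Set J} {p : Raw O J Bt} {k : J} {x : O}
    (h : ¬ (k ∈ Y ∧ k ∉ p.W ∧ x = p.h)) : (addR Y p).d k x = p.d k x := by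
  simp only [addR]
  rw [if_neg h, sup_bot_eq]

theorem step_addR_top {Y : Set J} {p : Raw O J Bt} {k : J} (h1 : k ∈ Y) (h2 : k ∉ p.W) :
    (addR Y p).d k p.h = ⊤ := by
  simp only [addR]
  rw [if_pos ⟨h1, h2, rfl⟩, sup_top_eq]

theorem step_amalR_of {I : Set J} {u p : Raw O J Bt} {k : J} {x : O} (h : k ∈ I) :
    (amalR I u p).d k x = u.d k x := by
  simp only [amalR]
  rw [if_pos h]

theorem step_amalR_top {I : Set J} {u p : Raw O J Bt} {k : J} (h : k ∉ I) (h2 : k ∈ p.W) :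
    (amalR I u p).d k u.h = ⊤ := by
  simp only [amalR]
  rw [if_neg h, if_pos ⟨h2, rfl⟩, sup_top_eq]

theorem step_amalR_old {I : Set J} {u p : Raw O J Bt} {k : J} {x : O} (h : k ∉ I)
    (h2 : ¬ (k ∈ p.W ∧ x = u.h)) : (amalR I u p).d k x = p.d k x := by
  simp only [amalR]
  rw [if_neg h, if_neg h2, sup_bot_eq]

theorem stepS_D_pos {t : J → Th} {k : J} (h : ∀ i ∈ w, i ≤ k → t i = t0 i) (x : O) :
    (stepS X w t0 r).D t k x = r.d k x := by
  simp only [stepS]
  rw [if_pos h]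

theorem stepS_D_top {t : J → Th} {k : J} (h : ¬ ∀ i ∈ w, i ≤ k → t i = t0 i) (hk : k ∈ r.W) :
    (stepS X w t0 r).D t k r.h = ⊤ := by
  simp only [stepS]
  rw [if_neg h, if_pos ⟨hk, rfl⟩, sup_top_eq]

theorem stepS_D_old {t : J → Th} {k : J} (h : ¬ ∀ i ∈ w, i ≤ k → t i = t0 i) {x : O}
    (hk : ¬ (k ∈ r.W ∧ x = r.h)) : (stepS X w t0 r).D t k x = X.D t k x := by
  simp only [stepS]
  rw [if_neg h, if_neg hk, sup_bot_eq]

/-- PROOF.  From the definition. -/
theorem stepS_cond_of {t : J → Th} (h : ∀ i ∈ w, t i = t0 i) : (stepS X w t0 r).cond t = r := by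
  refine Raw.ext' rfl rfl rfl rfl ?_
  funext k x
  exact stepS_D_pos (fun i hi _ => h i hi) x

/-- PROOF.  `Raw.ext'`.  Put `I := Iio k0`.  Support: `((r.res I).W ∪ X.W) ∪ r.W = r.W` since `X.W ⊆ r.W`.  Coordinate
`k < k0`: the condition `∀ i ∈ w, i ≤ k → t i = t0 i` holds, the left side is `r.d k x`; on the right side the value of
`amalR` is `(r.res I).d k x = r.d k x` and the term of `addR` is `⊥`, because `k ∈ r.W` implies `k ∈ (r.res I).W`.
Coordinate `k ≥ k0`: the condition fails at `i = k0`; both sides are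
`X.D t k x ⊔ (if k ∈ r.W ∧ x = r.h then ⊤ else ⊥)` (distinguish whether `k ∈ X.W`; `k ∉ (r.res I).W`). -/
theorem stepS_cond_not {t : J → Th} {k0 : J} (hk0 : k0 ∈ w) (h0 : t k0 ≠ t0 k0)
    (h1 : ∀ i ∈ w, i < k0 → t i = t0 i) (hW : X.W ⊆ r.W) :
    (stepS X w t0 r).cond t = addR r.W (amalR (Iio k0) (r.res (Iio k0)) (X.cond t)) := by
  refine Raw.ext' rfl rfl rfl ?_ ?_
  · show r.W = ((r.W ∩ Iio k0) ∪ X.W) ∪ r.W
    exact (union_eq_right.2 (union_subset inter_subset_left hW)).symm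
  · funext k x
    obtain ⟨Q, hQ⟩ : ∃ Q, Q = amalR (Iio k0) (r.res (Iio k0)) (X.cond t) := ⟨_, rfl⟩
    have hQW : Q.W = (r.W ∩ Iio k0) ∪ X.W := by rw [hQ]; rfl
    have hQh : Q.h = r.h := by rw [hQ]; rfl
    rw [← hQ]
    show (stepS X w t0 r).D t k x = (addR r.W Q).d k x
    by_cases hk : k < k0
    · rw [stepS_D_pos (fun i hi hik => h1 i hi (hik.trans_lt hk)), step_addR_not, hQ,
        step_amalR_of (show k ∈ Iio k0 from hk), res_d_of (show k ∈ Iio k0 from hk)]
      rintro ⟨h2, h3, -⟩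
      rw [hQW] at h3
      exact h3 (Or.inl ⟨h2, hk⟩)
    · have hn : ¬ ∀ i ∈ w, i ≤ k → t i = t0 i := fun h => h0 (h k0 hk0 (not_lt.1 hk))
      have hk' : k ∉ Iio k0 := hk
      by_cases h2 : k ∈ r.W ∧ x = r.h
      · rw [h2.2, stepS_D_top hn h2.1]
        by_cases h3 : k ∈ X.W
        · rw [step_addR_not, hQ]
          · exact (step_amalR_top (u := r.res (Iio k0)) (p := X.cond t) hk' h3).symm
          · rintro ⟨-, h4, -⟩
            rw [hQW] at h4
            exact h4 (Or.inr h3)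
        · rw [← hQh, step_addR_top h2.1]
          rw [hQW]
          rintro (h4 | h4)
          · exact hk h4.2
          · exact h3 h4
      · rw [stepS_D_old hn h2, step_addR_not, hQ, step_amalR_old hk']
        · rfl
        · rintro ⟨h3, h4⟩
          exact h2 ⟨hW h3, h4⟩
        · rintro ⟨h3, -, h4⟩
          rw [hQh] at h4
          exact h2 ⟨h3, h4⟩

theorem stepS_first (w : Set J) (t t0 : J → Th) : (∀ i ∈ w, t i = t0 i) ∨
    ∃ k0 ∈ w, t k0 ≠ t0 k0 ∧ ∀ i ∈ w, i < k0 → t i = t0 i := by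
  by_cases h : ∀ i ∈ w, t i = t0 i
  · exact Or.inl h
  · right
    push Not at h
    obtain ⟨i, hi, hne⟩ := h
    have hs : ({i | i ∈ w ∧ t i ≠ t0 i} : Set J).Nonempty := ⟨i, hi, hne⟩
    obtain ⟨k0, hk0, hmin⟩ := WellFounded.has_min (wellFounded_lt (α := J)) _ hs
    refine ⟨k0, hk0.1, hk0.2, fun i hi hik => ?_⟩
    by_contra h2
    exact hmin i ⟨hi, h2⟩ hik

theorem step_res_eq {t : J → Th} {k0 : J} (hX : IsSys lam c w X)
    (h1 : ∀ i ∈ w, i < k0 → t i = t0 i) :
    (X.cond t).res (Iio k0) = (X.cond t0).res (Iio k0) := by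
  refine Raw.ext' rfl rfl rfl rfl ?_
  funext k x
  by_cases hk : k ∈ Iio k0
  · rw [res_d_of hk, res_d_of hk]
    exact congrFun (hX.coh t t0 k fun i hi hik => h1 i hi (hik.trans_lt hk)) x
  · rw [res_d_not hk, res_d_not hk]

/-- PROOF.  `ok`: if `t i = t0 i` for all `i ∈ w`, the condition is `r` (`stepS_cond_of`).  Otherwise let `k0` be the
least `i ∈ w` with `t i ≠ t0 i`; use `stepS_cond_not`, `F_amalR` and `F_addR` (`#r.W ≤ lam`): with `I := Iio k0`,
`PF lam c I (r.res I)` by `F_res`, and `(X.cond t).res I = (X.cond t0).res I` by `hX.coh` (for `k < k0`), hence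
`Ext ⊤ (r.res I) ((X.cond t).res I)` by `Ext.res`.  `coh`: the condition `∀ i ∈ w, i ≤ k → t i = t0 i` for `t` and `t'` is
the same, and `X.D t k = X.D t' k`.  `hw`: `w ⊆ X.W ⊆ r.W`.  `hT`: assumption. -/
theorem isSys_step (hl : ℵ₀ ≤ lam) (hX : IsSys lam c w X) (hr : F lam c r)
    (hext : Ext ⊤ r (X.cond t0)) (hT : r.T r.h = ⊥) : IsSys lam c w (stepS X w t0 r) := by
  have hW : X.W ⊆ r.W := hext.W
  refine ⟨?_, ?_, ?_, hT⟩
  · intro t
    rcases stepS_first w t t0 with h | ⟨k0, hk0, h0, h1⟩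
    · rw [stepS_cond_of h]
      exact hr
    · rw [stepS_cond_not hk0 h0 h1 hW]
      refine F_addR (F_amalR (isIn_Iio k0) hl (F_res (isIn_Iio k0) hr) (hX.ok t) ?_) hl hr.1.W_small
      rw [step_res_eq hX h1]
      exact hext.res _
  · intro t t' k h
    funext x
    by_cases h1 : ∀ i ∈ w, i ≤ k → t i = t0 i
    · rw [stepS_D_pos h1, stepS_D_pos (fun i hi hik => (h i hi hik).symm.trans (h1 i hi hik))]
    · have h2 : ¬ ∀ i ∈ w, i ≤ k → t' i = t0 i := fun h3 =>
        h1 fun i hi hik => (h i hi hik).trans (h3 i hi hik)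
      by_cases h3 : k ∈ r.W ∧ x = r.h
      · rw [h3.2, stepS_D_top h1 h3.1, stepS_D_top h2 h3.1]
      · rw [stepS_D_old h1 h3, stepS_D_old h2 h3, hX.coh t t' k h]
  · exact hX.hw.trans hW

/-- PROOF.  For `t` with `t i = t0 i` for all `i ∈ w` the condition of `X` is also `X.cond t0` (`coh`), and the new one is
`r`.  Otherwise use `stepS_cond_not`, `ext_addR` and `ext_amalR_right` as in the proof of `isSys_step`.  (Or directly: for
`k ∈ X.W`, `x ≤ X.h`: if `t`, `t0` agree on `w ∩ Iic k`, then `r.d k x = X.D t0 k x = X.D t k x`; otherwise the value is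
`X.D t k x ⊔ (if x = r.h then ⊤ else ⊥)`, and `x = r.h` implies `x = X.h` and `X.D t k X.h = ⊤`.) -/
theorem sle_step (hX : IsSys lam c w X) (hr : F lam c r) (hext : Ext ⊤ r (X.cond t0)) :
    SLE (stepS X w t0 r) X := by
  intro t
  have _ := hr
  have hW : X.W ⊆ r.W := hext.W
  refine ⟨hext.h, hW, hext.S, hext.T, ?_⟩
  intro k hk x hx
  have hx' : x ≤ X.h := hx
  have hk' : k ∈ X.W := hk
  congr 1
  show (stepS X w t0 r).D t k x = X.D t k x
  by_cases h1 : ∀ i ∈ w, i ≤ k → t i = t0 i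
  · rw [stepS_D_pos h1, hX.coh t t0 k h1]
    exact hext.d_eq hk' hx'
  · by_cases h2 : k ∈ r.W ∧ x = r.h
    · have h3 : X.h ≤ r.h := hext.h
      have h4 : x = X.h := le_antisymm hx' (h2.2 ▸ h3)
      have h5 : X.D t k X.h = ⊤ := (hX.ok t).1.d_top k hk'
      rw [h2.2, stepS_D_top h1 h2.1, ← h2.2, h4, h5]
    · exact stepS_D_old h1 h2

/-- PROOF.  Let `t`, `t'`, `k ∈ w`, `x` be given as in `Dis`, `D'` the function of the new system.  If `x ≤ X.h`, then
`D' t k x = X.D t k x`, `D' t' k x = X.D t' k x`, `r.T x = X.T x` (`sle_step`; `k ∈ w ⊆ X.W`), use `hd`.  Let `X.h < x`.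
As `t k ≠ t' k`, one of `t`, `t'` does not agree with `t0` on `w ∩ Iic k`, say `t'`; then
`D' t' k x = X.D t' k x ⊔ (if .. ∧ x = r.h then ⊤ else ⊥)` with `X.D t' k x = ⊥` (`d_hi`).  So the value is `⊥` unless
`x = r.h`, and then `r.T x = ⊥` by `hT`. -/
theorem dis_step (hX : IsSys lam c w X) (hr : F lam c r) (hext : Ext ⊤ r (X.cond t0))
    (hT : r.T r.h = ⊥) {g : O} (hd : Dis w g X) : Dis w g (stepS X w t0 r) := by
  have hle := sle_step hX hr hext
  intro t t' k hk h1 hne x hx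
  by_cases hxX : x ≤ X.h
  · have e1 : (stepS X w t0 r).D t k x = X.D t k x := (hle t).d_eq (hX.hw hk) hxX
    have e2 : (stepS X w t0 r).D t' k x = X.D t' k x := (hle t').d_eq (hX.hw hk) hxX
    have e3 : (stepS X w t0 r).T x = X.T x := (hle t).T_eq hxX
    rw [e1, e2, e3]
    exact hd t t' k hk h1 hne x hx
  · have hXx : X.h < x := not_le.1 hxX
    have key : ∀ s : J → Th, s k ≠ t0 k →
        (stepS X w t0 r).D s k x = ⊥ ∨ (stepS X w t0 r).T x = ⊥ := by
      intro s hs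
      have h2 : ¬ ∀ i ∈ w, i ≤ k → s i = t0 i := fun h => hs (h k hk le_rfl)
      by_cases h3 : k ∈ r.W ∧ x = r.h
      · right
        show r.T x = ⊥
        rw [h3.2]
        exact hT
      · left
        rw [stepS_D_old h2 h3]
        exact (hX.ok s).1.d_hi k x hXx
    by_cases h2 : t k = t0 k
    · have h3 : t' k ≠ t0 k := fun h => hne (h2.trans h.symm)
      rcases key t' h3 with h | h <;> rw [h] <;> simp
    · rcases key t h2 with h | h <;> rw [h] <;> simp

end CG
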